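import Pool.Agent.LibVol74.Defs

/-!
# From the polynomial identity to the data (row M1)
-/

set_option autoImplicit false

namespace Pool.Agent.LibVol74

open Finset

open Classical in
theorem M1_HS_add (S : AddSubmonoid ℕ) (hS : ((S : Set ℕ)ᶜ).Finite) :
    HS S + ∑ n ∈ hS.toFinset, (PowerSeries.X : PowerSeries ℤ) ^ n = PowerSeries.mk 1 := by
  ext n
  rw [map_add, map_sum, HS, PowerSeries.coeff_mk, PowerSeries.coeff_mk]
  simp only [PowerSeries.coeff_X_pow, Finset.sum_ite_eq, Set.Finite.mem_toFinset, Set.mem_compl_iff,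
    SetLike.mem_coe, Pi.one_apply]
  by_cases h : n ∈ S
  · simp [h]
  · simp [h]

theorem M1_one_sub_mul_HS (S : AddSubmonoid ℕ) (hS : ((S : Set ℕ)ᶜ).Finite) :
    (1 - (PowerSeries.X : PowerSeries ℤ)) * HS S =
      1 - (1 - PowerSeries.X) * ∑ n ∈ hS.toFinset, (PowerSeries.X : PowerSeries ℤ) ^ n := by
  have h1 := M1_HS_add S hS
  have h2 : (PowerSeries.mk 1 : PowerSeries ℤ) * (1 - PowerSeries.X) = 1 :=
    PowerSeries.mk_one_mul_one_sub_eq_one ℤ
  rw [← h1] at h2
  linear_combination h2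

/-- the polynomial product formula gives the power series identity -/
theorem series_of_poly {e f : ℕ} (S : AddSubmonoid ℕ) (hS : ((S : Set ℕ)ᶜ).Finite)
    (g : Fin e → ℕ) (b : Fin f → ℕ)
    (h : (1 - (1 - Polynomial.X) * ∑ n ∈ hS.toFinset, Polynomial.X ^ n : Polynomial ℤ) *
        ∏ i, (1 - Polynomial.X ^ g i) = (1 - Polynomial.X) * ∏ j, (1 - Polynomial.X ^ b j)) :
    HS S * ∏ i, (1 - (PowerSeries.X : PowerSeries ℤ) ^ g i) =
      ∏ j, (1 - (PowerSeries.X : PowerSeries ℤ) ^ b j) := by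
  have h1 := congrArg (Polynomial.coeToPowerSeries.ringHom (R := ℤ)) h
  simp only [map_mul, map_sub, map_one, map_prod, map_sum, map_pow,
    Polynomial.coeToPowerSeries.ringHom_apply, Polynomial.coe_X] at h1
  rw [← M1_one_sub_mul_HS S hS, mul_assoc] at h1
  have hne : (1 - (PowerSeries.X : PowerSeries ℤ)) ≠ 0 := by
    intro h0
    have := congrArg (PowerSeries.coeff 0) h0
    simp at this
  exact mul_left_cancel₀ hne h1

/-- sorting the labels -/
theorem exists_sorted {f : ℕ} (b : Fin f → ℕ) (hb : ∀ j, 0 < b j) :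
    ∃ b' : ℕ → ℕ, (∀ j, 0 < b' j) ∧ Monotone b' ∧
      ∏ j ∈ range f, (1 - (PowerSeries.X : PowerSeries ℤ) ^ b' j) =
        ∏ j, (1 - (PowerSeries.X : PowerSeries ℤ) ^ b j) := by
  classical
  have hM : ∀ j, b j ≤ 1 + ∑ i, b i := fun j => by
    have := Finset.single_le_sum (f := b) (fun i _ => Nat.zero_le _) (Finset.mem_univ j)
    omega
  refine ⟨fun j => if h : j < f then b (Tuple.sort b ⟨j, h⟩) else 1 + ∑ i, b i, ?_, ?_, ?_⟩
  · intro j
    dsimp only
    split_ifs with h
    · exact hb _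
    · omega
  · intro i j hij
    dsimp only
    split_ifs with h1 h2 h2
    · exact Tuple.monotone_sort b (show (⟨i, h1⟩ : Fin f) ≤ ⟨j, h2⟩ from hij)
    · exact hM _
    · omega
    · exact le_rfl
  · rw [Finset.prod_range]
    rw [← Equiv.prod_comp (Tuple.sort b) (fun j => (1 - (PowerSeries.X : PowerSeries ℤ) ^ b j))]
    refine Finset.prod_congr rfl fun j _ => ?_
    simp

/-- minimal generators generate -/
theorem closure_min {e : ℕ} (S : AddSubmonoid ℕ) (g : Fin e → ℕ)
    (hg : Set.range g = {x : ℕ | x ∈ S ∧ x ≠ 0 ∧ ∀ a ∈ S, ∀ b ∈ S, a + b = x → a = 0 ∨ b = 0}) :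
    AddSubmonoid.closure (Set.range g) = S := by
  apply le_antisymm
  · rw [AddSubmonoid.closure_le, hg]
    intro x hx
    exact hx.1
  · intro x
    induction x using Nat.strong_induction_on with
    | _ x ih =>
      intro hx
      by_cases h0 : x = 0
      · subst h0
        exact zero_mem _
      by_cases hm : ∀ a ∈ S, ∀ b ∈ S, a + b = x → a = 0 ∨ b = 0
      · apply AddSubmonoid.subset_closure
        rw [hg]
        exact ⟨hx, h0, hm⟩
      · push Not at hm
        obtain ⟨a, ha, b, hb, hab, ha0, hb0⟩ := hm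
        rw [← hab]
        exact add_mem (ih a (by omega) ha) (ih b (by omega) hb)

end Pool.Agent.LibVol74
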