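import Pool.Agent.LibVol74.S3

/-!
# Divisibility inequality (row V1)
-/

set_option autoImplicit false

namespace Pool.Agent.LibVol74

open Finset

variable {n : ℕ}

theorem V1_poly (D : Dat n) : ∃ P : Polynomial ℤ, P ≠ 0 ∧
    (P : PowerSeries ℤ) = HS D.S * (1 - PowerSeries.X) := by
  classical
  obtain ⟨N0, hN0⟩ := D.fin.bddAbove
  have hS : ∀ k, N0 < k → k ∈ D.S := by
    intro k hk
    by_contra h
    exact absurd (hN0 h) (not_le.2 hk)
  have hcoeff : ∀ k, N0 + 2 ≤ k → PowerSeries.coeff k (HS D.S * (1 - PowerSeries.X)) = 0 := by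
    intro k hk
    obtain ⟨k', rfl⟩ : ∃ k', k = k' + 1 := ⟨k - 1, by omega⟩
    rw [mul_sub, mul_one, map_sub, PowerSeries.coeff_succ_mul_X, HS, PowerSeries.coeff_mk,
      PowerSeries.coeff_mk, if_pos (hS _ (by omega)), if_pos (hS _ (by omega)), sub_self]
  have hcoe : ((PowerSeries.trunc (N0 + 2) (HS D.S * (1 - PowerSeries.X)) : Polynomial ℤ) :
      PowerSeries ℤ) = HS D.S * (1 - PowerSeries.X) := by
    ext k
    rw [Polynomial.coeff_coe, PowerSeries.coeff_trunc]
    split_ifs with h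
    · rfl
    · exact (hcoeff k (not_lt.1 h)).symm
  refine ⟨PowerSeries.trunc (N0 + 2) (HS D.S * (1 - PowerSeries.X)), ?_, hcoe⟩
  intro h0
  rw [h0] at hcoe
  have h1 := congrArg (PowerSeries.coeff 0) hcoe
  rw [mul_sub, mul_one, map_sub, PowerSeries.coeff_zero_mul_X, HS, PowerSeries.coeff_mk,
    if_pos (D.S.zero_mem)] at h1
  simp at h1

theorem V1_ident (D : Dat n) : ∃ P : Polynomial ℤ, P ≠ 0 ∧
    P * ∏ i, (1 - (Polynomial.X : Polynomial ℤ) ^ D.g i) =
      (1 - Polynomial.X) * ∏ j ∈ range (n - 1), (1 - (Polynomial.X : Polynomial ℤ) ^ D.b j) := by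
  obtain ⟨P, hP0, hP⟩ := V1_poly D
  refine ⟨P, hP0, ?_⟩
  apply Polynomial.coe_injective ℤ
  have h1 : ∀ (ι : Type) (s : Finset ι) (f : ι → ℕ),
      ((∏ i ∈ s, (1 - (Polynomial.X : Polynomial ℤ) ^ f i) : Polynomial ℤ) : PowerSeries ℤ) =
        ∏ i ∈ s, (1 - (PowerSeries.X : PowerSeries ℤ) ^ f i) := by
    intro ι s f
    rw [← Polynomial.coeToPowerSeries.ringHom_apply, map_prod]
    refine prod_congr rfl fun i _ => ?_
    simp
  rw [Polynomial.coe_mul, Polynomial.coe_mul, h1, h1, hP, Polynomial.coe_sub,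
    Polynomial.coe_one, Polynomial.coe_X, ← D.H]
  ring

theorem V1_rm_prod {ι : Type} (z : ℂ) (s : Finset ι) (f : ι → Polynomial ℂ)
    (hf : ∀ i ∈ s, f i ≠ 0) :
    Polynomial.rootMultiplicity z (∏ i ∈ s, f i) =
      ∑ i ∈ s, Polynomial.rootMultiplicity z (f i) := by
  classical
  induction s using Finset.induction_on with
  | empty => simp
  | insert a s ha ih =>
    rw [prod_insert ha, sum_insert ha, Polynomial.rootMultiplicity_mul, ih]
    · exact fun i hi => hf i (mem_insert_of_mem hi)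
    · exact mul_ne_zero (hf a (mem_insert_self a s))
        (prod_ne_zero_iff.2 fun i hi => hf i (mem_insert_of_mem hi))

theorem V1_ne {k : ℕ} (hk : 0 < k) : (1 - (Polynomial.X : Polynomial ℂ) ^ k) ≠ 0 := by
  rw [← neg_sub, neg_ne_zero]
  exact Polynomial.X_pow_sub_C_ne_zero hk (1 : ℂ)

theorem V1_rm {m k : ℕ} {z : ℂ} (hz : IsPrimitiveRoot z m) (hk : 0 < k) :
    Polynomial.rootMultiplicity z (1 - (Polynomial.X : Polynomial ℂ) ^ k) =
      if m ∣ k then 1 else 0 := by
  have hne := V1_ne hk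
  have hsep : (1 - (Polynomial.X : Polynomial ℂ) ^ k).Separable := by
    have h1 : (1 - (Polynomial.X : Polynomial ℂ) ^ k) =
        -(Polynomial.X ^ k - Polynomial.C (1 : ℂ)) := by simp
    have h2 : (Polynomial.X ^ k - Polynomial.C (1 : ℂ)).Separable :=
      Polynomial.separable_X_pow_sub_C (1 : ℂ) (by exact_mod_cast hk.ne') one_ne_zero
    rw [h1, Polynomial.separable_def, Polynomial.derivative_neg]
    exact IsCoprime.neg_neg h2
  have hroot : (1 - (Polynomial.X : Polynomial ℂ) ^ k).IsRoot z ↔ m ∣ k := by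
    rw [Polynomial.IsRoot.def, Polynomial.eval_sub, Polynomial.eval_one, Polynomial.eval_pow,
      Polynomial.eval_X, sub_eq_zero, eq_comm, hz.pow_eq_one_iff_dvd]
  split_ifs with h
  · apply le_antisymm
    · exact Polynomial.rootMultiplicity_le_one_of_separable hsep z
    · exact (Polynomial.rootMultiplicity_pos hne).2 (hroot.2 h)
  · apply Polynomial.rootMultiplicity_eq_zero
    exact fun h' => h (hroot.1 h')

/-- There is no pole at a primitive `m`-th root of unity for `m ≥ 2`: `HS S * (1 - X)` is (the power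
series of) a polynomial `P`, `P ∏ (1 - X^{g_i}) = (1 - X) ∏ (1 - X^{b_j})` in `ℤ[X]`, and the
multiplicity of the factor `cyclotomic m` is at least `#{i | m ∣ g_i}` on the left and equal to
`#{j | m ∣ b_j}` on the right. -/
theorem card_dvd_le (D : Dat n) {m : ℕ} (hm : 2 ≤ m) :
    (univ.filter fun i : Fin n => m ∣ D.g i).card ≤
      ((range (n - 1)).filter fun j => m ∣ D.b j).card := by
  classical
  obtain ⟨P, hP0, hP⟩ := V1_ident D
  have hz : IsPrimitiveRoot (Complex.exp (2 * Real.pi * Complex.I / m)) m :=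
    Complex.isPrimitiveRoot_exp m (by omega)
  set z := Complex.exp (2 * Real.pi * Complex.I / m) with hzdef
  have hP' := congrArg (Polynomial.map (Int.castRingHom ℂ)) hP
  rw [Polynomial.map_mul, Polynomial.map_mul, Polynomial.map_prod, Polynomial.map_prod] at hP'
  simp only [Polynomial.map_sub, Polynomial.map_one, Polynomial.map_pow, Polynomial.map_X] at hP'
  have hPne : P.map (Int.castRingHom ℂ) ≠ 0 := by
    rw [Ne, Polynomial.map_eq_zero_iff (Int.cast_injective)]
    exact hP0
  have h1ne : (1 - (Polynomial.X : Polynomial ℂ)) ≠ 0 := by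
    have := V1_ne (k := 1) one_pos
    rwa [pow_one] at this
  have hgne : (∏ i, (1 - (Polynomial.X : Polynomial ℂ) ^ D.g i)) ≠ 0 :=
    prod_ne_zero_iff.2 fun i _ => V1_ne (D.gpos i)
  have hbne : (∏ j ∈ range (n - 1), (1 - (Polynomial.X : Polynomial ℂ) ^ D.b j)) ≠ 0 :=
    prod_ne_zero_iff.2 fun j _ => V1_ne (D.bpos j)
  have hrm := congrArg (Polynomial.rootMultiplicity z) hP'
  rw [Polynomial.rootMultiplicity_mul (mul_ne_zero hPne hgne),
    Polynomial.rootMultiplicity_mul (mul_ne_zero h1ne hbne),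
    V1_rm_prod z _ _ (fun i _ => V1_ne (D.gpos i)),
    V1_rm_prod z _ _ (fun j _ => V1_ne (D.bpos j)),
    sum_congr rfl (fun i _ => V1_rm hz (D.gpos i)),
    sum_congr rfl (fun j _ => V1_rm hz (D.bpos j)),
    ← card_filter, ← card_filter] at hrm
  have h1 : Polynomial.rootMultiplicity z (1 - (Polynomial.X : Polynomial ℂ)) = 0 := by
    have := V1_rm (k := 1) hz one_pos
    rw [pow_one, if_neg] at this
    · exact this
    · intro h
      have := Nat.le_of_dvd one_pos h
      omega
  rw [h1] at hrm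
  omega

end Pool.Agent.LibVol74
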