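import Mathlib

/-!
# Volume road to cyclotomic numerical semigroups: basic definitions

`g : Fin n → ℕ` the denominators (elements of the numerical semigroup `S` generating it),
`b : Fin (n-1) → ℕ` the labels, `H_S(z) ∏ (1 - z^{g_i}) = ∏ (1 - z^{b_j})`.
Everything is done through homomorphisms `π : ℤ^n →+ ℤ^r` whose kernel lies in the kernel of the
degree map.
-/

set_option autoImplicit false

namespace Pool.Agent.LibVol74

open scoped BigOperators

/-- the weight of `u ∈ ℕ^n` -/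
def wt {n : ℕ} (g : Fin n → ℕ) (u : Fin n → ℕ) : ℕ := ∑ i, u i * g i

/-- `ℕ^n → ℤ^n` -/
def toZ {n : ℕ} (u : Fin n → ℕ) : Fin n → ℤ := fun i => (u i : ℤ)

/-- the degree on `ℤ^n` -/
def dg {n : ℕ} (g : Fin n → ℕ) : (Fin n → ℤ) →+ ℤ where
  toFun v := ∑ i, v i * (g i : ℤ)
  map_zero' := by simp
  map_add' v w := by
    rw [← Finset.sum_add_distrib]
    exact Finset.sum_congr rfl fun i _ => by simp [add_mul]

/-- a projection: a surjection `ℤ^n → ℤ^r` together with the degree on `ℤ^r` -/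
structure Proj {n : ℕ} (g : Fin n → ℕ) (r : ℕ) where
  /-- the map -/
  π : (Fin n → ℤ) →+ (Fin r → ℤ)
  /-- the degree on the target -/
  δ : (Fin r → ℤ) →+ ℤ
  surj : Function.Surjective π
  deg : ∀ v, δ (π v) = dg g v

/-- the elements of degree `N` of the image monoid -/
def Proj.lev {n : ℕ} {g : Fin n → ℕ} {r : ℕ} (p : Proj g r) (N : ℕ) : Set (Fin r → ℤ) :=
  (fun u => p.π (toZ u)) '' {u : Fin n → ℕ | wt g u = N}

/-- the number of elements of degree `N` of the image monoid -/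
noncomputable def Proj.h {n : ℕ} {g : Fin n → ℕ} {r : ℕ} (p : Proj g r) (N : ℕ) : ℕ :=
  (p.lev N).ncard

/-- the image monoid has growth at least `κ X^(s+1)/(s+1)!` -/
def Proj.Gr {n : ℕ} {g : Fin n → ℕ} {r : ℕ} (p : Proj g r) (s : ℕ) (κ : ℝ) : Prop :=
  ∃ C : ℝ, ∀ X : ℕ, κ * (X : ℝ) ^ (s + 1) / ((s + 1).factorial : ℝ) ≤
    (∑ N ∈ Finset.range (X + 1), (p.h N : ℝ)) + C * ((X : ℝ) + 1) ^ s

/-- the map `x_i ↦ [π e_i]` into the group algebra -/
noncomputable def Proj.φ {n : ℕ} {g : Fin n → ℕ} {r : ℕ} (p : Proj g r) :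
    MvPolynomial (Fin n) ℚ →ₐ[ℚ] AddMonoidAlgebra ℚ (Fin r → ℤ) :=
  MvPolynomial.aeval (fun i => AddMonoidAlgebra.single (p.π (Pi.single i 1)) (1 : ℚ))

/-- the toric ideal -/
noncomputable def Proj.I {n : ℕ} {g : Fin n → ℕ} {r : ℕ} (p : Proj g r) :
    Ideal (MvPolynomial (Fin n) ℚ) := RingHom.ker p.φ

open Classical in
/-- the Hilbert series of a semigroup -/
noncomputable def HS (S : AddSubmonoid ℕ) : PowerSeries ℤ :=
  PowerSeries.mk fun k => if k ∈ S then (1 : ℤ) else 0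

/-- the data: a numerical semigroup with its product formula -/
structure Dat (n : ℕ) where
  /-- the semigroup -/
  S : AddSubmonoid ℕ
  fin : ((S : Set ℕ)ᶜ).Finite
  /-- denominators -/
  g : Fin n → ℕ
  gpos : ∀ i, 0 < g i
  gen : AddSubmonoid.closure (Set.range g) = S
  /-- labels, in increasing order; only `b j`, `j < n - 1`, matter -/
  b : ℕ → ℕ
  bpos : ∀ j, 0 < b j
  mono : Monotone b
  H : HS S * ∏ i, (1 - (PowerSeries.X : PowerSeries ℤ) ^ g i) =
      ∏ j ∈ Finset.range (n - 1), (1 - (PowerSeries.X : PowerSeries ℤ) ^ b j)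

end Pool.Agent.LibVol74
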