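import Pool.Agent.LibVol74.Basic

/-!
# The toric ideal (row A1)
-/

set_option autoImplicit false

namespace Pool.Agent.LibVol74

open MvPolynomial

variable {n r : ℕ} {g : Fin n → ℕ}

instance instDomA : IsDomain (AddMonoidAlgebra ℚ (Fin r → ℤ)) := by
  have h1 : NoZeroDivisors (AddMonoidAlgebra ℚ (Fin r → ℤ)) := inferInstance
  exact NoZeroDivisors.to_isDomain _

theorem A1_toZ_single (i : Fin n) (k : ℕ) :
    toZ (⇑(Finsupp.single i k : Fin n →₀ ℕ)) = k • (Pi.single i 1 : Fin n → ℤ) := by
  funext j
  unfold toZ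
  rw [Pi.smul_apply]
  by_cases h : j = i
  · subst h
    simp
  · rw [Finsupp.single_eq_of_ne h, Pi.single_eq_of_ne h]
    simp

theorem A1_phi_one (p : Proj g r) (u : Fin n →₀ ℕ) :
    p.φ (monomial u 1) = AddMonoidAlgebra.single (p.π (toZ ⇑u)) 1 := by
  induction u using Finsupp.induction_linear with
  | zero =>
    have h1 : toZ (⇑(0 : Fin n →₀ ℕ)) = 0 := by
      funext j
      simp [toZ]
    rw [h1, map_zero]
    show p.φ 1 = _
    rw [map_one]
    rfl
  | add u v hu hv =>
    have h1 : (monomial (u + v) (1 : ℚ)) = monomial u 1 * monomial v 1 := by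
      rw [monomial_mul, one_mul]
    have h2 : toZ ⇑(u + v) = toZ ⇑u + toZ ⇑v := by
      rw [Finsupp.coe_add]
      funext j
      simp [toZ]
    rw [h1, map_mul, hu, hv, AddMonoidAlgebra.single_mul_single, h2, map_add, one_mul]
  | single i k =>
    have h1 : (monomial (Finsupp.single i k) (1 : ℚ)) = X i ^ k := by
      rw [X_pow_eq_monomial]
    rw [h1, map_pow, A1_toZ_single, map_nsmul]
    have h2 : p.φ (X i) = AddMonoidAlgebra.single (p.π (Pi.single i 1)) (1 : ℚ) := by
      unfold Proj.φ
      rw [aeval_X]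
    rw [h2, AddMonoidAlgebra.single_pow, one_pow]

theorem A1_weight (u : Fin n →₀ ℕ) : Finsupp.weight g u = wt g ⇑u := by
  rw [Finsupp.weight_apply, Finsupp.sum_fintype _ _ (by simp)]
  unfold wt
  simp

theorem phi_monomial (p : Proj g r) (u : Fin n →₀ ℕ) (c : ℚ) :
    p.φ (monomial u c) = AddMonoidAlgebra.single (p.π (toZ ⇑u)) c := by
  have h1 : monomial u c = c • monomial u (1 : ℚ) := by
    rw [smul_monomial, smul_eq_mul, mul_one]
  rw [h1, map_smul, A1_phi_one, AddMonoidAlgebra.smul_single, smul_eq_mul, mul_one]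

/-- the toric ideal is prime -/
theorem I_prime (p : Proj g r) : p.I.IsPrime := by
  unfold Proj.I
  exact RingHom.ker_isPrime p.φ

theorem A1_coeff (p : Proj g r) (f : MvPolynomial (Fin n) ℚ) (N : ℕ) (x : Fin r → ℤ) :
    (p.φ (weightedHomogeneousComponent g N f)).coeff x =
      if p.δ x = (N : ℤ) then (p.φ f).coeff x else 0 := by
  induction f using MvPolynomial.induction_on' with
  | monomial u c =>
    by_cases h : wt g ⇑u = N
    · have h1 : (monomial u c).IsWeightedHomogeneous g N :=
        isWeightedHomogeneous_monomial g u c (by rw [A1_weight, h])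
      rw [h1.weightedHomogeneousComponent_same, phi_monomial]
      by_cases hx : p.π (toZ ⇑u) = x
      · have h2 : p.δ x = (N : ℤ) := by
          rw [← hx, p.deg, dg_toZ, h]
        rw [if_pos h2]
      · have h3 : (AddMonoidAlgebra.single (p.π (toZ ⇑u)) c :
          AddMonoidAlgebra ℚ (Fin r → ℤ)).coeff x = 0 :=
          Finsupp.single_eq_of_ne (Ne.symm hx)
        rw [h3]
        split_ifs <;> rfl
    · have h1 : (monomial u c).IsWeightedHomogeneous g (wt g ⇑u) :=
        isWeightedHomogeneous_monomial g u c (by rw [A1_weight])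
      rw [h1.weightedHomogeneousComponent_ne N (by tauto), map_zero, phi_monomial]
      have h0 : (0 : AddMonoidAlgebra ℚ (Fin r → ℤ)).coeff x = 0 := rfl
      rw [h0]
      split_ifs with h2
      · have hx : p.π (toZ ⇑u) ≠ x := by
          intro hx
          rw [← hx, p.deg, dg_toZ] at h2
          exact h (by exact_mod_cast h2)
        exact (Finsupp.single_eq_of_ne (Ne.symm hx)).symm
      · rfl
  | add f1 f2 h1 h2 =>
    have e1 : (p.φ (weightedHomogeneousComponent g N (f1 + f2))).coeff x
        = (p.φ (weightedHomogeneousComponent g N f1)).coeff x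
          + (p.φ (weightedHomogeneousComponent g N f2)).coeff x := by
      rw [map_add, map_add]
      rfl
    have e2 : (p.φ (f1 + f2)).coeff x = (p.φ f1).coeff x + (p.φ f2).coeff x := by
      rw [map_add]
      rfl
    rw [e1, h1, h2, e2]
    split_ifs
    · rfl
    · rw [add_zero]

/-- the homogeneous components of an element of the toric ideal are in the toric ideal
(the group algebra is graded by `p.δ` and `p.φ` is graded) -/
theorem I_component (p : Proj g r) {f : MvPolynomial (Fin n) ℚ} (hf : f ∈ p.I) (N : ℕ) :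
    weightedHomogeneousComponent g N f ∈ p.I := by
  have hf' : p.φ f = 0 := hf
  show p.φ (weightedHomogeneousComponent g N f) = 0
  refine AddMonoidAlgebra.ext (Finsupp.ext fun x => ?_)
  have h1 := A1_coeff p f N x
  rw [hf'] at h1
  have h0 : (0 : AddMonoidAlgebra ℚ (Fin r → ℤ)).coeff x = 0 := rfl
  rw [h0] at h1
  refine h1.trans ?_
  split_ifs <;> rfl

/-- the binomial of two vectors -/
noncomputable def bin (u v : Fin n → ℕ) : MvPolynomial (Fin n) ℚ :=
  monomial (Finsupp.equivFunOnFinite.symm u) 1 - monomial (Finsupp.equivFunOnFinite.symm v) 1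

theorem bin_hom {u v : Fin n → ℕ} {t : ℕ} (hu : wt g u = t) (hv : wt g v = t) :
    (bin u v).IsWeightedHomogeneous g t := by
  have h1 : (monomial (Finsupp.equivFunOnFinite.symm u) (1 : ℚ)).IsWeightedHomogeneous g t :=
    isWeightedHomogeneous_monomial g _ _ (by
      rw [A1_weight]
      exact hu)
  have h2 : (monomial (Finsupp.equivFunOnFinite.symm v) (1 : ℚ)).IsWeightedHomogeneous g t :=
    isWeightedHomogeneous_monomial g _ _ (by
      rw [A1_weight]
      exact hv)
  exact (weightedHomogeneousSubmodule ℚ g t).sub_mem h1 h2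

theorem phi_bin (p : Proj g r) (u v : Fin n → ℕ) :
    p.φ (bin u v) = AddMonoidAlgebra.single (p.π (toZ u)) 1 -
      AddMonoidAlgebra.single (p.π (toZ v)) 1 := by
  unfold bin
  rw [map_sub, phi_monomial, phi_monomial]
  rfl

end Pool.Agent.LibVol74
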