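import Pool.Agent.LibVol74.A1

/-!
# Dimension of the graded pieces (row A2)
-/

set_option autoImplicit false

namespace Pool.Agent.LibVol74

open MvPolynomial

variable {n r : ℕ} {g : Fin n → ℕ}

/-- the image of the forms of weight `N` -/
noncomputable def Proj.W (p : Proj g r) (N : ℕ) : Submodule ℚ (AddMonoidAlgebra ℚ (Fin r → ℤ)) :=
  Submodule.map p.φ.toLinearMap (weightedHomogeneousSubmodule ℚ g N)

theorem W_eq_span (p : Proj g r) (N : ℕ) :
    p.W N = Submodule.span ℚ ((fun x => AddMonoidAlgebra.single x (1 : ℚ)) '' p.lev N) := by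
  apply le_antisymm
  · rintro _ ⟨f, hf, rfl⟩
    have hf' : f.IsWeightedHomogeneous g N := hf
    rw [MvPolynomial.as_sum f, map_sum]
    refine Submodule.sum_mem _ fun u hu => ?_
    have h1 : wt g ⇑u = N := by
      rw [← A1_weight]
      exact hf' (by rwa [← MvPolynomial.mem_support_iff])
    show p.φ (monomial u (coeff u f)) ∈ _
    rw [phi_monomial]
    have h2 : (AddMonoidAlgebra.single (p.π (toZ ⇑u)) (coeff u f) : AddMonoidAlgebra ℚ (Fin r → ℤ))
        = (coeff u f) • AddMonoidAlgebra.single (p.π (toZ ⇑u)) (1 : ℚ) := by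
      rw [AddMonoidAlgebra.smul_single, smul_eq_mul, mul_one]
    rw [h2]
    refine Submodule.smul_mem _ _ (Submodule.subset_span ?_)
    exact ⟨_, ⟨⇑u, h1, rfl⟩, rfl⟩
  · rw [Submodule.span_le]
    rintro _ ⟨_, ⟨u, hu, rfl⟩, rfl⟩
    refine ⟨monomial (Finsupp.equivFunOnFinite.symm u) 1, ?_, ?_⟩
    · exact isWeightedHomogeneous_monomial g _ _ (by
        rw [A1_weight]
        exact hu)
    · show p.φ (monomial (Finsupp.equivFunOnFinite.symm u) 1) = _
      rw [phi_monomial]
      rfl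

theorem A2_indep (T : Set (Fin r → ℤ)) :
    LinearIndependent ℚ (fun x : T => (AddMonoidAlgebra.single (x : Fin r → ℤ) (1 : ℚ) :
      AddMonoidAlgebra ℚ (Fin r → ℤ))) := by
  have h1 : LinearIndependent ℚ (fun x : Fin r → ℤ => Finsupp.single x (1 : ℚ)) :=
    Finsupp.linearIndependent_single_one ℚ (Fin r → ℤ)
  have h2 : LinearIndependent ℚ (fun x : T => Finsupp.single (x : Fin r → ℤ) (1 : ℚ)) :=
    h1.comp (fun x : T => (x : Fin r → ℤ)) Subtype.val_injective
  exact LinearIndependent.of_comp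
    (AddMonoidAlgebra.coeffLinearEquiv ℚ : AddMonoidAlgebra ℚ (Fin r → ℤ) ≃ₗ[ℚ] _).toLinearMap h2

theorem finrank_W (hg : ∀ i, 0 < g i) (p : Proj g r) (N : ℕ) :
    Module.finrank ℚ (p.W N) = p.h N := by
  have hfin : Finite (p.lev N) := lev_finite hg p N
  have : Fintype (p.lev N) := Fintype.ofFinite _
  have h1 := finrank_span_eq_card (A2_indep (p.lev N))
  rw [W_eq_span, Set.image_eq_range, h1]
  unfold Proj.h
  rw [← Nat.card_coe_set_eq, Nat.card_eq_fintype_card]

theorem W_finite (hg : ∀ i, 0 < g i) (p : Proj g r) (N : ℕ) :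
    Module.Finite ℚ (p.W N) := by
  rw [W_eq_span]
  exact FiniteDimensional.span_of_finite ℚ ((lev_finite hg p N).image _)

end Pool.Agent.LibVol74
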