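import Pool.Agent.LibVol74.A1

/-!
# The toric ideal is spanned by binomials (row A3)
-/

set_option autoImplicit false

namespace Pool.Agent.LibVol74

open MvPolynomial

variable {n r : ℕ} {g : Fin n → ℕ}

/-- The toric ideal is spanned by binomials. Proof: `f ∈ ker φ`, group the monomials of `f` by the
value `π (toZ u)`: in every class the coefficients sum to zero, so the class part is a combination
of binomials `x^u - x^v` with `π u = π v` (hence `wt u = wt v` by `p.deg`). -/
theorem I_span_bin (p : Proj g r) :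
    p.I = Ideal.span {f | ∃ u v : Fin n → ℕ, wt g u = wt g v ∧ p.π (toZ u) = p.π (toZ v) ∧
      f = bin u v} := by
  classical
  set J : Ideal (MvPolynomial (Fin n) ℚ) := Ideal.span {f | ∃ u v : Fin n → ℕ,
    wt g u = wt g v ∧ p.π (toZ u) = p.π (toZ v) ∧ f = bin u v} with hJ
  apply le_antisymm
  · -- representatives of the classes
    have hrep : ∃ rep : (Fin r → ℤ) → (Fin n →₀ ℕ), ∀ u : Fin n →₀ ℕ,
        p.π (toZ ⇑(rep (p.π (toZ ⇑u)))) = p.π (toZ ⇑u) := by
      refine ⟨fun y => if h : ∃ u : Fin n →₀ ℕ, p.π (toZ ⇑u) = y then h.choose else 0,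
        fun u => ?_⟩
      have h : ∃ u' : Fin n →₀ ℕ, p.π (toZ ⇑u') = p.π (toZ ⇑u) := ⟨u, rfl⟩
      simp only [dif_pos h]
      exact h.choose_spec
    obtain ⟨rep, hrep⟩ := hrep
    obtain ⟨L, hL⟩ : ∃ L : AddMonoidAlgebra ℚ (Fin r → ℤ) →+ MvPolynomial (Fin n) ℚ,
        ∀ y c, L (AddMonoidAlgebra.single y c) = monomial (rep y) c :=
      ⟨(AddMonoidAlgebra.mapDomainLinearMap ℚ ℚ rep).toAddMonoidHom, fun y c => by
        change AddMonoidAlgebra.mapDomain rep (AddMonoidAlgebra.single y c) = _
        rw [AddMonoidAlgebra.mapDomain_single]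
        rfl⟩
    have key : ∀ f : MvPolynomial (Fin n) ℚ, f - L (p.φ f) ∈ J := by
      intro f
      induction f using MvPolynomial.induction_on' with
      | monomial u a =>
        rw [phi_monomial, hL]
        have h1 : monomial u a - monomial (rep (p.π (toZ ⇑u))) a =
            C a * bin (⇑u) (⇑(rep (p.π (toZ ⇑u)))) := by
          unfold bin
          rw [mul_sub, C_mul_monomial, C_mul_monomial, mul_one]
          simp
        rw [h1]
        refine Ideal.mul_mem_left _ _ (Ideal.subset_span ⟨_, _, ?_, (hrep u).symm, rfl⟩)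
        have h2 := p.deg (toZ ⇑u)
        have h3 := p.deg (toZ ⇑(rep (p.π (toZ ⇑u))))
        rw [hrep u, h2, dg_toZ, dg_toZ] at h3
        exact_mod_cast h3
      | add f h hf hh =>
        have h1 : f + h - L (p.φ (f + h)) = (f - L (p.φ f)) + (h - L (p.φ h)) := by
          rw [map_add, map_add]
          ring
        rw [h1]
        exact J.add_mem hf hh
    intro f hf
    have h1 := key f
    have h2 : p.φ f = 0 := hf
    rw [h2, map_zero, sub_zero] at h1
    exact h1
  · rw [hJ, Ideal.span_le]
    rintro f ⟨u, v, -, h, rfl⟩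
    change p.φ (bin u v) = 0
    rw [phi_bin, h, sub_self]

end Pool.Agent.LibVol74
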