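import Pool.Agent.LibVol74.CM3

/-!
Parameters among the rational linear combinations of given elements `y_i` of a noetherian local
`ℚ`-algebra.
-/

set_option autoImplicit false

namespace Pool.Agent.LibVol74

open IsLocalRing Pointwise

theorem Alg2_cancel (x : WithBot ℕ∞) (d : ℕ) (h : x + 1 ≤ (d : WithBot ℕ∞) + 1) : x ≤ d := by
  induction x using WithBot.recBotCoe with
  | bot => exact bot_le
  | coe x =>
    have h' : x + 1 ≤ (d : ℕ∞) + 1 := by exact_mod_cast h
    have : x ≤ (d : ℕ∞) := by
      rwa [ENat.add_le_add_iff_right ENat.one_ne_top] at h'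
    exact_mod_cast this

theorem Alg2_dim_succ {R : Type} [CommRing R] [IsNoetherianRing R] (I : Ideal R) (x : R)
    (hx : ∀ p ∈ I.minimalPrimes, x ∉ p) :
    ringKrullDim (R ⧸ (I ⊔ Ideal.span {x})) + 1 ≤ ringKrullDim (R ⧸ I) := by
  have h1 := Module.supportDim_quotSMulTop_succ_le_of_notMem_minimalPrimes (R := R)
    (M := R ⧸ I) (x := x) (by rwa [Ideal.annihilator_quotient])
  rw [Module.supportDim_quotient_eq_ringKrullDim] at h1
  refine le_trans (add_le_add_left ?_ 1) h1
  rw [ringKrullDim_quotient, Module.supportDim]
  refine Order.krullDim_le_of_strictMono (fun q => ⟨q.1, ?_⟩) (fun {_ _} lt ↦ lt)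
  have hq : I ⊔ Ideal.span {x} ≤ q.1.asIdeal := q.2
  rw [Module.support_quotSMulTop]
  refine ⟨?_, ?_⟩
  · rw [Module.mem_support_iff_of_finite, Ideal.annihilator_quotient]
    exact le_sup_left.trans hq
  · intro b hb
    have : b = x := by simpa using hb
    rw [this]
    exact hq (le_sup_right (a := I) (Ideal.mem_span_singleton_self x))

/-- existence of linear parameters -/
theorem exists_theta {R : Type} [CommRing R] [IsLocalRing R] [IsNoetherianRing R] [Algebra ℚ R]
    {n : ℕ} (y : Fin n → R) (hy : ∀ p : Ideal R, p.IsPrime → (∀ i, y i ∈ p) → p = maximalIdeal R)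
    (d : ℕ) (I : Ideal R) (hI : ringKrullDim (R ⧸ I) ≤ (d : WithBot ℕ∞)) :
    ∃ a : Fin d → Fin n → ℚ,
      ringKrullDim (R ⧸ (I ⊔ Ideal.span (Set.range fun i => ∑ j, a i j • y j))) ≤ 0 := by
  induction d generalizing I with
  | zero =>
    refine ⟨fun i => i.elim0, ?_⟩
    refine le_trans (ringKrullDim_le_of_surjective (Ideal.Quotient.factor le_sup_left)
      (Ideal.Quotient.factor_surjective le_sup_left)) (by simpa using hI)
  | succ d ih =>
    -- the first parameter
    obtain ⟨a0, ha0⟩ : ∃ a0 : Fin n → ℚ,
        ringKrullDim (R ⧸ (I ⊔ Ideal.span {∑ j, a0 j • y j})) ≤ (d : WithBot ℕ∞) := by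
      by_cases hmin : maximalIdeal R ∈ I.minimalPrimes
      · refine ⟨0, ?_⟩
        refine le_trans (ringKrullDim_le_of_surjective (Ideal.Quotient.factor le_sup_left)
          (Ideal.Quotient.factor_surjective le_sup_left)) ?_
        have h0 : ringKrullDim (R ⧸ I) ≤ 0 := by
          have : Ring.KrullDimLE 0 (R ⧸ I) := by
            rw [Ideal.krullDimLE_zero_quotient_iff_forall_minimalPrimes_isMaximal]
            intro p hp
            have hpp := hp.isPrime
            have h2 : p ≤ maximalIdeal R := IsLocalRing.le_maximalIdeal hpp.ne_top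
            have h3 : maximalIdeal R ≤ p := hmin.2 ⟨hpp, hp.1.2⟩ h2
            rw [le_antisymm h2 h3]
            infer_instance
          have := (Ring.krullDimLE_iff (R := R ⧸ I) (n := 0)).mp this
          simpa using this
        exact h0.trans (by exact_mod_cast Nat.zero_le d)
      · have hfin := I.finite_minimalPrimes_of_isNoetherianRing R
        let V : Ideal R → Submodule ℚ (Fin n → ℚ) := fun p =>
          { carrier := {a | ∑ j, a j • y j ∈ p}
            zero_mem' := by simp
            add_mem' := by
              intro u v hu hv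
              have : ∑ j, (u + v) j • y j = ∑ j, u j • y j + ∑ j, v j • y j := by
                rw [← Finset.sum_add_distrib]
                exact Finset.sum_congr rfl fun j _ => by rw [Pi.add_apply, add_smul]
              show ∑ j, (u + v) j • y j ∈ p
              rw [this]
              exact p.add_mem hu hv
            smul_mem' := by
              intro c u hu
              have : ∑ j, (c • u) j • y j = c • ∑ j, u j • y j := by
                rw [Finset.smul_sum]
                exact Finset.sum_congr rfl fun j _ => by
                  rw [Pi.smul_apply, smul_eq_mul, mul_smul]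
              show ∑ j, (c • u) j • y j ∈ p
              rw [this, Algebra.smul_def]
              exact p.mul_mem_left _ hu }
        have hV : ⊤ ∉ hfin.toFinset.image V := by
          intro htop
          rw [Finset.mem_image] at htop
          obtain ⟨p, hp, hpV⟩ := htop
          rw [Set.Finite.mem_toFinset] at hp
          have hpp := hp.isPrime
          have : p = maximalIdeal R := by
            refine hy p hpp fun i => ?_
            have h1 : (Pi.single i 1 : Fin n → ℚ) ∈ V p := by rw [hpV]; trivial
            have h2 : ∑ j, (Pi.single i 1 : Fin n → ℚ) j • y j ∈ p := h1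
            rw [Finset.sum_eq_single i (fun j _ hj => by simp [hj]) (by simp)] at h2
            simpa using h2
          exact hmin (this ▸ hp)
        obtain ⟨a0, ha0⟩ : ∃ a0, a0 ∉ ⋃ p ∈ hfin.toFinset.image V, (p : Set (Fin n → ℚ)) := by
          have := Subspace.biUnion_ne_univ_of_top_notMem hV
          exact (Set.ne_univ_iff_exists_notMem _).mp this
        refine ⟨a0, ?_⟩
        have h1 := Alg2_dim_succ I (∑ j, a0 j • y j) (by
          intro p hp hmem
          apply ha0
          simp only [Set.mem_iUnion]
          exact ⟨V p, Finset.mem_image_of_mem V ((Set.Finite.mem_toFinset _).mpr hp), hmem⟩)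
        have h2 := h1.trans hI
        push_cast at h2
        exact Alg2_cancel _ d h2
    obtain ⟨a, ha⟩ := ih _ ha0
    refine ⟨Fin.cons a0 a, ?_⟩
    have hle : (I ⊔ Ideal.span {∑ j, a0 j • y j}) ⊔
        Ideal.span (Set.range fun i => ∑ j, a i j • y j) ≤
        I ⊔ Ideal.span (Set.range fun i : Fin (d + 1) =>
          ∑ j, (Fin.cons a0 a : Fin (d + 1) → Fin n → ℚ) i j • y j) := by
      refine sup_le (sup_le le_sup_left ?_) ?_
      · refine le_trans ?_ le_sup_right
        rw [Ideal.span_singleton_le_iff_mem]
        exact Ideal.subset_span ⟨0, by simp⟩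
      · refine le_trans ?_ le_sup_right
        refine Ideal.span_mono ?_
        rintro _ ⟨i, rfl⟩
        exact ⟨i.succ, by simp⟩
    exact (ringKrullDim_le_of_surjective (Ideal.Quotient.factor hle)
      (Ideal.Quotient.factor_surjective hle)).trans ha

end Pool.Agent.LibVol74
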