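import Pool.Agent.LibVol74.CM3

/-!
A nonzero form in parameters is a parameter.
-/

set_option autoImplicit false

namespace Pool.Agent.LibVol74

open IsLocalRing Pointwise

theorem Alg3_dim_le {R : Type} [CommRing R] [IsLocalRing R] [IsNoetherianRing R] (J : Ideal R)
    (Fs : List R) (hFs : ∀ r ∈ Fs, r ∈ maximalIdeal R)
    (h : ∀ q : Ideal R, q.IsPrime → J ≤ q → (∀ r ∈ Fs, r ∈ q) → q = maximalIdeal R) :
    ringKrullDim (R ⧸ J) ≤ (Fs.length : WithBot ℕ∞) := by
  have h1 := CM3_dim_le (M := R ⧸ J) Fs hFs
  rw [Module.supportDim_quotient_eq_ringKrullDim] at h1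
  refine h1.trans ?_
  have h2 : Module.supportDim R ((R ⧸ J) ⧸ (Ideal.ofList Fs • ⊤ : Submodule R (R ⧸ J))) ≤ 0 := by
    have hsub : Subsingleton
        (Module.support R ((R ⧸ J) ⧸ (Ideal.ofList Fs • ⊤ : Submodule R (R ⧸ J)))) := by
      have key : ∀ q : PrimeSpectrum R,
          q ∈ Module.support R ((R ⧸ J) ⧸ (Ideal.ofList Fs • ⊤ : Submodule R (R ⧸ J))) →
          q.asIdeal = maximalIdeal R := by
        intro q hq
        rw [Module.mem_support_iff_of_finite] at hq
        refine h q.asIdeal q.2 ?_ ?_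
        · intro a ha
          apply hq
          rw [Module.mem_annihilator]
          intro w
          obtain ⟨u, rfl⟩ := Submodule.Quotient.mk_surjective _ w
          obtain ⟨v, rfl⟩ := Ideal.Quotient.mk_surjective u
          have : a • (Ideal.Quotient.mk J v) = 0 := by
            have h3 : a • (Ideal.Quotient.mk J v) = Ideal.Quotient.mk J (a * v) := rfl
            rw [h3]
            exact Ideal.Quotient.eq_zero_iff_mem.mpr (J.mul_mem_right _ ha)
          rw [← Submodule.Quotient.mk_smul, this, Submodule.Quotient.mk_zero]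
        · intro a ha
          apply hq
          rw [Module.mem_annihilator]
          intro w
          obtain ⟨u, rfl⟩ := Submodule.Quotient.mk_surjective _ w
          rw [← Submodule.Quotient.mk_smul, Submodule.Quotient.mk_eq_zero]
          exact Submodule.smul_mem_smul (Ideal.subset_span ha) trivial
      constructor
      intro q1 q2
      apply Subtype.ext
      apply PrimeSpectrum.ext
      rw [key _ q1.2, key _ q2.2]
    exact Order.krullDim_nonpos_of_subsingleton
  calc _ ≤ 0 + (Fs.length : WithBot ℕ∞) := add_le_add_left h2 _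
    _ = _ := zero_add _

theorem Alg3_aeval {A : Type} [CommRing A] [Algebra ℚ A] {d m : ℕ} (a : Fin d → ℚ) (t : A)
    (P : MvPolynomial (Fin d) ℚ) (hP : P.IsHomogeneous m) :
    MvPolynomial.aeval (fun j => a j • t) P = (MvPolynomial.eval a P) • t ^ m := by
  rw [MvPolynomial.aeval_def, MvPolynomial.eval₂_eq', MvPolynomial.eval_eq', Finset.sum_smul]
  refine Finset.sum_congr rfl fun s hs => ?_
  have hdeg : ∑ i, s i = m := by
    have := hP (MvPolynomial.mem_support_iff.mp hs)
    rw [← this, Finsupp.weight_apply, Finsupp.sum_fintype _ _ (by simp)]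
    simp
  have h1 : ∏ i, (a i • t) ^ s i = (∏ i, a i ^ s i) • t ^ m := by
    rw [← hdeg, ← Finset.prod_pow_eq_pow_sum]
    simp only [Algebra.smul_def, mul_pow, Finset.prod_mul_distrib, map_prod, map_pow]
  rw [h1, Algebra.smul_def, Algebra.smul_def, ← mul_assoc, ← map_mul]

/-- a nonzero form of positive degree in parameters is a parameter -/
theorem param_of_form {R : Type} [CommRing R] [IsLocalRing R] [IsNoetherianRing R] [Algebra ℚ R]
    {d : ℕ} (I : Ideal R) (θ : Fin d → R) (hθ : ∀ i, θ i ∈ maximalIdeal R)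
    (hdim : ringKrullDim (R ⧸ (I ⊔ Ideal.span (Set.range θ))) ≤ 0) {m : ℕ} (hm : 0 < m)
    (P : MvPolynomial (Fin d) ℚ) (hP : P.IsHomogeneous m) (hP0 : P ≠ 0) :
    ringKrullDim (R ⧸ (I ⊔ Ideal.span {MvPolynomial.aeval θ P})) < (d : WithBot ℕ∞) := by
  obtain ⟨a, ha⟩ : ∃ a, MvPolynomial.eval a P ≠ 0 := by
    by_contra hcon
    push Not at hcon
    exact hP0 (MvPolynomial.funext fun x => by rw [hcon x, map_zero])
  obtain ⟨i0, hi0⟩ : ∃ i0, a i0 ≠ 0 := by
    by_contra hcon
    push Not at hcon
    have h0 : a = 0 := funext hcon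
    have h1 := Alg3_aeval (A := ℚ) (fun _ => (0 : ℚ)) 0 P hP
    apply ha
    have h2 : MvPolynomial.aeval (fun j : Fin d => (0 : ℚ) • (0 : ℚ)) P =
        MvPolynomial.eval a P := by
      rw [h0]
      simp only [smul_zero]
      rfl
    rw [← h2, h1, zero_pow hm.ne', smul_zero]
  have hd : 0 < d := i0.pos
  -- the modified parameters
  let Fs : List R := ((Finset.univ.erase i0).toList).map fun j => θ j - (a j / a i0) • θ i0
  have hlen : Fs.length = d - 1 := by
    simp [Fs]
  have hle : ringKrullDim (R ⧸ (I ⊔ Ideal.span {MvPolynomial.aeval θ P})) ≤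
      (Fs.length : WithBot ℕ∞) := by
    refine Alg3_dim_le _ Fs ?_ ?_
    · intro r hr
      rw [List.mem_map] at hr
      obtain ⟨j, -, rfl⟩ := hr
      refine (maximalIdeal R).sub_mem (hθ j) ?_
      rw [Algebra.smul_def]
      exact (maximalIdeal R).mul_mem_left _ (hθ i0)
    · intro q hq hJq hFq
      have hIq : I ≤ q := le_sup_left.trans hJq
      have hPq : MvPolynomial.aeval θ P ∈ q :=
        hJq (le_sup_right (a := I) (Ideal.mem_span_singleton_self _))
      let φ := Ideal.Quotient.mkₐ ℚ q
      let t : R ⧸ q := (a i0)⁻¹ • φ (θ i0)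
      have hθt : ∀ j, φ (θ j) = a j • t := by
        intro j
        by_cases hj : j = i0
        · subst hj
          simp only [t, smul_smul, mul_inv_cancel₀ hi0, one_smul]
        · have h1 : θ j - (a j / a i0) • θ i0 ∈ q := by
            apply hFq
            rw [List.mem_map]
            exact ⟨j, by simp [hj], rfl⟩
          have h2 : φ (θ j - (a j / a i0) • θ i0) = 0 := Ideal.Quotient.eq_zero_iff_mem.mpr h1
          rw [map_sub, map_smul, sub_eq_zero] at h2
          rw [h2]
          simp only [t, smul_smul, div_eq_mul_inv]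
      have h3 : φ (MvPolynomial.aeval θ P) = (MvPolynomial.eval a P) • t ^ m := by
        rw [← Alg3_aeval a t P hP]
        have : (fun j => a j • t) = fun j => φ (θ j) := funext fun j => (hθt j).symm
        rw [this, ← MvPolynomial.comp_aeval_apply]
      have h4 : φ (MvPolynomial.aeval θ P) = 0 := Ideal.Quotient.eq_zero_iff_mem.mpr hPq
      rw [h4] at h3
      have h5 : t ^ m = 0 := by
        have h6 : (MvPolynomial.eval a P)⁻¹ • ((MvPolynomial.eval a P) • t ^ m) = 0 := by
          rw [← h3, smul_zero]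
        rwa [smul_smul, inv_mul_cancel₀ ha, one_smul] at h6
      have h7 : t = 0 := pow_eq_zero_iff hm.ne' |>.mp h5
      have h8 : ∀ j, θ j ∈ q := by
        intro j
        have : φ (θ j) = 0 := by rw [hθt j, h7, smul_zero]
        exact Ideal.Quotient.eq_zero_iff_mem.mp this
      have h9 : I ⊔ Ideal.span (Set.range θ) ≤ q := by
        refine sup_le hIq ?_
        rw [Ideal.span_le]
        rintro _ ⟨j, rfl⟩
        exact h8 j
      have h10 : Ring.KrullDimLE 0 (R ⧸ (I ⊔ Ideal.span (Set.range θ))) := by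
        rw [Ring.krullDimLE_iff]
        simpa using hdim
      rw [Ideal.krullDimLE_zero_quotient_iff_forall_minimalPrimes_isMaximal] at h10
      obtain ⟨p, hp, hpq⟩ := Ideal.exists_minimalPrimes_le h9
      have h11 := h10 p hp
      rw [← IsLocalRing.eq_maximalIdeal h11]
      exact (h11.eq_of_le hq.ne_top hpq).symm
  refine lt_of_le_of_lt hle ?_
  rw [hlen]
  exact_mod_cast Nat.sub_lt hd one_pos

end Pool.Agent.LibVol74
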