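import Pool.Agent.LibVol74.Alg1

/-!
Homogeneous descent from the localisation at the origin.
-/

set_option autoImplicit false

namespace Pool.Agent.LibVol74

open MvPolynomial

attribute [local instance] MvPolynomial.weightedGradedAlgebra

theorem Alg4_component {n : ℕ} {g : Fin n → ℕ} (hg : ∀ i, 0 < g i)
    (s f : MvPolynomial (Fin n) ℚ) (d0 : ℕ) (hf : f.IsWeightedHomogeneous g d0) :
    weightedHomogeneousComponent g d0 (s * f) = C (constantCoeff s) * f := by
  have h1 := DirectSum.coe_decompose_mul_of_right_mem_of_le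
    (𝒜 := weightedHomogeneousSubmodule ℚ g) (a := s) (b := f) (i := d0) (n := d0)
    ((mem_weightedHomogeneousSubmodule ℚ g d0 f).mpr hf) le_rfl
  have h2 : ∀ p : MvPolynomial (Fin n) ℚ, ∀ m : ℕ,
      ((DirectSum.decompose (weightedHomogeneousSubmodule ℚ g) p m :
        weightedHomogeneousSubmodule ℚ g m) : MvPolynomial (Fin n) ℚ) =
      weightedHomogeneousComponent g m p := fun p m =>
    weightedDecomposition.decompose'_apply ℚ g p m
  rw [h2, h2, Nat.sub_self, weightedHomogeneousComponent_zero s (fun i => (hg i).ne')] at h1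
  rw [h1, constantCoeff_eq]

/-- descent -/
theorem descent {n : ℕ} {g : Fin n → ℕ} (hg : ∀ i, 0 < g i) {c : ℕ}
    (F : Fin c → MvPolynomial (Fin n) ℚ) (hF : ∀ j, ∃ t : ℕ, (F j).IsWeightedHomogeneous g t)
    (f : MvPolynomial (Fin n) ℚ) (d0 : ℕ) (hf : f.IsWeightedHomogeneous g d0)
    (s : MvPolynomial (Fin n) ℚ) (hs : s ∉ mx n) (hsf : s * f ∈ Ideal.span (Set.range F)) :
    f ∈ Ideal.span (Set.range F) := by
  have hI : (Ideal.span (Set.range F)).IsHomogeneous (weightedHomogeneousSubmodule ℚ g) := by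
    refine Ideal.homogeneous_span _ _ ?_
    rintro _ ⟨j, rfl⟩
    obtain ⟨t, ht⟩ := hF j
    exact ⟨t, (mem_weightedHomogeneousSubmodule ℚ g t (F j)).mpr ht⟩
  have h1 := weightedHomogeneousComponent_mem_of_mem ℚ g hI hsf d0
  rw [Alg4_component hg s f d0 hf] at h1
  have hs0 : constantCoeff s ≠ 0 := fun h => hs ((RingHom.mem_ker).mpr h)
  have h2 := (Ideal.span (Set.range F)).mul_mem_left (C (constantCoeff s)⁻¹) h1
  rwa [← mul_assoc, ← C_mul, inv_mul_cancel₀ hs0, C_1, one_mul] at h2

end Pool.Agent.LibVol74
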