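import Pool.Agent.LibVol74.A1
import Pool.Agent.LibVol74.Alg2
import Pool.Agent.LibVol74.Alg3
import Pool.Agent.LibVol74.Alg4

/-!
# The Cohen-Macaulay part (rows C)
-/

set_option autoImplicit false

namespace Pool.Agent.LibVol74

open MvPolynomial

/-- the localisation of a quotient has at most its dimension -/
theorem Alg_dim_loc {n : ℕ} (I : Ideal (MvPolynomial (Fin n) ℚ)) :
    ringKrullDim (Rl n ⧸ I.map (algebraMap (MvPolynomial (Fin n) ℚ) (Rl n))) ≤
      ringKrullDim (MvPolynomial (Fin n) ℚ ⧸ I) := by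
  rw [ringKrullDim_quotient, ringKrullDim_quotient]
  let φ := algebraMap (MvPolynomial (Fin n) ℚ) (Rl n)
  have hmono : ∀ p q : PrimeSpectrum (Rl n), p < q →
      PrimeSpectrum.comap φ p < PrimeSpectrum.comap φ q := by
    intro p q hpq
    refine lt_of_le_of_ne ?_ ?_
    · exact Ideal.comap_mono hpq.le
    · intro h
      exact hpq.ne (PrimeSpectrum.localization_comap_injective (Rl n) (mx n).primeCompl h)
  refine Order.krullDim_le_of_strictMono
    (fun q => ⟨PrimeSpectrum.comap φ q.1, ?_⟩) (fun {p q} hlt => ?_)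
  · intro a ha
    have h1 : φ a ∈ q.1.asIdeal := q.2 (Ideal.mem_map_of_mem φ ha)
    exact h1
  · exact hmono p.1 q.1 hlt

theorem Alg_hy (n : ℕ) (e : Fin n → ℕ) (p : Ideal (Rl n)) (hp : p.IsPrime)
    (h : ∀ i, algebraMap (MvPolynomial (Fin n) ℚ) (Rl n) (X i ^ e i) ∈ p) :
    p = IsLocalRing.maximalIdeal (Rl n) := by
  refine le_antisymm (IsLocalRing.le_maximalIdeal hp.ne_top) ?_
  rw [← Localization.AtPrime.map_eq_maximalIdeal, Ideal.map_le_iff_le_comap]
  intro s hs
  have h1 : ∀ i, X i ∈ p.comap (algebraMap (MvPolynomial (Fin n) ℚ) (Rl n)) := by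
    intro i
    have h2 := h i
    rw [map_pow] at h2
    exact hp.mem_of_pow_mem _ h2
  have h2 : s ∈ Ideal.span ((X : Fin n → MvPolynomial (Fin n) ℚ) '' Set.univ) := by
    rw [mem_ideal_span_X_image]
    intro m hm
    by_contra hcon
    push Not at hcon
    have hm0 : m = 0 := by
      ext i
      simpa using hcon i trivial
    rw [hm0, mem_support_iff] at hm
    exact hm (by simpa [RingHom.mem_ker, constantCoeff_eq] using hs)
  refine (Ideal.span_le.mpr ?_) h2
  rintro _ ⟨i, -, rfl⟩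
  exact h1 i

theorem reg_growth {n : ℕ} {g : Fin n → ℕ} (hg : ∀ i, 0 < g i) (c : ℕ) (hc : c < n)
    (F : Fin c → MvPolynomial (Fin n) ℚ)
    (hF : ∀ j, ∃ t : ℕ, 0 < t ∧ (F j).IsWeightedHomogeneous g t)
    (hdim : ringKrullDim (MvPolynomial (Fin n) ℚ ⧸ Ideal.span (Set.range F)) ≤
      ((n - c : ℕ) : WithBot ℕ∞))
    (f : MvPolynomial (Fin n) ℚ) (d0 : ℕ) (hf : f.IsWeightedHomogeneous g d0)
    (hfI : f ∉ Ideal.span (Set.range F)) :
    ∃ L : ℕ, 0 < L ∧ ∃ θ : Fin (n - c) → MvPolynomial (Fin n) ℚ,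
      (∀ i, (θ i).IsWeightedHomogeneous g L) ∧
      ∀ (m : ℕ) (P : MvPolynomial (Fin (n - c)) ℚ), P.IsHomogeneous m → P ≠ 0 →
        MvPolynomial.aeval θ P * f ∉ Ideal.span (Set.range F) := by
  classical
  set φ := algebraMap (MvPolynomial (Fin n) ℚ) (Rl n) with hφ
  set I := Ideal.span (Set.range F) with hI
  let Fs : List (Rl n) := List.ofFn fun j => φ (F j)
  have hlen : Fs.length = c := by simp [Fs]
  have hJ : Ideal.ofList Fs = I.map φ := by
    rw [hI, Ideal.map_span, Ideal.ofList]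
    congr 1
    ext r
    simp only [Fs, Set.mem_ofPred_eq, List.mem_ofFn, Set.mem_image, Set.mem_range,
      exists_exists_eq_and]
  have hF0 : ∀ j, constantCoeff (F j) = 0 := by
    intro j
    obtain ⟨t, ht, hFt⟩ := hF j
    rw [constantCoeff_eq]
    by_contra hne
    have := hFt hne
    rw [map_zero] at this
    omega
  have hmax : ∀ s : MvPolynomial (Fin n) ℚ, constantCoeff s = 0 →
      φ s ∈ IsLocalRing.maximalIdeal (Rl n) := by
    intro s hs
    rw [hφ, IsLocalization.AtPrime.to_map_mem_maximal_iff (Rl n) (mx n)]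
    exact RingHom.mem_ker.mpr hs
  have hFs : ∀ r ∈ Fs, r ∈ IsLocalRing.maximalIdeal (Rl n) := by
    intro r hr
    rw [List.mem_ofFn] at hr
    obtain ⟨j, rfl⟩ := hr
    exact hmax _ (hF0 j)
  have hdim' : ringKrullDim (Rl n ⧸ I.map φ) ≤ ((n - c : ℕ) : WithBot ℕ∞) :=
    (Alg_dim_loc I).trans hdim
  let L : ℕ := ∏ i, g i
  have hL : 0 < L := Finset.prod_pos fun i _ => hg i
  let e : Fin n → ℕ := fun i => L / g i
  have he : ∀ i, e i * g i = L := fun i =>
    Nat.div_mul_cancel (Finset.dvd_prod_of_mem g (Finset.mem_univ i))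
  have he0 : ∀ i, 0 < e i := fun i => Nat.pos_of_mul_pos_right (lt_of_lt_of_eq hL (he i).symm)
  obtain ⟨a, ha⟩ := exists_theta (fun i => φ (X i ^ e i)) (Alg_hy n e) (n - c) (I.map φ) hdim'
  let θ : Fin (n - c) → MvPolynomial (Fin n) ℚ := fun i => ∑ j, a i j • X j ^ e j
  have hθhom : ∀ i, (θ i).IsWeightedHomogeneous g L := by
    intro i
    rw [← mem_weightedHomogeneousSubmodule ℚ g L]
    refine Submodule.sum_mem _ fun j _ => Submodule.smul_mem _ _ ?_
    rw [mem_weightedHomogeneousSubmodule]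
    have h1 := (isWeightedHomogeneous_X ℚ g j).pow (e j)
    rwa [smul_eq_mul, he j] at h1
  have hθφ : ∀ i, φ (θ i) = ∑ j, a i j • φ (X j ^ e j) := by
    intro i
    simp only [θ, map_sum]
    refine Finset.sum_congr rfl fun j _ => ?_
    rw [Algebra.smul_def, Algebra.smul_def, map_mul]
    rfl
  have hθmax : ∀ i, φ (θ i) ∈ IsLocalRing.maximalIdeal (Rl n) := by
    intro i
    apply hmax
    rw [constantCoeff_eq]
    by_contra hne
    have := hθhom i hne
    rw [map_zero] at this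
    omega
  have ha' : ringKrullDim (Rl n ⧸ (I.map φ ⊔ Ideal.span (Set.range fun i => φ (θ i)))) ≤ 0 := by
    have : (fun i => φ (θ i)) = fun i => ∑ j, a i j • φ (X j ^ e j) := funext hθφ
    rw [this]
    exact ha
  refine ⟨L, hL, θ, hθhom, ?_⟩
  intro m P hP hP0 hmem
  rcases Nat.eq_zero_or_pos m with rfl | hm
  · have h1 : P = C (coeff 0 P) := by
      have := (totalDegree_eq_zero_iff_eq_C (p := P)).mp
        (Nat.eq_zero_of_le_zero hP.totalDegree_le)
      exact this
    have h2 : coeff 0 P ≠ 0 := by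
      intro h
      rw [h, C_0] at h1
      exact hP0 h1
    rw [h1, aeval_C, MvPolynomial.algebraMap_eq] at hmem
    apply hfI
    have h3 := I.mul_mem_left (C (coeff 0 P)⁻¹) hmem
    rwa [← mul_assoc, ← C_mul, inv_mul_cancel₀ h2, C_1, one_mul] at h3
  · have h1 := param_of_form (I.map φ) (fun i => φ (θ i)) hθmax ha' hm P hP hP0
    have h2 : φ (aeval θ P) = aeval (fun i => φ (θ i)) P := by
      have := MvPolynomial.comp_aeval_apply (R := ℚ)
        (φ := (IsScalarTower.toAlgHom ℚ (MvPolynomial (Fin n) ℚ) (Rl n))) (f := θ) (p := P)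
      simpa using this
    rw [← h2] at h1
    have h3 : φ (aeval θ P) * φ f ∈ Ideal.ofList Fs := by
      rw [hJ, ← map_mul]
      exact Ideal.mem_map_of_mem φ hmem
    have h4 := local_nzd (Dp_Rl n) Fs hFs (by omega) (by rw [hJ, hlen]; exact hdim')
      (by rw [hJ, hlen]; exact h1) h3
    rw [hJ, hφ, IsLocalization.algebraMap_mem_map_algebraMap_iff (mx n).primeCompl] at h4
    obtain ⟨s, hs, hsf⟩ := h4
    exact hfI (descent hg F (fun j => (hF j).imp fun t ht => ht.2) f d0 hf s hs hsf)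

end Pool.Agent.LibVol74
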