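import Pool.Agent.LibVol74.CM3

/-!
The localisation `Rl n` of `ℚ[x_1..x_n]` at the origin has depth at least `n`.
-/

set_option autoImplicit false

namespace Pool.Agent.LibVol74

open RingTheory.Sequence IsLocalRing Pointwise MvPolynomial

/-- the irrelevant ideal -/
noncomputable abbrev mx (n : ℕ) : Ideal (MvPolynomial (Fin n) ℚ) :=
  RingHom.ker (constantCoeff (R := ℚ) (σ := Fin n))

instance mx_prime (n : ℕ) : (mx n).IsPrime := RingHom.ker_isPrime _

/-- the localisation at the origin -/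
abbrev Rl (n : ℕ) : Type := Localization.AtPrime (mx n)

theorem Alg1_wreg (n : ℕ) :
    IsWeaklyRegular (MvPolynomial (Fin n) ℚ) (List.ofFn fun i : Fin n => (X i : MvPolynomial (Fin n) ℚ)) := by
  rw [isWeaklyRegular_iff_Fin]
  intro i
  have hi : i.1 < n := by
    have := i.2
    simpa using this
  rw [isSMulRegular_on_quot_iff_lsmul_comap_le]
  have hJ : (Ideal.ofList (List.take i.1 (List.ofFn fun i : Fin n => (X i : MvPolynomial (Fin n) ℚ)))
      • ⊤ : Submodule (MvPolynomial (Fin n) ℚ) (MvPolynomial (Fin n) ℚ)) =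
      Ideal.span ((X : Fin n → MvPolynomial (Fin n) ℚ) '' {j | j.1 < i.1}) := by
    rw [smul_eq_mul, Ideal.mul_top, Ideal.ofList]
    congr 1
    ext r
    simp only [Set.mem_ofPred_eq, List.mem_take_iff_getElem, List.getElem_ofFn, Set.mem_image]
    constructor
    · rintro ⟨j, hj, rfl⟩
      have hj' : j < i.1 ∧ j < n := by simpa using hj
      exact ⟨⟨j, hj'.2⟩, hj'.1, rfl⟩
    · rintro ⟨j, hj, rfl⟩
      refine ⟨j.1, ?_, rfl⟩
      simp only [List.length_ofFn, lt_min_iff]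
      exact ⟨hj, j.2⟩
  rw [hJ]
  have hx : (List.ofFn fun i : Fin n => (X i : MvPolynomial (Fin n) ℚ))[i] = X ⟨i.1, hi⟩ := by
    simp
  intro a ha
  rw [hx] at ha
  simp only [Submodule.mem_comap, LinearMap.lsmul_apply, smul_eq_mul] at ha
  rw [mem_ideal_span_X_image] at ha ⊢
  intro m hm
  obtain ⟨j, hj, hjm⟩ := ha (m + Finsupp.single ⟨i.1, hi⟩ 1) (by
    rw [mem_support_iff, mul_comm, coeff_mul_X]
    exact mem_support_iff.mp hm)
  refine ⟨j, hj, ?_⟩
  have hne : (⟨i.1, hi⟩ : Fin n) ≠ j := by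
    rintro rfl
    exact absurd (show i.1 < i.1 from hj) (lt_irrefl _)
  simpa [Finsupp.single_apply, hne] using hjm

theorem Dp_Rl (n : ℕ) : Dp (Rl n) (Rl n) n := by
  refine ⟨(List.ofFn fun i : Fin n => (X i : MvPolynomial (Fin n) ℚ)).map
    (algebraMap (MvPolynomial (Fin n) ℚ) (Rl n)), by simp, ?_, ?_⟩
  · intro r hr
    rw [List.mem_map] at hr
    obtain ⟨a, ha, rfl⟩ := hr
    rw [List.mem_ofFn] at ha
    obtain ⟨j, rfl⟩ := ha
    rw [IsLocalization.AtPrime.to_map_mem_maximal_iff (Rl n) (mx n)]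
    simp [RingHom.mem_ker]
  · refine IsWeaklyRegular.isRegular_of_isLocalization_of_mem (Rl n) (mx n) (Alg1_wreg n) ?_
    intro r hr
    rw [List.mem_ofFn] at hr
    obtain ⟨j, rfl⟩ := hr
    simp [RingHom.mem_ker]

end Pool.Agent.LibVol74
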