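import Pool.Agent.LibVol74.Defs

/-!
# Basic facts on weights and levels (row B1)
-/

set_option autoImplicit false

namespace Pool.Agent.LibVol74

variable {n r : ℕ} {g : Fin n → ℕ}

theorem wt_add (u v : Fin n → ℕ) : wt g (u + v) = wt g u + wt g v := by
  unfold wt
  rw [← Finset.sum_add_distrib]
  exact Finset.sum_congr rfl fun i _ => by rw [Pi.add_apply, add_mul]

theorem toZ_add (u v : Fin n → ℕ) : toZ (u + v) = toZ u + toZ v := by
  funext i
  simp [toZ]

theorem toZ_injective : Function.Injective (toZ : (Fin n → ℕ) → (Fin n → ℤ)) := by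
  intro u v h
  funext i
  have h1 := congrFun h i
  simpa [toZ] using h1

theorem toZ_smul (k : ℕ) (u : Fin n → ℕ) : toZ (k • u) = k • toZ u := by
  funext i
  simp [toZ]

theorem toZ_single (i : Fin n) : toZ (Pi.single i 1) = Pi.single i 1 := by
  funext j
  by_cases h : j = i
  · subst h
    simp [toZ]
  · simp [toZ, Pi.single_eq_of_ne h]

theorem wt_single (i : Fin n) : wt g (Pi.single i 1) = g i := by
  unfold wt
  rw [Finset.sum_eq_single i]
  · simp
  · intro j _ hj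
    rw [Pi.single_eq_of_ne hj, zero_mul]
  · intro h
    exact absurd (Finset.mem_univ i) h

theorem wt_smul (k : ℕ) (u : Fin n → ℕ) : wt g (k • u) = k * wt g u := by
  unfold wt
  rw [Finset.mul_sum]
  exact Finset.sum_congr rfl fun i _ => by rw [Pi.smul_apply, smul_eq_mul, mul_assoc]

theorem dg_toZ (u : Fin n → ℕ) : dg g (toZ u) = (wt g u : ℤ) := by
  unfold wt
  push_cast
  rfl

theorem wt_finite (hg : ∀ i, 0 < g i) (N : ℕ) : {u : Fin n → ℕ | wt g u = N}.Finite := by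
  refine (Set.finite_Iic (fun _ : Fin n => N)).subset ?_
  intro u hu
  rw [Set.mem_ofPred_eq] at hu
  rw [Set.mem_Iic]
  intro i
  have h1 : u i * g i ≤ wt g u := by
    unfold wt
    exact Finset.single_le_sum (f := fun i => u i * g i) (fun _ _ => Nat.zero_le _) (Finset.mem_univ i)
  have h2 : u i ≤ u i * g i := Nat.le_mul_of_pos_right _ (hg i)
  exact (h2.trans h1).trans hu.le

/-- every integer vector is a difference of two natural ones -/
theorem exists_toZ_sub (v : Fin n → ℤ) : ∃ u w : Fin n → ℕ, v = toZ u - toZ w := by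
  refine ⟨fun i => (v i).toNat, fun i => (-(v i)).toNat, ?_⟩
  funext i
  simp only [toZ, Pi.sub_apply]
  omega

theorem lev_finite (hg : ∀ i, 0 < g i) (p : Proj g r) (N : ℕ) : (p.lev N).Finite :=
  (wt_finite hg N).image _

theorem deg_lev (p : Proj g r) {N : ℕ} {x : Fin r → ℤ} (hx : x ∈ p.lev N) : p.δ x = N := by
  obtain ⟨u, hu, rfl⟩ := hx
  rw [Set.mem_ofPred_eq] at hu
  show p.δ (p.π (toZ u)) = N
  rw [p.deg, dg_toZ, hu]

theorem lev_add (p : Proj g r) {N M : ℕ} {x y : Fin r → ℤ} (hx : x ∈ p.lev N)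
    (hy : y ∈ p.lev M) : x + y ∈ p.lev (N + M) := by
  obtain ⟨u, hu, rfl⟩ := hx
  obtain ⟨v, hv, rfl⟩ := hy
  rw [Set.mem_ofPred_eq] at hu hv
  refine ⟨u + v, ?_, ?_⟩
  · rw [Set.mem_ofPred_eq, wt_add, hu, hv]
  · show p.π (toZ (u + v)) = p.π (toZ u) + p.π (toZ v)
    rw [toZ_add, map_add]

theorem lev_nsmul (p : Proj g r) {N : ℕ} {x : Fin r → ℤ} (hx : x ∈ p.lev N) (k : ℕ) :
    k • x ∈ p.lev (k * N) := by
  obtain ⟨u, hu, rfl⟩ := hx
  rw [Set.mem_ofPred_eq] at hu
  refine ⟨k • u, ?_, ?_⟩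
  · rw [Set.mem_ofPred_eq, wt_smul, hu]
  · show p.π (toZ (k • u)) = k • p.π (toZ u)
    rw [toZ_smul, map_nsmul]

theorem zero_mem_lev (p : Proj g r) : (0 : Fin r → ℤ) ∈ p.lev 0 := by
  refine ⟨0, ?_, ?_⟩
  · rw [Set.mem_ofPred_eq]
    simp [wt]
  · show p.π (toZ (0 : Fin n → ℕ)) = 0
    have h : toZ (0 : Fin n → ℕ) = 0 := by
      funext i
      simp [toZ]
    rw [h, map_zero]

theorem h_zero (hg : ∀ i, 0 < g i) (p : Proj g r) : p.h 0 = 1 := by
  unfold Proj.h
  rw [Set.ncard_eq_one]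
  refine ⟨0, ?_⟩
  apply Set.eq_singleton_iff_unique_mem.2
  refine ⟨zero_mem_lev p, ?_⟩
  rintro x ⟨u, hu, rfl⟩
  rw [Set.mem_ofPred_eq] at hu
  have h0 : u = 0 := by
    funext i
    unfold wt at hu
    rw [Finset.sum_eq_zero_iff] at hu
    have h1 := hu i (Finset.mem_univ i)
    rcases Nat.mul_eq_zero.1 h1 with h2 | h2
    · exact h2
    · exact absurd h2 (hg i).ne'
  subst h0
  show p.π (toZ (0 : Fin n → ℕ)) = 0
  have h : toZ (0 : Fin n → ℕ) = 0 := by
    funext i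
    simp [toZ]
  rw [h, map_zero]

theorem single_mem_lev (p : Proj g r) (i : Fin n) : p.π (Pi.single i 1) ∈ p.lev (g i) := by
  refine ⟨Pi.single i 1, wt_single i, ?_⟩
  show p.π (toZ (Pi.single i 1)) = p.π (Pi.single i 1)
  rw [toZ_single]

theorem mem_closure_iff_wt (N : ℕ) :
    N ∈ AddSubmonoid.closure (Set.range g) ↔ ∃ u : Fin n → ℕ, wt g u = N := by
  constructor
  · intro h
    induction h using AddSubmonoid.closure_induction with
    | mem x hx =>
      obtain ⟨i, rfl⟩ := hx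
      exact ⟨Pi.single i 1, wt_single i⟩
    | zero => exact ⟨0, by simp [wt]⟩
    | add x y _ _ hx hy =>
      obtain ⟨u, hu⟩ := hx
      obtain ⟨v, hv⟩ := hy
      exact ⟨u + v, by rw [wt_add, hu, hv]⟩
  · rintro ⟨u, rfl⟩
    unfold wt
    refine AddSubmonoid.sum_mem _ fun i _ => ?_
    have h := AddSubmonoid.nsmul_mem (AddSubmonoid.closure (Set.range g))
      (AddSubmonoid.subset_closure (Set.mem_range_self i)) (u i)
    rwa [smul_eq_mul] at h

theorem lev_nonempty_iff (p : Proj g r) (N : ℕ) :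
    (p.lev N).Nonempty ↔ N ∈ AddSubmonoid.closure (Set.range g) := by
  rw [mem_closure_iff_wt]
  constructor
  · rintro ⟨_, u, hu, _⟩
    exact ⟨u, hu⟩
  · rintro ⟨u, hu⟩
    exact ⟨_, u, hu, rfl⟩

theorem h_pos_iff (hg : ∀ i, 0 < g i) (p : Proj g r) (N : ℕ) :
    0 < p.h N ↔ N ∈ AddSubmonoid.closure (Set.range g) := by
  unfold Proj.h
  rw [Set.ncard_pos (lev_finite hg p N), lev_nonempty_iff]

/-- two different elements in a level with at least two elements -/
theorem exists_two (hg : ∀ i, 0 < g i) (p : Proj g r) {N : ℕ} (h2 : 2 ≤ p.h N) :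
    ∃ u v : Fin n → ℕ, wt g u = N ∧ wt g v = N ∧ p.π (toZ u) ≠ p.π (toZ v) := by
  unfold Proj.h at h2
  have h1 : 1 < (p.lev N).ncard := by omega
  obtain ⟨x, y, hx, hy, hxy⟩ := (Set.one_lt_ncard_iff (lev_finite hg p N)).1 h1
  obtain ⟨u, hu, rfl⟩ := hx
  obtain ⟨v, hv, rfl⟩ := hy
  exact ⟨u, v, hu, hv, hxy⟩

end Pool.Agent.LibVol74
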