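import Mathlib

/-!
Depth in a noetherian local ring: `Dp R M n` (there is a regular sequence of length `n` in the
maximal ideal) and the depth drop (Rees).
-/

set_option autoImplicit false

namespace Pool.Agent.LibVol74

open RingTheory.Sequence IsLocalRing Pointwise CategoryTheory Abelian

/-- depth at least `n` -/
def Dp (R : Type) [CommRing R] [IsLocalRing R] (M : Type) [AddCommGroup M] [Module R M]
    (n : ℕ) : Prop :=
  ∃ rs : List R, rs.length = n ∧ (∀ r ∈ rs, r ∈ maximalIdeal R) ∧ IsRegular M rs

/-- depth drops by at most one modulo a regular element -/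
theorem depth_drop {R : Type} [CommRing R] [IsLocalRing R] [IsNoetherianRing R]
    {M : Type} [AddCommGroup M] [Module R M] [Module.Finite R M] {n : ℕ}
    (h : Dp R M (n + 1)) {y : R} (hy : y ∈ maximalIdeal R) (hr : IsSMulRegular M y) :
    Dp R (QuotSMulTop y M) n := by
  obtain ⟨rs, hlen, hmem, hreg⟩ := h
  have : Nontrivial M := hreg.nontrivial
  have smul_lt : maximalIdeal R • (⊤ : Submodule R M) < ⊤ := by
    rw [lt_top_iff_ne_top]
    intro h
    have := Submodule.eq_bot_of_le_smul_of_le_jacobson_bot (maximalIdeal R) (⊤ : Submodule R M)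
      Module.Finite.fg_top (by rw [h]) (IsLocalRing.maximalIdeal_le_jacobson _)
    exact absurd this top_ne_bot
  have h0 : ∃ rs : List R, rs.length = n + 1 ∧ (∀ r ∈ rs, r ∈ maximalIdeal R) ∧
      IsRegular (ModuleCat.of R M) rs := ⟨rs, hlen, hmem, hreg⟩
  have h1 : ∀ i < n + 1, Subsingleton (Ext (ModuleCat.of R (Shrink.{0} (R ⧸ maximalIdeal R)))
      (ModuleCat.of R M) i) :=
    ((ModuleCat.exists_isRegular_tfae (maximalIdeal R) (n + 1) (ModuleCat.of R M)
      smul_lt).out 3 1).mp h0
  have smul_lt' : maximalIdeal R • (⊤ : Submodule R (QuotSMulTop y M)) < ⊤ := by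
    have : Nontrivial (QuotSMulTop y M) := by
      exact nontrivial_quotSMulTop_of_mem_maximalIdeal M hy
    rw [lt_top_iff_ne_top]
    intro h
    have := Submodule.eq_bot_of_le_smul_of_le_jacobson_bot (maximalIdeal R)
      (⊤ : Submodule R (QuotSMulTop y M))
      Module.Finite.fg_top (by rw [h]) (IsLocalRing.maximalIdeal_le_jacobson _)
    exact absurd this top_ne_bot
  have h2 : ∀ i < n, Subsingleton (Ext (ModuleCat.of R (Shrink.{0} (R ⧸ maximalIdeal R)))
      (ModuleCat.of R (QuotSMulTop y M)) i) := ?_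
  · exact ((ModuleCat.exists_isRegular_tfae (maximalIdeal R) n
      (ModuleCat.of R (QuotSMulTop y M)) smul_lt').out 1 3).mp h2
  intro i hi
  have zero1 := AddCommGrpCat.isZero_of_iff_subsingleton.mpr (h1 i (by omega))
  have zero2 := AddCommGrpCat.isZero_of_iff_subsingleton.mpr (h1 (i + 1) (by omega))
  exact AddCommGrpCat.subsingleton_of_isZero <| ShortComplex.Exact.isZero_of_both_zeros
    ((Ext.covariant_sequence_exact₃' (ModuleCat.of R (Shrink.{0} (R ⧸ maximalIdeal R)))
      (IsSMulRegular.smulShortComplex_shortExact (M := ModuleCat.of R M) hr)) i (i + 1) rfl)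
    (zero1.eq_zero_of_src _) (zero2.eq_zero_of_tgt _)

end Pool.Agent.LibVol74
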