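import Pool.Agent.LibVol74.CM1

/-!
Associated primes of a module of depth at least `n` have dimension at least `n`; an element `y`
with `dim M/yM < n` is regular on `M`.
-/

set_option autoImplicit false

namespace Pool.Agent.LibVol74

open RingTheory.Sequence IsLocalRing Pointwise

theorem CM2_dim_lt {R : Type} [CommRing R] {p q : Ideal R} (hp : p.IsPrime) (h : p < q) :
    ringKrullDim (R ⧸ q) + 1 ≤ ringKrullDim (R ⧸ p) := by
  obtain ⟨x, hxq, hxp⟩ := SetLike.exists_of_lt h
  refine ringKrullDim_succ_le_of_surjective (Ideal.Quotient.factor h.le)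
    (Ideal.Quotient.factor_surjective h.le) (r := Ideal.Quotient.mk p x) ?_ ?_
  · rw [mem_nonZeroDivisors_iff_ne_zero]
    intro h0
    exact hxp (Ideal.Quotient.eq_zero_iff_mem.mp h0)
  · rw [Ideal.Quotient.factor_mk]
    exact Ideal.Quotient.eq_zero_iff_mem.mpr hxq

/-- a prime associated to `M` has dimension at least the depth of `M` -/
theorem le_dim_of_mem_ass {R : Type} [CommRing R] [IsLocalRing R] [IsNoetherianRing R]
    {M : Type} [AddCommGroup M] [Module R M] [Module.Finite R M] {n : ℕ}
    (h : Dp R M n) {p : Ideal R} (hp : IsAssociatedPrime p M) :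
    (n : WithBot ℕ∞) ≤ ringKrullDim (R ⧸ p) := by
  obtain ⟨rs, hlen, hmem, hreg⟩ := h
  induction rs generalizing M p n with
  | nil =>
    subst hlen
    have := hp.isPrime
    simpa using ringKrullDim_nonneg_of_nontrivial (R := R ⧸ p)
  | cons x rs ih =>
    obtain ⟨hx, hreg'⟩ := (isRegular_cons_iff M x rs).mp hreg
    obtain ⟨hpp, z, hz⟩ := isAssociatedPrime_iff.mp hp
    have hxm : x ∈ maximalIdeal R := hmem x (by simp)
    have hz0 : z ≠ 0 := by
      rintro rfl
      apply hpp.ne_top
      rw [hz]
      simp
    have hzp : ∀ a ∈ p, a • z = 0 := by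
      intro a ha
      rw [hz, Submodule.mem_colon_singleton] at ha
      simpa using ha
    have hxp : x ∉ p := fun hxp => hz0 (hx.right_eq_zero_of_smul (hzp x hxp))
    -- an element killed by `p`, not divisible by `x`
    obtain ⟨w, hwN, hwx⟩ : ∃ w : M, (∀ a ∈ p, a • w = 0) ∧ w ∉ x • (⊤ : Submodule R M) := by
      by_contra hcon
      push Not at hcon
      let N : Submodule R M := 
        { carrier := {m | ∀ a ∈ p, a • m = 0}
          zero_mem' := by simp
          add_mem' := by
            intro u v hu hv a ha
            rw [smul_add, hu a ha, hv a ha, add_zero]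
          smul_mem' := by
            intro c u hu a ha
            rw [smul_comm, hu a ha, smul_zero] }
      have hN : N ≤ maximalIdeal R • N := by
        intro u hu
        obtain ⟨v, -, hv⟩ := hcon u hu
        have hvN : v ∈ N := by
          intro a ha
          have h1 : x • (a • v) = 0 := by
            rw [smul_comm]
            have : x • v = u := hv
            rw [this]
            exact hu a ha
          exact hx.right_eq_zero_of_smul h1
        have : x • v = u := hv
        rw [← this]
        exact Submodule.smul_mem_smul hxm hvN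
      have hbot := Submodule.eq_bot_of_le_smul_of_le_jacobson_bot (maximalIdeal R) N
        (IsNoetherian.noetherian N) hN (IsLocalRing.maximalIdeal_le_jacobson _)
      have hzN : z ∈ N := hzp
      rw [hbot] at hzN
      exact hz0 (by simpa using hzN)
    let w' : QuotSMulTop x M := Submodule.Quotient.mk w
    have hw' : w' ≠ 0 := by
      intro h0
      exact hwx ((Submodule.Quotient.mk_eq_zero _).mp h0)
    obtain ⟨P, hP, hPw⟩ := exists_le_isAssociatedPrime_of_isNoetherianRing R w' hw'
    have hpP : p ≤ P := by
      intro a ha
      apply hPw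
      rw [Submodule.mem_colon_singleton]
      have : a • w' = Submodule.Quotient.mk (a • w) := rfl
      rw [this, hwN a ha]
      simp
    have hxP : x ∈ P := by
      apply hPw
      rw [Submodule.mem_colon_singleton]
      have : x • w' = Submodule.Quotient.mk (x • w) := rfl
      rw [this, Submodule.mem_bot, Submodule.Quotient.mk_eq_zero]
      exact Submodule.smul_mem_pointwise_smul w x ⊤ trivial
    have hlt : p < P := lt_of_le_of_ne hpP (fun h => hxp (h ▸ hxP))
    have h1 := ih (n := rs.length) hP rfl (fun r hr => hmem r (by simp [hr])) hreg'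
    have h2 := CM2_dim_lt hpp hlt
    rw [← hlen, List.length_cons]
    push_cast
    exact (add_le_add_left h1 1).trans h2

/-- if `dim M/yM < depth M` then `y` is regular on `M` -/
theorem regular_of_dim {R : Type} [CommRing R] [IsLocalRing R] [IsNoetherianRing R]
    {M : Type} [AddCommGroup M] [Module R M] [Module.Finite R M] {n : ℕ}
    (h : Dp R M n) {y : R}
    (hdim : Module.supportDim R (QuotSMulTop y M) < (n : WithBot ℕ∞)) : IsSMulRegular M y := by
  by_contra hy
  have h1 : y ∈ ({ r : R | IsSMulRegular M r }ᶜ : Set R) := hy
  rw [← biUnion_associatedPrimes_eq_compl_regular R M] at h1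
  simp only [Set.mem_iUnion] at h1
  obtain ⟨p, hp, hyp⟩ := h1
  have hp' : IsAssociatedPrime p M := hp
  have h2 := le_dim_of_mem_ass h hp'
  have hpp := hp'.isPrime
  have h3 : ringKrullDim (R ⧸ p) ≤ Module.supportDim R (QuotSMulTop y M) := by
    rw [ringKrullDim_quotient, Module.supportDim]
    refine Order.krullDim_le_of_strictMono (fun q => ⟨q.1, ?_⟩) (fun {_ _} lt ↦ lt)
    have hq : p ≤ q.1.asIdeal := q.2
    rw [Module.support_quotSMulTop]
    refine ⟨?_, ?_⟩
    · refine Module.mem_support_mono (p := ⟨p, hpp⟩) hq ?_
      rw [Module.mem_support_iff_of_finite]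
      have := hp'.annihilator_le
      simpa [Submodule.annihilator_top] using this
    · intro a ha
      have : a = y := by simpa using ha
      rw [this]
      exact hq hyp
  exact absurd (h2.trans h3) (not_le.mpr hdim)

end Pool.Agent.LibVol74
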