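import Pool.Agent.LibVol74.CM2

/-!
In a noetherian local ring `R` of depth at least `n`: if `dim R/(Fs) ≤ n - length Fs` then
`R/(Fs)` has depth at least `n - length Fs`, and every `y` with `dim R/(Fs, y) < n - length Fs`
is a nonzerodivisor modulo `(Fs)`.
-/

set_option autoImplicit false

namespace Pool.Agent.LibVol74

open RingTheory.Sequence IsLocalRing Pointwise

theorem CM3_Dp_congr {R : Type} [CommRing R] [IsLocalRing R]
    {M : Type} [AddCommGroup M] [Module R M] {M' : Type} [AddCommGroup M'] [Module R M']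
    (e : M ≃ₗ[R] M') {n : ℕ} (h : Dp R M n) : Dp R M' n := by
  obtain ⟨rs, hlen, hmem, hreg⟩ := h
  exact ⟨rs, hlen, hmem, (e.isRegular_congr rs).mp hreg⟩

theorem CM3_dim_le {R : Type} [CommRing R] [IsLocalRing R] [IsNoetherianRing R]
    {M : Type} [AddCommGroup M] [Module R M] [Module.Finite R M] (Fs : List R)
    (hFs : ∀ r ∈ Fs, r ∈ maximalIdeal R) :
    Module.supportDim R M ≤
      Module.supportDim R (M ⧸ (Ideal.ofList Fs • ⊤ : Submodule R M)) + Fs.length := by
  induction Fs generalizing M with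
  | nil =>
    rw [Ideal.ofList_nil, Submodule.bot_smul]
    simpa using (Module.supportDim_eq_of_equiv (Submodule.quotEquivOfEqBot (⊥ : Submodule R M)
      rfl)).ge
  | cons y Fs ih =>
    have h1 := Module.supportDim_le_supportDim_quotSMulTop_succ (M := M) (hFs y (by simp))
    have h2 := ih (M := QuotSMulTop y M) (fun r hr => hFs r (by simp [hr]))
    rw [Module.supportDim_eq_of_equiv
      (Submodule.quotOfListConsSMulTopEquivQuotSMulTopInner M y Fs), List.length_cons]
    push_cast
    refine h1.trans ((add_le_add_left h2 1).trans (le_of_eq ?_))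
    rw [add_assoc]

theorem Dp_quot {R : Type} [CommRing R] [IsLocalRing R] [IsNoetherianRing R]
    {M : Type} [AddCommGroup M] [Module R M] [Module.Finite R M] (Fs : List R)
    (hFs : ∀ r ∈ Fs, r ∈ maximalIdeal R) {n : ℕ} (h : Dp R M n) (hn : Fs.length ≤ n)
    (hdim : Module.supportDim R (M ⧸ (Ideal.ofList Fs • ⊤ : Submodule R M)) ≤
      ((n - Fs.length : ℕ) : WithBot ℕ∞)) :
    Dp R (M ⧸ (Ideal.ofList Fs • ⊤ : Submodule R M)) (n - Fs.length) := by
  induction Fs generalizing M n with
  | nil =>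
    have e : M ≃ₗ[R] (M ⧸ (Ideal.ofList ([] : List R) • ⊤ : Submodule R M)) :=
      (Submodule.quotEquivOfEqBot _ (by rw [Ideal.ofList_nil, Submodule.bot_smul])).symm
    simpa using CM3_Dp_congr e h
  | cons y Fs ih =>
    obtain ⟨k, rfl⟩ : ∃ k, n = k + 1 := ⟨n - 1, by simp at hn; omega⟩
    have hy : y ∈ maximalIdeal R := hFs y (by simp)
    have hk : Fs.length ≤ k := by simpa using hn
    have hFs' : ∀ r ∈ Fs, r ∈ maximalIdeal R := fun r hr => hFs r (by simp [hr])
    let e := Submodule.quotOfListConsSMulTopEquivQuotSMulTopInner M y Fs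
    have hlen : k + 1 - (y :: Fs).length = k - Fs.length := by simp
    rw [hlen] at hdim ⊢
    rw [Module.supportDim_eq_of_equiv e] at hdim
    have h2 := CM3_dim_le (M := QuotSMulTop y M) Fs hFs'
    have h3 : Module.supportDim R (QuotSMulTop y M) ≤ (k : WithBot ℕ∞) := by
      refine h2.trans ((add_le_add_left hdim _).trans (le_of_eq ?_))
      rw [← Nat.cast_add, Nat.sub_add_cancel hk]
    have hreg : IsSMulRegular M y := by
      refine regular_of_dim h (lt_of_le_of_lt h3 ?_)
      exact_mod_cast Nat.lt_succ_self k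
    have h4 := depth_drop h hy hreg
    exact CM3_Dp_congr e.symm (ih hFs' h4 hk hdim)

/-- the local statement used below -/
theorem local_nzd {R : Type} [CommRing R] [IsLocalRing R] [IsNoetherianRing R] {n : ℕ}
    (hR : Dp R R n) (Fs : List R) (hFs : ∀ r ∈ Fs, r ∈ maximalIdeal R) (hn : Fs.length ≤ n)
    (hdim : ringKrullDim (R ⧸ Ideal.ofList Fs) ≤ ((n - Fs.length : ℕ) : WithBot ℕ∞)) {y : R}
    (hy : ringKrullDim (R ⧸ (Ideal.ofList Fs ⊔ Ideal.span {y})) <
      ((n - Fs.length : ℕ) : WithBot ℕ∞)) {a : R}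
    (ha : y * a ∈ Ideal.ofList Fs) : a ∈ Ideal.ofList Fs := by
  have hI : (Ideal.ofList Fs • ⊤ : Submodule R R) = Ideal.ofList Fs := by
    simp
  have h1 : Dp R (R ⧸ (Ideal.ofList Fs • ⊤ : Submodule R R)) (n - Fs.length) := by
    refine Dp_quot Fs hFs hR hn ?_
    rw [hI]
    rw [Module.supportDim_quotient_eq_ringKrullDim]
    exact hdim
  rw [hI] at h1
  have h2 : IsSMulRegular (R ⧸ Ideal.ofList Fs) y := by
    refine regular_of_dim h1 (lt_of_le_of_lt ?_ hy)
    rw [ringKrullDim_quotient, Module.supportDim]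
    refine Order.krullDim_le_of_strictMono (fun q => ⟨q.1, ?_⟩) (fun {_ _} lt ↦ lt)
    have hq : q.1 ∈ Module.support R (R ⧸ Ideal.ofList Fs) ∩ PrimeSpectrum.zeroLocus {y} := by
      rw [← Module.support_quotSMulTop]
      exact q.2
    obtain ⟨hq1, hq2⟩ := hq
    rw [Module.mem_support_iff_of_finite, Ideal.annihilator_quotient] at hq1
    intro b hb
    have hle : Ideal.ofList Fs ⊔ Ideal.span {y} ≤ q.1.asIdeal := by
      refine sup_le hq1 ?_
      rw [Ideal.span_singleton_le_iff_mem]
      exact hq2 rfl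
    exact hle hb
  have h3 : y • (Ideal.Quotient.mk (Ideal.ofList Fs) a) = 0 := by
    have : y • (Ideal.Quotient.mk (Ideal.ofList Fs) a) =
      Ideal.Quotient.mk (Ideal.ofList Fs) (y * a) := rfl
    rw [this]
    exact Ideal.Quotient.eq_zero_iff_mem.mpr ha
  exact Ideal.Quotient.eq_zero_iff_mem.mp (h2.right_eq_zero_of_smul h3)

end Pool.Agent.LibVol74
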