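import Pool.Agent.LibVol74.Basic

/-!
# The quotient by the saturation of a vector of degree zero (row Q1)
-/

set_option autoImplicit false

namespace Pool.Agent.LibVol74

variable {n r : ℕ} {g : Fin n → ℕ}

/-- quotient of `ℤ^(r+1)` by the saturation of a non-zero vector -/
theorem exists_quot (x : Fin (r + 1) → ℤ) (hx : x ≠ 0) :
    ∃ ρ : (Fin (r + 1) → ℤ) →+ (Fin r → ℤ), Function.Surjective ρ ∧
      ∀ w, ρ w = 0 ↔ ∃ m k : ℤ, m ≠ 0 ∧ m • w = k • x := by
  classical
  -- a basis adapted to `x`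
  obtain ⟨B, i₀, a, ha, hB⟩ : ∃ (B : Module.Basis (Fin (r + 1)) ℤ (Fin (r + 1) → ℤ))
      (i₀ : Fin (r + 1)) (a : ℤ), a ≠ 0 ∧ x = a • B i₀ := by
    obtain ⟨n, snf⟩ := Submodule.smithNormalForm (Pi.basisFun ℤ (Fin (r + 1)))
      (Submodule.span ℤ {x})
    have hn : n ≠ 0 := by
      rintro rfl
      have h1 : (⟨x, Submodule.mem_span_singleton_self x⟩ : Submodule.span ℤ {x}) = 0 := by
        have h2 := snf.bN.sum_repr ⟨x, Submodule.mem_span_singleton_self x⟩
        rw [← h2]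
        simp
      exact hx (congrArg Subtype.val h1)
    have hn1 : n = 1 := by
      have h1 : Module.finrank ℤ (Submodule.span ℤ {x}) = 1 := by
        rw [← (LinearEquiv.toSpanNonzeroSingleton ℤ (Fin (r + 1) → ℤ) x hx).finrank_eq]
        exact Module.finrank_self ℤ
      rw [Module.finrank_eq_card_basis snf.bN, Fintype.card_fin] at h1
      exact h1
    subst hn1
    obtain ⟨c, hc⟩ : ∃ c : ℤ, x = c • ((snf.bN 0 : Submodule.span ℤ {x}) : Fin (r + 1) → ℤ) := by
      have h2 := snf.bN.sum_repr ⟨x, Submodule.mem_span_singleton_self x⟩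
      rw [Fin.sum_univ_one] at h2
      have h3 := congrArg Subtype.val h2
      exact ⟨_, h3.symm⟩
    have h4 := snf.snf 0
    rw [h4, smul_smul] at hc
    refine ⟨snf.bM, snf.f 0, c * snf.a 0, ?_, hc⟩
    intro h5
    rw [h5, zero_smul] at hc
    exact hx hc
  refine ⟨⟨⟨fun w j => B.equivFun w (i₀.succAbove j), ?_⟩, ?_⟩, ?_, ?_⟩
  · funext j
    simp
  · intro v w
    funext j
    simp
  · intro y
    refine ⟨B.equivFun.symm (Fin.insertNth (α := fun _ => ℤ) i₀ 0 y), ?_⟩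
    funext j
    change B.equivFun (B.equivFun.symm (Fin.insertNth (α := fun _ => ℤ) i₀ 0 y))
      (i₀.succAbove j) = y j
    rw [LinearEquiv.apply_symm_apply, Fin.insertNth_apply_succAbove]
  · intro w
    have hw : ∀ v : Fin (r + 1) → ℤ, (∀ j : Fin r, B.equivFun v (i₀.succAbove j) = 0) →
        v = B.equivFun v i₀ • B i₀ := by
      intro v hv
      conv_lhs => rw [← B.sum_equivFun v]
      rw [Fin.sum_univ_succAbove _ i₀, Finset.sum_eq_zero (fun j _ => by rw [hv j, zero_smul]),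
        add_zero]
    constructor
    · intro h0
      have h1 : ∀ j : Fin r, B.equivFun w (i₀.succAbove j) = 0 := fun j => congrFun h0 j
      refine ⟨a, B.equivFun w i₀, ha, ?_⟩
      have h2 := hw w h1
      rw [hB, smul_smul, mul_comm, ← smul_smul, ← h2]
    · rintro ⟨m, k, hm, hmk⟩
      funext j
      change B.equivFun w (i₀.succAbove j) = 0
      have h1 := congrFun (congrArg B.equivFun hmk) (i₀.succAbove j)
      rw [map_smul, map_smul, Pi.smul_apply, Pi.smul_apply, hB, map_smul, Pi.smul_apply] at h1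
      have h2 : B.equivFun (B i₀) (i₀.succAbove j) = 0 := by
        rw [Module.Basis.equivFun_self, if_neg (Fin.succAbove_ne i₀ j).symm]
      rw [h2, smul_zero, smul_zero] at h1
      exact (smul_eq_zero.1 h1).resolve_left hm

/-- projections can be divided by a vector of degree zero -/
theorem exists_proj_quot (p : Proj g (r + 1)) (x : Fin (r + 1) → ℤ) (hx : x ≠ 0)
    (hd : p.δ x = 0) :
    ∃ (p' : Proj g r) (ρ : (Fin (r + 1) → ℤ) →+ (Fin r → ℤ)), Function.Surjective ρ ∧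
      (∀ v, p'.π v = ρ (p.π v)) ∧ (∀ y, p'.δ (ρ y) = p.δ y) ∧
      ∀ w, ρ w = 0 ↔ ∃ m k : ℤ, m ≠ 0 ∧ m • w = k • x := by
  obtain ⟨ρ, hρ, hker⟩ := exists_quot x hx
  obtain ⟨δ', hδ'⟩ : ∃ δ' : (Fin r → ℤ) →+ ℤ, ∀ y, δ' (ρ y) = p.δ y := by
    have hle : ρ.ker ≤ p.δ.ker := by
      intro w hw
      rw [AddMonoidHom.mem_ker] at hw ⊢
      obtain ⟨m, k, hm, hmk⟩ := (hker w).1 hw
      have h1 := congrArg p.δ hmk
      rw [map_zsmul, map_zsmul, hd, smul_zero] at h1
      exact (smul_eq_zero.1 h1).resolve_left hm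
    refine ⟨AddMonoidHom.liftOfSurjective ρ hρ ⟨p.δ, hle⟩, fun y => ?_⟩
    exact AddMonoidHom.liftOfRightInverse_comp_apply ρ _ (Function.rightInverse_surjInv hρ)
      ⟨p.δ, hle⟩ y
  refine ⟨⟨ρ.comp p.π, δ', hρ.comp p.surj, fun v => ?_⟩, ρ, hρ, fun v => rfl, hδ', hker⟩
  change δ' (ρ (p.π v)) = dg g v
  rw [hδ', p.deg]

end Pool.Agent.LibVol74
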