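import Pool.Agent.LibVol74.S1

/-!
# Coefficients (row S2)
-/

set_option autoImplicit false

namespace Pool.Agent.LibVol74

open PowerSeries Finset

variable {n : ℕ}

/-- the product formula at stage `k` -/
def IsSt (D : Dat n) (k : ℕ) (A : PowerSeries ℤ) : Prop :=
  A * ∏ i, (1 - (X : PowerSeries ℤ) ^ D.g i) = ∏ j ∈ range k, (1 - (X : PowerSeries ℤ) ^ D.b j)

private theorem S2_ne_zero {d : ℕ} (hd : 0 < d) : (1 - (X : PowerSeries ℤ) ^ d) ≠ 0 := by
  intro h
  have h1 := congrArg (coeff 0) h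
  rw [map_sub, PowerSeries.coeff_X_pow, if_neg (by omega : ¬ 0 = d)] at h1
  simp at h1

theorem IsSt.mul_tail {D : Dat n} {k : ℕ} {A : PowerSeries ℤ} (hA : IsSt D k A)
    (hk : k ≤ n - 1) :
    A * ∏ j ∈ Ico k (n - 1), (1 - (X : PowerSeries ℤ) ^ D.b j) = HS D.S := by
  have hne : ∏ i, (1 - (X : PowerSeries ℤ) ^ D.g i) ≠ 0 :=
    Finset.prod_ne_zero_iff.2 fun i _ => S2_ne_zero (D.gpos i)
  refine mul_right_cancel₀ hne ?_
  rw [D.H, mul_right_comm]
  unfold IsSt at hA
  rw [hA, Finset.range_eq_Ico, Finset.range_eq_Ico,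
    Finset.prod_Ico_consecutive _ (Nat.zero_le k) hk]

/-- geometric series -/
private noncomputable def S2_geo (d : ℕ) : PowerSeries ℤ :=
  PowerSeries.mk fun N => if d ∣ N then 1 else 0

private theorem S2_geo_mul {d : ℕ} (hd : 0 < d) : (1 - (X : PowerSeries ℤ) ^ d) * S2_geo d = 1 := by
  ext N
  rw [sub_mul, one_mul, map_sub, PowerSeries.coeff_X_pow_mul', S2_geo, PowerSeries.coeff_mk,
    PowerSeries.coeff_one]
  by_cases h : d ≤ N
  · rw [if_pos h, PowerSeries.coeff_mk, if_neg (by omega : ¬ N = 0)]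
    have : d ∣ N - d ↔ d ∣ N := by
      constructor
      · intro h1
        have := (Nat.dvd_add_right (dvd_refl d)).2 h1
        rwa [Nat.add_sub_cancel' h] at this
      · intro h1
        exact Nat.dvd_sub h1 (dvd_refl d)
    simp only [this, sub_self]
  · rw [if_neg h, sub_zero]
    by_cases h0 : N = 0
    · subst h0
      simp
    · rw [if_neg h0, if_neg]
      intro h1
      exact h (Nat.le_of_dvd (Nat.pos_of_ne_zero h0) h1)

private theorem S2_geo_nonneg (d N : ℕ) : 0 ≤ coeff N (S2_geo d) := by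
  rw [S2_geo, PowerSeries.coeff_mk]
  split_ifs <;> norm_num

private theorem S2_geo_zero (d : ℕ) : coeff 0 (S2_geo d) = 1 := by
  rw [S2_geo, PowerSeries.coeff_mk]
  simp

private theorem S2_mul_nonneg {P Q : PowerSeries ℤ} (hP : ∀ N, 0 ≤ coeff N P)
    (hQ : ∀ N, 0 ≤ coeff N Q) (N : ℕ) : 0 ≤ coeff N (P * Q) := by
  rw [PowerSeries.coeff_mul]
  exact Finset.sum_nonneg fun x _ => mul_nonneg (hP _) (hQ _)

private theorem S2_mul_ge {P Q : PowerSeries ℤ} (hP : ∀ N, 0 ≤ coeff N P)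
    (hQ : ∀ N, 0 ≤ coeff N Q) (hQ0 : coeff 0 Q = 1) (N : ℕ) : coeff N P ≤ coeff N (P * Q) := by
  rw [PowerSeries.coeff_mul]
  have h1 : coeff N P = coeff (N, 0).1 P * coeff (N, 0).2 Q := by
    simp only [hQ0, mul_one]
  rw [h1]
  exact Finset.single_le_sum (f := fun x : ℕ × ℕ => coeff x.1 P * coeff x.2 Q)
    (fun x _ => mul_nonneg (hP _) (hQ _)) (by simp)

private theorem S2_prod_nonneg (s : Finset ℕ) (f : ℕ → PowerSeries ℤ)
    (hf : ∀ j N, 0 ≤ coeff N (f j)) : ∀ N, 0 ≤ coeff N (∏ j ∈ s, f j) := by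
  classical
  induction s using Finset.induction_on with
  | empty =>
    intro N
    rw [Finset.prod_empty, PowerSeries.coeff_one]
    split_ifs <;> norm_num
  | insert a s ha ih =>
    rw [Finset.prod_insert ha]
    exact S2_mul_nonneg (hf a) ih

private theorem S2_prod_zero (s : Finset ℕ) (f : ℕ → PowerSeries ℤ)
    (hf : ∀ j, coeff 0 (f j) = 1) : coeff 0 (∏ j ∈ s, f j) = 1 := by
  rw [PowerSeries.coeff_zero_eq_constantCoeff_apply, map_prod]
  refine Finset.prod_eq_one fun j _ => ?_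
  rw [← PowerSeries.coeff_zero_eq_constantCoeff_apply]
  exact hf j

private theorem S2_HS_nonneg (S : AddSubmonoid ℕ) (N : ℕ) : 0 ≤ coeff N (HS S) := by
  rw [HS, PowerSeries.coeff_mk]
  split_ifs <;> norm_num

private theorem S2_HS_zero (S : AddSubmonoid ℕ) : coeff 0 (HS S) = 1 := by
  rw [HS, PowerSeries.coeff_mk, if_pos S.zero_mem]

/-- The coefficient at the next label is at least `1 + [b k ∈ S]`: by `mul_tail`,
`A = HS · ∏_{k ≤ j < n-1} 1/(1 - X^{b_j})`, all factors have non-negative coefficients and constant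
coefficient `1`; the factor `j = k` gives `HS (1 + X^{b k} + …)`. -/
theorem IsSt.coeff_ge {D : Dat n} {k : ℕ} {A : PowerSeries ℤ} (hA : IsSt D k A)
    (hk : k < n - 1) :
    1 ≤ coeff (D.b k) A ∧ (D.b k ∈ D.S → 2 ≤ coeff (D.b k) A) := by
  classical
  have h1 := hA.mul_tail hk.le
  have h2 : A = HS D.S * ∏ j ∈ Ico k (n - 1), S2_geo (D.b j) := by
    rw [← h1, mul_assoc, ← Finset.prod_mul_distrib,
      Finset.prod_eq_one fun j _ => S2_geo_mul (D.bpos j), mul_one]
  have h3 : A = (HS D.S * S2_geo (D.b k)) * ∏ j ∈ Ico (k + 1) (n - 1), S2_geo (D.b j) := by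
    rw [h2, mul_assoc, Finset.prod_eq_prod_Ico_succ_bot hk]
  have h4 : coeff (D.b k) (HS D.S * S2_geo (D.b k)) ≤ coeff (D.b k) A := by
    conv_rhs => rw [h3]
    exact S2_mul_ge (S2_mul_nonneg (S2_HS_nonneg _) (S2_geo_nonneg _))
      (S2_prod_nonneg _ _ fun j => S2_geo_nonneg _) (S2_prod_zero _ _ fun j => S2_geo_zero _) _
  have hb := D.bpos k
  have hsum : ∀ T : Finset (ℕ × ℕ), T ⊆ antidiagonal (D.b k) →
      ∑ x ∈ T, coeff x.1 (HS D.S) * coeff x.2 (S2_geo (D.b k)) ≤ coeff (D.b k) A := by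
    intro T hT
    refine le_trans ?_ h4
    rw [PowerSeries.coeff_mul]
    exact Finset.sum_le_sum_of_subset_of_nonneg hT
      fun x _ _ => mul_nonneg (S2_HS_nonneg _ _) (S2_geo_nonneg _ _)
  have hg : coeff (D.b k) (S2_geo (D.b k)) = 1 := by
    rw [S2_geo, PowerSeries.coeff_mk, if_pos (dvd_refl _)]
  constructor
  · have h5 := hsum {(0, D.b k)} (by
      intro x hx
      rw [Finset.mem_singleton] at hx
      rw [hx, HasAntidiagonal.mem_antidiagonal]
      simp)
    rw [Finset.sum_singleton, hg, S2_HS_zero] at h5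
    linarith
  · intro hS
    have h5 := hsum {(0, D.b k), (D.b k, 0)} (by
      intro x hx
      rw [Finset.mem_insert, Finset.mem_singleton] at hx
      rw [HasAntidiagonal.mem_antidiagonal]
      rcases hx with rfl | rfl <;> simp)
    have hne : ((0, D.b k) : ℕ × ℕ) ≠ (D.b k, 0) := by
      intro h
      have := congrArg Prod.snd h
      simp only at this
      omega
    rw [Finset.sum_pair hne, hg, S2_HS_zero, S2_geo_zero, HS, PowerSeries.coeff_mk, if_pos hS] at h5
    linarith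

private theorem S2_dvd (s : Finset ℕ) (b : ℕ → ℕ) (m : ℕ) (h : ∀ j ∈ s, m ≤ b j) :
    (X : PowerSeries ℤ) ^ m ∣ ∏ j ∈ s, (1 - (X : PowerSeries ℤ) ^ b j) - 1 := by
  classical
  induction s using Finset.induction_on with
  | empty => simp
  | insert a s ha ih =>
    rw [Finset.prod_insert ha]
    have h1 := ih fun j hj => h j (Finset.mem_insert_of_mem hj)
    have h2 : (X : PowerSeries ℤ) ^ m ∣ X ^ b a := pow_dvd_pow _ (h a (Finset.mem_insert_self a s))
    have e : (1 - (X : PowerSeries ℤ) ^ b a) * ∏ j ∈ s, (1 - (X : PowerSeries ℤ) ^ b j) - 1 =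
        (∏ j ∈ s, (1 - (X : PowerSeries ℤ) ^ b j) - 1) -
          X ^ b a * ∏ j ∈ s, (1 - (X : PowerSeries ℤ) ^ b j) := by ring
    rw [e]
    exact dvd_sub h1 (Dvd.dvd.mul_right h2 _)

/-- below the next label the coefficients are those of the Hilbert series of `S` -/
theorem IsSt.coeff_lt {D : Dat n} {k : ℕ} {A : PowerSeries ℤ} (hA : IsSt D k A)
    (hk : k ≤ n - 1) {N : ℕ} (hN : k < n - 1 → N < D.b k) :
    coeff N A = coeff N (HS D.S) := by
  have h1 := hA.mul_tail hk
  rcases Nat.lt_or_ge k (n - 1) with h2 | h2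
  · obtain ⟨Q, hQ⟩ := S2_dvd (Ico k (n - 1)) D.b (D.b k)
      fun j hj => D.mono (Finset.mem_Ico.1 hj).1
    have h3 : ∏ j ∈ Ico k (n - 1), (1 - (X : PowerSeries ℤ) ^ D.b j) = 1 + X ^ D.b k * Q := by
      rw [← hQ]
      ring
    rw [← h1, h3, mul_add, mul_one, map_add]
    have e : A * (X ^ D.b k * Q) = X ^ D.b k * (A * Q) := by ring
    rw [e, PowerSeries.coeff_X_pow_mul', if_neg (by have := hN h2; omega), add_zero]
  · have : k = n - 1 := le_antisymm hk h2
    rw [← h1, this, Finset.Ico_self, Finset.prod_empty, mul_one]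

end Pool.Agent.LibVol74
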