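import Pool.Agent.LibVol74.T1
import Pool.Agent.LibVol74.S2
import Pool.Agent.LibVol74.Quot

/-!
# Stages (definition)
-/

set_option autoImplicit false

namespace Pool.Agent.LibVol74

open MvPolynomial

variable {n r : ℕ}

/-- stage `k`: the toric ideal of `p` is generated by `k` forms of positive weight, and the Hilbert
series is the product of the first `k` label factors over the denominators -/
structure Stage (D : Dat n) (k : ℕ) (p : Proj D.g r) : Prop where
  rk : r + k = n
  st : IsSt D k p.HP
  gens : ∃ F : Fin k → MvPolynomial (Fin n) ℚ,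
    (∀ j, ∃ t : ℕ, 0 < t ∧ (F j).IsWeightedHomogeneous D.g t) ∧
      Ideal.span (Set.range F) = p.I
  dim : ringKrullDim (MvPolynomial (Fin n) ℚ ⧸ p.I) ≤ (r : WithBot ℕ∞)

end Pool.Agent.LibVol74
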