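import Pool.Agent.LibVol74.T1

/-!
# Weak and exact count (row T2)
-/

set_option autoImplicit false

namespace Pool.Agent.LibVol74

open MvPolynomial

variable {n r : ℕ} {g : Fin n → ℕ}

/-- the weak inequality (`V = ⊥` in `StepData.count`) -/
theorem StepData.weak (hg : ∀ i, 0 < g i) {p : Proj g (r + 1)} {p' : Proj g r}
    {u v : Fin n → ℕ} {t : ℕ} (hs : StepData p p' u v t) (M : ℕ) :
    p'.h M + (if t ≤ M then p.h (M - t) else 0) ≤ p.h M := by
  have h := hs.count hg M ⊥ bot_le
    (fun f hf => by
      rw [Submodule.mem_bot] at hf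
      rw [hf]
      exact Ideal.zero_mem _)
    (fun f hf _ => by simpa using hf)
  simpa using h

/-- the rank theorem for the restriction of a linear map to a finite-dimensional subspace -/
theorem finrank_map_add_inf_ker {V W : Type*} [AddCommGroup V] [Module ℚ V] [AddCommGroup W]
    [Module ℚ W] (f : V →ₗ[ℚ] W) (E : Submodule ℚ V) [Module.Finite ℚ E] :
    Module.finrank ℚ (E.map f) + Module.finrank ℚ (E ⊓ LinearMap.ker f : Submodule ℚ V) =
      Module.finrank ℚ E := by
  have h := LinearMap.finrank_range_add_finrank_ker (f.comp E.subtype)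
  have h1 : LinearMap.range (f.comp E.subtype) = E.map f := by
    rw [LinearMap.range_comp, Submodule.range_subtype]
  have h2 : (LinearMap.ker (f.comp E.subtype)).map E.subtype = E ⊓ LinearMap.ker f := by
    rw [LinearMap.ker_comp, Submodule.map_comap_subtype]
  have h3 : Module.finrank ℚ ((LinearMap.ker (f.comp E.subtype)).map E.subtype) =
      Module.finrank ℚ (LinearMap.ker (f.comp E.subtype)) :=
    (Submodule.equivMapOfInjective E.subtype E.injective_subtype _).symm.finrank_eq
  rw [h1] at h
  rw [← h2, h3]
  exact h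

attribute [local instance] MvPolynomial.weightedGradedAlgebra in
theorem component_mul_of_le {F : MvPolynomial (Fin n) ℚ} {t : ℕ}
    (hF : F.IsWeightedHomogeneous g t) (a : MvPolynomial (Fin n) ℚ) {M : ℕ} (h : t ≤ M) :
    weightedHomogeneousComponent g M (a * F) =
      weightedHomogeneousComponent g (M - t) a * F := by
  have h1 := DirectSum.coe_decompose_mul_of_right_mem_of_le
    (weightedHomogeneousSubmodule ℚ g) (a := a) (b := F) (i := t) (n := M) hF h
  have e1 := weightedDecomposition.decompose'_apply ℚ g (a * F) M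
  have e2 := weightedDecomposition.decompose'_apply ℚ g a (M - t)
  rw [← e1, ← e2]
  exact h1

attribute [local instance] MvPolynomial.weightedGradedAlgebra in
theorem component_mul_of_not_le {F : MvPolynomial (Fin n) ℚ} {t : ℕ}
    (hF : F.IsWeightedHomogeneous g t) (a : MvPolynomial (Fin n) ℚ) {M : ℕ} (h : ¬ t ≤ M) :
    weightedHomogeneousComponent g M (a * F) = 0 := by
  have h1 := DirectSum.coe_decompose_mul_of_right_mem_of_not_le
    (weightedHomogeneousSubmodule ℚ g) (a := a) (b := F) (i := t) (n := M) hF h
  have e1 := weightedDecomposition.decompose'_apply ℚ g (a * F) M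
  rw [← e1]
  exact h1

/-- Equality of ideals gives the exact count: the kernel of `p.W M → p'.W M` is exactly
`p.φ F • p.W (M - t)` (`f = a + F h`, take components of weight `M`, use `I_component`), and `0` if
`M < t`. -/
theorem StepData.exact (hg : ∀ i, 0 < g i) {p : Proj g (r + 1)} {p' : Proj g r}
    {u v : Fin n → ℕ} {t : ℕ} (hs : StepData p p' u v t)
    (hI : p'.I = p.I ⊔ Ideal.span {bin u v}) (M : ℕ) :
    p'.h M + (if t ≤ M then p.h (M - t) else 0) = p.h M := by
  refine le_antisymm (hs.weak hg M) ?_
  -- the space of forms of weight `M`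
  have hEfg : (weightedHomogeneousSubmodule ℚ g M).FG :=
    weightedHomogeneousSubmodule_fg ℚ g (fun x => (hg x).ne') M
  have hEfin : Module.Finite ℚ (weightedHomogeneousSubmodule ℚ g M) :=
    Module.Finite.iff_fg.mpr hEfg
  have hn1 := finrank_map_add_inf_ker p.φ.toLinearMap (weightedHomogeneousSubmodule ℚ g M)
  have hn2 := finrank_map_add_inf_ker p'.φ.toLinearMap (weightedHomogeneousSubmodule ℚ g M)
  have hr1 : Module.finrank ℚ
      ((weightedHomogeneousSubmodule ℚ g M).map p.φ.toLinearMap) = p.h M :=
    finrank_W hg p M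
  have hr2 : Module.finrank ℚ
      ((weightedHomogeneousSubmodule ℚ g M).map p'.φ.toLinearMap) = p'.h M :=
    finrank_W hg p' M
  have hKfin : Module.Finite ℚ (weightedHomogeneousSubmodule ℚ g M ⊓
      LinearMap.ker p'.φ.toLinearMap : Submodule ℚ (MvPolynomial (Fin n) ℚ)) :=
    Submodule.finiteDimensional_of_le inf_le_left
  have hn3 := finrank_map_add_inf_ker p.φ.toLinearMap
    (weightedHomogeneousSubmodule ℚ g M ⊓ LinearMap.ker p'.φ.toLinearMap)
  have hKfin1 : Module.Finite ℚ (weightedHomogeneousSubmodule ℚ g M ⊓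
      LinearMap.ker p.φ.toLinearMap : Submodule ℚ (MvPolynomial (Fin n) ℚ)) :=
    Submodule.finiteDimensional_of_le inf_le_left
  have hk3 : Module.finrank ℚ (weightedHomogeneousSubmodule ℚ g M ⊓
        LinearMap.ker p'.φ.toLinearMap ⊓ LinearMap.ker p.φ.toLinearMap :
        Submodule ℚ (MvPolynomial (Fin n) ℚ)) ≤
      Module.finrank ℚ (weightedHomogeneousSubmodule ℚ g M ⊓
      LinearMap.ker p.φ.toLinearMap : Submodule ℚ (MvPolynomial (Fin n) ℚ)) :=
    Submodule.finrank_mono (inf_le_inf_right _ inf_le_left)
  -- key: the image of the kernel is small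
  have hkey : Module.finrank ℚ ((weightedHomogeneousSubmodule ℚ g M ⊓
        LinearMap.ker p'.φ.toLinearMap).map p.φ.toLinearMap) ≤
      (if t ≤ M then p.h (M - t) else 0) := by
    have hmem : ∀ x ∈ (weightedHomogeneousSubmodule ℚ g M ⊓
        LinearMap.ker p'.φ.toLinearMap), ∃ a ∈ p.I, ∃ h : MvPolynomial (Fin n) ℚ,
        x = a + h * bin u v := by
      intro x hx
      have hx' : x ∈ p'.I := hx.2
      rw [hI, Submodule.mem_sup] at hx'
      obtain ⟨a, ha, b, hb, hab⟩ := hx'
      rw [Ideal.mem_span_singleton'] at hb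
      obtain ⟨c, hc⟩ := hb
      exact ⟨a, ha, c, by rw [← hab, hc]⟩
    have hcomp : ∀ x ∈ weightedHomogeneousSubmodule ℚ g M,
        weightedHomogeneousComponent g M x = x := by
      intro x hx
      exact IsWeightedHomogeneous.weightedHomogeneousComponent_same hx
    have hbin := bin_hom (g := g) hs.hu hs.hv
    split_ifs with htM
    · rw [← finrank_W hg p (M - t)]
      have := W_finite hg p (M - t)
      let mu : AddMonoidAlgebra ℚ (Fin (r + 1) → ℤ) →ₗ[ℚ] AddMonoidAlgebra ℚ (Fin (r + 1) → ℤ) :=
        LinearMap.mulRight ℚ (p.φ (bin u v))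
      have hle : (weightedHomogeneousSubmodule ℚ g M ⊓
          LinearMap.ker p'.φ.toLinearMap).map p.φ.toLinearMap ≤
          Submodule.map mu (p.W (M - t)) := by
        rintro _ ⟨x, hxK, rfl⟩
        obtain ⟨a, ha, h, hx⟩ := hmem x hxK
        have h1 := congrArg (weightedHomogeneousComponent g M) hx
        rw [hcomp x hxK.1, map_add, component_mul_of_le hbin h htM] at h1
        have h2 : p.φ.toLinearMap x =
            p.φ (weightedHomogeneousComponent g (M - t) h) * p.φ (bin u v) := by
          change p.φ x = _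
          rw [h1, map_add, map_mul]
          have h3 : p.φ (weightedHomogeneousComponent g M a) = 0 := I_component p ha M
          rw [h3, zero_add]
        rw [h2]
        exact ⟨p.φ (weightedHomogeneousComponent g (M - t) h),
          ⟨_, weightedHomogeneousComponent_mem g h (M - t), rfl⟩, rfl⟩
      have : Module.Finite ℚ (Submodule.map mu (p.W (M - t))) := inferInstance
      exact (Submodule.finrank_mono hle).trans (Submodule.finrank_map_le mu (p.W (M - t)))
    · have hbot : (weightedHomogeneousSubmodule ℚ g M ⊓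
          LinearMap.ker p'.φ.toLinearMap).map p.φ.toLinearMap = ⊥ := by
        rw [eq_bot_iff]
        rintro _ ⟨x, hxK, rfl⟩
        obtain ⟨a, ha, h, hx⟩ := hmem x hxK
        have h1 := congrArg (weightedHomogeneousComponent g M) hx
        rw [hcomp x hxK.1, map_add, component_mul_of_not_le hbin h htM, add_zero] at h1
        rw [Submodule.mem_bot]
        change p.φ x = 0
        rw [h1]
        exact I_component p ha M
      rw [hbot]
      simp
  rw [hr1] at hn1
  rw [hr2] at hn2
  omega

end Pool.Agent.LibVol74
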