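import Pool.Agent.LibVol74.A1

/-!
# Spaces of forms (row T3)
-/

set_option autoImplicit false

namespace Pool.Agent.LibVol74

open MvPolynomial

variable {n : ℕ} {g : Fin n → ℕ}

private theorem T3_aeval {d : ℕ} (L m : ℕ) (θ : Fin d → MvPolynomial (Fin n) ℚ)
    (hθ : ∀ i, (θ i).IsWeightedHomogeneous g L) (P : MvPolynomial (Fin d) ℚ)
    (hP : P.IsHomogeneous m) : (aeval θ P).IsWeightedHomogeneous g (m * L) := by
  rw [P.as_sum, map_sum]
  refine IsWeightedHomogeneous.sum _ _ _ ?_
  intro s hs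
  rw [aeval_monomial]
  have hdeg : ∑ i, s i = m := by
    have h : Finsupp.weight (1 : Fin d → ℕ) s = m := hP (mem_support_iff.mp hs)
    rw [← Finsupp.degree_eq_sum]
    rw [← h]
    exact DFunLike.congr_fun Finsupp.degree_eq_weight_one s
  have h1 : (s.prod fun i k => θ i ^ k) = ∏ i, θ i ^ s i :=
    Finsupp.prod_fintype _ _ (fun i => pow_zero _)
  rw [h1]
  have h2 : (∏ i, θ i ^ s i).IsWeightedHomogeneous g (∑ i, s i • L) :=
    IsWeightedHomogeneous.prod _ _ _ (fun i _ => (hθ i).pow (s i))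
  have h3 : ∑ i, s i • L = m * L := by
    rw [← hdeg, Finset.sum_mul]
    rfl
  rw [h3] at h2
  exact h2.C_mul _

/-- The spaces of forms produced by `reg_growth`: `V = {aeval θ P * f | P homogeneous of degree m}`;
`P ↦ aeval θ P * f` is injective on forms of degree `m` by `hK` (`0 ∈ K`), and there are
`(m + d - 1).choose (d - 1)` monomials of degree `m` in `d` variables. -/
theorem finrank_forms {d : ℕ} (hd : 0 < d) (L m d0 : ℕ) (θ : Fin d → MvPolynomial (Fin n) ℚ)
    (hθ : ∀ i, (θ i).IsWeightedHomogeneous g L) (f : MvPolynomial (Fin n) ℚ)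
    (hf : f.IsWeightedHomogeneous g d0) (K : Ideal (MvPolynomial (Fin n) ℚ))
    (hK : ∀ (m : ℕ) (P : MvPolynomial (Fin d) ℚ), P.IsHomogeneous m → P ≠ 0 →
      aeval θ P * f ∉ K) :
    ∃ V : Submodule ℚ (MvPolynomial (Fin n) ℚ), Module.Finite ℚ V ∧
      V ≤ weightedHomogeneousSubmodule ℚ g (d0 + m * L) ∧
      (∀ h ∈ V, h ∈ Ideal.span {f}) ∧ (∀ h ∈ V, h ∈ K → h = 0) ∧
      (m + d - 1).choose (d - 1) ≤ Module.finrank ℚ V := by
  classical
  set Φ : MvPolynomial (Fin d) ℚ →ₗ[ℚ] MvPolynomial (Fin n) ℚ :=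
    (LinearMap.mulRight ℚ f) ∘ₗ (aeval θ).toLinearMap with hΦ
  have hΦa : ∀ P, Φ P = aeval θ P * f := by
    intro P
    rw [hΦ]
    rfl
  set V := (homogeneousSubmodule (Fin d) ℚ m).map Φ with hV
  have hfin : Module.Finite ℚ V := by
    rw [Module.Finite.iff_fg]
    exact (homogeneousSubmodule_fg (Fin d) ℚ m).map Φ
  refine ⟨V, hfin, ?_, ?_, ?_, ?_⟩
  · rintro h ⟨P, hP, rfl⟩
    rw [hΦa, mem_weightedHomogeneousSubmodule, add_comm]
    exact (T3_aeval L m θ hθ P hP).mul hf
  · rintro h ⟨P, hP, rfl⟩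
    rw [hΦa]
    exact Ideal.mul_mem_left _ _ (Ideal.subset_span rfl)
  · rintro h ⟨P, hP, rfl⟩ hmem
    rw [hΦa] at hmem ⊢
    by_cases h0 : P = 0
    · rw [h0, map_zero, zero_mul]
    · exact absurd hmem (hK m P hP h0)
  · set ι := Finset.finsuppAntidiag (Finset.univ : Finset (Fin d)) m with hι
    have hdegι : ∀ s ∈ ι, s.degree = m := by
      intro s hs
      rw [hι, Finset.mem_finsuppAntidiag] at hs
      rw [Finsupp.degree_eq_sum]
      exact hs.1
    have hmem : ∀ s : ι, Φ (monomial s.1 1) ∈ V := by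
      intro s
      exact ⟨_, isHomogeneous_monomial 1 (hdegι s.1 s.2), rfl⟩
    set v : ι → V := fun s => ⟨Φ (monomial s.1 1), hmem s⟩ with hv
    have hli : LinearIndependent ℚ v := by
      rw [Fintype.linearIndependent_iff]
      intro c hc i
      have h1 : Φ (∑ s : ι, c s • monomial s.1 (1 : ℚ)) = 0 := by
        rw [map_sum]
        have h2 := congrArg (Subtype.val) hc
        rw [AddSubmonoidClass.coe_finsetSum] at h2
        simpa [hv] using h2
      have hP : (∑ s : ι, c s • monomial s.1 (1 : ℚ)).IsHomogeneous m := by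
        refine IsHomogeneous.sum _ _ _ ?_
        intro s _
        rw [smul_monomial]
        exact isHomogeneous_monomial _ (hdegι s.1 s.2)
      have h3 : (∑ s : ι, c s • monomial s.1 (1 : ℚ)) = 0 := by
        by_contra hne
        have h4 := hK m _ hP hne
        rw [← hΦa, h1] at h4
        exact h4 (zero_mem K)
      have h5 := congrArg (coeff i.1) h3
      rw [coeff_sum, coeff_zero, Finset.sum_eq_single i] at h5
      · rw [coeff_smul, coeff_monomial, if_pos rfl] at h5
        simpa using h5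
      · intro s _ hs
        rw [coeff_smul, coeff_monomial, if_neg (fun h => hs (Subtype.ext h)), smul_zero]
      · intro h; exact absurd (Finset.mem_univ _) h
    have h6 := hli.fintype_card_le_finrank
    rw [Fintype.card_coe, hι, Finset.card_finsuppAntidiag_nat_eq_choose, Finset.card_univ,
      Fintype.card_fin] at h6
    refine le_trans (le_of_eq ?_) h6
    rw [Nat.add_comm m d]
    refine Nat.choose_symm_of_eq_add ?_
    omega

/-- ideal generated by a family and one more element -/
theorem span_range_snoc {c : ℕ} (F : Fin c → MvPolynomial (Fin n) ℚ)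
    (f : MvPolynomial (Fin n) ℚ) :
    Ideal.span (Set.range (Fin.snoc (α := fun _ => MvPolynomial (Fin n) ℚ) F f)) =
      Ideal.span (Set.range F) ⊔ Ideal.span {f} := by
  rw [← Ideal.span_union]
  congr 1
  ext x
  simp only [Set.mem_range, Set.mem_union, Set.mem_singleton_iff]
  constructor
  · rintro ⟨i, rfl⟩
    refine Fin.lastCases ?_ ?_ i
    · right
      simp
    · intro j
      left
      exact ⟨j, by simp⟩
  · rintro (⟨j, rfl⟩ | rfl)
    · exact ⟨Fin.castSucc j, by simp⟩
    · exact ⟨Fin.last c, by simp⟩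

end Pool.Agent.LibVol74
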