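import Pool.Agent.LibVol74.G0
import Pool.Agent.LibVol74.T2
import Pool.Agent.LibVol74.T3

/-!
# Stage zero and the successor (row G1)
-/

set_option autoImplicit false

namespace Pool.Agent.LibVol74

open MvPolynomial

variable {n r : ℕ}

theorem idProj_phi_coeff (g : Fin n → ℕ) (f : MvPolynomial (Fin n) ℚ) (u : Fin n →₀ ℕ) :
    ((idProj g).φ f).coeff (toZ ⇑u) = MvPolynomial.coeff u f := by
  classical
  induction f using MvPolynomial.induction_on' with
  | monomial v c =>
    rw [phi_monomial, AddMonoidAlgebra.coeff_single, Finsupp.single_apply, coeff_monomial]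
    have h : (idProj g).π (toZ ⇑v) = toZ ⇑u ↔ v = u := by
      constructor
      · intro h
        exact DFunLike.coe_injective (toZ_injective h)
      · rintro rfl
        rfl
    by_cases hv : v = u
    · rw [if_pos (h.2 hv), if_pos hv]
    · rw [if_neg (fun h' => hv (h.1 h')), if_neg hv]
  | add p q hp hq =>
    rw [map_add, AddMonoidAlgebra.coeff_add, Finsupp.add_apply, hp, hq, coeff_add]

theorem idProj_I (g : Fin n → ℕ) : (idProj g).I = ⊥ := by
  refine le_antisymm ?_ bot_le
  intro f hf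
  have hf' : (idProj g).φ f = 0 := hf
  rw [Ideal.mem_bot]
  ext u
  rw [← idProj_phi_coeff g f u, hf']
  rfl

/-- stage `0`: `HP_id`, `MvPolynomial.ringKrullDim_of_isNoetherianRing`, `(idProj g).I = ⊥`. -/
theorem stage_zero (D : Dat n) : Stage D 0 (idProj D.g) := by
  refine ⟨rfl, ?_, ⟨fun j => j.elim0, fun j => j.elim0, ?_⟩, ?_⟩
  · have h := HP_id D.gpos
    unfold IsSt
    rw [h]
    simp
  · rw [idProj_I, Set.range_eq_empty, Ideal.span_empty]
  · refine (ringKrullDim_quotient_le _).trans ?_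
    rw [MvPolynomial.ringKrullDim_of_isNoetherianRing]
    simp

/-- The ideal `p.I + (f)` has dimension at most `r`: `ℚ[x]/p.I` is a domain and `f` is not zero in it
(`ringKrullDim_quotient_succ_le_of_nonZeroDivisor`). -/
theorem dim_sup {D : Dat n} {k : ℕ} {p : Proj D.g (r + 1)} (hst : Stage D k p)
    (f : MvPolynomial (Fin n) ℚ) (hf : f ∉ p.I) :
    ringKrullDim (MvPolynomial (Fin n) ℚ ⧸ (p.I ⊔ Ideal.span {f})) ≤ (r : WithBot ℕ∞) := by
  have := I_prime p
  have h0 : Ideal.Quotient.mk p.I f ≠ 0 := by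
    rwa [Ne, Ideal.Quotient.eq_zero_iff_mem]
  have h1 := ringKrullDim_quotient_succ_le_of_nonZeroDivisor (mem_nonZeroDivisors_of_ne_zero h0)
  have h2 : ringKrullDim (MvPolynomial (Fin n) ℚ ⧸ (p.I ⊔ Ideal.span {f})) =
      ringKrullDim ((MvPolynomial (Fin n) ℚ ⧸ p.I) ⧸
        Ideal.span {Ideal.Quotient.mk p.I f}) := by
    have h3 : ringKrullDim ((MvPolynomial (Fin n) ℚ ⧸ p.I) ⧸
          Ideal.map (Ideal.Quotient.mk p.I) (Ideal.span {f})) =
        ringKrullDim (MvPolynomial (Fin n) ℚ ⧸ (p.I ⊔ Ideal.span {f})) :=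
      @ringKrullDim_eq_of_ringEquiv _ _ (Ideal.Quotient.commRing _).toCommSemiring
        (Ideal.Quotient.commRing _).toCommSemiring
        (DoubleQuot.quotQuotEquivQuotSup p.I (Ideal.span {f}))
    rw [← h3]
    have h4 : Ideal.map (Ideal.Quotient.mk p.I) (Ideal.span {f}) =
        Ideal.span {Ideal.Quotient.mk p.I f} := by
      rw [Ideal.map_span, Set.image_singleton]
    rw [h4]
  have h5 := h1.trans hst.dim
  rw [← h2] at h5
  generalize ringKrullDim (MvPolynomial (Fin n) ℚ ⧸ (p.I ⊔ Ideal.span {f})) = x at h5 ⊢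
  rw [Nat.cast_add, Nat.cast_one] at h5
  induction x using WithBot.recBotCoe with
  | bot => exact bot_le
  | coe x =>
    have h6 : x + 1 ≤ (r : ℕ∞) + 1 := by exact_mod_cast h5
    have h7 : x ≤ (r : ℕ∞) := (ENat.add_le_add_iff_right ENat.one_ne_top).1 h6
    exact_mod_cast h7

/-- If the ideal is right then the next stage is reached (`StepData.exact`, `HP_step`, `dim_sup`,
`span_range_snoc`, `bin_hom`, `StepData.bin_notMem`). -/
theorem stage_succ {D : Dat n} {k : ℕ} {p : Proj D.g (r + 1)} (hst : Stage D k p)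
    {p' : Proj D.g r} {u v : Fin n → ℕ} (hs : StepData p p' u v (D.b k))
    (hI : p'.I = p.I ⊔ Ideal.span {bin u v}) : Stage D (k + 1) p' := by
  obtain ⟨F, hF, hFI⟩ := hst.gens
  refine ⟨?_, ?_, ⟨Fin.snoc (α := fun _ => MvPolynomial (Fin n) ℚ) F (bin u v), ?_, ?_⟩, ?_⟩
  · have := hst.rk
    omega
  · have h1 := HP_step (hs.exact D.gpos hI)
    have h2 := hst.st
    unfold IsSt at h2 ⊢
    rw [h1, mul_assoc, h2, Finset.prod_range_succ, mul_comm]
  · intro j
    refine Fin.lastCases ?_ (fun i => ?_) j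
    · rw [Fin.snoc_last]
      exact ⟨D.b k, hs.tpos, bin_hom hs.hu hs.hv⟩
    · rw [Fin.snoc_castSucc]
      exact hF i
  · rw [span_range_snoc, hFI, hI]
  · rw [hI]
    exact dim_sup hst _ hs.bin_notMem

end Pool.Agent.LibVol74
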