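import Pool.Agent.LibVol74.S2

/-!
# The labels are in the semigroup (row S3)
-/

set_option autoImplicit false

namespace Pool.Agent.LibVol74

open PowerSeries Finset

variable {n : ℕ}

/-- a power series whose coefficients outside `S` vanish -/
private def S3_supp (S : AddSubmonoid ℕ) (f : PowerSeries ℤ) : Prop :=
  ∀ N : ℕ, N ∉ S → coeff N f = 0

private theorem S3_supp_one (S : AddSubmonoid ℕ) : S3_supp S 1 := by
  intro N hN
  rw [PowerSeries.coeff_one, if_neg]
  rintro rfl
  exact hN S.zero_mem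

private theorem S3_supp_mul {S : AddSubmonoid ℕ} {f g : PowerSeries ℤ} (hf : S3_supp S f)
    (hg : S3_supp S g) : S3_supp S (f * g) := by
  intro N hN
  rw [PowerSeries.coeff_mul]
  refine Finset.sum_eq_zero fun p hp => ?_
  rw [Finset.HasAntidiagonal.mem_antidiagonal] at hp
  by_cases h1 : p.1 ∈ S
  · by_cases h2 : p.2 ∈ S
    · exact absurd (hp ▸ S.add_mem h1 h2) hN
    · rw [hg _ h2, mul_zero]
  · rw [hf _ h1, zero_mul]

private theorem S3_supp_prod {ι : Type*} {S : AddSubmonoid ℕ} {f : ι → PowerSeries ℤ}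
    (s : Finset ι) (hf : ∀ i ∈ s, S3_supp S (f i)) : S3_supp S (∏ i ∈ s, f i) := by
  classical
  induction s using Finset.induction_on with
  | empty => simpa using S3_supp_one S
  | insert a s ha ih =>
    rw [Finset.prod_insert ha]
    exact S3_supp_mul (hf a (Finset.mem_insert_self a s))
      (ih fun i hi => hf i (Finset.mem_insert_of_mem hi))

private theorem S3_supp_one_sub {S : AddSubmonoid ℕ} {m : ℕ} (hm : m ∈ S) :
    S3_supp S (1 - (X : PowerSeries ℤ) ^ m) := by
  intro N hN
  rw [map_sub, S3_supp_one S N hN, PowerSeries.coeff_X_pow, if_neg, sub_zero]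
  rintro rfl
  exact hN hm

private theorem S3_supp_HS (S : AddSubmonoid ℕ) : S3_supp S (HS S) := by
  intro N hN
  rw [HS, PowerSeries.coeff_mk, if_neg hN]

/-- the geometric series -/
private noncomputable def S3_geo (m : ℕ) : PowerSeries ℤ :=
  PowerSeries.mk fun k => if m ∣ k then (1 : ℤ) else 0

private theorem S3_geo_mul {m : ℕ} (hm : 0 < m) :
    (1 - (X : PowerSeries ℤ) ^ m) * S3_geo m = 1 := by
  ext N
  rw [sub_mul, one_mul, map_sub, PowerSeries.coeff_X_pow_mul', PowerSeries.coeff_one]
  simp only [S3_geo, PowerSeries.coeff_mk]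
  by_cases h : m ≤ N
  · rw [if_pos h]
    have h0 : N ≠ 0 := by omega
    rw [if_neg h0]
    have : (m ∣ N) ↔ (m ∣ N - m) := by
      constructor
      · intro hd
        exact Nat.dvd_sub hd (dvd_refl m)
      · intro hd
        have := Nat.dvd_add hd (dvd_refl m)
        rwa [Nat.sub_add_cancel h] at this
    by_cases hd : m ∣ N
    · rw [if_pos hd, if_pos (this.1 hd), sub_self]
    · rw [if_neg hd, if_neg (fun h' => hd (this.2 h')), sub_self]
  · rw [if_neg h, sub_zero]
    by_cases h0 : N = 0
    · subst h0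
      simp
    · rw [if_neg h0, if_neg]
      intro hd
      exact h (Nat.le_of_dvd (Nat.pos_of_ne_zero h0) hd)

private theorem S3_supp_geo {S : AddSubmonoid ℕ} {m : ℕ} (hm : m ∈ S) :
    S3_supp S (S3_geo m) := by
  intro N hN
  rw [S3_geo, PowerSeries.coeff_mk, if_neg]
  rintro ⟨k, rfl⟩
  apply hN
  have := S.nsmul_mem hm k
  rwa [smul_eq_mul, mul_comm] at this

private theorem S3_coeff_prod (b : ℕ → ℕ) {m : ℕ} (hm : 0 < m) (s : Finset ℕ)
    (hs : ∀ i ∈ s, m ≤ b i) :
    coeff 0 (∏ i ∈ s, (1 - (X : PowerSeries ℤ) ^ b i)) = 1 ∧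
    coeff m (∏ i ∈ s, (1 - (X : PowerSeries ℤ) ^ b i)) =
      -(((s.filter fun i => b i = m).card : ℕ) : ℤ) := by
  classical
  induction s using Finset.induction_on with
  | empty =>
    refine ⟨by simp, ?_⟩
    rw [Finset.prod_empty, PowerSeries.coeff_one, if_neg hm.ne']
    simp
  | insert a s ha ih =>
    obtain ⟨h0, h1⟩ := ih fun i hi => hs i (Finset.mem_insert_of_mem hi)
    have hba : m ≤ b a := hs a (Finset.mem_insert_self a s)
    rw [Finset.prod_insert ha, sub_mul, one_mul, map_sub, map_sub,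
      PowerSeries.coeff_X_pow_mul', PowerSeries.coeff_X_pow_mul', h0, h1]
    refine ⟨?_, ?_⟩
    · rw [if_neg (by omega), sub_zero]
    · rw [Finset.filter_insert]
      by_cases hb : b a = m
      · rw [if_pos hb.le, if_pos hb, hb, Nat.sub_self, h0, Finset.card_insert_of_notMem]
        · push_cast
          ring
        · intro h
          exact ha (Finset.mem_filter.1 h).1
      · rw [if_neg (by omega), if_neg hb, sub_zero]

/-- The labels are elements of the semigroup. Proof: `K = ∏_{j<n-1} (1 - X^{b_j}) = HS · ∏ (1 - X^{g_i})`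
is supported on `S` (all exponents are sums of elements of `S`). Call a power series supported on `S`
if its coefficients outside `S` vanish; these series form a ring. By induction on `j`:
`∏_{j ≤ i < n-1} (1 - X^{b_i}) = K · ∏_{i<j} 1/(1 - X^{b_i})` is supported on `S`, and its coefficient
at `b_j` is `-#{i ≥ j | b_i = b_j} ≠ 0`. -/
theorem b_mem (D : Dat n) {j : ℕ} (hj : j < n - 1) : D.b j ∈ D.S := by
  classical
  have hg : ∀ i, D.g i ∈ D.S := by
    intro i
    rw [← D.gen]
    exact AddSubmonoid.subset_closure ⟨i, rfl⟩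
  have hK : S3_supp D.S (∏ i ∈ Finset.range (n - 1), (1 - (X : PowerSeries ℤ) ^ D.b i)) := by
    rw [← D.H]
    exact S3_supp_mul (S3_supp_HS D.S)
      (S3_supp_prod _ fun i _ => S3_supp_one_sub (hg i))
  induction j using Nat.strong_induction_on with
  | _ j ih =>
    by_contra hnot
    have hsplit : (∏ i ∈ Finset.Ico j (n - 1), (1 - (X : PowerSeries ℤ) ^ D.b i)) =
        (∏ i ∈ Finset.range (n - 1), (1 - (X : PowerSeries ℤ) ^ D.b i)) *
          ∏ i ∈ Finset.range j, S3_geo (D.b i) := by
      rw [← Finset.prod_range_mul_prod_Ico _ hj.le]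
      have : (∏ i ∈ Finset.range j, (1 - (X : PowerSeries ℤ) ^ D.b i)) *
          ∏ i ∈ Finset.range j, S3_geo (D.b i) = 1 := by
        rw [← Finset.prod_mul_distrib]
        exact Finset.prod_eq_one fun i _ => S3_geo_mul (D.bpos i)
      rw [mul_right_comm, this, one_mul]
    have hsupp : S3_supp D.S (∏ i ∈ Finset.Ico j (n - 1), (1 - (X : PowerSeries ℤ) ^ D.b i)) := by
      rw [hsplit]
      refine S3_supp_mul hK (S3_supp_prod _ fun i hi => S3_supp_geo ?_)
      have hi' := Finset.mem_range.1 hi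
      exact ih i hi' (hi'.trans hj)
    have h1 := hsupp (D.b j) hnot
    have h2 := (S3_coeff_prod D.b (D.bpos j) (Finset.Ico j (n - 1)) (fun i hi =>
      D.mono (Finset.mem_Ico.1 hi).1)).2
    rw [h1] at h2
    have h3 : 0 < ((Finset.Ico j (n - 1)).filter fun i => D.b i = D.b j).card := by
      refine Finset.card_pos.2 ⟨j, ?_⟩
      rw [Finset.mem_filter, Finset.mem_Ico]
      exact ⟨⟨le_refl j, hj⟩, rfl⟩
    omega

end Pool.Agent.LibVol74
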