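import Pool.Agent.LibVol74.G0
import Pool.Agent.LibVol74.S3

/-!
# Existence of a step (row G2)
-/

set_option autoImplicit false

namespace Pool.Agent.LibVol74

open MvPolynomial

variable {n r : ℕ}

/-- At every stage there is a next step. By `b_mem` and `IsSt.coeff_ge` the level `b k` has at least
two elements; `exists_two` gives `u, v`; `exists_proj_quot` with `x = p.π (toZ u) - p.π (toZ v)`
gives `p'`. -/
theorem exists_step {D : Dat n} {k : ℕ} {p : Proj D.g (r + 1)} (hst : Stage D k p)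
    (hk : k < n - 1) :
    ∃ (p' : Proj D.g r) (u v : Fin n → ℕ), StepData p p' u v (D.b k) := by
  have hb : D.b k ∈ D.S := b_mem D hk
  have h2 : (2 : ℤ) ≤ PowerSeries.coeff (D.b k) p.HP := (hst.st.coeff_ge hk).2 hb
  have h2' : 2 ≤ p.h (D.b k) := by
    simp only [Proj.HP, PowerSeries.coeff_mk] at h2
    exact_mod_cast h2
  obtain ⟨u, v, hu, hv, hne⟩ := exists_two D.gpos p h2'
  have hx : p.π (toZ u) - p.π (toZ v) ≠ 0 := sub_ne_zero.mpr hne
  have hd : p.δ (p.π (toZ u) - p.π (toZ v)) = 0 := by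
    rw [map_sub, p.deg, p.deg, dg_toZ, dg_toZ, hu, hv, sub_self]
  obtain ⟨p', ρ, -, hπ, -, hker⟩ := exists_proj_quot p _ hx hd
  refine ⟨p', u, v, ⟨hu, hv, D.bpos k, hne, ?_, ?_⟩⟩
  · intro w hw
    rw [hπ, hw, map_zero]
  · intro w
    rw [hπ]
    exact hker _

end Pool.Agent.LibVol74
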