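import Pool.Agent.LibVol74.S2

/-!
# Upper bound for the partial sums (row S4)

Note on `IsSt.sum_le`: the partial sum up to `Y` of `1/(1-X) · ∏ 1/(1 - X^{b_j})` would count
`(c, x, a)` with `c + x + ∑ a_j b_j ≤ Y`; what is needed is only
`∑_{N ≤ Y} coeff N A = #{(γ, a) | γ ∈ S, γ + ∑ a_j b_j ≤ Y} ≤ #{(x, a) ∈ ℕ × ℕ^s | x + ∑ a_j b_j ≤ Y}`.
-/

set_option autoImplicit false

namespace Pool.Agent.LibVol74

open PowerSeries Finset

variable {n : ℕ}

theorem s4_bern (m : ℕ) {x t : ℝ} (hx : 0 ≤ x) (ht : 0 ≤ t) :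
    x ^ (m + 1) + ((m : ℝ) + 1) * t * x ^ m ≤ (x + t) ^ (m + 1) := by
  induction m with
  | zero => simp
  | succ m ih =>
    have h1 : (x + t) * (x ^ (m + 1) + ((m : ℝ) + 1) * t * x ^ m) ≤ (x + t) * (x + t) ^ (m + 1) :=
      mul_le_mul_of_nonneg_left ih (by positivity)
    have h2 : 0 ≤ ((m : ℝ) + 1) * t ^ 2 * x ^ m := by positivity
    push_cast
    calc x ^ (m + 1 + 1) + ((m : ℝ) + 1 + 1) * t * x ^ (m + 1)
        ≤ (x + t) * (x ^ (m + 1) + ((m : ℝ) + 1) * t * x ^ m) := by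
          have : (x + t) * (x ^ (m + 1) + ((m : ℝ) + 1) * t * x ^ m) =
              x ^ (m + 1 + 1) + ((m : ℝ) + 1 + 1) * t * x ^ (m + 1) +
                ((m : ℝ) + 1) * t ^ 2 * x ^ m := by ring
          rw [this]; linarith
      _ ≤ (x + t) * (x + t) ^ (m + 1) := h1
      _ = (x + t) ^ (m + 1 + 1) := by ring

theorem s4_conv (m : ℕ) {a b c : ℝ} (ha : 0 ≤ a) (hab : a ≤ b) (hc : 0 ≤ c) :
    b ^ m - a ^ m ≤ (b + c) ^ m - (a + c) ^ m := by
  induction m with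
  | zero => simp
  | succ m ih =>
    have h0 : 0 ≤ b ^ m - a ^ m := sub_nonneg.2 (pow_le_pow_left₀ ha hab m)
    have h1 : b * (b ^ m - a ^ m) ≤ (b + c) * ((b + c) ^ m - (a + c) ^ m) :=
      mul_le_mul (by linarith) ih h0 (by linarith)
    have h2 : (b - a) * a ^ m ≤ (b - a) * (a + c) ^ m :=
      mul_le_mul_of_nonneg_left (pow_le_pow_left₀ ha (by linarith) m) (by linarith)
    have e1 : b ^ (m + 1) - a ^ (m + 1) = b * (b ^ m - a ^ m) + (b - a) * a ^ m := by ring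
    have e2 : (b + c) ^ (m + 1) - (a + c) ^ (m + 1) =
        (b + c) * ((b + c) ^ m - (a + c) ^ m) + (b - a) * (a + c) ^ m := by ring
    rw [e1, e2]; linarith

theorem s4_step {G H : ℕ → ℝ} {t m : ℕ} {κ C : ℝ} (ht : 0 < t) (hκ : 0 ≤ κ) (hC : 0 ≤ C)
    (hG : ∀ Y, G Y ≤ H Y + if t ≤ Y then G (Y - t) else 0)
    (hH : ∀ Y : ℕ, H Y ≤ κ * (Y : ℝ) ^ m / (m.factorial : ℝ) +
      C * ((m : ℝ) * ((Y : ℝ) + 1) ^ (m - 1))) (Y : ℕ) :
    G Y ≤ κ / t * (Y : ℝ) ^ (m + 1) / ((m + 1).factorial : ℝ) +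
      (κ / (m.factorial : ℝ) + C * m) * ((Y : ℝ) + 1) ^ m := by
  have hf : (0 : ℝ) < (m.factorial : ℝ) := by exact_mod_cast m.factorial_pos
  have hf1 : (0 : ℝ) < ((m + 1).factorial : ℝ) := by exact_mod_cast (m + 1).factorial_pos
  have ht0 : (0 : ℝ) < (t : ℝ) := by exact_mod_cast ht
  have hff : ((m + 1).factorial : ℝ) = ((m : ℝ) + 1) * (m.factorial : ℝ) := by
    rw [Nat.factorial_succ]; push_cast; ring
  induction Y using Nat.strong_induction_on with
  | _ Y ih =>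
    have hY0 : (0 : ℝ) ≤ (Y : ℝ) := Nat.cast_nonneg Y
    have hb : C * ((m : ℝ) * ((Y : ℝ) + 1) ^ (m - 1)) ≤ C * ((m : ℝ) * ((Y : ℝ) + 1) ^ m) := by
      refine mul_le_mul_of_nonneg_left (mul_le_mul_of_nonneg_left ?_ (Nat.cast_nonneg m)) hC
      exact pow_le_pow_right₀ (by linarith) (Nat.sub_le m 1)
    by_cases hYt : t ≤ Y
    · have h1 := hG Y
      rw [if_pos hYt] at h1
      have h2 := ih (Y - t) (by omega)
      have hcast : ((Y - t : ℕ) : ℝ) = (Y : ℝ) - t := by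
        rw [Nat.cast_sub hYt]
      rw [hcast] at h2
      have hty : (t : ℝ) ≤ (Y : ℝ) := by exact_mod_cast hYt
      set y : ℝ := (Y : ℝ) with hy
      set z : ℝ := y - t with hz
      have hz0 : 0 ≤ z := by rw [hz]; linarith
      have hyz : y = z + t := by rw [hz]; ring
      -- (i)
      have i1 : κ / t * z ^ (m + 1) / ((m + 1).factorial : ℝ) + κ * z ^ m / (m.factorial : ℝ) ≤
          κ / t * y ^ (m + 1) / ((m + 1).factorial : ℝ) := by
        have hbn := s4_bern m hz0 ht0.le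
        rw [← hyz] at hbn
        have hk : 0 ≤ κ / t / ((m + 1).factorial : ℝ) := by positivity
        have h3 := mul_le_mul_of_nonneg_left hbn hk
        have e : κ / t / ((m + 1).factorial : ℝ) * (z ^ (m + 1) + ((m : ℝ) + 1) * t * z ^ m) =
            κ / t * z ^ (m + 1) / ((m + 1).factorial : ℝ) + κ * z ^ m / (m.factorial : ℝ) := by
          rw [hff]
          field_simp
        rw [e] at h3
        calc _ ≤ κ / t / ((m + 1).factorial : ℝ) * y ^ (m + 1) := h3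
          _ = _ := by ring
      -- (ii)
      have i2 : κ / (m.factorial : ℝ) * (y ^ m - z ^ m) ≤
          κ / (m.factorial : ℝ) * ((y + 1) ^ m - (z + 1) ^ m) :=
        mul_le_mul_of_nonneg_left (s4_conv m hz0 (by linarith) zero_le_one) (by positivity)
      -- (iii)
      have i3 : C * ((m : ℝ) * (y + 1) ^ (m - 1)) ≤ C * m * ((y + 1) ^ m - (z + 1) ^ m) := by
        rcases Nat.eq_zero_or_pos m with hm | hm
        · subst hm; simp
        · obtain ⟨m', rfl⟩ : ∃ m', m = m' + 1 := ⟨m - 1, by omega⟩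
          have hz1 : (z + 1) ^ (m' + 1) ≤ (y + 1) ^ m' * (z + 1) := by
            rw [pow_succ]
            exact mul_le_mul_of_nonneg_right (pow_le_pow_left₀ (by linarith) (by linarith) m')
              (by linarith)
          have ht1 : (1 : ℝ) ≤ t := by exact_mod_cast ht
          have hp : 0 ≤ (y + 1) ^ m' := by positivity
          have h4 : (y + 1) ^ m' ≤ (y + 1) ^ (m' + 1) - (z + 1) ^ (m' + 1) := by
            have e5 : (y + 1) ^ (m' + 1) = (y + 1) ^ m' * (z + 1) + (y + 1) ^ m' * t := by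
              rw [pow_succ, hyz]; ring
            have : (y + 1) ^ m' * 1 ≤ (y + 1) ^ m' * t := mul_le_mul_of_nonneg_left ht1 hp
            rw [e5]; linarith
          rw [Nat.add_sub_cancel, mul_assoc]
          exact mul_le_mul_of_nonneg_left (mul_le_mul_of_nonneg_left h4 (Nat.cast_nonneg _)) hC
      have h5 := hH Y
      have e6 : κ * y ^ m / (m.factorial : ℝ) = κ / (m.factorial : ℝ) * (y ^ m - z ^ m) +
          κ * z ^ m / (m.factorial : ℝ) := by ring
      have e7 : (κ / (m.factorial : ℝ) + C * m) * (y + 1) ^ m =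
          (κ / (m.factorial : ℝ) + C * m) * (z + 1) ^ m +
          κ / (m.factorial : ℝ) * ((y + 1) ^ m - (z + 1) ^ m) +
          C * m * ((y + 1) ^ m - (z + 1) ^ m) := by ring
      rw [e7]
      rw [e6] at h5
      linarith
    · have h1 := hG Y
      rw [if_neg hYt, add_zero] at h1
      have h5 := hH Y
      have h6 : κ * (Y : ℝ) ^ m / (m.factorial : ℝ) ≤ κ / (m.factorial : ℝ) * ((Y : ℝ) + 1) ^ m := by
        have : κ / (m.factorial : ℝ) * (Y : ℝ) ^ m ≤ κ / (m.factorial : ℝ) * ((Y : ℝ) + 1) ^ m :=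
          mul_le_mul_of_nonneg_left (pow_le_pow_left₀ hY0 (by linarith) m) (by positivity)
        calc _ = κ / (m.factorial : ℝ) * (Y : ℝ) ^ m := by ring
          _ ≤ _ := this
      have h7 : 0 ≤ κ / t * (Y : ℝ) ^ (m + 1) / ((m + 1).factorial : ℝ) := by positivity
      have e8 : (κ / (m.factorial : ℝ) + C * m) * ((Y : ℝ) + 1) ^ m =
          κ / (m.factorial : ℝ) * ((Y : ℝ) + 1) ^ m + C * ((m : ℝ) * ((Y : ℝ) + 1) ^ m) := by ring
      rw [e8]
      linarith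

theorem s4_fin (s : ℕ) (d : Fin s → ℕ) (hd : ∀ i, 0 < d i) (Y : ℕ) :
    {a : Fin s → ℕ | ∑ i, a i * d i ≤ Y}.Finite := by
  refine (Set.finite_Icc (0 : Fin s → ℕ) (fun _ => Y)).subset ?_
  intro a ha
  refine ⟨fun i => Nat.zero_le _, fun i => ?_⟩
  have h1 : a i * d i ≤ ∑ i, a i * d i :=
    Finset.single_le_sum (f := fun i => a i * d i) (fun _ _ => Nat.zero_le _) (Finset.mem_univ i)
  have h2 : a i ≤ a i * d i := Nat.le_mul_of_pos_right _ (hd i)
  exact h2.trans (h1.trans ha)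

theorem s4_rec (s : ℕ) (d : Fin (s + 1) → ℕ) (hd : ∀ i, 0 < d i) (Y : ℕ) :
    {a : Fin (s + 1) → ℕ | ∑ i, a i * d i ≤ Y}.ncard ≤
      {a : Fin s → ℕ | ∑ i, a i * d i.succ ≤ Y}.ncard +
        if d 0 ≤ Y then {a : Fin (s + 1) → ℕ | ∑ i, a i * d i ≤ Y - d 0}.ncard else 0 := by
  have hf1 := s4_fin s (fun i => d i.succ) (fun i => hd _) Y
  have hf2 := s4_fin (s + 1) d hd (Y - d 0)
  by_cases hY : d 0 ≤ Y
  · rw [if_pos hY]
    have hsub : {a : Fin (s + 1) → ℕ | ∑ i, a i * d i ≤ Y} ⊆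
        (fun a : Fin s → ℕ => (Fin.cons 0 a : Fin (s + 1) → ℕ)) ''
          {a : Fin s → ℕ | ∑ i, a i * d i.succ ≤ Y} ∪
        (fun a : Fin (s + 1) → ℕ => (Fin.cons (a 0 + 1) (Fin.tail a) : Fin (s + 1) → ℕ)) ''
          {a : Fin (s + 1) → ℕ | ∑ i, a i * d i ≤ Y - d 0} := by
      intro a ha
      have ha' : ∑ i, a i * d i ≤ Y := ha
      rw [Fin.sum_univ_succ] at ha'
      by_cases h0 : a 0 = 0
      · left
        refine ⟨Fin.tail a, ?_, ?_⟩
        · show ∑ i, Fin.tail a i * d i.succ ≤ Y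
          have : ∑ i, Fin.tail a i * d i.succ = ∑ i : Fin s, a i.succ * d i.succ := rfl
          rw [this]; omega
        · show (Fin.cons 0 (Fin.tail a) : Fin (s + 1) → ℕ) = a
          rw [← h0]; exact Fin.cons_self_tail a
      · right
        refine ⟨(Fin.cons (a 0 - 1) (Fin.tail a) : Fin (s + 1) → ℕ), ?_, ?_⟩
        · show ∑ i, (Fin.cons (a 0 - 1) (Fin.tail a) : Fin (s + 1) → ℕ) i * d i ≤ Y - d 0
          rw [Fin.sum_univ_succ]
          simp only [Fin.cons_zero, Fin.cons_succ]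
          have e1 : ∑ i : Fin s, Fin.tail a i * d i.succ = ∑ i : Fin s, a i.succ * d i.succ := rfl
          rw [e1]
          obtain ⟨c, hc⟩ : ∃ c, a 0 = c + 1 := ⟨a 0 - 1, by omega⟩
          rw [hc] at ha' ⊢
          have : (c + 1) * d 0 = c * d 0 + d 0 := by ring
          rw [this] at ha'
          simp only [Nat.add_sub_cancel]
          omega
        · show (Fin.cons ((Fin.cons (a 0 - 1) (Fin.tail a) : Fin (s + 1) → ℕ) 0 + 1)
            (Fin.tail (Fin.cons (a 0 - 1) (Fin.tail a) : Fin (s + 1) → ℕ)) : Fin (s + 1) → ℕ) = a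
          rw [Fin.cons_zero, Fin.tail_cons]
          have : a 0 - 1 + 1 = a 0 := by omega
          rw [this]; exact Fin.cons_self_tail a
    refine (Set.ncard_le_ncard hsub ((hf1.image _).union (hf2.image _))).trans ?_
    refine (Set.ncard_union_le _ _).trans ?_
    exact Nat.add_le_add (Set.ncard_image_le hf1) (Set.ncard_image_le hf2)
  · rw [if_neg hY, add_zero]
    have hsub : {a : Fin (s + 1) → ℕ | ∑ i, a i * d i ≤ Y} ⊆
        (fun a : Fin s → ℕ => (Fin.cons 0 a : Fin (s + 1) → ℕ)) ''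
          {a : Fin s → ℕ | ∑ i, a i * d i.succ ≤ Y} := by
      intro a ha
      have ha' : ∑ i, a i * d i ≤ Y := ha
      rw [Fin.sum_univ_succ] at ha'
      have h0 : a 0 = 0 := by
        by_contra h0
        have : d 0 ≤ a 0 * d 0 := Nat.le_mul_of_pos_left _ (by omega)
        omega
      refine ⟨Fin.tail a, ?_, ?_⟩
      · show ∑ i, Fin.tail a i * d i.succ ≤ Y
        have : ∑ i, Fin.tail a i * d i.succ = ∑ i : Fin s, a i.succ * d i.succ := rfl
        rw [this]; omega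
      · show (Fin.cons 0 (Fin.tail a) : Fin (s + 1) → ℕ) = a
        rw [← h0]; exact Fin.cons_self_tail a
    exact (Set.ncard_le_ncard hsub (hf1.image _)).trans (Set.ncard_image_le hf1)

/-- Number of points of a simplex, upper bound.  Induction on `s`: sum over the last coordinate `k`
and use `∑_{k ≤ Y/d} (Y - k d)^s ≤ Y^(s+1)/((s+1) d) + Y^s`.  (Or: the unit cubes at the points lie
in the simplex `∑ x_i d_i ≤ Y + ∑ d_i`.) -/
theorem simplex_card_le (s : ℕ) (d : Fin s → ℕ) (hd : ∀ i, 0 < d i) :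
    ∃ C : ℝ, ∀ Y : ℕ, (({a : Fin s → ℕ | ∑ i, a i * d i ≤ Y}.ncard : ℕ) : ℝ) ≤
      (Y : ℝ) ^ s / ((s.factorial : ℝ) * ∏ i, (d i : ℝ)) + C * ((Y : ℝ) + 1) ^ (s - 1) := by
  have key : ∀ (s : ℕ) (d : Fin s → ℕ), (∀ i, 0 < d i) → ∃ C : ℝ, 0 ≤ C ∧ ∀ Y : ℕ,
      (({a : Fin s → ℕ | ∑ i, a i * d i ≤ Y}.ncard : ℕ) : ℝ) ≤
      (1 / ∏ i, (d i : ℝ)) * (Y : ℝ) ^ s / (s.factorial : ℝ) +
        C * ((s : ℝ) * ((Y : ℝ) + 1) ^ (s - 1)) := by
    intro s
    induction s with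
    | zero =>
      intro d _
      refine ⟨0, le_rfl, fun Y => ?_⟩
      simp
    | succ s ih =>
      intro d hd
      obtain ⟨C, hC, h⟩ := ih (fun i => d i.succ) (fun i => hd _)
      have hP : 0 ≤ 1 / ∏ i : Fin s, ((d i.succ : ℕ) : ℝ) := by positivity
      refine ⟨(1 / ∏ i : Fin s, ((d i.succ : ℕ) : ℝ)) / (s.factorial : ℝ) + C * s, by positivity,
        fun Y => ?_⟩
      have h2 := s4_step (G := fun Y => (({a : Fin (s + 1) → ℕ | ∑ i, a i * d i ≤ Y}.ncard : ℕ) : ℝ))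
        (H := fun Y => (({a : Fin s → ℕ | ∑ i, a i * d i.succ ≤ Y}.ncard : ℕ) : ℝ))
        (t := d 0) (m := s) (hd 0) hP hC (fun Y => by
          have h3 := s4_rec s d hd Y
          by_cases hY : d 0 ≤ Y
          · rw [if_pos hY] at h3 ⊢
            exact_mod_cast h3
          · rw [if_neg hY] at h3 ⊢
            exact_mod_cast h3) h Y
      have e1 : (1 / ∏ i : Fin s, ((d i.succ : ℕ) : ℝ)) / ((d 0 : ℕ) : ℝ) =
          1 / ∏ i, (d i : ℝ) := by
        rw [Fin.prod_univ_succ, div_div, mul_comm]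
      rw [e1] at h2
      refine h2.trans ?_
      refine add_le_add le_rfl ?_
      rw [Nat.add_sub_cancel]
      refine mul_le_mul_of_nonneg_left ?_ (by positivity)
      have h4 : (1 : ℝ) ≤ ((s + 1 : ℕ) : ℝ) := by
        exact_mod_cast Nat.succ_le_succ (Nat.zero_le s)
      have h5 : 0 ≤ ((Y : ℝ) + 1) ^ s := by positivity
      exact le_mul_of_one_le_left h5 h4
  obtain ⟨C, hC, h⟩ := key s d hd
  refine ⟨C * s, fun Y => ?_⟩
  have h1 := h Y
  have e1 : (1 / ∏ i, (d i : ℝ)) * (Y : ℝ) ^ s / (s.factorial : ℝ) =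
      (Y : ℝ) ^ s / ((s.factorial : ℝ) * ∏ i, (d i : ℝ)) := by
    rw [div_mul_eq_mul_div, one_mul, div_div, mul_comm (s.factorial : ℝ)]
  rw [e1] at h1
  calc _ ≤ _ := h1
    _ = _ := by ring

theorem s4_coeff {A B : PowerSeries ℤ} {t : ℕ} (h : A * (1 - (X : PowerSeries ℤ) ^ t) = B) (N : ℕ) :
    coeff N A = coeff N B + if t ≤ N then coeff (N - t) A else 0 := by
  have h1 : A = B + A * X ^ t := by rw [← h]; ring
  conv_lhs => rw [h1]
  rw [map_add, coeff_mul_X_pow']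

theorem s4_psum {A B : PowerSeries ℤ} {t : ℕ} (h : A * (1 - (X : PowerSeries ℤ) ^ t) = B) (Y : ℕ) :
    (∑ N ∈ range (Y + 1), ((coeff N A : ℤ) : ℝ)) =
      (∑ N ∈ range (Y + 1), ((coeff N B : ℤ) : ℝ)) +
        if t ≤ Y then ∑ N ∈ range (Y - t + 1), ((coeff N A : ℤ) : ℝ) else 0 := by
  have h1 : ∀ N, ((coeff N A : ℤ) : ℝ) = ((coeff N B : ℤ) : ℝ) +
      if t ≤ N then ((coeff (N - t) A : ℤ) : ℝ) else 0 := by
    intro N
    rw [s4_coeff h N]
    split_ifs <;> push_cast <;> ring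
  rw [Finset.sum_congr rfl (fun N _ => h1 N), Finset.sum_add_distrib]
  congr 1
  by_cases hY : t ≤ Y
  · rw [if_pos hY]
    have e : Y + 1 = t + (Y - t + 1) := by omega
    rw [e, Finset.sum_range_add]
    have h2 : ∑ x ∈ range t, (if t ≤ x then ((coeff (x - t) A : ℤ) : ℝ) else 0) = 0 := by
      refine Finset.sum_eq_zero fun x hx => ?_
      rw [if_neg]
      have := Finset.mem_range.1 hx
      omega
    rw [h2, zero_add]
    refine Finset.sum_congr rfl fun x _ => ?_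
    rw [if_pos (by omega)]
    congr 3
    omega
  · rw [if_neg hY]
    refine Finset.sum_eq_zero fun x hx => ?_
    rw [if_neg]
    have := Finset.mem_range.1 hx
    omega

theorem s4_tail (D : Dat n) (s : ℕ) : ∀ (k : ℕ) (A : PowerSeries ℤ), k + s = n - 1 →
    A * ∏ j ∈ Ico k (n - 1), (1 - (X : PowerSeries ℤ) ^ D.b j) = HS D.S →
    ∃ C : ℝ, 0 ≤ C ∧ ∀ Y : ℕ, (∑ N ∈ range (Y + 1), ((coeff N A : ℤ) : ℝ)) ≤
      (1 / ∏ j ∈ Ico k (n - 1), (D.b j : ℝ)) * (Y : ℝ) ^ (s + 1) / ((s + 1).factorial : ℝ) +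
        C * (((s + 1 : ℕ) : ℝ) * ((Y : ℝ) + 1) ^ (s + 1 - 1)) := by
  induction s with
  | zero =>
    intro k A hk hA
    have hk' : k = n - 1 := by omega
    subst hk'
    rw [Finset.Ico_self, Finset.prod_empty, mul_one] at hA
    refine ⟨1, zero_le_one, fun Y => ?_⟩
    rw [hA]
    have h1 : (∑ N ∈ range (Y + 1), ((coeff N (HS D.S) : ℤ) : ℝ)) ≤ ∑ N ∈ range (Y + 1), (1 : ℝ) := by
      refine Finset.sum_le_sum fun N _ => ?_
      classical
      rw [HS, coeff_mk]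
      split_ifs <;> simp
    rw [Finset.sum_const, Finset.card_range, nsmul_eq_mul, mul_one] at h1
    simpa using h1
  | succ s ih =>
    intro k A hk hA
    have hlt : k < n - 1 := by omega
    rw [Finset.prod_eq_prod_Ico_succ_bot hlt] at hA
    obtain ⟨C, hC, h⟩ := ih (k + 1) (A * (1 - (X : PowerSeries ℤ) ^ D.b k)) (by omega) (by
      rw [← hA]; ring)
    have hP : 0 ≤ 1 / ∏ j ∈ Ico (k + 1) (n - 1), (D.b j : ℝ) := by positivity
    refine ⟨(1 / ∏ j ∈ Ico (k + 1) (n - 1), (D.b j : ℝ)) / ((s + 1).factorial : ℝ) +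
      C * ((s + 1 : ℕ) : ℝ), by positivity, fun Y => ?_⟩
    have h2 := s4_step (G := fun Y => ∑ N ∈ range (Y + 1), ((coeff N A : ℤ) : ℝ))
      (H := fun Y => ∑ N ∈ range (Y + 1),
        ((coeff N (A * (1 - (X : PowerSeries ℤ) ^ D.b k)) : ℤ) : ℝ))
      (t := D.b k) (m := s + 1) (D.bpos k) hP hC (fun Y => (s4_psum rfl Y).le) h Y
    have e1 : (1 / ∏ j ∈ Ico (k + 1) (n - 1), (D.b j : ℝ)) / (D.b k : ℝ) =
        1 / ∏ j ∈ Ico k (n - 1), (D.b j : ℝ) := by
      rw [Finset.prod_eq_prod_Ico_succ_bot hlt, div_div, mul_comm]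
    rw [e1] at h2
    refine h2.trans ?_
    refine add_le_add le_rfl ?_
    rw [Nat.add_sub_cancel (s + 1) 1]
    refine mul_le_mul_of_nonneg_left ?_ (by positivity)
    have h4 : (1 : ℝ) ≤ ((s + 1 + 1 : ℕ) : ℝ) := by
      exact_mod_cast Nat.succ_le_succ (Nat.zero_le (s + 1))
    have h5 : 0 ≤ ((Y : ℝ) + 1) ^ (s + 1) := by positivity
    exact le_mul_of_one_le_left h5 h4

/-- Upper bound for the partial sums: `A = HS · ∏_{k ≤ j < n-1} 1/(1 - X^{b_j})` has coefficients at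
most those of `1/(1-X) · ∏ 1/(1 - X^{b_j})`, whose partial sum up to `Y` is at most the number of
points of the simplex in `s + 1` dimensions with `d = (1, b_k, …, b_{n-2})`. -/
theorem IsSt.sum_le {D : Dat n} {k s : ℕ} {A : PowerSeries ℤ} (hA : IsSt D k A)
    (hk : k + s = n - 1) :
    ∃ C : ℝ, ∀ Y : ℕ, (∑ N ∈ range (Y + 1), ((coeff N A : ℤ) : ℝ)) ≤
      (1 / ∏ j ∈ Ico k (n - 1), (D.b j : ℝ)) * (Y : ℝ) ^ (s + 1) / ((s + 1).factorial : ℝ) +
        C * ((Y : ℝ) + 1) ^ s := by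
  obtain ⟨C, _, h⟩ := s4_tail D s k A hk (hA.mul_tail (by omega))
  refine ⟨C * ((s + 1 : ℕ) : ℝ), fun Y => ?_⟩
  have h1 := h Y
  rw [Nat.add_sub_cancel] at h1
  calc _ ≤ _ := h1
    _ = _ := by ring

end Pool.Agent.LibVol74
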