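import Pool.Agent.LibVol74.Defs

/-!
# Growth contradiction (row S5)
-/

set_option autoImplicit false

namespace Pool.Agent.LibVol74

open Finset

/-- A polynomial lower bound along an arithmetic progression excludes smaller growth. -/
theorem growth_contra {s : ℕ} (L d0 : ℕ) (hL : 0 < L) (C : ℝ) (a : ℕ → ℝ) (ha : ∀ N, 0 ≤ a N)
    (h1 : ∀ m : ℕ, (((m + s).choose s : ℕ) : ℝ) ≤ a (d0 + m * L))
    (h2 : ∀ Y : ℕ, (∑ N ∈ range (Y + 1), a N) ≤ C * ((Y : ℝ) + 1) ^ s) : False := by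
  have hC : 0 ≤ C := by
    have h3 := h2 0
    have h4 : 0 ≤ ∑ N ∈ range (0 + 1), a N := sum_nonneg fun N _ => ha N
    have h5 : C * (((0 : ℕ) : ℝ) + 1) ^ s = C := by
      simp
    linarith
  have hfac : (0 : ℝ) < ((s + 1).factorial : ℝ) := by exact_mod_cast Nat.factorial_pos (s + 1)
  have key : ∀ M : ℕ, ((M : ℝ) + 1) ≤ ((s + 1).factorial : ℝ) * (C * ((d0 : ℝ) + 1 + L) ^ s) := by
    intro M
    have e1 : ∑ m ∈ range (M + 1), a (d0 + m * L) ≤ ∑ N ∈ range (d0 + M * L + 1), a N := by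
      have hinj : Set.InjOn (fun m : ℕ => d0 + m * L) (range (M + 1) : Finset ℕ) := by
        intro x _ y _ hxy
        have h3 : x * L = y * L := Nat.add_left_cancel hxy
        exact Nat.eq_of_mul_eq_mul_right hL h3
      rw [← Finset.sum_image (f := a) (g := fun m : ℕ => d0 + m * L) hinj]
      refine sum_le_sum_of_subset_of_nonneg ?_ fun N _ _ => ha N
      intro N hN
      rw [mem_image] at hN
      obtain ⟨m, hm, rfl⟩ := hN
      rw [mem_range] at hm ⊢
      have h3 : m * L ≤ M * L := Nat.mul_le_mul_right L (by omega)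
      omega
    have e2 : (((M + s + 1).choose (s + 1) : ℕ) : ℝ) ≤ ∑ m ∈ range (M + 1), a (d0 + m * L) := by
      rw [← Nat.sum_range_add_choose M s]
      push_cast
      exact sum_le_sum fun m _ => h1 m
    have e3 : ((M : ℝ) + 1) ^ (s + 1) / ((s + 1).factorial : ℝ) ≤ (((M + s + 1).choose (s + 1) : ℕ) : ℝ) := by
      have h3 := Nat.pow_le_choose (α := ℝ) (s + 1) (M + s + 1)
      have h4 : M + s + 1 + 1 - (s + 1) = M + 1 := by omega
      rw [h4] at h3
      push_cast at h3 ⊢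
      exact h3
    have e4 := h2 (d0 + M * L)
    have e5 : (((d0 + M * L : ℕ) : ℝ) + 1) ^ s ≤ (((d0 : ℝ) + 1 + L) * ((M : ℝ) + 1)) ^ s := by
      refine pow_le_pow_left₀ (by positivity) ?_ s
      push_cast
      have hM : (0 : ℝ) ≤ M := Nat.cast_nonneg M
      have hd : (0 : ℝ) ≤ d0 := Nat.cast_nonneg d0
      have hL0 : (0 : ℝ) ≤ L := Nat.cast_nonneg L
      nlinarith [mul_nonneg hd hM]
    have e6 : ((M : ℝ) + 1) ^ (s + 1) / ((s + 1).factorial : ℝ) ≤
        C * ((((d0 : ℝ) + 1 + L) ^ s) * ((M : ℝ) + 1) ^ s) := by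
      rw [← mul_pow]
      calc _ ≤ _ := e3
        _ ≤ _ := e2
        _ ≤ _ := e1
        _ ≤ _ := e4
        _ ≤ _ := mul_le_mul_of_nonneg_left e5 hC
    rw [div_le_iff₀ hfac, pow_succ] at e6
    have hMs : (0 : ℝ) < ((M : ℝ) + 1) ^ s := by positivity
    have e7 : ((M : ℝ) + 1) ^ s * ((M : ℝ) + 1) ≤
        ((M : ℝ) + 1) ^ s * (((s + 1).factorial : ℝ) * (C * ((d0 : ℝ) + 1 + L) ^ s)) := by
      calc _ ≤ _ := e6
        _ = _ := by ring
    exact le_of_mul_le_mul_left e7 hMs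
  obtain ⟨M, hM⟩ := exists_nat_gt (((s + 1).factorial : ℝ) * (C * ((d0 : ℝ) + 1 + L) ^ s))
  have := key M
  linarith

end Pool.Agent.LibVol74
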