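import Pool.Agent.LibVol74.G1
import Pool.Agent.LibVol74.Alg
import Pool.Agent.LibVol74.S4
import Pool.Agent.LibVol74.S5

/-!
# The ideal from the growth (row G3)
-/

set_option autoImplicit false

namespace Pool.Agent.LibVol74

open MvPolynomial

variable {n r : ℕ}

theorem G3_finsum_mem {R ι : Type*} [CommRing R] {K : Ideal R} {f : ι → R}
    (h : ∀ i, f i ∈ K) : ∑ᶠ i, f i ∈ K := by
  classical
  by_cases hf : (Function.support f).Finite
  · rw [finsum_eq_sum f hf]
    exact Ideal.sum_mem _ fun i _ => h i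
  · rw [finsum_of_infinite_support hf]
    exact K.zero_mem

/-- The volume inequality gives the right ideal.
Proof. `≥` is `StepData.sup_le`. Suppose `p'.I ≰ K := p.I ⊔ (F)`, `F = bin u v`. By `I_component` /
`I_span_bin` there is a weighted homogeneous `f ∈ p'.I`, `f ∉ K`, of some weight `d0`. Let
`F' = Fin.snoc F₁ (bin u v) : Fin (k+1) → _` with `F₁` the generators of `p.I` (`span_range_snoc`).
`dim_sup` and `reg_growth` (with `c = k + 1`, `n - c = s + 1`) give `L, θ`; `finrank_forms` and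
`StepData.count` give, for all `m` and `M = d0 + m L`,
`p'.h M + (if t ≤ M then p.h (M-t) else 0) + (m+s).choose s ≤ p.h M`.
Let `A = (1 - X^t) * p.HP` (`t = D.b k`): `IsSt D (k+1) A`, `coeff M A = p.h M - (if t ≤ M …)`, and
`a M := coeff M A - p'.h M ≥ 0` by `StepData.weak`. `IsSt.sum_le` (with `k+1`) and `hgr` give
`∑_{M ≤ Y} a M ≤ C (Y+1)^s`. Contradiction by `growth_contra`. -/
theorem ideal_of_growth {D : Dat n} {k s : ℕ} {p : Proj D.g (s + 1 + 1)} (hst : Stage D k p)
    {p' : Proj D.g (s + 1)} {u v : Fin n → ℕ} (hs : StepData p p' u v (D.b k))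
    (hgr : p'.Gr s (1 / ∏ j ∈ Finset.Ico (k + 1) (n - 1), (D.b j : ℝ))) :
    p'.I = p.I ⊔ Ideal.span {bin u v} := by
  classical
  have hg : ∀ i, 0 < D.g i := D.gpos
  refine le_antisymm ?_ hs.sup_le
  by_contra hnot
  obtain ⟨f0, hf0, hf0K⟩ := SetLike.not_le_iff_exists.mp hnot
  -- a homogeneous element outside
  have hcomp : ∃ N, weightedHomogeneousComponent D.g N f0 ∉ p.I ⊔ Ideal.span {bin u v} := by
    by_contra hall
    push Not at hall
    apply hf0K
    rw [← sum_weightedHomogeneousComponent D.g f0]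
    exact G3_finsum_mem hall
  obtain ⟨d0, hd0⟩ := hcomp
  set f := weightedHomogeneousComponent D.g d0 f0 with hfdef
  have hfI : f ∈ p'.I := I_component p' hf0 d0
  have hfh : f.IsWeightedHomogeneous D.g d0 :=
    weightedHomogeneousComponent_isWeightedHomogeneous d0 f0
  obtain ⟨F₁, hF₁, hspan⟩ := hst.gens
  have hrk := hst.rk
  have hc : k + 1 < n := by omega
  have hnk : n - (k + 1) = s + 1 := by omega
  have hspan' : Ideal.span (Set.range (Fin.snoc (α := fun _ => MvPolynomial (Fin n) ℚ) F₁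
      (bin u v))) = p.I ⊔ Ideal.span {bin u v} := by
    rw [span_range_snoc, hspan]
  have hF : ∀ j : Fin (k + 1), ∃ t : ℕ, 0 < t ∧
      ((Fin.snoc (α := fun _ => MvPolynomial (Fin n) ℚ) F₁ (bin u v) : Fin (k + 1) → _)
        j).IsWeightedHomogeneous D.g t := by
    intro j
    refine Fin.lastCases ?_ (fun i => ?_) j
    · refine ⟨D.b k, hs.tpos, ?_⟩
      rw [Fin.snoc_last]
      exact bin_hom hs.hu hs.hv
    · obtain ⟨t, ht, h⟩ := hF₁ i
      refine ⟨t, ht, ?_⟩
      rw [Fin.snoc_castSucc]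
      exact h
  have hdim : ringKrullDim (MvPolynomial (Fin n) ℚ ⧸ Ideal.span (Set.range
      (Fin.snoc (α := fun _ => MvPolynomial (Fin n) ℚ) F₁ (bin u v) : Fin (k + 1) → _))) ≤
      ((n - (k + 1) : ℕ) : WithBot ℕ∞) := by
    rw [hspan', hnk]
    exact dim_sup hst (bin u v) hs.bin_notMem
  obtain ⟨L, hL, θ, hθ, hreg⟩ := reg_growth hg (k + 1) hc _ hF hdim f d0 hfh
    (by rw [hspan']; exact hd0)
  rw [hspan'] at hreg
  -- the key inequality
  have hkey : ∀ m : ℕ, p'.h (d0 + m * L) + (if D.b k ≤ d0 + m * L then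
      p.h (d0 + m * L - D.b k) else 0) + (m + s).choose s ≤ p.h (d0 + m * L) := by
    intro m
    obtain ⟨V, hVfin, hV1, hV2, hV3, hV4⟩ := finrank_forms (by omega) L m d0 θ hθ f hfh
      (p.I ⊔ Ideal.span {bin u v}) hreg
    have hcount := hs.count hg (d0 + m * L) V hV1
      (fun h hh => (Ideal.span_singleton_le_iff_mem _).mpr hfI (hV2 h hh)) hV3
    have e1 : m + (n - (k + 1)) - 1 = m + s := by omega
    have e2 : n - (k + 1) - 1 = s := by omega
    rw [e1, e2] at hV4
    omega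
  -- the series
  set A : PowerSeries ℤ := (1 - (PowerSeries.X : PowerSeries ℤ) ^ D.b k) * p.HP with hA
  have hASt : IsSt D (k + 1) A := by
    have h := hst.st
    unfold IsSt at h ⊢
    rw [Finset.prod_range_succ, ← h, hA]
    ring
  have hAcoef : ∀ M, PowerSeries.coeff M A =
      (p.h M : ℤ) - (if D.b k ≤ M then (p.h (M - D.b k) : ℤ) else 0) := by
    intro M
    rw [hA, sub_mul, one_mul, map_sub, PowerSeries.coeff_X_pow_mul']
    simp only [Proj.HP, PowerSeries.coeff_mk]
  obtain ⟨C1, hC1⟩ := hASt.sum_le (s := s) (by omega)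
  obtain ⟨C2, hC2⟩ := hgr
  refine growth_contra (s := s) L d0 hL (C1 + C2)
    (fun M => ((PowerSeries.coeff M A : ℤ) : ℝ) - (p'.h M : ℝ)) ?_ ?_ ?_
  · intro M
    have hw := hs.weak hg M
    have h2 : (p'.h M : ℤ) ≤ PowerSeries.coeff M A := by
      rw [hAcoef]
      split_ifs at hw ⊢ with h
      · omega
      · omega
    have h3 : (p'.h M : ℝ) ≤ ((PowerSeries.coeff M A : ℤ) : ℝ) := by exact_mod_cast h2
    simpa using h3
  · intro m
    have h1 := hkey m
    have h2 : (((m + s).choose s : ℕ) : ℤ) ≤ PowerSeries.coeff (d0 + m * L) A -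
        (p'.h (d0 + m * L) : ℤ) := by
      rw [hAcoef]
      split_ifs at h1 ⊢ with h
      · omega
      · omega
    have h3 : ((((m + s).choose s : ℕ) : ℤ) : ℝ) ≤ ((PowerSeries.coeff (d0 + m * L) A -
        (p'.h (d0 + m * L) : ℤ) : ℤ) : ℝ) := by exact_mod_cast h2
    push_cast at h3 ⊢
    exact h3
  · intro Y
    rw [Finset.sum_sub_distrib]
    have h1 := hC1 Y
    have h2 := hC2 Y
    have h3 : (C1 + C2) * ((Y : ℝ) + 1) ^ s = C1 * ((Y : ℝ) + 1) ^ s + C2 * ((Y : ℝ) + 1) ^ s := by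
      ring
    rw [h3]
    linarith

end Pool.Agent.LibVol74
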