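import Pool.Agent.LibVol74.G0
import Pool.Agent.LibVol74.A3
import Pool.Agent.LibVol74.T2

/-!
# The first step (row G4)
-/

set_option autoImplicit false

namespace Pool.Agent.LibVol74

open MvPolynomial

variable {n r : ℕ}

private noncomputable def G4_M (a : Fin n → ℕ) : MvPolynomial (Fin n) ℚ :=
  monomial (Finsupp.equivFunOnFinite.symm a) 1

private theorem G4_bin (a b : Fin n → ℕ) : bin a b = G4_M a - G4_M b := rfl

private theorem G4_add (a b : Fin n → ℕ) : G4_M (a + b) = G4_M a * G4_M b := by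
  unfold G4_M
  rw [monomial_mul, one_mul]
  have h : Finsupp.equivFunOnFinite.symm (a + b) =
      Finsupp.equivFunOnFinite.symm a + Finsupp.equivFunOnFinite.symm b := by
    ext i
    simp
  rw [h]

private theorem G4_smul (k : ℕ) (a : Fin n → ℕ) : G4_M (k • a) = G4_M a ^ k := by
  unfold G4_M
  rw [monomial_pow, one_pow]
  have h : Finsupp.equivFunOnFinite.symm (k • a) = k • Finsupp.equivFunOnFinite.symm a := by
    ext i
    simp
  rw [h]

private theorem G4_inj {g : Fin n → ℕ} {p : Proj g r} (h : p.I = ⊥) (z : Fin n → ℤ)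
    (hz : p.π z = 0) : z = 0 := by
  obtain ⟨a, b, rfl⟩ := exists_toZ_sub z
  rw [map_sub, sub_eq_zero] at hz
  have h1 : G4_M a - G4_M b ∈ p.I := by
    have h2 := phi_bin p a b
    rw [hz, sub_self] at h2
    exact RingHom.mem_ker.2 h2
  rw [h, Ideal.mem_bot, sub_eq_zero] at h1
  unfold G4_M at h1
  have h3 := monomial_left_injective (R := ℚ) one_ne_zero h1
  have h4 : a = b := Finsupp.equivFunOnFinite.symm.injective h3
  rw [h4, sub_self]

private theorem G4_low {D : Dat n} {p : Proj D.g (r + 1)} (hst : Stage D 0 p)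
    (hinj : ∀ z : Fin n → ℤ, p.π z = 0 → z = 0) {a b : Fin n → ℕ}
    (hab : wt D.g a = wt D.g b) (ht : wt D.g a < D.b 0) : a = b := by
  have h1 := hst.st.coeff_lt (Nat.zero_le _) (N := wt D.g a) (fun _ => ht)
  have h2 : (p.h (wt D.g a) : ℤ) ≤ 1 := by
    unfold Proj.HP HS at h1
    rw [PowerSeries.coeff_mk, PowerSeries.coeff_mk] at h1
    rw [h1]
    split_ifs <;> norm_num
  have h3 : (p.lev (wt D.g a)).ncard ≤ 1 := by
    have : p.h (wt D.g a) ≤ 1 := by exact_mod_cast h2
    exact this
  have h4 := (Set.ncard_le_one (lev_finite D.gpos p _)).1 h3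
  have h5 : p.π (toZ a) = p.π (toZ b) :=
    h4 _ ⟨a, rfl, rfl⟩ _ ⟨b, hab.symm, rfl⟩
  have h6 : p.π (toZ a - toZ b) = 0 := by rw [map_sub, h5, sub_self]
  exact toZ_injective (sub_eq_zero.1 (hinj _ h6))

/-- If `w - w' = k (u - v)` with `k ≥ 0` and disjoint supports -/
private theorem G4_mem {u v w w' : Fin n → ℕ} (hd : ∀ i, u i = 0 ∨ v i = 0) (k : ℕ)
    (h : toZ w - toZ w' = (k : ℤ) • (toZ u - toZ v)) :
    bin w w' ∈ Ideal.span {bin u v} := by
  have hi : ∀ i, (w i : ℤ) - w' i = k * ((u i : ℤ) - v i) := by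
    intro i
    have := congrFun h i
    simpa [toZ] using this
  set z : Fin n → ℕ := fun i => w i - k * u i with hz
  have h1 : ∀ i, w i = k * u i + z i ∧ w' i = k * v i + z i := by
    intro i
    have h2 := hi i
    rcases hd i with h3 | h3
    · rw [h3] at h2
      simp only [hz, h3]
      push_cast at h2
      have h4 : (w' i : ℤ) = (k * v i + w i : ℕ) := by
        push_cast
        linarith
      have h5 : w' i = k * v i + w i := by exact_mod_cast h4
      constructor
      · simp
      · simpa using h5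
    · rw [h3] at h2
      push_cast at h2
      have h4 : (w i : ℤ) = (k * u i + w' i : ℕ) := by
        push_cast
        linarith
      have h5 : w i = k * u i + w' i := by exact_mod_cast h4
      simp only [hz, h3]
      rw [h5]
      constructor <;> omega
  have hw : w = k • u + z := by
    funext i
    rw [Pi.add_apply, Pi.smul_apply, smul_eq_mul]
    exact (h1 i).1
  have hw' : w' = k • v + z := by
    funext i
    rw [Pi.add_apply, Pi.smul_apply, smul_eq_mul]
    exact (h1 i).2
  rw [Ideal.mem_span_singleton, G4_bin, G4_bin, hw, hw', G4_add, G4_add, G4_smul, G4_smul,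
    ← sub_mul]
  exact Dvd.dvd.mul_right (sub_dvd_pow_sub_pow _ _ k) _

/-- The first step. Proof. `p.I = ⊥` (no generators), so `p.π ∘ toZ` is injective on `ℕ^n`, hence
`p.π` is injective. `t = D.b 0` is the smallest label, so by `IsSt.coeff_lt` the levels of weight
`< t` have at most one element. (1) `u` and `v` have disjoint supports: if `u i, v i > 0` then
`u - e_i`, `v - e_i` have the same weight `t - g i < t`, so are equal, so `u = v`. (2) By
`I_span_bin p'` take `w, w'` with `p'.π w = p'.π w'`: `m (w - w') = k (u - v)` with `m ≠ 0`, and we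
may take `gcd m k = 1`, so `m ∣ u_i - v_i` for all `i`; if `|m| ≥ 2` then `u/|m|`, `v/|m|` are natural
vectors of the same weight `t/|m| < t`, so equal: contradiction. So `w - w' = k (u - v)`, say `k ≥ 0`;
by disjointness of supports `w = k u + z`, `w' = k v + z` with `z ∈ ℕ^n` and
`bin w w' = x^z (x^{ku} - x^{kv}) ∈ (bin u v)`. -/
theorem ideal_first {D : Dat n} {p : Proj D.g (r + 1)} (hst : Stage D 0 p)
    (h2 : 2 ≤ n) {p' : Proj D.g r} {u v : Fin n → ℕ} (hs : StepData p p' u v (D.b 0)) :
    p'.I = p.I ⊔ Ideal.span {bin u v} := by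
  have hbot : p.I = ⊥ := by
    obtain ⟨F, _, hF⟩ := hst.gens
    rw [← hF, Set.range_eq_empty, Ideal.span_empty]
  have hinj : ∀ z : Fin n → ℤ, p.π z = 0 → z = 0 := G4_inj hbot
  have hlow : ∀ a b : Fin n → ℕ, wt D.g a = wt D.g b → wt D.g a < D.b 0 → a = b :=
    fun a b h1 h3 => G4_low hst hinj h1 h3
  have huv : u ≠ v := fun h => hs.hne (by rw [h])
  -- disjoint supports
  have hd : ∀ i, u i = 0 ∨ v i = 0 := by
    intro i
    by_contra hcon
    push Not at hcon
    obtain ⟨hu0, hv0⟩ := hcon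
    have e1 : ∀ a : Fin n → ℕ, a i ≠ 0 → a = (a - Pi.single i 1) + Pi.single i 1 := by
      intro a ha
      funext j
      rw [Pi.add_apply, Pi.sub_apply]
      by_cases hj : j = i
      · subst hj
        rw [Pi.single_eq_same]
        omega
      · rw [Pi.single_eq_of_ne hj]
        omega
    have e2 : ∀ a : Fin n → ℕ, a i ≠ 0 → wt D.g a = wt D.g (a - Pi.single i 1) + D.g i := by
      intro a ha
      conv_lhs => rw [e1 a ha]
      rw [wt_add, wt_single]
    have h3 := e2 u hu0
    have h4 := e2 v hv0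
    rw [hs.hu] at h3
    rw [hs.hv] at h4
    have hg := D.gpos i
    have h5 := hlow (u - Pi.single i 1) (v - Pi.single i 1) (by omega) (by omega)
    apply huv
    rw [e1 u hu0, e1 v hv0, h5]
  refine le_antisymm ?_ hs.sup_le
  rw [I_span_bin p', Ideal.span_le]
  rintro f ⟨w, w', hww, hpw, rfl⟩
  refine (le_sup_right : Ideal.span {bin u v} ≤ p.I ⊔ Ideal.span {bin u v}) ?_
  have h3 : p'.π (toZ w - toZ w') = 0 := by rw [map_sub, hpw, sub_self]
  obtain ⟨m, k, hm, hmk⟩ := (hs.ker _).1 h3
  have h4 : m • (toZ w - toZ w') = k • (toZ u - toZ v) := by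
    have h5 : p.π (m • (toZ w - toZ w') - k • (toZ u - toZ v)) = 0 := by
      rw [map_sub, map_zsmul, map_zsmul, map_sub p.π (toZ u), hmk, sub_self]
    exact sub_eq_zero.1 (hinj _ h5)
  have hi : ∀ i, m * ((w i : ℤ) - w' i) = k * ((u i : ℤ) - v i) := by
    intro i
    have := congrFun h4 i
    simpa [toZ] using this
  -- reduce to coprime `m`, `k`
  have hg0 : 0 < Int.gcd m k := Int.gcd_pos_of_ne_zero_left k hm
  obtain ⟨m', k', hcop, hm', hk'⟩ := Int.exists_gcd_one hg0
  have hgz : ((Int.gcd m k : ℕ) : ℤ) ≠ 0 := by exact_mod_cast hg0.ne'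
  have hi' : ∀ i, m' * ((w i : ℤ) - w' i) = k' * ((u i : ℤ) - v i) := by
    intro i
    have h5 := hi i
    have h6 : ((Int.gcd m k : ℕ) : ℤ) * (m' * ((w i : ℤ) - w' i)) =
        ((Int.gcd m k : ℕ) : ℤ) * (k' * ((u i : ℤ) - v i)) := by
      calc ((Int.gcd m k : ℕ) : ℤ) * (m' * ((w i : ℤ) - w' i))
          = (m' * ((Int.gcd m k : ℕ) : ℤ)) * ((w i : ℤ) - w' i) := by ring
        _ = m * ((w i : ℤ) - w' i) := by rw [← hm']
        _ = k * ((u i : ℤ) - v i) := h5
        _ = (k' * ((Int.gcd m k : ℕ) : ℤ)) * ((u i : ℤ) - v i) := by rw [← hk']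
        _ = ((Int.gcd m k : ℕ) : ℤ) * (k' * ((u i : ℤ) - v i)) := by ring
    exact mul_left_cancel₀ hgz h6
  have hcop' : IsCoprime m' k' := Int.isCoprime_iff_gcd_eq_one.2 hcop
  have hm0 : m' ≠ 0 := by
    rintro rfl
    apply hm
    rw [hm', zero_mul]
  have hdvd : ∀ i, (m' : ℤ) ∣ (u i : ℤ) - v i := fun i =>
    hcop'.dvd_of_dvd_mul_left (Dvd.intro _ (hi' i))
  have hdu : ∀ i, m'.natAbs ∣ u i := by
    intro i
    have h5 := Int.natAbs_dvd_natAbs.2 (hdvd i)
    rcases hd i with h6 | h6
    · rw [h6]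
      exact dvd_zero _
    · rw [h6] at h5
      simpa using h5
  have hdv : ∀ i, m'.natAbs ∣ v i := by
    intro i
    have h5 := Int.natAbs_dvd_natAbs.2 (hdvd i)
    rcases hd i with h6 | h6
    · rw [h6] at h5
      simpa using h5
    · rw [h6]
      exact dvd_zero _
  have hm1 : m'.natAbs = 1 := by
    by_contra hne
    have hpos : 0 < m'.natAbs := Int.natAbs_pos.2 hm0
    have hge : 2 ≤ m'.natAbs := by omega
    set q := m'.natAbs with hq
    have hu1 : u = q • (fun i => u i / q) := by
      funext i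
      rw [Pi.smul_apply, smul_eq_mul, Nat.mul_div_cancel' (hdu i)]
    have hv1 : v = q • (fun i => v i / q) := by
      funext i
      rw [Pi.smul_apply, smul_eq_mul, Nat.mul_div_cancel' (hdv i)]
    have hwu : D.b 0 = q * wt D.g (fun i => u i / q) := by
      rw [← wt_smul, ← hu1, hs.hu]
    have hwv : D.b 0 = q * wt D.g (fun i => v i / q) := by
      rw [← wt_smul, ← hv1, hs.hv]
    have h7 : wt D.g (fun i => u i / q) = wt D.g (fun i => v i / q) :=
      Nat.eq_of_mul_eq_mul_left hpos (hwu.symm.trans hwv)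
    have h8 : wt D.g (fun i => u i / q) < D.b 0 := by
      have h9 := hs.tpos
      have h10 : 0 < wt D.g (fun i => u i / q) := by
        rcases Nat.eq_zero_or_pos (wt D.g (fun i => u i / q)) with h11 | h11
        · rw [h11, mul_zero] at hwu
          omega
        · exact h11
      rw [hwu]
      nlinarith
    have h9 := hlow _ _ h7 h8
    exact huv (by rw [hu1, hv1, h9])
  -- now `w - w' = ± k' (u - v)`
  have key : ∀ (w w' : Fin n → ℕ) (e : ℤ), (∀ i, (w i : ℤ) - w' i = e * ((u i : ℤ) - v i)) →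
      0 ≤ e → bin w w' ∈ Ideal.span {bin u v} := by
    intro w w' e he h0
    obtain ⟨k0, rfl⟩ := Int.eq_ofNat_of_zero_le h0
    refine G4_mem hd k0 ?_
    funext i
    simp only [toZ, Pi.sub_apply, Pi.smul_apply, smul_eq_mul]
    exact he i
  have hex : ∃ e : ℤ, ∀ i, (w i : ℤ) - w' i = e * ((u i : ℤ) - v i) := by
    rcases Int.natAbs_eq_iff.1 hm1 with h5 | h5
    · refine ⟨k', fun i => ?_⟩
      have h6 := hi' i
      rw [h5] at h6
      simpa using h6
    · refine ⟨-k', fun i => ?_⟩
      have h6 := hi' i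
      rw [h5] at h6
      push_cast at h6
      linarith
  obtain ⟨e, he⟩ := hex
  rcases le_total 0 e with h0 | h0
  · exact key w w' e he h0
  · have h5 := key w' w (-e) (fun i => by have := he i; linarith) (by linarith)
    have h6 : bin w w' = - bin w' w := by
      rw [G4_bin, G4_bin]
      ring
    rw [h6]
    exact neg_mem h5

end Pool.Agent.LibVol74
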