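import Pool.Agent.LibVol74.Basic

/-!
# The saturation of the image monoid (row W0)
-/

set_option autoImplicit false

namespace Pool.Agent.LibVol74

open Finset

variable {n r : ℕ} {g : Fin n → ℕ}

/-- the saturation of the image monoid: vectors with a positive multiple in the image monoid -/
def Proj.sat (p : Proj g r) : Set (Fin r → ℤ) :=
  {x | ∃ (k : ℕ) (u : Fin n → ℕ), 0 < k ∧ (k : ℤ) • x = p.π (toZ u)}

theorem sat_of_lev (p : Proj g r) {N : ℕ} {x : Fin r → ℤ} (hx : x ∈ p.lev N) : x ∈ p.sat := by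
  obtain ⟨u, -, hu⟩ := hx
  exact ⟨1, u, one_pos, by simpa using hu.symm⟩

theorem sat_zero (p : Proj g r) : (0 : Fin r → ℤ) ∈ p.sat := by
  refine ⟨1, 0, one_pos, ?_⟩
  have h : toZ (0 : Fin n → ℕ) = 0 := by
    funext i
    simp [toZ]
  rw [h, map_zero, smul_zero]

theorem sat_add (p : Proj g r) {x y : Fin r → ℤ} (hx : x ∈ p.sat) (hy : y ∈ p.sat) :
    x + y ∈ p.sat := by
  obtain ⟨k, u, hk, hu⟩ := hx
  obtain ⟨l, v, hl, hv⟩ := hy
  refine ⟨k * l, l • u + k • v, Nat.mul_pos hk hl, ?_⟩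
  rw [toZ_add, toZ_smul, toZ_smul, map_add, map_nsmul, map_nsmul, ← hu, ← hv, smul_add]
  congr 1
  · rw [← natCast_zsmul, smul_smul]
    push_cast
    rw [mul_comm]
  · rw [← natCast_zsmul, smul_smul]
    push_cast
    rfl

theorem sat_nsmul (p : Proj g r) {x : Fin r → ℤ} (hx : x ∈ p.sat) (k : ℕ) :
    k • x ∈ p.sat := by
  obtain ⟨l, u, hl, hu⟩ := hx
  refine ⟨l, k • u, hl, ?_⟩
  rw [toZ_smul, map_nsmul, ← hu, smul_comm]

/-- saturated: -/
theorem sat_of_smul (p : Proj g r) {x : Fin r → ℤ} {k : ℕ} (hk : 0 < k) (hx : k • x ∈ p.sat) :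
    x ∈ p.sat := by
  obtain ⟨l, u, hl, hu⟩ := hx
  refine ⟨l * k, u, Nat.mul_pos hl hk, ?_⟩
  rw [← hu, ← natCast_zsmul, smul_smul]
  push_cast
  rfl

theorem sat_single (p : Proj g r) (i : Fin n) : p.π (Pi.single i 1) ∈ p.sat := by
  refine ⟨1, Pi.single i 1, one_pos, ?_⟩
  rw [toZ_single]
  simp

theorem sat_deg_eq (p : Proj g r) {x : Fin r → ℤ} {k : ℕ} {u : Fin n → ℕ}
    (h : (k : ℤ) • x = p.π (toZ u)) : (k : ℤ) * p.δ x = wt g u := by
  rw [← dg_toZ, ← p.deg, ← h, map_zsmul, smul_eq_mul]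

theorem sat_deg_nonneg (p : Proj g r) {x : Fin r → ℤ} (hx : x ∈ p.sat) : 0 ≤ p.δ x := by
  obtain ⟨k, u, hk, hu⟩ := hx
  have h := sat_deg_eq p hu
  have hk' : (0 : ℤ) < k := by exact_mod_cast hk
  have h2 : (0 : ℤ) ≤ (k : ℤ) * p.δ x := by
    rw [h]
    positivity
  exact nonneg_of_mul_nonneg_right h2 hk'

/-- an element of the saturation of degree zero is zero -/
theorem sat_deg_zero (hg : ∀ i, 0 < g i) (p : Proj g r) {x : Fin r → ℤ} (hx : x ∈ p.sat)
    (h0 : p.δ x = 0) : x = 0 := by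
  obtain ⟨k, u, hk, hu⟩ := hx
  have h := sat_deg_eq p hu
  rw [h0, mul_zero] at h
  have h1 : wt g u = 0 := by exact_mod_cast h.symm
  have h2 : toZ u = 0 := by
    funext i
    have h3 := (Finset.sum_eq_zero_iff.1 h1) i (Finset.mem_univ i)
    have h4 := hg i
    have h5 : u i = 0 := by
      rcases Nat.mul_eq_zero.1 h3 with h | h
      · exact h
      · omega
    simp [toZ, h5]
  rw [h2, map_zero] at hu
  have hk' : (k : ℤ) ≠ 0 := by exact_mod_cast hk.ne'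
  exact (smul_eq_zero.1 hu).resolve_left hk'

/-- the degree is onto -/
theorem deg_surj (D : Dat n) (p : Proj D.g r) : Function.Surjective p.δ := by
  obtain ⟨B, hB⟩ := D.fin.bddAbove
  have key : ∀ m, B < m → ∃ x, p.δ x = m := by
    intro m hm
    have h1 : m ∈ D.S := by
      by_contra h
      have := hB (show m ∈ ((D.S : Set ℕ)ᶜ) from h)
      omega
    rw [← D.gen] at h1
    obtain ⟨x, hx⟩ := (lev_nonempty_iff p m).2 h1
    exact ⟨x, deg_lev p hx⟩
  obtain ⟨x, hx⟩ := key (B + 1) (by omega)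
  obtain ⟨y, hy⟩ := key (B + 2) (by omega)
  intro k
  refine ⟨k • (y - x), ?_⟩
  rw [map_zsmul, map_sub, hx, hy, smul_eq_mul]
  push_cast
  ring

/-- growth constants can be made smaller -/
theorem Gr.mono {s : ℕ} {p : Proj g r} {κ κ' : ℝ} (h : p.Gr s κ) (hk : κ' ≤ κ) :
    p.Gr s κ' := by
  obtain ⟨C, hC⟩ := h
  refine ⟨C, fun X => le_trans ?_ (hC X)⟩
  gcongr

theorem Gr.of_nonpos {s : ℕ} {p : Proj g r} {κ : ℝ} (hk : κ ≤ 0) : p.Gr s κ := by
  refine ⟨0, fun X => ?_⟩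
  have h1 : κ * (X : ℝ) ^ (s + 1) / ((s + 1).factorial : ℝ) ≤ 0 := by
    apply div_nonpos_of_nonpos_of_nonneg
    · exact mul_nonpos_of_nonpos_of_nonneg hk (by positivity)
    · positivity
  have h2 : (0 : ℝ) ≤ ∑ N ∈ Finset.range (X + 1), (p.h N : ℝ) :=
    Finset.sum_nonneg fun _ _ => by positivity
  linarith

end Pool.Agent.LibVol74
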