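import Pool.Agent.LibVol74.G0
import Pool.Agent.LibVol74.A2
import Pool.Agent.LibVol74.W0

/-!
# The last step (row G5)
-/

set_option autoImplicit false

namespace Pool.Agent.LibVol74

open MvPolynomial

variable {n r : ℕ}

/-- the trivial growth in the last step: `p.h N ≥ 1` for `N ∈ S`, and `S` is cofinite -/
theorem gr_zero (D : Dat n) (p : Proj D.g 1) : p.Gr 0 1 := by
  classical
  refine ⟨(D.fin.toFinset.card : ℝ), fun X => ?_⟩
  have h2 : ∑ N ∈ Finset.range (X + 1), (if N ∈ D.S then 1 else 0) ≤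
      ∑ N ∈ Finset.range (X + 1), p.h N := by
    apply Finset.sum_le_sum
    intro N _
    split_ifs with h
    · have := (h_pos_iff D.gpos p N).2 (by rw [D.gen]; exact h)
      omega
    · exact Nat.zero_le _
  have h3 : ((Finset.range (X + 1)).filter (· ∈ D.S)).card +
      ((Finset.range (X + 1)).filter (fun N => ¬ N ∈ D.S)).card = (Finset.range (X + 1)).card :=
    Finset.card_filter_add_card_filter_not (s := Finset.range (X + 1)) (fun N => N ∈ D.S)
  have h4 : ((Finset.range (X + 1)).filter (fun N => ¬ N ∈ D.S)).card ≤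
      D.fin.toFinset.card := by
    apply Finset.card_le_card
    intro N hN
    rw [Finset.mem_filter] at hN
    rw [Set.Finite.mem_toFinset]
    exact hN.2
  rw [Finset.sum_ite, Finset.sum_const_zero, add_zero, Finset.sum_const, smul_eq_mul,
    mul_one] at h2
  rw [Finset.card_range] at h3
  have h5 : X + 1 ≤ (∑ N ∈ Finset.range (X + 1), p.h N) + D.fin.toFinset.card := by omega
  have h6 : ((X : ℝ) + 1) ≤ (∑ N ∈ Finset.range (X + 1), (p.h N : ℝ)) +
      (D.fin.toFinset.card : ℝ) := by
    exact_mod_cast h5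
  have e1 : (1 : ℝ) * (X : ℝ) ^ (0 + 1) / ((0 + 1).factorial : ℝ) = X := by
    simp
  rw [e1, pow_zero, mul_one]
  linarith

/-- The degree of a last projection is injective. -/
theorem last_delta_injective {D : Dat n} (p : Proj D.g 1) : Function.Injective p.δ := by
  have hx : ∀ x : Fin 1 → ℤ, x = x 0 • (1 : Fin 1 → ℤ) := by
    intro x
    ext i
    rw [Subsingleton.elim i 0]
    simp
  obtain ⟨y, hy⟩ := deg_surj D p 1
  rw [hx y, map_zsmul] at hy
  have hne : p.δ (1 : Fin 1 → ℤ) ≠ 0 := by
    intro h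
    rw [h] at hy
    simp at hy
  rw [injective_iff_map_eq_zero]
  intro x h
  rw [hx x, map_zsmul, smul_eq_mul] at h
  rcases mul_eq_zero.1 h with h | h
  · rw [hx x, h, zero_smul]
  · exact absurd h hne

/-- The last stage: `ℤ^1 → ℤ`, `p.δ`, is injective (it is onto by `deg_surj`), so `p.φ` is
`aeval (X^{g i})` followed by an injection of `ℚ[ℤ]`-type. -/
theorem last_ideal {D : Dat n} (p : Proj D.g 1) :
    p.I = RingHom.ker (MvPolynomial.aeval (R := ℚ)
      (fun i : Fin n => (Polynomial.X : Polynomial ℚ) ^ D.g i)) := by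
  have hδ := last_delta_injective p
  have hcomp : (AddMonoidAlgebra.mapDomainAlgHom ℚ ℚ p.δ).comp p.φ =
      (Polynomial.toLaurentAlg (R := ℚ)).comp (MvPolynomial.aeval (R := ℚ)
        (fun i : Fin n => (Polynomial.X : Polynomial ℚ) ^ D.g i)) := by
    apply MvPolynomial.algHom_ext
    intro i
    have hdeg : p.δ (p.π (Pi.single i 1)) = (D.g i : ℤ) := by
      rw [p.deg, ← toZ_single, dg_toZ, wt_single]
    simp only [AlgHom.comp_apply, Proj.φ, MvPolynomial.aeval_X, map_pow,
      Polynomial.toLaurentAlg_apply, Polynomial.toLaurent_X, LaurentPolynomial.T_pow, mul_one,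
      AddMonoidAlgebra.mapDomainAlgHom_apply, AddMonoidAlgebra.mapDomain_single]
    rw [hdeg]
    rfl
  ext f
  have h1 : p.φ f = 0 ↔ (AddMonoidAlgebra.mapDomainAlgHom ℚ ℚ p.δ) (p.φ f) = 0 := by
    constructor
    · intro h
      rw [h, map_zero]
    · intro h
      have hinj := AddMonoidAlgebra.mapDomain_injective (R := ℚ) hδ
      apply hinj
      rw [AddMonoidAlgebra.mapDomain_zero]
      exact h
  have h2 : (MvPolynomial.aeval (R := ℚ)
        (fun i : Fin n => (Polynomial.X : Polynomial ℚ) ^ D.g i)) f = 0 ↔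
      (Polynomial.toLaurentAlg (R := ℚ)) ((MvPolynomial.aeval (R := ℚ)
        (fun i : Fin n => (Polynomial.X : Polynomial ℚ) ^ D.g i)) f) = 0 := by
    rw [Polynomial.toLaurentAlg_apply, Polynomial.toLaurent_eq_zero]
  have h3 := DFunLike.congr_fun hcomp f
  rw [AlgHom.comp_apply, AlgHom.comp_apply] at h3
  change p.φ f = 0 ↔ _ = 0
  rw [h1, h3]
  exact h2.symm

end Pool.Agent.LibVol74
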