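import Pool.Agent.LibVol74.G2
import Pool.Agent.LibVol74.G3
import Pool.Agent.LibVol74.G4
import Pool.Agent.LibVol74.G5

/-!
# Theorem R (row G6)
-/

set_option autoImplicit false

namespace Pool.Agent.LibVol74

open MvPolynomial

variable {n r : ℕ}

/-- **Theorem R', for the projections of the induction only.** If all volume inequalities hold for
the projections `p'` that come from a stage `k ≥ 1` by a step, coranks `s ≥ 1`, then the semigroup is
a complete intersection.  Induction over the stages `k = 0, …, n - 1`: `stage_zero`, `exists_step`,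
`ideal_first` (`k = 0`), `ideal_of_growth` (`k ≥ 1`; `s = n - 2 - k ≥ 1` by `hvol`, `s = 0` by
`gr_zero`), `stage_succ`; at `k = n - 1` use `last_ideal`. -/
theorem main_R' (D : Dat n) (h2 : 2 ≤ n)
    (hvol : ∀ (s k : ℕ) (p : Proj D.g (s + 1 + 1)) (p' : Proj D.g (s + 1)) (u v : Fin n → ℕ),
      Stage D k p → StepData p p' u v (D.b k) → 1 ≤ s → 1 ≤ k → k + 1 + s = n - 1 →
      p'.Gr s (1 / ∏ j ∈ Finset.Ico (k + 1) (n - 1), (D.b j : ℝ))) :
    ∃ F : Fin (n - 1) → MvPolynomial (Fin n) ℚ,
      Ideal.span (Set.range F) = RingHom.ker (MvPolynomial.aeval (R := ℚ)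
        (fun i : Fin n => (Polynomial.X : Polynomial ℚ) ^ D.g i)) := by
  have key : ∀ k : ℕ, k ≤ n - 1 → ∃ (r : ℕ) (p : Proj D.g r), r + k = n ∧ Stage D k p := by
    intro k
    induction k with
    | zero => exact fun _ => ⟨n, idProj D.g, rfl, stage_zero D⟩
    | succ k ih =>
      intro hk
      obtain ⟨r, p, hr, hst⟩ := ih (by omega)
      obtain ⟨r', rfl⟩ : ∃ r', r = r' + 1 := ⟨r - 1, by omega⟩
      obtain ⟨p', u, v, hs⟩ := exists_step hst (by omega)
      refine ⟨r', p', by omega, stage_succ hst hs ?_⟩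
      rcases Nat.eq_zero_or_pos k with hk0 | hk0
      · subst hk0
        exact ideal_first hst h2 hs
      · obtain ⟨s, rfl⟩ : ∃ s, r' = s + 1 := ⟨r' - 1, by omega⟩
        rcases Nat.eq_zero_or_pos s with hs0 | hs0
        · subst hs0
          refine ideal_of_growth hst hs ?_
          have h3 : Finset.Ico (k + 1) (n - 1) = ∅ := Finset.Ico_eq_empty (by omega)
          rw [h3, Finset.prod_empty, div_one]
          exact gr_zero D p'
        · exact ideal_of_growth hst hs (hvol s k p p' u v hst hs hs0 hk0 (by omega))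
  obtain ⟨r, p, hr, hst⟩ := key (n - 1) le_rfl
  obtain rfl : r = 1 := by omega
  obtain ⟨F, _, hF⟩ := hst.gens
  exact ⟨F, by rw [hF, last_ideal]⟩

/-- **Theorem R.** If all volume inequalities hold for coranks `1 ≤ s ≤ n - 3` then the semigroup is
a complete intersection. -/
theorem main_R (D : Dat n) (h2 : 2 ≤ n)
    (hvol : ∀ (s k : ℕ) (p : Proj D.g (s + 1)), 1 ≤ s → 1 ≤ k → k + 1 + s = n - 1 →
      p.Gr s (1 / ∏ j ∈ Finset.Ico (k + 1) (n - 1), (D.b j : ℝ))) :
    ∃ F : Fin (n - 1) → MvPolynomial (Fin n) ℚ,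
      Ideal.span (Set.range F) = RingHom.ker (MvPolynomial.aeval (R := ℚ)
        (fun i : Fin n => (Polynomial.X : Polynomial ℚ) ^ D.g i)) :=
  main_R' D h2 fun s k _ p' _ _ _ _ hs hk hsk => hvol s k p' hs hk hsk

end Pool.Agent.LibVol74
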