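import Pool.Agent.LibVol74.X3

/-!
# Bounds for rays and planes (row X3b)
-/

set_option autoImplicit false

namespace Pool.Agent.LibVol74

open Finset

variable {n : ℕ}

theorem X3b_ncard_filter {α : Type} [Fintype α] (P : α → Prop) [DecidablePred P] :
    {i | P i}.ncard = (univ.filter P).card := by
  rw [← Set.ncard_coe_finset]
  congr 1
  ext x
  simp

theorem X3b_ncard_lt (m : ℕ) (P : ℕ → Prop) [DecidablePred P] :
    {j | j < m ∧ P j}.ncard = ((range m).filter P).card := by
  rw [← Set.ncard_coe_finset]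
  congr 1
  ext x
  simp

theorem X3b_delta {r : ℕ} {g : Fin n → ℕ} (p : Proj g r) (i : Fin n) :
    p.δ (p.π (Pi.single i 1)) = (g i : ℤ) := by
  rw [p.deg, ← toZ_single, dg_toZ, wt_single]

theorem X3b_det3 (x y z : Fin 3 → ℤ) : det3 x y z =
    x 0 * (y 1 * z 2 - y 2 * z 1) - x 1 * (y 0 * z 2 - y 2 * z 0)
      + x 2 * (y 0 * z 1 - y 1 * z 0) := by
  unfold det3
  rw [Matrix.det_fin_three]
  simp
  ring

theorem X3b_det3_par {x y l : Fin 3 → ℤ} (h : Par x l) : det3 l y x = 0 := by
  obtain ⟨m, k, hm, hk, h⟩ := h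
  have e : m * det3 l y x = 0 := by
    have h0 : m * x 0 = k * l 0 := by simpa using congrFun h 0
    have h1 : m * x 1 = k * l 1 := by simpa using congrFun h 1
    have h2 : m * x 2 = k * l 2 := by simpa using congrFun h 2
    rw [X3b_det3]
    have : m * (l 0 * (y 1 * x 2 - y 2 * x 1) - l 1 * (y 0 * x 2 - y 2 * x 0)
      + l 2 * (y 0 * x 1 - y 1 * x 0)) = l 0 * (y 1 * (m * x 2) - y 2 * (m * x 1))
        - l 1 * (y 0 * (m * x 2) - y 2 * (m * x 0))
      + l 2 * (y 0 * (m * x 1) - y 1 * (m * x 0)) := by ring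
    rw [this, h0, h1, h2]
    ring
  exact (mul_eq_zero.mp e).resolve_left hm

/-- parallel if the cross product vanishes -/
theorem X3b_par_of_cross {l y : Fin 3 → ℤ} (hl : l ≠ 0) (hy : y ≠ 0)
    (h01 : l 0 * y 1 = l 1 * y 0) (h02 : l 0 * y 2 = l 2 * y 0) (h12 : l 1 * y 2 = l 2 * y 1) :
    Par y l := by
  obtain ⟨i, hi⟩ : ∃ i, l i ≠ 0 := by
    by_contra hcon
    push Not at hcon
    exact hl (funext hcon)
  have key : l i • y = y i • l := by
    funext j
    simp only [Pi.smul_apply, smul_eq_mul]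
    fin_cases i <;> fin_cases j <;> simp <;> linarith
  refine ⟨l i, y i, hi, ?_, key⟩
  intro h0
  rw [h0, zero_smul] at key
  exact hy ((smul_eq_zero.mp key).resolve_left hi)

/-- `det3 x w ·` as a homomorphism -/
def X3b_D (x w : Fin 3 → ℤ) : (Fin 3 → ℤ) →+ ℤ where
  toFun z := det3 x w z
  map_zero' := by rw [X3b_det3]; simp
  map_add' y z := by
    simp only [X3b_det3, Pi.add_apply]
    ring

theorem X3b_D_apply (x w z : Fin 3 → ℤ) : X3b_D x w z = det3 x w z := rfl

/-- if all `π e_i` lie in the plane of `x, w` then the cross product of `x, w` vanishes -/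
theorem X3b_all {g : Fin n → ℕ} (p : Proj g 3) {x w : Fin 3 → ℤ}
    (h : ∀ i, det3 x w (p.π (Pi.single i 1)) = 0) :
    x 0 * w 1 = x 1 * w 0 ∧ x 0 * w 2 = x 2 * w 0 ∧ x 1 * w 2 = x 2 * w 1 := by
  have h0 : (X3b_D x w).comp p.π = 0 := by
    apply AddMonoidHom.functions_ext
    intro i z
    have hx : (Pi.single i z : Fin n → ℤ) = z • Pi.single i 1 := by
      rw [← Pi.single_smul]
      simp
    rw [hx, map_zsmul, AddMonoidHom.comp_apply, X3b_D_apply, h i, smul_zero]
    rfl
  have h1 : ∀ z, det3 x w z = 0 := by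
    intro z
    obtain ⟨v, rfl⟩ := p.surj z
    exact DFunLike.congr_fun h0 v
  have e0 := h1 ![1, 0, 0]
  have e1 := h1 ![0, 1, 0]
  have e2 := h1 ![0, 0, 1]
  rw [X3b_det3] at e0 e1 e2
  simp at e0 e1 e2
  refine ⟨?_, ?_, ?_⟩ <;> linarith

/-- at least two of the `π e_i` are not on the ray of `x` -/
theorem X3b_card_ray (D : Dat n) (h3 : 3 ≤ n) (p : Proj D.g 3) {x : Fin 3 → ℤ} (hx0 : x ≠ 0) :
    {i : Fin n | Par (p.π (Pi.single i 1)) x}.ncard ≤ n - 2 := by
  classical
  have ha0 : ∀ i, p.π (Pi.single i 1) ≠ 0 := by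
    intro i h
    have h1 := X3b_delta p i
    rw [h, map_zero] at h1
    have := D.gpos i
    omega
  by_contra hcon
  push Not at hcon
  rw [X3b_ncard_filter] at hcon
  have hsum := Finset.card_filter_add_card_filter_not (s := (univ : Finset (Fin n)))
    (fun i : Fin n => Par (p.π (Pi.single i 1)) x)
  rw [Finset.card_univ, Fintype.card_fin] at hsum
  have hle : (univ.filter fun i : Fin n => ¬ Par (p.π (Pi.single i 1)) x).card ≤ 1 := by omega
  -- an index outside which all are parallel
  obtain ⟨i₁, hi₁⟩ : ∃ i₁ : Fin n, ∀ i, i ≠ i₁ → Par (p.π (Pi.single i 1)) x := by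
    have : Nonempty (Fin n) := ⟨⟨0, by omega⟩⟩
    rw [Finset.card_le_one_iff_subset_singleton] at hle
    obtain ⟨i₁, hi₁⟩ := hle
    refine ⟨i₁, fun i hi => ?_⟩
    by_contra hnp
    have h4 : i ∈ ({i₁} : Finset (Fin n)) := hi₁ (by simp [hnp])
    exact hi (Finset.mem_singleton.mp h4)
  have hall : Par (p.π (Pi.single i₁ 1)) x := by
    have h1 := X3b_all p (x := x) (w := p.π (Pi.single i₁ 1)) (by
      intro i
      by_cases hi : i = i₁
      · rw [hi, X3b_det3]
        ring
      · exact X3b_det3_par (hi₁ i hi))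
    exact X3b_par_of_cross hx0 (ha0 i₁) h1.1 h1.2.1 h1.2.2
  have hpar : ∀ i, Par (p.π (Pi.single i 1)) x := by
    intro i
    by_cases hi : i = i₁
    · rw [hi]
      exact hall
    · exact hi₁ i hi
  have e0 := X3b_all p (x := x) (w := ![1, 0, 0]) (fun i => X3b_det3_par (hpar i))
  have e1 := X3b_all p (x := x) (w := ![0, 1, 0]) (fun i => X3b_det3_par (hpar i))
  simp at e0 e1
  apply hx0
  funext j
  fin_cases j
  · exact e1.1
  · exact e0.1.symm
  · exact e0.2.symm

/-- W4c: the bound for rays. `β j` (`j < n - 2`) is the element of degree `b j`.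
A ray `R` has `γ(R) ≤ β(R) + 1`, and `γ(R) = β(R) + 1` implies that `R` has an element of degree
`N = b (n-2)`.  Proof: let `d` be the degree of the primitive vector of the ray of `x`. If `d ≥ 2`:
`γ(R) ≤ #{i | d ∣ g i} ≤ #{j < n-1 | d ∣ b j} ≤ β(R) + [d ∣ N]` by `card_dvd_le` (if `d ∣ b j`,
`j < n-2`, then the ray contains an element of `sat` of degree `b j`, which is `β j` by uniqueness).
If `d = 1`: all `β j` are in `R`, so `β(R) = n - 2`, and `γ(R) ≤ n - 2` because the `p.π e_i` span a
space of dimension three. -/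
theorem ray_bound (D : Dat n) (h3 : 3 ≤ n) (p : Proj D.g 3) (β : ℕ → (Fin 3 → ℤ))
    (hβ : ∀ j, j < n - 2 → β j ∈ p.sat ∧ p.δ (β j) = D.b j)
    (huniq : ∀ j, j < n - 2 → ∀ x ∈ p.sat, p.δ x = D.b j → x = β j)
    {x : Fin 3 → ℤ} (hx : x ∈ p.sat) (hx0 : x ≠ 0)
    (hlt : {j : ℕ | j < n - 2 ∧ Par (β j) x}.ncard < {i : Fin n | Par (p.π (Pi.single i 1)) x}.ncard) :
    {i : Fin n | Par (p.π (Pi.single i 1)) x}.ncard = {j : ℕ | j < n - 2 ∧ Par (β j) x}.ncard + 1 ∧
      ∃ y ∈ p.sat, Par y x ∧ p.δ y = D.b (n - 2) := by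
  classical
  obtain ⟨d, hd0, hd1, hd2⟩ := exists_ray3 D p hx hx0
  have hB : ∀ j, j < n - 2 → d ∣ D.b j → Par (β j) x := by
    intro j hj hdj
    obtain ⟨y, hy, hyx, hyd⟩ := hd2 (D.b j) (D.bpos j) hdj
    rw [← huniq j hj y hy hyd]
    exact hyx
  have hA : ∀ i : Fin n, Par (p.π (Pi.single i 1)) x → d ∣ D.g i := by
    intro i hi
    have h1 := (hd1 _ hi (by rw [X3b_delta]; exact Int.natCast_nonneg _)).2
    rw [X3b_delta] at h1
    exact_mod_cast h1
  by_cases hd : d = 1
  · exfalso
    have h1 : {j : ℕ | j < n - 2 ∧ Par (β j) x}.ncard = n - 2 := by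
      rw [X3b_ncard_lt]
      have : ((range (n - 2)).filter fun j => Par (β j) x) = range (n - 2) :=
        Finset.filter_true_of_mem fun j hj =>
          hB j (mem_range.mp hj) (by rw [hd]; exact one_dvd _)
      rw [this, card_range]
    have h2 := X3b_card_ray D h3 p hx0
    omega
  · have hd' : 2 ≤ d := by omega
    have h1 := card_dvd_le D hd'
    rw [X3b_ncard_lt, X3b_ncard_filter] at *
    have h2 : (univ.filter fun i : Fin n => Par (p.π (Pi.single i 1)) x).card ≤
        (univ.filter fun i : Fin n => d ∣ D.g i).card := by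
      apply Finset.card_le_card
      intro i hi
      simp only [mem_filter, mem_univ, true_and] at hi ⊢
      exact hA i hi
    have h4 : ((range (n - 2)).filter fun j => d ∣ D.b j).card ≤
        ((range (n - 2)).filter fun j => Par (β j) x).card := by
      apply Finset.card_le_card
      intro j hj
      rw [mem_filter, mem_range] at hj ⊢
      exact ⟨hj.1, hB j hj.1 hj.2⟩
    have h5 : n - 1 = (n - 2) + 1 := by omega
    rw [h5, Finset.range_add_one, Finset.filter_insert] at h1
    by_cases hN : d ∣ D.b (n - 2)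
    · rw [if_pos hN, Finset.card_insert_of_notMem (by simp)] at h1
      refine ⟨by omega, ?_⟩
      exact hd2 _ (D.bpos _) hN
    · rw [if_neg hN] at h1
      omega

/-- W4d: the bound for planes through two elements `x ≠ y` of `sat` of degree `N = b (n-2)`.
Proof: `q` from `exists_plane3`. If `q ≥ 2`:
`γ(U) ≤ #{i | q ∣ g i} ≤ #{j < n-1 | q ∣ b j} ≤ #{j < n-2 | q ∣ b j} + 1 ≤ β(U) + 1`
(for `j < n-2` with `q ∣ b j` there is `v` with `det3 x y v = 0`, `δ v = b j`, so
`det3 x y (β j) = 0` by `hclosed`). If `q = 1`: all `β j` are in `U`, `β(U) = n - 2` and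
`γ(U) ≤ n - 1` because the `p.π e_i` do not all lie in a plane. -/
theorem plane_bound (D : Dat n) (h3 : 3 ≤ n) (p : Proj D.g 3) (β : ℕ → (Fin 3 → ℤ))
    (hβ : ∀ j, j < n - 2 → β j ∈ p.sat ∧ p.δ (β j) = D.b j)
    {x y : Fin 3 → ℤ} (hxN : p.δ x = D.b (n - 2)) (hyN : p.δ y = D.b (n - 2)) (hxy : x ≠ y)
    (hclosed : ∀ j, j < n - 2 → ∀ v, p.δ v = D.b j → det3 x y v = 0 → det3 x y (β j) = 0) :
    {i : Fin n | det3 x y (p.π (Pi.single i 1)) = 0}.ncard ≤
      {j : ℕ | j < n - 2 ∧ det3 x y (β j) = 0}.ncard + 1 := by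
  classical
  have hNpos := D.bpos (n - 2)
  obtain ⟨q, hq0, hqN, hq1, hq2⟩ := exists_plane3 D p (y := y) hNpos hxN
  have hB : ∀ j, j < n - 2 → q ∣ D.b j → det3 x y (β j) = 0 := by
    intro j hj hdj
    obtain ⟨v, hv, hvd⟩ := hq2 (D.b j) (by exact_mod_cast hdj)
    exact hclosed j hj v hvd hv
  have hA : ∀ i : Fin n, det3 x y (p.π (Pi.single i 1)) = 0 → q ∣ D.g i := by
    intro i hi
    have h1 := hq1 _ hi
    rw [X3b_delta] at h1
    exact_mod_cast h1
  rw [X3b_ncard_lt, X3b_ncard_filter]
  by_cases hq : q = 1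
  · have h1 : ((range (n - 2)).filter fun j => det3 x y (β j) = 0).card = n - 2 := by
      have : ((range (n - 2)).filter fun j => det3 x y (β j) = 0) = range (n - 2) :=
        Finset.filter_true_of_mem fun j hj =>
          hB j (mem_range.mp hj) (by rw [hq]; exact one_dvd _)
      rw [this, card_range]
    have h2 : (univ.filter fun i : Fin n => det3 x y (p.π (Pi.single i 1)) = 0).card < n := by
      by_contra hge
      push Not at hge
      have hall : (univ.filter fun i : Fin n => det3 x y (p.π (Pi.single i 1)) = 0) = univ := by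
        apply Finset.eq_univ_of_card
        rw [Fintype.card_fin]
        refine le_antisymm ?_ hge
        refine le_trans (Finset.card_filter_le _ _) ?_
        simp
      have h4 := X3b_all p (x := x) (w := y) (by
        intro i
        have : i ∈ (univ.filter fun i : Fin n => det3 x y (p.π (Pi.single i 1)) = 0) := by
          rw [hall]
          exact mem_univ i
        exact (mem_filter.mp this).2)
      have hx0 : x ≠ 0 := by
        intro h
        rw [h, map_zero] at hxN
        omega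
      have hy0 : y ≠ 0 := by
        intro h
        rw [h, map_zero] at hyN
        omega
      obtain ⟨m, k, hm, hk, h⟩ := X3b_par_of_cross hx0 hy0 h4.1 h4.2.1 h4.2.2
      have h5 : m * (D.b (n - 2) : ℤ) = k * (D.b (n - 2) : ℤ) := by
        have := congrArg p.δ h
        rw [map_zsmul, map_zsmul, hxN, hyN] at this
        simpa using this
      have hNz : (D.b (n - 2) : ℤ) ≠ 0 := by exact_mod_cast hNpos.ne'
      have hmk : m = k := mul_right_cancel₀ hNz h5
      rw [hmk] at h
      exact hxy (smul_right_injective _ hk h).symm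
    omega
  · have hq' : 2 ≤ q := by omega
    have h1 := card_dvd_le D hq'
    have h2 : (univ.filter fun i : Fin n => det3 x y (p.π (Pi.single i 1)) = 0).card ≤
        (univ.filter fun i : Fin n => q ∣ D.g i).card := by
      apply Finset.card_le_card
      intro i hi
      simp only [mem_filter, mem_univ, true_and] at hi ⊢
      exact hA i hi
    have h4 : ((range (n - 2)).filter fun j => q ∣ D.b j).card ≤
        ((range (n - 2)).filter fun j => det3 x y (β j) = 0).card := by
      apply Finset.card_le_card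
      intro j hj
      rw [mem_filter, mem_range] at hj ⊢
      exact ⟨hj.1, hB j hj.1 hj.2⟩
    have h5 : n - 1 = (n - 2) + 1 := by omega
    rw [h5, Finset.range_add_one, Finset.filter_insert] at h1
    by_cases hN : q ∣ D.b (n - 2)
    · rw [if_pos hN, Finset.card_insert_of_notMem (by simp)] at h1
      omega
    · rw [if_neg hN] at h1
      omega

end Pool.Agent.LibVol74
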