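import Pool.Agent.LibVol74.X4
import Pool.Agent.LibVol74.X3b
import Pool.Agent.LibVol74.S3

/-!
# Corank two (row X5)
-/

set_option autoImplicit false

namespace Pool.Agent.LibVol74

open Finset

variable {n : ℕ}

theorem X5_det3_expand (x y z : Fin 3 → ℤ) : det3 x y z =
    x 0 * y 1 * z 2 - x 0 * y 2 * z 1 - x 1 * y 0 * z 2 + x 1 * y 2 * z 0 + x 2 * y 0 * z 1 -
      x 2 * y 1 * z 0 := by
  rw [det3, Matrix.det_fin_three]
  simp

theorem X5_scale {x x' y y' : Fin 3 → ℤ} (h : Par x x') (h' : Par y y') (z : Fin 3 → ℤ) :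
    det3 x y z = 0 ↔ det3 x' y' z = 0 := by
  obtain ⟨m, k, hm, hk, hmk⟩ := h
  obtain ⟨m', k', hm', hk', hmk'⟩ := h'
  have h0 : ∀ i, m * x i = k * x' i := fun i => by
    have := congrFun hmk i
    simpa using this
  have h1 : ∀ i, m' * y i = k' * y' i := fun i => by
    have := congrFun hmk' i
    simpa using this
  have key : (m * m') * det3 x y z = (k * k') * det3 x' y' z := by
    rw [X5_det3_expand, X5_det3_expand]
    have e : (m * m') * (x 0 * y 1 * z 2 - x 0 * y 2 * z 1 - x 1 * y 0 * z 2 + x 1 * y 2 * z 0 +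
        x 2 * y 0 * z 1 - x 2 * y 1 * z 0) =
        (m * x 0) * (m' * y 1) * z 2 - (m * x 0) * (m' * y 2) * z 1 -
        (m * x 1) * (m' * y 0) * z 2 + (m * x 1) * (m' * y 2) * z 0 +
        (m * x 2) * (m' * y 0) * z 1 - (m * x 2) * (m' * y 1) * z 0 := by ring
    rw [e, h0, h0, h0, h1, h1, h1]
    ring
  constructor
  · intro hz
    rw [hz, mul_zero] at key
    exact (mul_eq_zero.1 key.symm).resolve_left (mul_ne_zero hk hk')
  · intro hz
    rw [hz, mul_zero] at key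
    exact (mul_eq_zero.1 key).resolve_left (mul_ne_zero hm hm')

theorem X5_ncard_fin (m : ℕ) (P : ℕ → Prop) :
    {j : Fin m | P j}.ncard = {j : ℕ | j < m ∧ P j}.ncard := by
  have h : {j : ℕ | j < m ∧ P j} = (Fin.val : Fin m → ℕ) '' {j : Fin m | P j} := by
    ext j
    simp only [Set.mem_setOf_eq, Set.mem_image]
    constructor
    · rintro ⟨h1, h2⟩
      exact ⟨⟨j, h1⟩, h2, rfl⟩
    · rintro ⟨i, hi, rfl⟩
      exact ⟨i.2, hi⟩
  rw [h, Set.ncard_image_of_injective _ Fin.val_injective]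

/-- The count: `abstract_count` with `α = Fin n`, `a i = p.π e_i`, `β = Fin (n - 2)`, `b j = β j` the
element of degree `b j` of the saturation (`b_mem`, `lev_nonempty_iff`, unique by `huniq`); `ray_bound`,
`plane_bound` (the elements of degree `N = b (n-2)` on the two rays given by `ray_bound` span the
same plane as `a i₀`, `a i₁`). Result `n ≤ n - 2 + 1`. -/
theorem vol2_count (D : Dat n) (h3 : 3 ≤ n) (p : Proj D.g 3)
    (huniq : ∀ j, j < n - 2 → ∀ x ∈ p.sat, ∀ y ∈ p.sat, p.δ x = D.b j → p.δ y = D.b j → x = y)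
    (hclosed : ∀ x ∈ p.sat, ∀ y ∈ p.sat, p.δ x = D.b (n - 2) → p.δ y = D.b (n - 2) → x ≠ y →
      ∀ j, j < n - 2 → ∀ w ∈ p.sat, p.δ w = D.b j → ∀ v, p.δ v = D.b j → det3 x y v = 0 →
        det3 x y w = 0) : False := by
  classical
  have hex : ∀ j, ∃ x : Fin 3 → ℤ, j < n - 2 → x ∈ p.sat ∧ p.δ x = D.b j := by
    intro j
    by_cases hj : j < n - 2
    · have hmem : D.b j ∈ AddSubmonoid.closure (Set.range D.g) := by
        rw [D.gen]
        exact b_mem D (by omega)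
      obtain ⟨x, hx⟩ := (lev_nonempty_iff p (D.b j)).2 hmem
      exact ⟨x, fun _ => ⟨sat_of_lev p hx, deg_lev p hx⟩⟩
    · exact ⟨0, fun h => absurd h hj⟩
  choose β hβ using hex
  have hβu : ∀ j, j < n - 2 → ∀ x ∈ p.sat, p.δ x = D.b j → x = β j := fun j hj x hx hxd =>
    huniq j hj x hx (β j) (hβ j hj).1 hxd (hβ j hj).2
  have hdeg : ∀ i, p.δ (p.π (Pi.single i 1)) = (D.g i : ℤ) := fun i =>
    deg_lev p (single_mem_lev p i)
  have hne : ∀ i, p.π (Pi.single i 1) ≠ 0 := fun i h0 => by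
    have := hdeg i
    rw [h0, map_zero] at this
    have h1 := D.gpos i
    omega
  have hmain := abstract_count (α := Fin n) (β := Fin (n - 2)) p.δ
    (fun i => p.π (Pi.single i 1)) (fun j => β j)
    (fun i => by rw [hdeg i]; exact_mod_cast D.gpos i)
    (fun j => by rw [(hβ j j.2).2]; exact_mod_cast D.bpos j) ?_ ?_
  · simp only [Fintype.card_fin] at hmain
    omega
  · intro i₀
    rw [X5_ncard_fin (n - 2) (fun j => Par (β j) (p.π (Pi.single i₀ 1)))]
    by_cases hlt : {j : ℕ | j < n - 2 ∧ Par (β j) (p.π (Pi.single i₀ 1))}.ncard <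
        {i : Fin n | Par (p.π (Pi.single i 1)) (p.π (Pi.single i₀ 1))}.ncard
    · exact (ray_bound D h3 p β hβ hβu (sat_single p i₀) (hne i₀) hlt).1.le
    · exact (not_lt.1 hlt).trans (Nat.le_succ _)
  · intro i₀ i₁ hnp hlt₀ hlt₁
    rw [X5_ncard_fin (n - 2) (fun j => Par (β j) (p.π (Pi.single i₀ 1)))] at hlt₀
    rw [X5_ncard_fin (n - 2) (fun j => Par (β j) (p.π (Pi.single i₁ 1)))] at hlt₁
    rw [X5_ncard_fin (n - 2) (fun j =>
      det3 (p.π (Pi.single i₀ 1)) (p.π (Pi.single i₁ 1)) (β j) = 0)]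
    obtain ⟨-, y₀, hy₀, hp₀, hd₀⟩ := ray_bound D h3 p β hβ hβu (sat_single p i₀) (hne i₀) hlt₀
    obtain ⟨-, y₁, hy₁, hp₁, hd₁⟩ := ray_bound D h3 p β hβ hβu (sat_single p i₁) (hne i₁) hlt₁
    have hy01 : y₀ ≠ y₁ := by
      rintro rfl
      obtain ⟨m, k, hm, hk, hmk⟩ := hp₀
      obtain ⟨m', k', hm', hk', hmk'⟩ := hp₁
      refine hnp ⟨m' * k, m * k', mul_ne_zero hm' hk, mul_ne_zero hm hk', ?_⟩
      rw [mul_smul, mul_smul, ← hmk, ← hmk', ← mul_smul, ← mul_smul, mul_comm]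
    have hb := plane_bound D h3 p β hβ hd₀ hd₁ hy01 (fun j hj v hv hv0 =>
      hclosed y₀ hy₀ y₁ hy₁ hd₀ hd₁ hy01 j hj (β j) (hβ j hj).1 (hβ j hj).2 v hv hv0)
    simp only [X5_scale hp₀ hp₁] at hb
    exact hb

/-- Corank two. If not, then `huniq` holds by `gr_of_chord` (`ν = b j ≤ b (n-3)`) and `hclosed` holds by
`gr_of_triangle` (`c = b j ≤ b (n-3)`), using `Gr.mono`. -/
theorem vol2 (D : Dat n) (h3 : 3 ≤ n) (p : Proj D.g 3) :
    p.Gr 2 (1 / ((D.b (n - 3) : ℝ) * (D.b (n - 2) : ℝ))) := by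
  by_contra hnot
  have hmono : ∀ j, j < n - 2 → 1 / ((D.b (n - 3) : ℝ) * (D.b (n - 2) : ℝ)) ≤
      1 / ((D.b j : ℝ) * (D.b (n - 2) : ℝ)) := fun j hj => by
    have h1 : (0 : ℝ) < (D.b j : ℝ) := by exact_mod_cast D.bpos j
    have h2 : (0 : ℝ) < (D.b (n - 2) : ℝ) := by exact_mod_cast D.bpos (n - 2)
    have h4 : (D.b j : ℝ) ≤ (D.b (n - 3) : ℝ) := by
      exact_mod_cast D.mono (show j ≤ n - 3 by omega)
    exact one_div_le_one_div_of_le (mul_pos h1 h2) (mul_le_mul_of_nonneg_right h4 h2.le)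
  refine vol2_count D h3 p ?_ ?_
  · intro j hj x hx y hy hdx hdy
    by_contra hxy
    exact hnot (Gr.mono (gr_of_chord D p (D.bpos j) hx hy hdx hdy hxy) (hmono j hj))
  · intro x hx y hy hdx hdy hxy j hj w hw hdw v hdv hv0
    by_contra hw0
    exact hnot (Gr.mono (gr_of_triangle D p (D.bpos (n - 2)) (D.bpos j) hx hy hw hdx hdy hdw hdv
      hv0 hw0) (hmono j hj))

end Pool.Agent.LibVol74
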