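import Pool.Agent.LibVol74.G6
import Pool.Agent.LibVol74.X5
import Pool.Agent.LibVol74.M1

/-!
# Embedding dimension five without further denominators
-/

set_option autoImplicit false

namespace Pool.Agent.LibVol74

open Finset

/-- data with five denominators -/
theorem main_five (D : Dat 5) :
    ∃ F : Fin 4 → MvPolynomial (Fin 5) ℚ,
      Ideal.span (Set.range F) = RingHom.ker (MvPolynomial.aeval (R := ℚ)
        (fun i : Fin 5 => (Polynomial.X : Polynomial ℚ) ^ D.g i)) := by
  refine main_R D (by norm_num) ?_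
  intro s k p hs hk hsk
  have hs2 : s ≤ 2 := by omega
  interval_cases s
  · have hk2 : k = 2 := by omega
    subst hk2
    have := vol1 D (by norm_num) p
    simpa using this
  · have hk1 : k = 1 := by omega
    subst hk1
    have := vol2 D (by norm_num) p
    have h2 : Finset.Ico (1 + 1) (5 - 1) = {2, 3} := by decide
    rw [h2, Finset.prod_pair (by norm_num)]
    exact this

/-- **Embedding dimension five without further denominators.** -/
theorem result5 (S : AddSubmonoid ℕ) (hS : ((S : Set ℕ)ᶜ).Finite) (g : Fin 5 → ℕ)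
    (hg : Set.range g = {x : ℕ | x ∈ S ∧ x ≠ 0 ∧ ∀ a ∈ S, ∀ b ∈ S, a + b = x → a = 0 ∨ b = 0})
    (b : Fin 4 → ℕ) (hb : ∀ j, 0 < b j)
    (h : (1 - (1 - Polynomial.X) * ∑ n ∈ hS.toFinset, Polynomial.X ^ n : Polynomial ℤ) *
        ∏ i, (1 - Polynomial.X ^ g i) = (1 - Polynomial.X) * ∏ j, (1 - Polynomial.X ^ b j)) :
    ∃ s : Finset (MvPolynomial (Fin 5) ℚ), s.card ≤ 4 ∧
      Ideal.span (s : Set (MvPolynomial (Fin 5) ℚ))
        = RingHom.ker (MvPolynomial.aeval (R := ℚ)
            (fun i : Fin 5 => (Polynomial.X : Polynomial ℚ) ^ g i)) := by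
  classical
  obtain ⟨b', hb'0, hb'm, hb'⟩ := exists_sorted b hb
  have hgpos : ∀ i, 0 < g i := by
    intro i
    have : g i ∈ Set.range g := ⟨i, rfl⟩
    rw [hg] at this
    exact Nat.pos_of_ne_zero this.2.1
  let D : Dat 5 :=
    { S := S, fin := hS, g := g, gpos := hgpos, gen := closure_min S g hg, b := b', bpos := hb'0,
      mono := hb'm, H := by rw [series_of_poly S hS g b h, ← hb'] }
  obtain ⟨F, hF⟩ := main_five D
  refine ⟨Finset.univ.image F, Finset.card_image_le.trans (by simp), ?_⟩
  rw [Finset.coe_image, Finset.coe_univ, Set.image_univ]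
  exact hF

end Pool.Agent.LibVol74
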