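import Pool.Agent.LibVol74.Basic

/-!
# Hilbert series (row S1)
-/

set_option autoImplicit false

namespace Pool.Agent.LibVol74

open PowerSeries Finset

variable {n r : ℕ} {g : Fin n → ℕ}

/-- Hilbert series of the image monoid -/
noncomputable def Proj.HP (p : Proj g r) : PowerSeries ℤ := PowerSeries.mk fun N => (p.h N : ℤ)

/-- the identity projection -/
def idProj (g : Fin n → ℕ) : Proj g n where
  π := AddMonoidHom.id _
  δ := dg g
  surj := Function.surjective_id
  deg _ := rfl

/-- the geometric series `∑ X^(d k)` -/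
noncomputable def S1_geo (d : ℕ) : PowerSeries ℤ := PowerSeries.mk fun N => if d ∣ N then 1 else 0

theorem S1_geo_mul {d : ℕ} (hd : 0 < d) : S1_geo d * (1 - (X : PowerSeries ℤ) ^ d) = 1 := by
  ext N
  rw [mul_sub, mul_one, map_sub, PowerSeries.coeff_mul_X_pow', S1_geo, PowerSeries.coeff_mk,
    PowerSeries.coeff_one]
  by_cases h : d ≤ N
  · rw [if_pos h, PowerSeries.coeff_mk, if_neg (by omega : ¬ N = 0)]
    have : d ∣ N - d ↔ d ∣ N := by
      constructor
      · intro h1
        have := (Nat.dvd_add_right (dvd_refl d)).2 h1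
        rwa [Nat.add_sub_cancel' h] at this
      · intro h1
        exact Nat.dvd_sub h1 (dvd_refl d)
    simp only [this, sub_self]
  · rw [if_neg h, sub_zero]
    by_cases h0 : N = 0
    · subst h0
      simp
    · rw [if_neg h0, if_neg]
      intro h1
      exact h (Nat.le_of_dvd (Nat.pos_of_ne_zero h0) h1)

theorem S1_h_id (hg : ∀ i, 0 < g i) (N : ℕ) :
    (((idProj g).h N : ℕ) : ℤ) = coeff N (∏ i, S1_geo (g i)) := by
  classical
  have h1 : (idProj g).h N = ({u : Fin n → ℕ | wt g u = N}).ncard := by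
    unfold Proj.h Proj.lev
    refine Set.ncard_image_of_injective _ ?_
    intro u v huv
    have h2 : toZ u = toZ v := huv
    funext i
    have h3 := congrFun h2 i
    unfold toZ at h3
    exact_mod_cast h3
  have h2 : ({u : Fin n → ℕ | wt g u = N}).ncard =
      #((finsuppAntidiag (univ : Finset (Fin n)) N).filter (fun l => ∀ i, g i ∣ l i)) := by
    rw [← Set.ncard_coe_finset]
    refine Set.ncard_congr (fun u _ => Finsupp.equivFunOnFinite.symm (fun i => u i * g i)) ?_ ?_ ?_
    · intro u hu
      rw [Finset.mem_coe, Finset.mem_filter, Finset.mem_finsuppAntidiag]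
      refine ⟨⟨?_, Finset.subset_univ _⟩, ?_⟩
      · simpa [wt] using hu
      · intro i
        simp
    · intro u v _ _ huv
      funext i
      have h3 := DFunLike.congr_fun huv i
      simp only [Finsupp.equivFunOnFinite_symm_apply_apply] at h3
      exact Nat.eq_of_mul_eq_mul_right (hg i) h3
    · intro l hl
      rw [Finset.mem_coe, Finset.mem_filter, Finset.mem_finsuppAntidiag] at hl
      refine ⟨fun i => l i / g i, ?_, ?_⟩
      · show wt g _ = N
        unfold wt
        rw [← hl.1.1]
        exact Finset.sum_congr rfl fun i _ => Nat.div_mul_cancel (hl.2 i)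
      · ext i
        simp only [Finsupp.equivFunOnFinite_symm_apply_apply]
        exact Nat.div_mul_cancel (hl.2 i)
  rw [h1, h2, PowerSeries.coeff_prod, Finset.card_filter, Nat.cast_sum]
  refine Finset.sum_congr rfl fun l _ => ?_
  unfold S1_geo
  simp only [PowerSeries.coeff_mk]
  by_cases h : ∀ i, g i ∣ l i
  · rw [if_pos h, Finset.prod_eq_one fun i _ => if_pos (h i)]
    rfl
  · rw [if_neg h]
    push Not at h
    obtain ⟨i, hi⟩ := h
    rw [Finset.prod_eq_zero (Finset.mem_univ i) (if_neg hi)]
    rfl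

/-- the Hilbert series of `ℕ^n` (induction on the number of factors, or
`∏ 1/(1 - X^{g_i})` counts the `u` with `wt g u = N`) -/
theorem HP_id (hg : ∀ i, 0 < g i) :
    (idProj g).HP * ∏ i, (1 - (X : PowerSeries ℤ) ^ g i) = 1 := by
  have h1 : (idProj g).HP = ∏ i, S1_geo (g i) := by
    ext N
    rw [Proj.HP, PowerSeries.coeff_mk]
    exact S1_h_id hg N
  rw [h1, ← Finset.prod_mul_distrib]
  exact Finset.prod_eq_one fun i _ => S1_geo_mul (hg i)

theorem HP_step {p : Proj g (r + 1)} {p' : Proj g r} {t : ℕ}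
    (h : ∀ M, p'.h M + (if t ≤ M then p.h (M - t) else 0) = p.h M) :
    p'.HP = (1 - (X : PowerSeries ℤ) ^ t) * p.HP := by
  ext M
  have h1 := h M
  rw [sub_mul, one_mul, map_sub, PowerSeries.coeff_X_pow_mul', Proj.HP, Proj.HP,
    PowerSeries.coeff_mk, PowerSeries.coeff_mk]
  split_ifs at h1 ⊢ with h2
  · rw [PowerSeries.coeff_mk]
    have : ((p'.h M : ℕ) : ℤ) + ((p.h (M - t) : ℕ) : ℤ) = ((p.h M : ℕ) : ℤ) := by exact_mod_cast h1
    linarith
  · have : ((p'.h M : ℕ) : ℤ) + 0 = ((p.h M : ℕ) : ℤ) := by exact_mod_cast h1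
    linarith

end Pool.Agent.LibVol74
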