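import Pool.Agent.LibVol74.A2

/-!
# One step: dividing by a binomial (row T1)
-/

set_option autoImplicit false

namespace Pool.Agent.LibVol74

open MvPolynomial

variable {n r : ℕ} {g : Fin n → ℕ}

/-- `p'` is obtained from `p` by dividing by the saturation of `π u - π v` -/
structure StepData (p : Proj g (r + 1)) (p' : Proj g r) (u v : Fin n → ℕ) (t : ℕ) : Prop where
  hu : wt g u = t
  hv : wt g v = t
  tpos : 0 < t
  hne : p.π (toZ u) ≠ p.π (toZ v)
  le : ∀ w, p.π w = 0 → p'.π w = 0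
  ker : ∀ w, p'.π w = 0 ↔ ∃ m k : ℤ, m ≠ 0 ∧ m • p.π w = k • (p.π (toZ u) - p.π (toZ v))

theorem T1_rho {p : Proj g (r + 1)} {p' : Proj g r} (hle : ∀ w, p.π w = 0 → p'.π w = 0) :
    ∃ ρ : (Fin (r + 1) → ℤ) →+ (Fin r → ℤ), ∀ w, ρ (p.π w) = p'.π w := by
  refine ⟨AddMonoidHom.liftOfSurjective p.π p.surj ⟨p'.π, ?_⟩, ?_⟩
  · intro w hw
    rw [AddMonoidHom.mem_ker] at hw ⊢
    exact hle w hw
  · intro w
    exact AddMonoidHom.liftOfRightInverse_comp_apply _ _ _ _ w

theorem T1_psi {p : Proj g (r + 1)} {p' : Proj g r} (hle : ∀ w, p.π w = 0 → p'.π w = 0) :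
    ∃ Ψ : AddMonoidAlgebra ℚ (Fin (r + 1) → ℤ) →ₐ[ℚ] AddMonoidAlgebra ℚ (Fin r → ℤ),
      ∀ f, Ψ (p.φ f) = p'.φ f := by
  obtain ⟨ρ, hρ⟩ := T1_rho hle
  refine ⟨AddMonoidAlgebra.mapDomainAlgHom ℚ ℚ ρ, ?_⟩
  have h : (AddMonoidAlgebra.mapDomainAlgHom ℚ ℚ ρ).comp p.φ = p'.φ := by
    apply MvPolynomial.algHom_ext
    intro i
    simp only [AlgHom.comp_apply, Proj.φ, MvPolynomial.aeval_X]
    rw [AddMonoidAlgebra.mapDomainAlgHom_apply, AddMonoidAlgebra.mapDomain_single, hρ]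
  intro f
  rw [← h]
  rfl

theorem T1_bin_mem {p : Proj g (r + 1)} {p' : Proj g r} {u v : Fin n → ℕ} {t : ℕ}
    (hs : StepData p p' u v t) : bin u v ∈ p'.I := by
  have h1 : p'.π (toZ u - toZ v) = 0 := by
    rw [hs.ker]
    exact ⟨1, 1, one_ne_zero, by rw [map_sub]⟩
  rw [map_sub, sub_eq_zero] at h1
  show p'.φ (bin u v) = 0
  rw [phi_bin, h1, sub_self]

theorem StepData.sup_le {p : Proj g (r + 1)} {p' : Proj g r} {u v : Fin n → ℕ} {t : ℕ}
    (hs : StepData p p' u v t) : p.I ⊔ Ideal.span {bin u v} ≤ p'.I := by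
  obtain ⟨Ψ, hΨ⟩ := T1_psi hs.le
  refine _root_.sup_le ?_ ?_
  · intro f hf
    have hf' : p.φ f = 0 := hf
    show p'.φ f = 0
    rw [← hΨ, hf', map_zero]
  · rw [Ideal.span_le, Set.singleton_subset_iff]
    exact T1_bin_mem hs

theorem StepData.bin_notMem {p : Proj g (r + 1)} {p' : Proj g r} {u v : Fin n → ℕ} {t : ℕ}
    (hs : StepData p p' u v t) : bin u v ∉ p.I := by
  intro h
  have h' : p.φ (bin u v) = 0 := h
  rw [phi_bin, sub_eq_zero] at h'
  exact hs.hne ((AddMonoidAlgebra.single_left_inj one_ne_zero).1 h')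

/-- Dimension count. `V` is any space of forms of weight `M` in the toric ideal of `p'` which meets
`p.I ⊔ (F)` trivially, `F = bin u v`.
Proof. As `ker p.π ≤ ker p'.π` there is a homomorphism `ρ : ℤ^(r+1) → ℤ^r` with `p'.π = ρ ∘ p.π` and
a linear map `Ψ : p.W M → p'.W M`, onto, with `Ψ (p.φ f) = p'.φ f`. Its kernel contains
`p.φ F • p.W (M - t)` (dimension `p.h (M - t)`, multiplication by a non-zero element of a domain is
injective; if `t ≤ M`) and `p.φ V` (dimension `finrank V` because `V ∩ p.I = 0`), and these two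
subspaces meet in `0`: if `p.φ f = p.φ (F h)` then `f - F h ∈ p.I`, so `f ∈ p.I ⊔ (F)`, so `f = 0`.
Now use `finrank_W`. -/
theorem StepData.count (hg : ∀ i, 0 < g i) {p : Proj g (r + 1)} {p' : Proj g r}
    {u v : Fin n → ℕ} {t : ℕ} (hs : StepData p p' u v t) (M : ℕ)
    (V : Submodule ℚ (MvPolynomial (Fin n) ℚ)) [Module.Finite ℚ V]
    (hV : V ≤ weightedHomogeneousSubmodule ℚ g M)
    (hVI : ∀ f ∈ V, f ∈ p'.I) (hV0 : ∀ f ∈ V, f ∈ p.I ⊔ Ideal.span {bin u v} → f = 0) :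
    p'.h M + (if t ≤ M then p.h (M - t) else 0) + Module.finrank ℚ V ≤ p.h M := by
  classical
  obtain ⟨Ψ, hΨ⟩ := T1_psi hs.le
  haveI hfinM : Module.Finite ℚ (p.W M) := W_finite hg p M
  haveI hprime : p.I.IsPrime := I_prime p
  haveI : IsDomain (AddMonoidAlgebra ℚ (Fin (r + 1) → ℤ)) := instDomA
  set F := bin u v with hF
  have hFne : p.φ F ≠ 0 := fun h => hs.bin_notMem h
  -- the two subspaces
  set K1 : Submodule ℚ (AddMonoidAlgebra ℚ (Fin (r + 1) → ℤ)) :=
    if t ≤ M then (p.W (M - t)).map (LinearMap.mulLeft ℚ (p.φ F)) else ⊥ with hK1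
  have hK1pos : t ≤ M → K1 = (p.W (M - t)).map (LinearMap.mulLeft ℚ (p.φ F)) := fun h => by
    rw [hK1, if_pos h]
  have hK1neg : ¬ t ≤ M → K1 = ⊥ := fun h => by rw [hK1, if_neg h]
  clear_value K1
  set K2 : Submodule ℚ (AddMonoidAlgebra ℚ (Fin (r + 1) → ℤ)) := V.map p.φ.toLinearMap with hK2
  have hK1fr : Module.finrank ℚ K1 = if t ≤ M then p.h (M - t) else 0 := by
    by_cases htM : t ≤ M
    · have hinj : Function.Injective (LinearMap.mulLeft ℚ (p.φ F)) := by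
        intro a b hab
        exact mul_left_cancel₀ hFne hab
      rw [hK1pos htM, if_pos htM,
        ← (Submodule.equivMapOfInjective _ hinj (p.W (M - t))).finrank_eq, finrank_W hg]
    · rw [hK1neg htM, if_neg htM, finrank_bot]
  have hK2fr : Module.finrank ℚ K2 = Module.finrank ℚ V := by
    have hinj : Function.Injective (p.φ.toLinearMap.domRestrict V) := by
      rw [injective_iff_map_eq_zero]
      rintro ⟨f, hf⟩ h0
      have h0' : p.φ f = 0 := h0
      have : f = 0 := hV0 f hf (Ideal.mem_sup_left h0')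
      exact Subtype.ext this
    have h1 : K2 = LinearMap.range (p.φ.toLinearMap.domRestrict V) := by
      ext x
      simp [hK2, Submodule.mem_map, LinearMap.mem_range]
    rw [h1, LinearMap.finrank_range_of_inj hinj]
  have hK1W : K1 ≤ p.W M := by
    by_cases htM : t ≤ M
    · rw [hK1pos htM]
      rintro x ⟨y, ⟨f, hf, rfl⟩, rfl⟩
      refine ⟨F * f, ?_, ?_⟩
      · have h1 : (F * f).IsWeightedHomogeneous g (t + (M - t)) :=
          (bin_hom hs.hu hs.hv).mul hf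
        rw [Nat.add_sub_cancel' htM] at h1
        exact h1
      · simp
    · rw [hK1neg htM]
      exact bot_le
  have hK2W : K2 ≤ p.W M := Submodule.map_mono hV
  have hK1Ψ : ∀ x ∈ K1, Ψ x = 0 := by
    by_cases htM : t ≤ M
    · rw [hK1pos htM]
      rintro x ⟨y, ⟨f, hf, rfl⟩, rfl⟩
      have hF0 : p'.φ F = 0 := T1_bin_mem hs
      simp [hΨ, hF0]
    · rw [hK1neg htM]
      intro x hx
      rw [(Submodule.mem_bot ℚ).1 hx, map_zero]
  have hK2Ψ : ∀ x ∈ K2, Ψ x = 0 := by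
    rintro x ⟨f, hf, rfl⟩
    have : p'.φ f = 0 := hVI f hf
    simp [hΨ, this]
  have hdisj : K1 ⊓ K2 = ⊥ := by
    rw [eq_bot_iff]
    rintro x ⟨hx1, hx2⟩
    by_cases htM : t ≤ M
    · rw [hK1pos htM] at hx1
      obtain ⟨y, ⟨h, hh, rfl⟩, hxy⟩ := hx1
      obtain ⟨f, hf, hxf⟩ := hx2
      have hxy' : p.φ F * p.φ h = x := by simpa using hxy
      have hxf' : p.φ f = x := by simpa using hxf
      have hmem : f - F * h ∈ p.I := by
        show p.φ (f - F * h) = 0
        rw [map_sub, map_mul, hxy', hxf', sub_self]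
      have hf2 : f ∈ p.I ⊔ Ideal.span {F} := by
        have : f = (f - F * h) + F * h := by ring
        rw [this]
        refine Ideal.add_mem _ (Ideal.mem_sup_left hmem) (Ideal.mem_sup_right ?_)
        exact Ideal.mul_mem_right _ _ (Ideal.subset_span rfl)
      have hf0 : f = 0 := hV0 f hf hf2
      rw [← hxf', hf0, map_zero]
      exact Submodule.zero_mem _
    · rw [hK1neg htM] at hx1
      exact hx1
  have hsupW : K1 ⊔ K2 ≤ p.W M := _root_.sup_le hK1W hK2W
  haveI hf1 : Module.Finite ℚ K1 := Submodule.finiteDimensional_of_le hK1W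
  haveI hf2 : Module.Finite ℚ K2 := Submodule.finiteDimensional_of_le hK2W
  have hsup : Module.finrank ℚ ↥(K1 ⊔ K2) = Module.finrank ℚ K1 + Module.finrank ℚ K2 := by
    have h1 := Submodule.finrank_sup_add_finrank_inf_eq K1 K2
    rw [hdisj, finrank_bot, add_zero] at h1
    exact h1
  -- the map
  set L : ↥(p.W M) →ₗ[ℚ] AddMonoidAlgebra ℚ (Fin r → ℤ) := Ψ.toLinearMap.domRestrict (p.W M)
    with hL
  have hrange : LinearMap.range L = p'.W M := by
    ext x
    constructor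
    · rintro ⟨⟨y, ⟨f, hf, rfl⟩⟩, rfl⟩
      refine ⟨f, hf, ?_⟩
      simp [hL, hΨ]
    · rintro ⟨f, hf, rfl⟩
      refine ⟨⟨p.φ f, ⟨f, hf, rfl⟩⟩, ?_⟩
      simp [hL, hΨ]
  have hker : (K1 ⊔ K2).comap (p.W M).subtype ≤ LinearMap.ker L := by
    rintro ⟨x, hx⟩ hx2
    have hx3 : x ∈ K1 ⊔ K2 := hx2
    obtain ⟨a, ha, b, hb, hab⟩ := Submodule.mem_sup.1 hx3
    rw [LinearMap.mem_ker]
    show Ψ x = 0
    rw [← hab, map_add, hK1Ψ a ha, hK2Ψ b hb, add_zero]
  have hkerfr : Module.finrank ℚ ↥(K1 ⊔ K2) ≤ Module.finrank ℚ (LinearMap.ker L) := by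
    rw [← (Submodule.comapSubtypeEquivOfLe hsupW).finrank_eq]
    exact Submodule.finrank_mono hker
  have hmain := LinearMap.finrank_range_add_finrank_ker L
  rw [hrange, finrank_W hg, finrank_W hg] at hmain
  rw [hsup, hK1fr, hK2fr] at hkerfr
  omega

end Pool.Agent.LibVol74
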