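import Pool.Agent.LibVol74.W0
import Pool.Agent.LibVol74.Quot

/-!
# Two vectors of the same degree (row V2)
-/

set_option autoImplicit false

namespace Pool.Agent.LibVol74

open Finset

variable {n : ℕ}

/-- determinant of two vectors -/
def det2 (x y : Fin 2 → ℤ) : ℤ := x 0 * y 1 - x 1 * y 0

private theorem V2_form (δ : (Fin 2 → ℤ) →+ ℤ) :
    ∃ α β : ℤ, ∀ v, δ v = α * v 0 + β * v 1 := by
  refine ⟨δ (Pi.single 0 1), δ (Pi.single 1 1), fun v => ?_⟩
  have hv : v = (v 0) • (Pi.single 0 1 : Fin 2 → ℤ) + (v 1) • (Pi.single 1 1 : Fin 2 → ℤ) := by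
    funext i
    fin_cases i <;> simp [Pi.single_apply]
  have h2 : δ v = δ ((v 0) • (Pi.single 0 1 : Fin 2 → ℤ) + (v 1) • (Pi.single 1 1 : Fin 2 → ℤ)) := by
    rw [← hv]
  rw [h2, map_add, map_zsmul, map_zsmul, smul_eq_mul, smul_eq_mul]
  ring

/-- Two different vectors of the same degree `N` have determinant at least `N`: with `η` of degree
one, `x = N η + μ`, `det2 x y = det2 x (y - x) = N det2 η (y - x)`, because `μ` and `y - x` lie in
`ker δ`, which has rank one. -/
theorem far_apart (D : Dat n) (p : Proj D.g 2) {x y : Fin 2 → ℤ} {N : ℕ}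
    (hx : p.δ x = N) (hy : p.δ y = N) (hxy : x ≠ y) : (N : ℤ) ≤ |det2 x y| := by
  obtain ⟨α, β, hf⟩ := V2_form p.δ
  obtain ⟨v, hv⟩ := deg_surj D p 1
  rw [hf] at hx hy hv
  have h1 : α * (y 0 - x 0) + β * (y 1 - x 1) = 0 := by linarith
  set u := y 0 - x 0 with hu
  set w := y 1 - x 1 with hw
  -- t = v1 * u - v0 * w satisfies u = β t, w = - α t
  have ht1 : u = β * (v 1 * u - v 0 * w) := by
    have : u = (α * v 0 + β * v 1) * u := by rw [hv, one_mul]
    have h2 : α * u = - (β * w) := by linarith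
    calc u = (α * v 0 + β * v 1) * u := this
      _ = v 0 * (α * u) + β * v 1 * u := by ring
      _ = v 0 * (-(β * w)) + β * v 1 * u := by rw [h2]
      _ = β * (v 1 * u - v 0 * w) := by ring
  have ht2 : w = - α * (v 1 * u - v 0 * w) := by
    have : w = (α * v 0 + β * v 1) * w := by rw [hv, one_mul]
    have h2 : β * w = - (α * u) := by linarith
    calc w = (α * v 0 + β * v 1) * w := this
      _ = v 1 * (β * w) + α * v 0 * w := by ring
      _ = v 1 * (-(α * u)) + α * v 0 * w := by rw [h2]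
      _ = - α * (v 1 * u - v 0 * w) := by ring
  set t := v 1 * u - v 0 * w with ht
  have ht0 : t ≠ 0 := by
    intro h0
    apply hxy
    rw [h0, mul_zero] at ht1 ht2
    funext i
    fin_cases i
    · change x 0 = y 0
      have := hu
      omega
    · change x 1 = y 1
      have := hw
      omega
  have hdet : det2 x y = - t * N := by
    unfold det2
    have e0 : y 0 = x 0 + β * t := by rw [← ht1, hu]; ring
    have e1 : y 1 = x 1 + - α * t := by rw [← ht2, hw]; ring
    rw [e0, e1, ← hx]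
    ring
  rw [hdet, abs_mul, abs_neg, Nat.abs_cast]
  have h1t : 1 ≤ |t| := Int.one_le_abs ht0
  have hN : (0 : ℤ) ≤ N := Int.natCast_nonneg N
  nlinarith

/-- the degrees of the lattice vectors on the line of `a` are the multiples of some `d > 0` -/
theorem exists_ray_deg (D : Dat n) (p : Proj D.g 2) {a : Fin 2 → ℤ} (ha : p.δ a ≠ 0) :
    ∃ d : ℕ, 0 < d ∧ ∀ c : ℤ, (d : ℤ) ∣ c ↔ ∃ z, det2 z a = 0 ∧ p.δ z = c := by
  let K : AddSubgroup (Fin 2 → ℤ) :=
    { carrier := {z | det2 z a = 0}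
      zero_mem' := by simp [det2]
      add_mem' := by
        intro z w hz hw
        simp only [Set.mem_setOf_eq, det2, Pi.add_apply] at *
        linarith
      neg_mem' := by
        intro z hz
        simp only [Set.mem_setOf_eq, det2, Pi.neg_apply] at *
        linarith }
  obtain ⟨e, he⟩ := Int.subgroup_cyclic (K.map p.δ)
  have hmem : ∀ c : ℤ, (e ∣ c) ↔ ∃ z, det2 z a = 0 ∧ p.δ z = c := by
    intro c
    have h1 : c ∈ K.map p.δ ↔ ∃ z, det2 z a = 0 ∧ p.δ z = c := by
      rw [AddSubgroup.mem_map]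
      rfl
    rw [← h1, he, AddSubgroup.mem_closure_singleton]
    constructor
    · rintro ⟨k, hk⟩
      exact ⟨k, by rw [hk, smul_eq_mul, mul_comm]⟩
    · rintro ⟨k, hk⟩
      exact ⟨k, by rw [← hk, smul_eq_mul, mul_comm]⟩
  have he0 : e ≠ 0 := by
    rintro rfl
    have : (0 : ℤ) ∣ p.δ a := (hmem _).2 ⟨a, by simp [det2, mul_comm], rfl⟩
    exact ha (zero_dvd_iff.1 this)
  refine ⟨e.natAbs, Int.natAbs_pos.2 he0, fun c => ?_⟩
  rw [← hmem c, Int.natAbs_dvd]

private theorem V2_par (δ : (Fin 2 → ℤ) →+ ℤ) {a z : Fin 2 → ℤ} (hz : det2 z a = 0) (i : Fin 2) :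
    δ a * z i = δ z * a i := by
  obtain ⟨α, β, hf⟩ := V2_form δ
  rw [hf, hf]
  unfold det2 at hz
  fin_cases i
  · change (α * a 0 + β * a 1) * z 0 = (α * z 0 + β * z 1) * a 0
    linear_combination β * hz
  · change (α * a 0 + β * a 1) * z 1 = (α * z 0 + β * z 1) * a 1
    linear_combination (-α) * hz

/-- rescaling: if the lines of `a` and `a'` are different and both carry vectors of degree `c` then
`a`, `a'` are far apart -/
theorem far_apart' (D : Dat n) (p : Proj D.g 2) {a a' z z' : Fin 2 → ℤ} {c : ℕ}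
    (ha : 0 < p.δ a) (ha' : 0 < p.δ a') (hdet : det2 a a' ≠ 0) (hz : det2 z a = 0)
    (hz' : det2 z' a' = 0) (hc : p.δ z = c) (hc' : p.δ z' = c) (hc0 : 0 < c) :
    p.δ a * p.δ a' ≤ c * |det2 a a'| := by
  have e := V2_par p.δ hz
  have e' := V2_par p.δ hz'
  rw [hc] at e
  rw [hc'] at e'
  have hcZ : (0 : ℤ) < c := by exact_mod_cast hc0
  have hkey : (p.δ a * p.δ a') * det2 z z' = ((c : ℤ) * c) * det2 a a' := by
    unfold det2
    calc (p.δ a * p.δ a') * (z 0 * z' 1 - z 1 * z' 0)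
        = (p.δ a * z 0) * (p.δ a' * z' 1) - (p.δ a * z 1) * (p.δ a' * z' 0) := by ring
      _ = ((c : ℤ) * a 0) * (c * a' 1) - (c * a 1) * (c * a' 0) := by rw [e 0, e 1, e' 0, e' 1]
      _ = ((c : ℤ) * c) * (a 0 * a' 1 - a 1 * a' 0) := by ring
  have hzz : z ≠ z' := by
    rintro rfl
    have h0 : det2 z z = 0 := by unfold det2; ring
    rw [h0, mul_zero] at hkey
    rcases mul_eq_zero.1 hkey.symm with h | h
    · rcases mul_eq_zero.1 h with h | h <;> omega
    · exact hdet h
  have hfar := far_apart D p hc hc' hzz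
  have habs : (p.δ a * p.δ a') * |det2 z z'| = ((c : ℤ) * c) * |det2 a a'| := by
    have h := congrArg abs hkey
    rw [abs_mul, abs_mul ((c : ℤ) * c), abs_of_pos (mul_pos ha ha'),
      abs_of_pos (mul_pos hcZ hcZ)] at h
    exact h
  have hpos := mul_pos ha ha'
  have h1 : (p.δ a * p.δ a') * c ≤ ((c : ℤ) * c) * |det2 a a'| := by
    rw [← habs]
    exact mul_le_mul_of_nonneg_left hfar hpos.le
  have h2 : (p.δ a * p.δ a') * c ≤ (c * |det2 a a'|) * c := by
    calc (p.δ a * p.δ a') * c ≤ ((c : ℤ) * c) * |det2 a a'| := h1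
      _ = (c * |det2 a a'|) * c := by ring
  exact le_of_mul_le_mul_right h2 hcZ

end Pool.Agent.LibVol74
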