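import Pool.Agent.LibVol74.V1
import Pool.Agent.LibVol74.V2

/-!
# The slope count (row V3)
-/

set_option autoImplicit false

namespace Pool.Agent.LibVol74

open Finset

variable {n : ℕ}

theorem V3_delta {r : ℕ} {g : Fin n → ℕ} (p : Proj g r) (i : Fin n) :
    p.δ (p.π (Pi.single i 1)) = (g i : ℤ) := by
  rw [p.deg, ← toZ_single, dg_toZ, wt_single]

/-- `det2 · a` as a homomorphism -/
def V3_det (a : Fin 2 → ℤ) : (Fin 2 → ℤ) →+ ℤ where
  toFun x := det2 x a
  map_zero' := by simp [det2]
  map_add' x y := by simp only [det2, Pi.add_apply]; ring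

theorem V3_det_apply (a x : Fin 2 → ℤ) : V3_det a x = det2 x a := rfl

theorem V3_trans {x y z : Fin 2 → ℤ} (hy : y ≠ 0) (h : det2 x y = 0) (h' : det2 y z = 0) :
    det2 x z = 0 := by
  unfold det2 at *
  have hne : y 0 ≠ 0 ∨ y 1 ≠ 0 := by
    by_contra hcon
    push Not at hcon
    apply hy
    funext i
    fin_cases i
    · exact hcon.1
    · exact hcon.2
  have e0 : y 0 * (x 0 * z 1 - x 1 * z 0) = 0 := by
    linear_combination z 0 * h + x 0 * h'
  have e1 : y 1 * (x 0 * z 1 - x 1 * z 0) = 0 := by
    linear_combination z 1 * h + x 1 * h'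
  rcases hne with h0 | h1
  · exact (mul_eq_zero.mp e0).resolve_left h0
  · exact (mul_eq_zero.mp e1).resolve_left h1

theorem V3_symm {x y : Fin 2 → ℤ} (h : det2 x y = 0) : det2 y x = 0 := by
  unfold det2 at *
  linear_combination -h

theorem V3_self (x : Fin 2 → ℤ) : det2 x x = 0 := by
  unfold det2
  ring

/-- the vectors `π e_i` are not all parallel -/
theorem V3_exists_indep {g : Fin n → ℕ} (hg : ∀ i, 0 < g i) (p : Proj g 2) (i₀ : Fin n) :
    ∃ j, det2 (p.π (Pi.single j 1)) (p.π (Pi.single i₀ 1)) ≠ 0 := by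
  by_contra hcon
  push Not at hcon
  have h0 : (V3_det (p.π (Pi.single i₀ 1))).comp p.π = 0 := by
    apply AddMonoidHom.functions_ext
    intro i x
    have hx : (Pi.single i x : Fin n → ℤ) = x • Pi.single i 1 := by
      rw [← Pi.single_smul]
      simp
    rw [hx, map_zsmul, AddMonoidHom.comp_apply, V3_det_apply, hcon i, smul_zero]
    rfl
  have h1 : ∀ z, det2 z (p.π (Pi.single i₀ 1)) = 0 := by
    intro z
    obtain ⟨v, rfl⟩ := p.surj z
    exact DFunLike.congr_fun h0 v
  have ha : p.π (Pi.single i₀ 1) = 0 := by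
    have h2 := h1 ![1, 0]
    have h3 := h1 ![0, 1]
    unfold det2 at h2 h3
    simp at h2 h3
    funext i
    fin_cases i
    · exact h3
    · exact h2
  have h4 := V3_delta p i₀
  rw [ha, map_zero] at h4
  have := hg i₀
  omega

/-- The slope count. Write `a i = p.π e_i` (degree `g i > 0`), `i ~ j` iff `det2 (a i) (a j) = 0`
(an equivalence relation), `N = b (n-2)` the largest label.
Suppose `N |det2 (a i) (a j)| < g i g j` for all `i, j`. By `exists_ray_deg` every class `c` has a
`d_c > 0` with: `d_c ∣ x` iff the line of `c` has a lattice vector of degree `x`; so `d_c ∣ g i` for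
`i ∈ c`. By `far_apart'` a label `b_j` (`j < n-1`, `b_j ≤ N`) is divisible by `d_c` for at most one
class `c`. There are at least two classes since `p.π` is onto `ℤ^2`.
If all `d_c ≥ 2`: `n - 1 ≥ ∑_c #{j | d_c ∣ b_j} ≥ ∑_c #{i | d_c ∣ g i} ≥ ∑_c #c = n` by
`card_dvd_le`, contradiction. If `d_c = 1` for a class `c`, let `c'` be another class: all labels are
divisible by `d_c`, so no label (there is one, `n ≥ 2`) is divisible by `d_{c'}`; so `d_{c'} ≥ 2` and
`1 ≤ #{i | d_{c'} ∣ g i} ≤ #{j | d_{c'} ∣ b_j} = 0`, contradiction. -/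
theorem vol1_core (D : Dat n) (h2 : 2 ≤ n) (p : Proj D.g 2) :
    ∃ i j : Fin n, (D.g i * D.g j : ℤ) ≤
      D.b (n - 2) * |det2 (p.π (Pi.single i 1)) (p.π (Pi.single j 1))| := by
  classical
  by_contra hcon
  push Not at hcon
  set a : Fin n → (Fin 2 → ℤ) := fun i => p.π (Pi.single i 1) with ha
  have hδ : ∀ i, p.δ (a i) = (D.g i : ℤ) := fun i => V3_delta p i
  have hδpos : ∀ i, 0 < p.δ (a i) := by
    intro i
    rw [hδ]
    exact_mod_cast D.gpos i
  have ha0 : ∀ i, a i ≠ 0 := by
    intro i h
    have := hδpos i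
    rw [h, map_zero] at this
    exact lt_irrefl _ this
  choose d hd0 hd using fun i => exists_ray_deg D p (a := a i) (ne_of_gt (hδpos i))
  -- at most one class for every label
  have hfar : ∀ i j : Fin n, ∀ k, k < n - 1 → d i ∣ D.b k → d j ∣ D.b k →
      det2 (a i) (a j) = 0 := by
    intro i j k hk hi hj
    by_contra hne
    obtain ⟨z, hz, hzc⟩ := (hd i (D.b k)).mp (by exact_mod_cast hi)
    obtain ⟨z', hz', hzc'⟩ := (hd j (D.b k)).mp (by exact_mod_cast hj)
    have h1 := far_apart' D p (hδpos i) (hδpos j) hne hz hz' hzc hzc' (D.bpos k)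
    rw [hδ, hδ] at h1
    have h3 : (D.b k : ℤ) ≤ D.b (n - 2) := by
      exact_mod_cast D.mono (by omega)
    have h4 := hcon i j
    have h5 : (D.b k : ℤ) * |det2 (a i) (a j)| ≤ D.b (n - 2) * |det2 (a i) (a j)| :=
      mul_le_mul_of_nonneg_right h3 (abs_nonneg _)
    exact absurd (lt_of_le_of_lt (le_trans h1 h5) h4) (lt_irrefl _)
  have hdg : ∀ i, d i ∣ D.g i := by
    intro i
    have := (hd i (D.g i)).mpr ⟨a i, V3_self _, hδ i⟩
    exact_mod_cast this
  by_cases hone : ∃ i, d i = 1
  · obtain ⟨i, hi⟩ := hone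
    obtain ⟨j, hj⟩ := V3_exists_indep D.gpos p i
    have hnone : ∀ k, k < n - 1 → ¬ d j ∣ D.b k := by
      intro k hk hjk
      exact hj (hfar j i k hk hjk (by rw [hi]; exact one_dvd _))
    have hj2 : 2 ≤ d j := by
      by_contra hlt
      have h1 : d j = 1 := by
        have := hd0 j
        omega
      exact hnone 0 (by omega) (by rw [h1]; exact one_dvd _)
    have h3 := card_dvd_le D hj2
    have h4 : ((range (n - 1)).filter fun k => d j ∣ D.b k).card = 0 := by
      rw [Finset.card_eq_zero, Finset.filter_eq_empty_iff]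
      intro k hk
      exact hnone k (mem_range.mp hk)
    have h5 : 0 < (univ.filter fun i : Fin n => d j ∣ D.g i).card :=
      Finset.card_pos.mpr ⟨j, by simp [hdg j]⟩
    omega
  · push Not at hone
    have htwo : ∀ i, 2 ≤ d i := by
      intro i
      have h1 := hone i
      have h3 := hd0 i
      omega
    let S : Setoid (Fin n) :=
      { r := fun i j => det2 (a i) (a j) = 0
        iseqv := ⟨fun i => V3_self _, fun {i j} h => V3_symm h,
          fun {i j k} h h' => V3_trans (ha0 j) h h'⟩ }
    -- representatives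
    let T : Quotient S → Finset ℕ := fun q => (range (n - 1)).filter fun k => d q.out ∣ D.b k
    have hT : ∀ q, (univ.filter fun i : Fin n => Quotient.mk S i = q).card ≤ (T q).card := by
      intro q
      refine le_trans (Finset.card_le_card ?_) (card_dvd_le D (htwo q.out))
      intro i hi
      simp only [mem_filter, mem_univ, true_and] at hi ⊢
      have hq : S.r q.out i := by
        have : Quotient.mk S q.out = Quotient.mk S i := by rw [Quotient.out_eq, hi]
        exact Quotient.exact this
      have hdet : det2 (a i) (a q.out) = 0 := V3_symm hq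
      have := (hd q.out (D.g i)).mpr ⟨a i, hdet, hδ i⟩
      exact_mod_cast this
    have hsum : Fintype.card (Fin n) =
        ∑ q : Quotient S, (univ.filter fun i : Fin n => Quotient.mk S i = q).card := by
      rw [← Finset.card_univ]
      exact Finset.card_eq_sum_card_fiberwise (fun i _ => Finset.mem_coe.mpr (mem_univ _))
    have hle : ∑ q : Quotient S, (T q).card ≤ n - 1 := by
      rw [← Finset.card_biUnion]
      · have : (univ.biUnion T) ⊆ range (n - 1) := by
          intro k hk
          rw [mem_biUnion] at hk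
          obtain ⟨q, _, hk⟩ := hk
          exact (mem_filter.mp hk).1
        simpa using Finset.card_le_card this
      · intro q _ q' _ hqq'
        change Disjoint (T q) (T q')
        rw [Finset.disjoint_left]
        intro k hk hk'
        rw [mem_filter] at hk hk'
        have h1 := hfar q.out q'.out k (mem_range.mp hk.1) hk.2 hk'.2
        apply hqq'
        rw [← Quotient.out_eq q, ← Quotient.out_eq q']
        exact Quotient.sound h1
    have hfin : Fintype.card (Fin n) ≤ n - 1 := by
      rw [hsum]
      exact le_trans (Finset.sum_le_sum fun q _ => hT q) hle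
    rw [Fintype.card_fin] at hfin
    omega

end Pool.Agent.LibVol74
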