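import Pool.Agent.LibVol74.W3

/-!
# One and two cones (row W4)
-/

set_option autoImplicit false

namespace Pool.Agent.LibVol74

open Finset

variable {n r : ℕ} {g : Fin n → ℕ}

/-- an additive functional vanishing on a basis (over `ℚ`) vanishes -/
theorem w4_func_zero {m : ℕ} (v : Fin m → (Fin m → ℤ)) (hdet : (Matrix.of v).det ≠ 0)
    (ψ : (Fin m → ℤ) →+ ℤ) (h : ∀ i, ψ (v i) = 0) : ψ = 0 := by
  have key : ∀ x : Fin m → ℤ, ψ x = ∑ j, x j * ψ (Pi.single j 1) := by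
    intro x
    have h1 : x = ∑ j, x j • (Pi.single j (1 : ℤ) : Fin m → ℤ) := by
      ext k
      simp [Finset.sum_apply, Pi.single_apply]
    conv_lhs => rw [h1]
    rw [map_sum]
    refine Finset.sum_congr rfl fun j _ => ?_
    rw [map_zsmul, smul_eq_mul]
  have h0 : (fun j => ψ (Pi.single j 1)) = 0 := by
    refine Matrix.eq_zero_of_mulVec_eq_zero hdet ?_
    ext i
    have h1 := key (v i)
    rw [h i] at h1
    simpa [Matrix.mulVec, dotProduct] using h1.symm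
  ext x
  have hx := key (Pi.single x 1)
  have h2 := congrFun h0 x
  simpa using h2

theorem w4_pos (v : Fin (r + 1) → (Fin (r + 1) → ℤ)) (hdet : (Matrix.of v).det ≠ 0)
    (ψ : (Fin (r + 1) → ℤ) →+ ℤ) (hψ0 : ψ ≠ 0) (hψ : ∀ i, 0 ≤ ψ (v i)) :
    ∃ i, 0 < ψ (v i) := by
  by_contra hcon
  push Not at hcon
  exact hψ0 (w4_func_zero v hdet ψ fun i => le_antisymm (hcon i) (hψ i))

theorem w4_delta_ne (hg : ∀ i, 0 < g i) (p : Proj g (r + 1))
    (v : Fin (r + 1) → (Fin (r + 1) → ℤ)) (hv : ∀ i, v i ∈ p.sat)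
    (hdet : (Matrix.of v).det ≠ 0) : ∃ i, 0 < p.δ (v i) := by
  refine ⟨0, lt_of_le_of_ne (sat_deg_nonneg p (hv 0)) fun h0 => hdet ?_⟩
  have h1 : v 0 = 0 := sat_deg_zero hg p (hv 0) h0.symm
  exact Matrix.det_eq_zero_of_row_eq_zero 0 fun j => by simp [h1]

/-- one cone (`ψ = p.δ` in `cone_growth`; if `det = 0` then `κ ≤ 0`) -/
theorem gr_one_cone (hg : ∀ i, 0 < g i) (p : Proj g (r + 1))
    (v : Fin (r + 1) → (Fin (r + 1) → ℤ)) (hv : ∀ i, v i ∈ p.sat) (κ : ℝ)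
    (h : κ ≤ ((Matrix.of v).det.natAbs : ℝ) / ∏ i, (p.δ (v i) : ℝ)) : p.Gr r κ := by
  by_cases hdet : (Matrix.of v).det = 0
  · refine Gr.of_nonpos ?_
    rw [hdet] at h
    simpa using h
  · obtain ⟨C, hC⟩ := cone_growth hg p v hv hdet p.δ (fun i => sat_deg_nonneg p (hv i))
      (w4_delta_ne hg p v hv hdet)
    refine Gr.mono (κ := ((Matrix.of v).det.natAbs : ℝ) / ∏ i, (p.δ (v i) : ℝ)) ⟨C, fun X => ?_⟩ h
    refine (hC X).trans ?_
    have h1 : (∑ N ∈ range (X + 1), ({x | x ∈ p.lev N ∧ 0 < p.δ x}.ncard : ℝ)) ≤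
        ∑ N ∈ range (X + 1), (p.h N : ℝ) := by
      refine Finset.sum_le_sum fun N _ => ?_
      have h2 : {x | x ∈ p.lev N ∧ 0 < p.δ x}.ncard ≤ p.h N :=
        Set.ncard_le_ncard (fun x hx => hx.1) (lev_finite hg p N)
      exact_mod_cast h2
    linarith

/-- two cones on the two sides of a hyperplane `ψ = 0`: `cone_growth` for `v, ψ` and for `w, -ψ`
(if both determinants are non-zero; then some `ψ (v i) > 0` since `ψ ≠ 0` and the `v i` span) -/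
theorem gr_two_cones (hg : ∀ i, 0 < g i) (p : Proj g (r + 1))
    (v w : Fin (r + 1) → (Fin (r + 1) → ℤ)) (hv : ∀ i, v i ∈ p.sat) (hw : ∀ i, w i ∈ p.sat)
    (ψ : (Fin (r + 1) → ℤ) →+ ℤ) (hψ0 : ψ ≠ 0) (hψv : ∀ i, 0 ≤ ψ (v i))
    (hψw : ∀ i, ψ (w i) ≤ 0) (κ : ℝ)
    (h : κ ≤ ((Matrix.of v).det.natAbs : ℝ) / ∏ i, (p.δ (v i) : ℝ) +
      ((Matrix.of w).det.natAbs : ℝ) / ∏ i, (p.δ (w i) : ℝ)) : p.Gr r κ := by
  by_cases hdv : (Matrix.of v).det = 0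
  · refine gr_one_cone hg p w hw κ ?_
    rw [hdv] at h
    simpa using h
  by_cases hdw : (Matrix.of w).det = 0
  · refine gr_one_cone hg p v hv κ ?_
    rw [hdw] at h
    simpa using h
  have hψw' : ∀ i, 0 ≤ (-ψ) (w i) := fun i => by
    have := hψw i
    simp only [AddMonoidHom.neg_apply]
    linarith
  have hnψ : -ψ ≠ 0 := neg_ne_zero.2 hψ0
  obtain ⟨C, hC⟩ := cone_growth hg p v hv hdv ψ hψv (w4_pos v hdv ψ hψ0 hψv)
  obtain ⟨C', hC'⟩ := cone_growth hg p w hw hdw (-ψ) hψw' (w4_pos w hdw (-ψ) hnψ hψw')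
  refine Gr.mono (κ := ((Matrix.of v).det.natAbs : ℝ) / ∏ i, (p.δ (v i) : ℝ) +
      ((Matrix.of w).det.natAbs : ℝ) / ∏ i, (p.δ (w i) : ℝ)) ⟨C + C', fun X => ?_⟩ h
  have h1 : (∑ N ∈ range (X + 1), ({x | x ∈ p.lev N ∧ 0 < ψ x}.ncard : ℝ)) +
      (∑ N ∈ range (X + 1), ({x | x ∈ p.lev N ∧ 0 < (-ψ) x}.ncard : ℝ)) ≤
        ∑ N ∈ range (X + 1), (p.h N : ℝ) := by
    rw [← Finset.sum_add_distrib]
    refine Finset.sum_le_sum fun N _ => ?_
    have hfin := lev_finite hg p N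
    have hf1 : {x | x ∈ p.lev N ∧ 0 < ψ x}.Finite := hfin.subset fun x hx => hx.1
    have hf2 : {x | x ∈ p.lev N ∧ 0 < (-ψ) x}.Finite := hfin.subset fun x hx => hx.1
    have hdis : Disjoint {x | x ∈ p.lev N ∧ 0 < ψ x} {x | x ∈ p.lev N ∧ 0 < (-ψ) x} := by
      rw [Set.disjoint_left]
      rintro x ⟨_, hx1⟩ ⟨_, hx2⟩
      simp only [AddMonoidHom.neg_apply] at hx2
      linarith
    have h2 : {x | x ∈ p.lev N ∧ 0 < ψ x}.ncard + {x | x ∈ p.lev N ∧ 0 < (-ψ) x}.ncard ≤ p.h N := by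
      rw [← Set.ncard_union_eq hdis hf1 hf2]
      exact Set.ncard_le_ncard (Set.union_subset (fun x hx => hx.1) fun x hx => hx.1) hfin
    exact_mod_cast h2
  have h3 := hC X
  have h4 := hC' X
  have h5 : (((Matrix.of v).det.natAbs : ℝ) / ∏ i, (p.δ (v i) : ℝ) +
      ((Matrix.of w).det.natAbs : ℝ) / ∏ i, (p.δ (w i) : ℝ)) * (X : ℝ) ^ (r + 1) /
        ((r + 1).factorial : ℝ) =
      ((Matrix.of v).det.natAbs : ℝ) / (∏ i, (p.δ (v i) : ℝ)) * (X : ℝ) ^ (r + 1) /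
        ((r + 1).factorial : ℝ) +
      ((Matrix.of w).det.natAbs : ℝ) / (∏ i, (p.δ (w i) : ℝ)) * (X : ℝ) ^ (r + 1) /
        ((r + 1).factorial : ℝ) := by ring
  rw [h5]
  have h6 : (C + C') * ((X : ℝ) + 1) ^ r = C * ((X : ℝ) + 1) ^ r + C' * ((X : ℝ) + 1) ^ r := by ring
  rw [h6]
  linarith

end Pool.Agent.LibVol74
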