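import Pool.Agent.LibVol74.V3
import Pool.Agent.LibVol74.W4

/-!
# Corank one (row V4)
-/

set_option autoImplicit false

namespace Pool.Agent.LibVol74

open Finset

variable {n : ℕ}

theorem V4_pi_toZ {r : ℕ} {g : Fin n → ℕ} (p : Proj g r) (u : Fin n → ℕ) :
    p.π (toZ u) = ∑ l, (u l : ℤ) • p.π (Pi.single l 1) := by
  have h : toZ u = ∑ l, (u l : ℤ) • (Pi.single l 1 : Fin n → ℤ) := by
    funext k
    simp [toZ, Finset.sum_apply, Pi.single_apply]
  rw [h, map_sum]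
  exact Finset.sum_congr rfl fun l _ => by rw [map_zsmul]

theorem V4_deg_single {r : ℕ} {g : Fin n → ℕ} (p : Proj g r) (l : Fin n) :
    p.δ (p.π (Pi.single l 1)) = (g l : ℤ) := deg_lev p (single_mem_lev p l)

theorem V4_det_of (x y : Fin 2 → ℤ) : (Matrix.of ![x, y]).det = det2 x y := by
  rw [Matrix.det_fin_two]
  simp [det2]

/-- the three term identity -/
theorem V4_identity (δ : (Fin 2 → ℤ) →+ ℤ) (x y z : Fin 2 → ℤ) :
    δ x * det2 y z = δ y * det2 x z - δ z * det2 x y := by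
  have h : det2 y z • x = det2 x z • y - det2 x y • z := by
    funext k
    fin_cases k
    · simp [det2]; ring
    · simp [det2]; ring
  have h2 := congrArg δ h
  rw [map_sub, map_zsmul, map_zsmul, map_zsmul] at h2
  simp only [smul_eq_mul] at h2
  linarith

theorem V4_det2_sum {ι : Type} (s : Finset ι) (x : Fin 2 → ℤ) (c : ι → ℤ)
    (y : ι → (Fin 2 → ℤ)) :
    det2 x (∑ l ∈ s, c l • y l) = ∑ l ∈ s, c l * det2 x (y l) := by
  simp only [det2, Finset.sum_apply, Pi.smul_apply, smul_eq_mul, Finset.mul_sum]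
  rw [← Finset.sum_sub_distrib]
  exact Finset.sum_congr rfl fun l _ => by ring

theorem vol1 (D : Dat n) (h2 : 2 ≤ n) (p : Proj D.g 2) :
    p.Gr 1 (1 / (D.b (n - 2) : ℝ)) := by
  obtain ⟨i, j, hij⟩ := vol1_core D h2 p
  refine gr_one_cone (r := 1) D.gpos p ![p.π (Pi.single i 1), p.π (Pi.single j 1)] ?_ _ ?_
  · intro k
    fin_cases k
    · exact sat_single p i
    · exact sat_single p j
  · have hprod : (∏ k, (p.δ ((![p.π (Pi.single i 1), p.π (Pi.single j 1)] :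
        Fin 2 → (Fin 2 → ℤ)) k) : ℝ)) = (D.g i : ℝ) * (D.g j : ℝ) := by
      rw [Fin.prod_univ_two]
      simp [V4_deg_single]
    have hgi : (0 : ℝ) < (D.g i : ℝ) := by exact_mod_cast D.gpos i
    have hgj : (0 : ℝ) < (D.g j : ℝ) := by exact_mod_cast D.gpos j
    have hb : (0 : ℝ) < (D.b (n - 2) : ℝ) := by exact_mod_cast D.bpos (n - 2)
    rw [hprod, V4_det_of, div_le_div_iff₀ hb (mul_pos hgi hgj), one_mul]
    have h3 : ((D.g i : ℤ) * (D.g j : ℤ) : ℤ) ≤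
        ((det2 (p.π (Pi.single i 1)) (p.π (Pi.single j 1))).natAbs : ℤ) * (D.b (n - 2) : ℤ) := by
      rw [Int.natCast_natAbs, mul_comm (|_|) _]
      exact hij
    exact_mod_cast h3

/-- The extreme rays. Let `λ_i = det2 x (a i) / g i`, `a i = p.π e_i`. Take `i` with the largest
and `j` with the smallest `λ`. `x` is a non-negative rational combination of the `a k` and
`det2 x x = 0`, so `λ_j ≤ 0 ≤ λ_i`. For all `k, l`:
`δ x · det2 (a k) (a l) = g k · det2 x (a l) - g l · det2 x (a k)`,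
so `|det2 (a k) (a l)| / (g k g l) = |λ_l - λ_k| / δ x ≤ (λ_i - λ_j) / δ x`; use `vol1_core`. -/
theorem vol1_ext (D : Dat n) (h2 : 2 ≤ n) (p : Proj D.g 2) {x : Fin 2 → ℤ} (hx : x ∈ p.sat)
    (hx0 : 0 < p.δ x) :
    ∃ i j : Fin n, 0 ≤ det2 x (p.π (Pi.single i 1)) ∧ det2 x (p.π (Pi.single j 1)) ≤ 0 ∧
      1 / (D.b (n - 2) : ℝ) ≤
        (det2 x (p.π (Pi.single i 1)) : ℝ) / ((p.δ x : ℝ) * (D.g i : ℝ)) +
          (-det2 x (p.π (Pi.single j 1)) : ℝ) / ((p.δ x : ℝ) * (D.g j : ℝ)) := by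
  classical
  obtain ⟨i₀, j₀, h0⟩ := vol1_core D h2 p
  set a : Fin n → (Fin 2 → ℤ) := fun l => p.π (Pi.single l 1) with ha
  have hda : ∀ l, p.δ (a l) = (D.g l : ℤ) := fun l => V4_deg_single p l
  set lam : Fin n → ℝ := fun l => (det2 x (a l) : ℝ) / (D.g l : ℝ) with hlam
  have hg : ∀ l, (0 : ℝ) < (D.g l : ℝ) := fun l => by exact_mod_cast D.gpos l
  have hne : (Finset.univ : Finset (Fin n)).Nonempty := ⟨i₀, Finset.mem_univ _⟩
  obtain ⟨i, -, hi⟩ := Finset.exists_max_image Finset.univ lam hne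
  obtain ⟨j, -, hj⟩ := Finset.exists_min_image Finset.univ lam hne
  have hdet : ∀ l, (det2 x (a l) : ℝ) = lam l * (D.g l : ℝ) := fun l => by
    rw [hlam]
    field_simp [(hg l).ne']
  -- the combination
  obtain ⟨k, u, hk, hku⟩ := hx
  have hku2 : (k : ℤ) • x = ∑ l, (u l : ℤ) • a l := by rw [hku, V4_pi_toZ]
  have hzero : ∑ l, (u l : ℤ) * det2 x (a l) = 0 := by
    rw [← V4_det2_sum, ← hku2]
    simp [det2]
    ring
  have hdeg : ∑ l, (u l : ℤ) * (D.g l : ℤ) = k * p.δ x := by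
    have h5 := congrArg p.δ hku2
    rw [map_zsmul, map_sum] at h5
    simp only [map_zsmul, smul_eq_mul, hda] at h5
    exact h5.symm
  have hdegpos : 0 < ∑ l, (u l : ℤ) * (D.g l : ℤ) := by
    rw [hdeg]
    exact mul_pos (by exact_mod_cast hk) hx0
  obtain ⟨l₀, -, hl₀⟩ : ∃ l ∈ Finset.univ, 0 < (u l : ℤ) * (D.g l : ℤ) := by
    by_contra hcon
    push Not at hcon
    exact absurd (Finset.sum_nonpos hcon) (not_le.2 hdegpos)
  have hul₀ : 0 < (u l₀ : ℤ) := by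
    rcases Nat.eq_zero_or_pos (u l₀) with h6 | h6
    · rw [h6] at hl₀; simp at hl₀
    · exact_mod_cast h6
  have hi0 : 0 ≤ det2 x (a i) := by
    by_contra hcon
    push Not at hcon
    have hneg : ∀ l, det2 x (a l) < 0 := fun l => by
      have h7 : lam l ≤ lam i := hi l (Finset.mem_univ _)
      have h8 : lam i < 0 := by
        rw [hlam]
        exact div_neg_of_neg_of_pos (by exact_mod_cast hcon) (hg i)
      have h9 : (det2 x (a l) : ℝ) < 0 := by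
        rw [hdet l]
        exact mul_neg_of_neg_of_pos (lt_of_le_of_lt h7 h8) (hg l)
      exact_mod_cast h9
    have : ∑ l, (u l : ℤ) * det2 x (a l) < 0 := by
      refine Finset.sum_neg' (fun l _ => mul_nonpos_of_nonneg_of_nonpos (by positivity)
        (hneg l).le) ⟨l₀, Finset.mem_univ _, mul_neg_of_pos_of_neg hul₀ (hneg l₀)⟩
    rw [hzero] at this
    exact lt_irrefl _ this
  have hj0 : det2 x (a j) ≤ 0 := by
    by_contra hcon
    push Not at hcon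
    have hpos : ∀ l, 0 < det2 x (a l) := fun l => by
      have h7 : lam j ≤ lam l := hj l (Finset.mem_univ _)
      have h8 : 0 < lam j := by
        rw [hlam]
        exact div_pos (by exact_mod_cast hcon) (hg j)
      have h9 : 0 < (det2 x (a l) : ℝ) := by
        rw [hdet l]
        exact mul_pos (lt_of_lt_of_le h8 h7) (hg l)
      exact_mod_cast h9
    have : 0 < ∑ l, (u l : ℤ) * det2 x (a l) := by
      refine Finset.sum_pos' (fun l _ => mul_nonneg (by positivity)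
        (hpos l).le) ⟨l₀, Finset.mem_univ _, mul_pos hul₀ (hpos l₀)⟩
    rw [hzero] at this
    exact lt_irrefl _ this
  refine ⟨i, j, hi0, hj0, ?_⟩
  have hδ : (0 : ℝ) < (p.δ x : ℝ) := by exact_mod_cast hx0
  have hb : (0 : ℝ) < (D.b (n - 2) : ℝ) := by exact_mod_cast D.bpos (n - 2)
  have hsum : (det2 x (a i) : ℝ) / ((p.δ x : ℝ) * (D.g i : ℝ)) +
      (-det2 x (a j) : ℝ) / ((p.δ x : ℝ) * (D.g j : ℝ)) = (lam i - lam j) / (p.δ x : ℝ) := by
    rw [hdet i, hdet j]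
    field_simp [(hg i).ne', (hg j).ne', hδ.ne']
    ring
  change _ ≤ (det2 x (a i) : ℝ) / ((p.δ x : ℝ) * (D.g i : ℝ)) +
      (-det2 x (a j) : ℝ) / ((p.δ x : ℝ) * (D.g j : ℝ))
  rw [hsum, div_le_div_iff₀ hb hδ, one_mul]
  -- the identity
  have hid := V4_identity p.δ x (a i₀) (a j₀)
  rw [hda, hda] at hid
  have hidR : (p.δ x : ℝ) * (det2 (a i₀) (a j₀) : ℝ) =
      (D.g i₀ : ℝ) * (det2 x (a j₀) : ℝ) - (D.g j₀ : ℝ) * (det2 x (a i₀) : ℝ) := by
    exact_mod_cast hid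
  rw [hdet i₀, hdet j₀] at hidR
  have hidR2 : (p.δ x : ℝ) * (det2 (a i₀) (a j₀) : ℝ) =
      (D.g i₀ : ℝ) * (D.g j₀ : ℝ) * (lam j₀ - lam i₀) := by
    rw [hidR]; ring
  have habs : (p.δ x : ℝ) * |(det2 (a i₀) (a j₀) : ℝ)| ≤
      (D.g i₀ : ℝ) * (D.g j₀ : ℝ) * (lam i - lam j) := by
    have habs0 : (p.δ x : ℝ) * |(det2 (a i₀) (a j₀) : ℝ)| =
        |(p.δ x : ℝ) * (det2 (a i₀) (a j₀) : ℝ)| := by
      rw [abs_mul, abs_of_pos hδ]
    rw [habs0, hidR2, abs_mul, abs_of_pos (mul_pos (hg i₀) (hg j₀))]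
    refine mul_le_mul_of_nonneg_left ?_ (mul_pos (hg i₀) (hg j₀)).le
    rw [abs_le]
    have := hi i₀ (Finset.mem_univ _)
    have := hi j₀ (Finset.mem_univ _)
    have := hj i₀ (Finset.mem_univ _)
    have := hj j₀ (Finset.mem_univ _)
    constructor <;> linarith
  have h0R : (D.g i₀ : ℝ) * (D.g j₀ : ℝ) ≤
      (D.b (n - 2) : ℝ) * |(det2 (a i₀) (a j₀) : ℝ)| := by
    have h0' : ((D.g i₀ : ℤ) * (D.g j₀ : ℤ) : ℤ) ≤
      (D.b (n - 2) : ℤ) * |det2 (a i₀) (a j₀)| := h0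
    exact_mod_cast h0'
  have hG := mul_pos (hg i₀) (hg j₀)
  have hfin : (D.g i₀ : ℝ) * (D.g j₀ : ℝ) * (p.δ x : ℝ) ≤
      (D.g i₀ : ℝ) * (D.g j₀ : ℝ) * ((lam i - lam j) * (D.b (n - 2) : ℝ)) := by
    calc (D.g i₀ : ℝ) * (D.g j₀ : ℝ) * (p.δ x : ℝ)
        ≤ ((D.b (n - 2) : ℝ) * |(det2 (a i₀) (a j₀) : ℝ)|) * (p.δ x : ℝ) :=
          mul_le_mul_of_nonneg_right h0R hδ.le
      _ = (D.b (n - 2) : ℝ) * ((p.δ x : ℝ) * |(det2 (a i₀) (a j₀) : ℝ)|) := by ring
      _ ≤ (D.b (n - 2) : ℝ) * ((D.g i₀ : ℝ) * (D.g j₀ : ℝ) * (lam i - lam j)) :=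
          mul_le_mul_of_nonneg_left habs hb.le
      _ = _ := by ring
  exact le_of_mul_le_mul_left hfin hG

end Pool.Agent.LibVol74
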