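import Pool.Agent.LibVol74.Defs

/-!
# Points of a simplex (row W1)
-/

set_option autoImplicit false

namespace Pool.Agent.LibVol74

open Finset

theorem W1_bern (m : ℕ) (Y d : ℝ) (hd : 0 ≤ d) (hY : d ≤ Y) :
    Y ^ (m + 1) ≤ (Y - d) ^ (m + 1) + (m + 1) * d * Y ^ m := by
  have hY0 : 0 ≤ Y := hd.trans hY
  have h0 : 0 ≤ Y - d := by linarith
  induction m with
  | zero => simp
  | succ m ih =>
    have h1 : (Y - d) ^ (m + 1) ≤ Y ^ (m + 1) := pow_le_pow_left₀ h0 (by linarith) _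
    have h2 := mul_le_mul_of_nonneg_left ih hY0
    have h3 := mul_le_mul_of_nonneg_left h1 hd
    push_cast
    calc Y ^ (m + 1 + 1) = Y * Y ^ (m + 1) := by ring
      _ ≤ Y * ((Y - d) ^ (m + 1) + (m + 1) * d * Y ^ m) := h2
      _ = (Y - d) ^ (m + 1 + 1) + d * (Y - d) ^ (m + 1) + (m + 1) * d * Y ^ (m + 1) := by ring
      _ ≤ (Y - d) ^ (m + 1 + 1) + d * Y ^ (m + 1) + (m + 1) * d * Y ^ (m + 1) := by linarith
      _ = _ := by ring

theorem W1_fin (r : ℕ) (d : Fin r → ℕ) (hd : ∀ i, 0 < d i) (Y : ℕ) :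
    {a : Fin r → ℕ | ∑ i, a i * d i ≤ Y}.Finite := by
  refine (Set.finite_Iic (fun _ : Fin r => Y)).subset ?_
  intro a ha
  rw [Set.mem_Iic, Pi.le_def]
  intro i
  have h1 : a i * d i ≤ ∑ i, a i * d i :=
    Finset.single_le_sum (f := fun i => a i * d i) (fun _ _ => Nat.zero_le _) (Finset.mem_univ i)
  have h2 : a i ≤ a i * d i := Nat.le_mul_of_pos_right _ (hd i)
  exact h2.trans (h1.trans ha)

theorem W1_step (r : ℕ) (d : Fin (r + 1) → ℕ) (hd : ∀ i, 0 < d i) (Y : ℕ) :
    {a : Fin r → ℕ | ∑ i, a i * d i.succ ≤ Y}.ncard +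
      (if d 0 ≤ Y then {a : Fin (r + 1) → ℕ | ∑ i, a i * d i ≤ Y - d 0}.ncard else 0) ≤
    {a : Fin (r + 1) → ℕ | ∑ i, a i * d i ≤ Y}.ncard := by
  have hf := W1_fin (r + 1) d hd Y
  set A := {a : Fin r → ℕ | ∑ i, a i * d i.succ ≤ Y} with hA
  have hAf : A.Finite := W1_fin r (fun i => d i.succ) (fun i => hd _) Y
  have hinj : Function.Injective (fun a : Fin r → ℕ => (Fin.cons 0 a : Fin (r + 1) → ℕ)) :=
    Fin.cons_right_injective (α := fun _ : Fin (r + 1) => ℕ) 0
  have hA1 : (fun a : Fin r → ℕ => (Fin.cons 0 a : Fin (r + 1) → ℕ)) '' A ⊆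
      {a : Fin (r + 1) → ℕ | ∑ i, a i * d i ≤ Y} := by
    rintro _ ⟨a, ha, rfl⟩
    have ha' : ∑ i, a i * d i.succ ≤ Y := ha
    change ∑ i, (Fin.cons 0 a : Fin (r + 1) → ℕ) i * d i ≤ Y
    rw [Fin.sum_univ_succ]
    simpa using ha'
  split_ifs with hY
  · set B := {a : Fin (r + 1) → ℕ | ∑ i, a i * d i ≤ Y - d 0} with hB
    have hBf : B.Finite := W1_fin (r + 1) d hd (Y - d 0)
    have hinj2 : Function.Injective (fun a : Fin (r + 1) → ℕ => a + Pi.single 0 1) :=
      fun a b h => add_right_cancel h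
    have hB1 : (fun a : Fin (r + 1) → ℕ => a + Pi.single 0 1) '' B ⊆
        {a : Fin (r + 1) → ℕ | ∑ i, a i * d i ≤ Y} := by
      rintro _ ⟨a, ha, rfl⟩
      change ∑ i, (a + Pi.single 0 1 : Fin (r + 1) → ℕ) i * d i ≤ Y
      have h1 : ∑ i, (a + Pi.single 0 1 : Fin (r + 1) → ℕ) i * d i = ∑ i, a i * d i + d 0 := by
        simp only [Pi.add_apply, add_mul, Finset.sum_add_distrib]
        congr 1
        rw [Finset.sum_eq_single 0]
        · simp
        · intro b _ hb
          simp [hb]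
        · intro h
          exact absurd (Finset.mem_univ _) h
      rw [h1]
      have h2 : ∑ i, a i * d i ≤ Y - d 0 := ha
      omega
    have hdisj : Disjoint ((fun a : Fin r → ℕ => (Fin.cons 0 a : Fin (r + 1) → ℕ)) '' A)
        ((fun a : Fin (r + 1) → ℕ => a + Pi.single 0 1) '' B) := by
      rw [Set.disjoint_left]
      rintro _ ⟨a, _, rfl⟩ ⟨b, _, h⟩
      have := congrFun h 0
      simp at this
    have e1 : ((fun a : Fin r → ℕ => (Fin.cons 0 a : Fin (r + 1) → ℕ)) '' A ∪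
        (fun a : Fin (r + 1) → ℕ => a + Pi.single 0 1) '' B).ncard = A.ncard + B.ncard := by
      rw [Set.ncard_union_eq hdisj (hAf.image _) (hBf.image _),
        Set.ncard_image_of_injective _ hinj, Set.ncard_image_of_injective _ hinj2]
    rw [← e1]
    exact Set.ncard_le_ncard (Set.union_subset hA1 hB1) hf
  · rw [add_zero, ← Set.ncard_image_of_injective A hinj]
    exact Set.ncard_le_ncard hA1 hf

/-- Number of points of a simplex, lower bound: the unit cubes at the points cover the simplex; or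
induction on `r`, `∑_{k ≤ Y/d} (Y - k d)^r ≥ Y^(r+1)/((r+1) d)`. -/
theorem simplex_card (r : ℕ) (d : Fin r → ℕ) (hd : ∀ i, 0 < d i) (Y : ℕ) :
    (Y : ℝ) ^ r / ((r.factorial : ℝ) * ∏ i, (d i : ℝ)) ≤
      (({a : Fin r → ℕ | ∑ i, a i * d i ≤ Y}.ncard : ℕ) : ℝ) := by
  induction r generalizing Y with
  | zero =>
    have h : {a : Fin 0 → ℕ | ∑ i, a i * d i ≤ Y} = {default} := by
      ext a
      simp [Subsingleton.elim a default]
    rw [h, Set.ncard_singleton]
    simp
  | succ r ih =>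
    have hd' : ∀ i : Fin r, 0 < d i.succ := fun i => hd _
    set P : ℝ := ∏ i : Fin r, (d i.succ : ℝ) with hP
    have hPpos : 0 < P := Finset.prod_pos fun i _ => by exact_mod_cast hd' i
    have hd0 : (0 : ℝ) < d 0 := by exact_mod_cast hd 0
    have hfac : (0 : ℝ) < (r.factorial : ℝ) := by exact_mod_cast r.factorial_pos
    rw [Fin.prod_univ_succ, Nat.factorial_succ]
    push_cast
    induction Y using Nat.strong_induction_on with
    | _ Y IH =>
      have hs := W1_step r d hd Y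
      have h1 := ih (fun i => d i.succ) hd' Y
      have hden : (0 : ℝ) < ((r : ℝ) + 1) * (r.factorial : ℝ) * ((d 0 : ℝ) * P) := by positivity
      have key : ∀ Z : ℝ, Z / ((r.factorial : ℝ) * P) =
          (((r : ℝ) + 1) * (d 0 : ℝ) * Z) / (((r : ℝ) + 1) * (r.factorial : ℝ) * ((d 0 : ℝ) * P)) := by
        intro Z
        field_simp
      by_cases hY : d 0 ≤ Y
      · rw [if_pos hY] at hs
        have h2 := IH (Y - d 0) (by have := hd 0; omega)
        have hcast : ((Y - d 0 : ℕ) : ℝ) = (Y : ℝ) - d 0 := by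
          rw [Nat.cast_sub hY]
        rw [hcast] at h2
        have hs' : (({a : Fin r → ℕ | ∑ i, a i * d i.succ ≤ Y}.ncard : ℕ) : ℝ) +
            (({a : Fin (r + 1) → ℕ | ∑ i, a i * d i ≤ Y - d 0}.ncard : ℕ) : ℝ) ≤
            (({a : Fin (r + 1) → ℕ | ∑ i, a i * d i ≤ Y}.ncard : ℕ) : ℝ) := by
          exact_mod_cast hs
        refine le_trans ?_ hs'
        refine le_trans ?_ (add_le_add h1 h2)
        rw [← hP, key, ← add_div]
        refine div_le_div_of_nonneg_right ?_ hden.le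
        have := W1_bern r (Y : ℝ) (d 0 : ℝ) hd0.le (by exact_mod_cast hY)
        linarith
      · rw [if_neg hY, add_zero] at hs
        have hs' : (({a : Fin r → ℕ | ∑ i, a i * d i.succ ≤ Y}.ncard : ℕ) : ℝ) ≤
            (({a : Fin (r + 1) → ℕ | ∑ i, a i * d i ≤ Y}.ncard : ℕ) : ℝ) := by
          exact_mod_cast hs
        refine le_trans ?_ (le_trans h1 hs')
        rw [← hP, key]
        refine div_le_div_of_nonneg_right ?_ hden.le
        have hYd : (Y : ℝ) ≤ d 0 := by
          push Not at hY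
          exact_mod_cast hY.le
        have hYr : (0 : ℝ) ≤ (Y : ℝ) ^ r := by positivity
        calc (Y : ℝ) ^ (r + 1) = Y * Y ^ r := by ring
          _ ≤ d 0 * Y ^ r := mul_le_mul_of_nonneg_right hYd hYr
          _ ≤ ((r : ℝ) + 1) * (d 0 : ℝ) * (Y : ℝ) ^ r := by
            have hr : (0 : ℝ) ≤ r := by positivity
            have : 0 ≤ (r : ℝ) * ((d 0 : ℝ) * (Y : ℝ) ^ r) := by positivity
            nlinarith

end Pool.Agent.LibVol74
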