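import Pool.Agent.LibVol74.W0

/-!
# Coset representatives (row W2)
-/

set_option autoImplicit false

namespace Pool.Agent.LibVol74

open Finset

variable {n r : ℕ} {g : Fin n → ℕ}

/-- Coset representatives in the image monoid.
Proof. Choose `k > 0` with all `k • v i` in the image monoid (`p.sat`). The subgroup `Λ` generated by
the `k • v i` has index `k^r |det|` in `ℤ^r`. For a coset take `z = p.π (toZ u) - p.π (toZ w)`
(`p.surj`, `exists_toZ_sub`); with `m` the index, `z ≡ p.π (toZ u) + (m - 1) p.π (toZ w)` modulo `Λ`;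
then add a large multiple of `k • v i₀` with `ψ (v i₀) > 0`. Uniqueness: the two sides are in the
same coset, so `x = y`, and the `v i` are independent. -/
theorem exists_reps (p : Proj g r) (v : Fin r → (Fin r → ℤ)) (hv : ∀ i, v i ∈ p.sat)
    (hdet : (Matrix.of v).det ≠ 0) (ψ : (Fin r → ℤ) →+ ℤ) (hψ : ∀ i, 0 ≤ ψ (v i))
    (hψ' : r ≠ 0 → ∃ i, 0 < ψ (v i)) :
    ∃ (k : ℕ) (R : Finset (Fin r → ℤ)), 0 < k ∧ R.card = k ^ r * (Matrix.of v).det.natAbs ∧
      (∀ i, ∃ N, k • v i ∈ p.lev N) ∧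
      (∀ x ∈ R, (∃ N, x ∈ p.lev N) ∧ (r ≠ 0 → 0 < ψ x)) ∧
      (∀ x ∈ R, ∀ y ∈ R, ∀ a b : Fin r → ℕ,
        x + ∑ i, (a i * k) • v i = y + ∑ i, (b i * k) • v i → x = y ∧ a = b) := by
  classical
  choose kk uu hkk huu using hv
  set k : ℕ := ∏ i, kk i with hkdef
  have hk : 0 < k := Finset.prod_pos fun i _ => hkk i
  set y : Fin r → (Fin r → ℤ) := fun i => k • v i with hy
  have hylev : ∀ i, ∃ N, y i ∈ p.lev N := by
    intro i
    refine ⟨_, (∏ j ∈ univ.erase i, kk j) • uu i, rfl, ?_⟩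
    show p.π (toZ ((∏ j ∈ univ.erase i, kk j) • uu i)) = k • v i
    rw [toZ_smul, map_nsmul, ← huu i, hkdef, ← Finset.mul_prod_erase univ kk (Finset.mem_univ i),
      mul_comm, mul_nsmul', natCast_zsmul]
  have hkdet : (Matrix.of y).det = (k : ℤ) ^ r * (Matrix.of v).det := by
    have h1 : Matrix.of y = (k : ℤ) • Matrix.of v := by
      ext i j
      simp [hy, Matrix.smul_apply]
    rw [h1, Matrix.det_smul, Fintype.card_fin]
  have hk0 : (k : ℤ) ≠ 0 := by exact_mod_cast hk.ne'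
  have hydet : (Matrix.of y).det ≠ 0 := by
    rw [hkdet]
    exact mul_ne_zero (pow_ne_zero _ hk0) hdet
  have hvli : LinearIndependent ℤ v := Matrix.linearIndependent_rows_of_det_ne_zero hdet
  have hyli : LinearIndependent ℤ y := Matrix.linearIndependent_rows_of_det_ne_zero hydet
  set Λ : Submodule ℤ (Fin r → ℤ) := Submodule.span ℤ (Set.range y) with hΛ
  have hcard : Nat.card ((Fin r → ℤ) ⧸ Λ) = k ^ r * (Matrix.of v).det.natAbs := by
    rw [← Submodule.natAbs_det_basis_change (Pi.basisFun ℤ (Fin r)) Λ (Module.Basis.span hyli)]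
    have h1 : ((↑) ∘ (Module.Basis.span hyli) : Fin r → (Fin r → ℤ)) = y := by
      funext i
      simp only [Function.comp_apply]
      rw [Module.Basis.span_apply hyli i]
    rw [h1, Pi.basisFun_det_apply]
    have h2 : Matrix.det (fun i j => y i j : Matrix (Fin r) (Fin r) ℤ) =
        (k : ℤ) ^ r * (Matrix.of v).det := hkdet
    change (Matrix.det (fun i j => y i j : Matrix (Fin r) (Fin r) ℤ)).natAbs = _
    rw [h2, Int.natAbs_mul, Int.natAbs_pow, Int.natAbs_natCast]
  have hcard0 : Nat.card ((Fin r → ℤ) ⧸ Λ) ≠ 0 := by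
    rw [hcard]
    exact mul_ne_zero (pow_ne_zero _ hk.ne') (Int.natAbs_ne_zero.mpr hdet)
  have : Finite ((Fin r → ℤ) ⧸ Λ) := Nat.finite_of_card_ne_zero hcard0
  have := Fintype.ofFinite ((Fin r → ℤ) ⧸ Λ)
  set m : ℕ := Nat.card ((Fin r → ℤ) ⧸ Λ) with hm
  have hyΛ : ∀ i, y i ∈ Λ := fun i => Submodule.subset_span ⟨i, rfl⟩
  -- representatives
  have hrep : ∀ q : (Fin r → ℤ) ⧸ Λ, ∃ x : Fin r → ℤ, Submodule.Quotient.mk x = q ∧
      (∃ N, x ∈ p.lev N) ∧ (r ≠ 0 → 0 < ψ x) := by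
    intro q
    obtain ⟨z, rfl⟩ := Submodule.Quotient.mk_surjective Λ q
    obtain ⟨w, hw⟩ := p.surj z
    obtain ⟨a, b, hab⟩ := exists_toZ_sub w
    set z' : Fin r → ℤ := p.π (toZ (a + (m - 1) • b)) with hz'
    have hmem : m • p.π (toZ b) ∈ Λ := by
      rw [← Submodule.Quotient.mk_eq_zero, Submodule.Quotient.mk_smul, hm]
      exact card_nsmul_eq_zero'
    have hz'z : z' - z = m • p.π (toZ b) := by
      rw [hz', toZ_add, toZ_smul, map_add, map_nsmul, ← hw, hab, map_sub]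
      have hm1 : m = (m - 1) + 1 := by omega
      conv_rhs => rw [hm1, add_nsmul, one_nsmul]
      abel
    have hmk : (Submodule.Quotient.mk z' : (Fin r → ℤ) ⧸ Λ) = Submodule.Quotient.mk z := by
      rw [Submodule.Quotient.eq, hz'z]
      exact hmem
    by_cases hr : r = 0
    · exact ⟨z', hmk, ⟨_, _, rfl, rfl⟩, fun h => absurd hr h⟩
    · obtain ⟨i0, hi0⟩ := hψ' hr
      obtain ⟨N0, hN0⟩ := hylev i0
      refine ⟨z' + ((ψ z').natAbs + 1) • y i0, ?_, ?_, ?_⟩
      · rw [← hmk, Submodule.Quotient.eq]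
        have : z' + ((ψ z').natAbs + 1) • y i0 - z' = ((ψ z').natAbs + 1) • y i0 := by abel
        rw [this]
        exact Λ.smul_of_tower_mem _ (hyΛ i0)
      · exact ⟨_, lev_add p ⟨_, rfl, rfl⟩ (lev_nsmul p hN0 _)⟩
      · intro _
        rw [map_add, map_nsmul]
        have h1 : (1 : ℤ) ≤ ψ (y i0) := by
          have h0 : ψ (y i0) = (k : ℤ) * ψ (v i0) := by
            show ψ (k • v i0) = _
            rw [map_nsmul, nsmul_eq_mul]
          have : (1 : ℤ) ≤ (k : ℤ) := by exact_mod_cast hk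
          rw [h0]
          nlinarith
        rw [nsmul_eq_mul]
        push_cast
        have h2 : -(|ψ z'|) ≤ ψ z' := neg_abs_le _
        have h3 : 0 ≤ |ψ z'| := abs_nonneg _
        nlinarith
  choose x hx1 hx2 hx3 using hrep
  have hxinj : Function.Injective x := by
    intro q1 q2 h
    rw [← hx1 q1, ← hx1 q2, h]
  refine ⟨k, univ.image x, hk, ?_, hylev, ?_, ?_⟩
  · rw [Finset.card_image_of_injective _ hxinj, ← hcard, Finset.card_univ, ← Nat.card_eq_fintype_card]
  · intro z hz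
    obtain ⟨q, -, rfl⟩ := Finset.mem_image.mp hz
    exact ⟨hx2 q, hx3 q⟩
  · intro z1 hz1 z2 hz2 a b hab
    obtain ⟨q1, -, rfl⟩ := Finset.mem_image.mp hz1
    obtain ⟨q2, -, rfl⟩ := Finset.mem_image.mp hz2
    have hsum : ∀ c : Fin r → ℕ, ∑ i, (c i * k) • v i ∈ Λ := by
      intro c
      refine Submodule.sum_mem _ fun i _ => ?_
      rw [mul_nsmul']
      exact Λ.smul_of_tower_mem _ (hyΛ i)
    have hq : q1 = q2 := by
      rw [← hx1 q1, ← hx1 q2, Submodule.Quotient.eq]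
      have : x q1 - x q2 = ∑ i, (b i * k) • v i - ∑ i, (a i * k) • v i := by
        rw [sub_eq_sub_iff_add_eq_add, hab]
        abel
      rw [this]
      exact Λ.sub_mem (hsum b) (hsum a)
    subst hq
    refine ⟨rfl, ?_⟩
    have h1 : ∑ i, (a i * k) • v i = ∑ i, (b i * k) • v i := add_left_cancel hab
    have h2 : ∑ i, (((a i * k : ℕ) : ℤ) - ((b i * k : ℕ) : ℤ)) • v i = 0 := by
      simp only [sub_smul, natCast_zsmul, Finset.sum_sub_distrib]
      rw [h1, sub_self]
    have h3 := Fintype.linearIndependent_iff.mp hvli _ h2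
    funext i
    have h4 := h3 i
    have h5 : a i * k = b i * k := by
      have : ((a i * k : ℕ) : ℤ) = ((b i * k : ℕ) : ℤ) := sub_eq_zero.mp h4
      exact_mod_cast this
    exact Nat.eq_of_mul_eq_mul_right hk h5

end Pool.Agent.LibVol74
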