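import Pool.Agent.LibVol74.W1
import Pool.Agent.LibVol74.W2

/-!
# Growth in a cone (row W3)
-/

set_option autoImplicit false

namespace Pool.Agent.LibVol74

open Finset

variable {n r : ℕ} {g : Fin n → ℕ}

theorem W3_bern (m : ℕ) (Y d : ℝ) (hd : 0 ≤ d) (hY : d ≤ Y) :
    Y ^ (m + 1) ≤ (Y - d) ^ (m + 1) + (m + 1) * d * Y ^ m := by
  have hY0 : 0 ≤ Y := hd.trans hY
  have h0 : 0 ≤ Y - d := by linarith
  induction m with
  | zero => simp
  | succ m ih =>
    have h1 : (Y - d) ^ (m + 1) ≤ Y ^ (m + 1) := pow_le_pow_left₀ h0 (by linarith) _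
    have h2 := mul_le_mul_of_nonneg_left ih hY0
    have h3 := mul_le_mul_of_nonneg_left h1 hd
    push_cast
    calc Y ^ (m + 1 + 1) = Y * Y ^ (m + 1) := by ring
      _ ≤ Y * ((Y - d) ^ (m + 1) + (m + 1) * d * Y ^ m) := h2
      _ = (Y - d) ^ (m + 1 + 1) + d * (Y - d) ^ (m + 1) + (m + 1) * d * Y ^ (m + 1) := by ring
      _ ≤ (Y - d) ^ (m + 1 + 1) + d * Y ^ (m + 1) + (m + 1) * d * Y ^ (m + 1) := by linarith
      _ = _ := by ring

theorem W3_fin (r : ℕ) (d : Fin r → ℕ) (hd : ∀ i, 0 < d i) (Y : ℕ) :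
    {a : Fin r → ℕ | ∑ i, a i * d i ≤ Y}.Finite := by
  refine (Set.finite_Iic (fun _ : Fin r => Y)).subset ?_
  intro a ha
  rw [Set.mem_Iic, Pi.le_def]
  intro i
  have h1 : a i * d i ≤ ∑ i, a i * d i :=
    Finset.single_le_sum (f := fun i => a i * d i) (fun _ _ => Nat.zero_le _) (Finset.mem_univ i)
  have h2 : a i ≤ a i * d i := Nat.le_mul_of_pos_right _ (hd i)
  exact h2.trans (h1.trans ha)

/-- the counting step -/
theorem W3_count (hg : ∀ i, 0 < g i) (p : Proj g r) (ψ : (Fin r → ℤ) →+ ℤ) (k : ℕ)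
    (v : Fin r → (Fin r → ℤ)) (hψ : ∀ i, 0 ≤ ψ (v i)) (e : Fin r → ℕ)
    (he : ∀ i, 0 < e i) (hk : ∀ i, k • v i ∈ p.lev (e i))
    (R : Finset (Fin r → ℤ)) (c : ℕ) (hR : ∀ x ∈ R, ∃ N, N ≤ c ∧ x ∈ p.lev N)
    (hRψ : ∀ x ∈ R, 0 < ψ x)
    (hinj : ∀ x ∈ R, ∀ y ∈ R, ∀ a b : Fin r → ℕ,
        x + ∑ i, (a i * k) • v i = y + ∑ i, (b i * k) • v i → x = y ∧ a = b)
    (Z : ℕ) :
    R.card * {a : Fin r → ℕ | ∑ i, a i * e i ≤ Z}.ncard ≤
      ∑ N ∈ range (Z + c + 1), {x | x ∈ p.lev N ∧ 0 < ψ x}.ncard := by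
  classical
  have hfin := W3_fin r e he Z
  set A := hfin.toFinset with hA
  have hAc : {a : Fin r → ℕ | ∑ i, a i * e i ≤ Z}.ncard = A.card :=
    Set.ncard_eq_toFinset_card _ hfin
  rw [hAc, ← Finset.card_product]
  set F : (Fin r → ℤ) × (Fin r → ℕ) → (Fin r → ℤ) :=
    fun q => q.1 + ∑ i, (q.2 i * k) • v i with hF
  have hsum : ∀ a : Fin r → ℕ, ∑ i, (a i * k) • v i ∈ p.lev (∑ i, a i * e i) := by
    intro a
    have : ∀ s : Finset (Fin r), ∑ i ∈ s, (a i * k) • v i ∈ p.lev (∑ i ∈ s, a i * e i) := by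
      intro s
      induction s using Finset.induction_on with
      | empty => simpa using zero_mem_lev p
      | insert j s hj ih =>
        rw [Finset.sum_insert hj, Finset.sum_insert hj]
        refine lev_add p ?_ ih
        rw [mul_smul]
        exact lev_nsmul p (hk j) (a j)
    exact this _
  have hmem : ∀ q ∈ R ×ˢ A, ∃ N, N ≤ Z + c ∧ F q ∈ p.lev N := by
    intro q hq
    rw [Finset.mem_product] at hq
    obtain ⟨N, hN, hx⟩ := hR q.1 hq.1
    have ha : ∑ i, q.2 i * e i ≤ Z := by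
      have := hq.2
      rw [hA, Set.Finite.mem_toFinset] at this
      exact this
    exact ⟨N + ∑ i, q.2 i * e i, by omega, lev_add p hx (hsum _)⟩
  have hpos : ∀ q ∈ R ×ˢ A, 0 < ψ (F q) := by
    intro q hq
    rw [Finset.mem_product] at hq
    have h1 := hRψ q.1 hq.1
    have h2 : 0 ≤ ψ (∑ i, (q.2 i * k) • v i) := by
      rw [map_sum]
      refine Finset.sum_nonneg fun i _ => ?_
      rw [map_nsmul]
      exact nsmul_nonneg (hψ i) _
    rw [hF]
    simp only [map_add]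
    linarith
  have hmaps : Set.MapsTo (fun q => (p.δ (F q)).toNat) (↑(R ×ˢ A) : Set _)
      (↑(range (Z + c + 1)) : Set ℕ) := by
    intro q hq
    obtain ⟨N, hN, hx⟩ := hmem q hq
    have := deg_lev p hx
    simp only [Finset.coe_range, Set.mem_Iio]
    rw [this]
    simp
    omega
  rw [Finset.card_eq_sum_card_fiberwise hmaps]
  refine Finset.sum_le_sum fun N _ => ?_
  have hSf : {x | x ∈ p.lev N ∧ 0 < ψ x}.Finite := (lev_finite hg p N).subset fun x hx => hx.1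
  have himg : (F '' (↑(Finset.filter (fun q => (p.δ (F q)).toNat = N) (R ×ˢ A)) : Set _)) ⊆
      {x | x ∈ p.lev N ∧ 0 < ψ x} := by
    rintro _ ⟨q, hq, rfl⟩
    rw [Finset.mem_coe, Finset.mem_filter] at hq
    obtain ⟨M, hM, hx⟩ := hmem q hq.1
    have h1 := deg_lev p hx
    have h2 : M = N := by
      have := hq.2
      rw [h1] at this
      simpa using this
    subst h2
    exact ⟨hx, hpos q hq.1⟩
  have hinjF : Set.InjOn F (↑(Finset.filter (fun q => (p.δ (F q)).toNat = N) (R ×ˢ A)) : Set _) := by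
    intro q hq q' hq' h
    rw [Finset.mem_coe, Finset.mem_filter, Finset.mem_product] at hq hq'
    obtain ⟨h1, h2⟩ := hinj q.1 hq.1.1 q'.1 hq'.1.1 q.2 q'.2 h
    exact Prod.ext h1 h2
  rw [← Set.ncard_coe_finset, ← hinjF.ncard_image]
  exact Set.ncard_le_ncard himg hSf

/-- Growth inside one simplicial cone: the number of elements of the image monoid of degree `≤ Y`
with `ψ > 0`. Take `k, R` from `exists_reps` (with `r + 1`): the elements `x + ∑ (a i * k) • v i`,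
`x ∈ R`, are different, lie in the image monoid, have `ψ > 0` and degree
`δ x + ∑ a i * (k δ (v i))`. By `simplex_card` the number with degree `≤ Y` is at least
`k^(r+1) |det| (Y - c)^(r+1) / ((r+1)! ∏ k δ (v i))`, `c = max δ x`. -/
theorem cone_growth (hg : ∀ i, 0 < g i) (p : Proj g (r + 1)) (v : Fin (r + 1) → (Fin (r + 1) → ℤ))
    (hv : ∀ i, v i ∈ p.sat) (hdet : (Matrix.of v).det ≠ 0) (ψ : (Fin (r + 1) → ℤ) →+ ℤ)
    (hψ : ∀ i, 0 ≤ ψ (v i)) (hψ' : ∃ i, 0 < ψ (v i)) :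
    ∃ C : ℝ, ∀ Y : ℕ, ((Matrix.of v).det.natAbs : ℝ) / (∏ i, (p.δ (v i) : ℝ)) *
        (Y : ℝ) ^ (r + 1) / ((r + 1).factorial : ℝ) ≤
      (∑ N ∈ range (Y + 1), ({x | x ∈ p.lev N ∧ 0 < ψ x}.ncard : ℝ)) +
        C * ((Y : ℝ) + 1) ^ r := by
  classical
  obtain ⟨k, R, hk, hRc, hkv, hR, hinj⟩ := exists_reps p v hv hdet ψ hψ (fun _ => hψ')
  choose e he using hkv
  have hdeg : ∀ i, (k : ℤ) * p.δ (v i) = e i := by
    intro i
    have := deg_lev p (he i)
    rwa [map_nsmul, nsmul_eq_mul] at this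
  have hδpos : ∀ i, 0 < p.δ (v i) := by
    intro i
    refine lt_of_le_of_ne (sat_deg_nonneg p (hv i)) fun h => hdet ?_
    have h0 : v i = 0 := sat_deg_zero hg p (hv i) h.symm
    exact Matrix.det_eq_zero_of_row_eq_zero i fun j => by simp [h0]
  have hepos : ∀ i, 0 < e i := by
    intro i
    have h1 : (0 : ℤ) < k := by exact_mod_cast hk
    have h2 := mul_pos h1 (hδpos i)
    rw [hdeg i] at h2
    exact_mod_cast h2
  -- the constant `c`
  have hc : ∃ c : ℕ, ∀ x ∈ R, ∃ N, N ≤ c ∧ x ∈ p.lev N := by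
    refine ⟨∑ x ∈ R, (p.δ x).toNat, fun x hx => ?_⟩
    obtain ⟨N, hN⟩ := (hR x hx).1
    refine ⟨N, ?_, hN⟩
    have h1 : (p.δ x).toNat ≤ ∑ x ∈ R, (p.δ x).toNat :=
      Finset.single_le_sum (f := fun x => (p.δ x).toNat) (fun _ _ => Nat.zero_le _) hx
    rw [deg_lev p hN] at h1
    simpa using h1
  obtain ⟨c, hc⟩ := hc
  set D : ℝ := ((Matrix.of v).det.natAbs : ℝ) with hD
  set P : ℝ := ∏ i, (p.δ (v i) : ℝ) with hP
  have hPpos : 0 < P := Finset.prod_pos fun i _ => by exact_mod_cast hδpos i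
  have hDnn : 0 ≤ D := by positivity
  have hfac : (0 : ℝ) < ((r + 1).factorial : ℝ) := by exact_mod_cast (r + 1).factorial_pos
  have hkR : (0 : ℝ) < k := by exact_mod_cast hk
  refine ⟨D / P * ((r + 1) * c) / ((r + 1).factorial : ℝ), fun Y => ?_⟩
  have hsumnn : (0 : ℝ) ≤ ∑ N ∈ range (Y + 1), ({x | x ∈ p.lev N ∧ 0 < ψ x}.ncard : ℝ) :=
    Finset.sum_nonneg fun _ _ => by positivity
  have hY0 : (0 : ℝ) ≤ Y := by positivity
  have hc0 : (0 : ℝ) ≤ c := by positivity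
  have hpow : (Y : ℝ) ^ r ≤ ((Y : ℝ) + 1) ^ r := pow_le_pow_left₀ hY0 (by linarith) _
  have hr0 : (0 : ℝ) ≤ r := by positivity
  by_cases hYc : c ≤ Y
  · have h1 := W3_count hg p ψ k v hψ e hepos he R c hc (fun x hx => (hR x hx).2 (by omega)) hinj
      (Y - c)
    have hYc' : Y - c + c + 1 = Y + 1 := by omega
    rw [hYc'] at h1
    have h2 := simplex_card (r + 1) e hepos (Y - c)
    have h1' : ((R.card : ℝ)) * (({a : Fin (r + 1) → ℕ | ∑ i, a i * e i ≤ Y - c}.ncard : ℕ) : ℝ) ≤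
        ∑ N ∈ range (Y + 1), ({x | x ∈ p.lev N ∧ 0 < ψ x}.ncard : ℝ) := by
      exact_mod_cast h1
    have hRcR : (R.card : ℝ) = (k : ℝ) ^ (r + 1) * D := by
      rw [hRc, hD]
      push_cast
      ring
    have hprod : ∏ i, (e i : ℝ) = (k : ℝ) ^ (r + 1) * P := by
      have : ∀ i, (e i : ℝ) = (k : ℝ) * (p.δ (v i) : ℝ) := by
        intro i
        have := hdeg i
        have h3 : ((k : ℤ) * p.δ (v i) : ℝ) = ((e i : ℤ) : ℝ) := by
          exact_mod_cast congrArg (fun z : ℤ => (z : ℝ)) this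
        push_cast at h3
        rw [← h3]
      rw [Finset.prod_congr rfl fun i _ => this i, Finset.prod_mul_distrib, Finset.prod_const,
        Finset.card_univ, Fintype.card_fin]
    rw [hprod] at h2
    have hcast : ((Y - c : ℕ) : ℝ) = (Y : ℝ) - c := by rw [Nat.cast_sub hYc]
    rw [hcast] at h2
    have h3 : D / P * ((Y : ℝ) - c) ^ (r + 1) / ((r + 1).factorial : ℝ) ≤
        ∑ N ∈ range (Y + 1), ({x | x ∈ p.lev N ∧ 0 < ψ x}.ncard : ℝ) := by
      refine le_trans ?_ h1'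
      rw [hRcR]
      refine le_trans (le_of_eq ?_) (mul_le_mul_of_nonneg_left h2 (by positivity))
      have hkp : (k : ℝ) ^ (r + 1) ≠ 0 := by positivity
      field_simp
    have h4 := W3_bern r (Y : ℝ) (c : ℝ) hc0 (by exact_mod_cast hYc)
    have h5 : D / P * (Y : ℝ) ^ (r + 1) / ((r + 1).factorial : ℝ) ≤
        D / P * (((Y : ℝ) - c) ^ (r + 1) + (r + 1) * c * ((Y : ℝ) + 1) ^ r) /
          ((r + 1).factorial : ℝ) := by
      refine div_le_div_of_nonneg_right (mul_le_mul_of_nonneg_left ?_ (by positivity)) hfac.le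
      refine h4.trans (add_le_add le_rfl ?_)
      exact mul_le_mul_of_nonneg_left hpow (by positivity)
    refine h5.trans ?_
    have h6 : D / P * (((Y : ℝ) - c) ^ (r + 1) + (r + 1) * c * ((Y : ℝ) + 1) ^ r) /
          ((r + 1).factorial : ℝ) = D / P * ((Y : ℝ) - c) ^ (r + 1) / ((r + 1).factorial : ℝ) +
          D / P * ((r + 1) * c) / ((r + 1).factorial : ℝ) * ((Y : ℝ) + 1) ^ r := by
      ring
    rw [h6]
    exact add_le_add h3 le_rfl
  · push Not at hYc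
    have hYc' : (Y : ℝ) ≤ c := by exact_mod_cast hYc.le
    have h5 : D / P * (Y : ℝ) ^ (r + 1) / ((r + 1).factorial : ℝ) ≤
        D / P * ((r + 1) * c * ((Y : ℝ) + 1) ^ r) / ((r + 1).factorial : ℝ) := by
      refine div_le_div_of_nonneg_right (mul_le_mul_of_nonneg_left ?_ (by positivity)) hfac.le
      calc (Y : ℝ) ^ (r + 1) = Y * Y ^ r := by ring
        _ ≤ c * ((Y : ℝ) + 1) ^ r := mul_le_mul hYc' hpow (by positivity) hc0
        _ ≤ (r + 1) * c * ((Y : ℝ) + 1) ^ r := by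
          have : 0 ≤ (r : ℝ) * (c * ((Y : ℝ) + 1) ^ r) := by positivity
          nlinarith
    refine h5.trans ?_
    have h6 : D / P * ((r + 1) * c * ((Y : ℝ) + 1) ^ r) / ((r + 1).factorial : ℝ) =
        D / P * ((r + 1) * c) / ((r + 1).factorial : ℝ) * ((Y : ℝ) + 1) ^ r := by
      ring
    rw [h6]
    linarith

end Pool.Agent.LibVol74
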