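import Pool.Agent.LibVol74.V4

/-!
# Chords (row X1)
-/

set_option autoImplicit false

namespace Pool.Agent.LibVol74

open Finset

variable {n : ℕ}

/-- determinant of three vectors -/
def det3 (x y z : Fin 3 → ℤ) : ℤ := (Matrix.of ![x, y, z]).det

theorem det3_eq (x y z : Fin 3 → ℤ) : det3 x y z =
    x 0 * y 1 * z 2 - x 0 * y 2 * z 1 - x 1 * y 0 * z 2 + x 1 * y 2 * z 0 + x 2 * y 0 * z 1 -
      x 2 * y 1 * z 0 := by
  unfold det3
  rw [Matrix.det_fin_three]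
  simp

theorem det3_ker_left {a w : Fin 3 → ℤ} (z : Fin 3 → ℤ) (h : ∃ m k : ℤ, m ≠ 0 ∧ m • w = k • a) :
    det3 w a z = 0 := by
  obtain ⟨m, k, hm, e⟩ := h
  have h0 : m * w 0 = k * a 0 := by simpa using congrFun e 0
  have h1 : m * w 1 = k * a 1 := by simpa using congrFun e 1
  have h2 : m * w 2 = k * a 2 := by simpa using congrFun e 2
  have h3 : m * det3 w a z = 0 := by
    rw [det3_eq]
    have : m * (w 0 * a 1 * z 2 - w 0 * a 2 * z 1 - w 1 * a 0 * z 2 + w 1 * a 2 * z 0 +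
        w 2 * a 0 * z 1 - w 2 * a 1 * z 0) =
        (m * w 0) * a 1 * z 2 - (m * w 0) * a 2 * z 1 - (m * w 1) * a 0 * z 2 +
        (m * w 1) * a 2 * z 0 + (m * w 2) * a 0 * z 1 - (m * w 2) * a 1 * z 0 := by ring
    rw [this, h0, h1, h2]; ring
  rcases mul_eq_zero.1 h3 with h | h
  · exact absurd h hm
  · exact h

theorem det3_ker_right {a w : Fin 3 → ℤ} (x : Fin 3 → ℤ) (h : ∃ m k : ℤ, m ≠ 0 ∧ m • w = k • a) :
    det3 x a w = 0 := by
  have h1 := det3_ker_left x h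
  have h2 : det3 x a w = - det3 w a x := by rw [det3_eq, det3_eq]; ring
  rw [h2, h1, neg_zero]

/-- Determinants in the quotient by the saturation of `a`: if `a'` generates the kernel of `ρ`
(`a = m a'`) and `s₁, s₂` are lifts of the standard basis then `a', s₁, s₂` is a basis of `ℤ^3` and
`det3 x a z = c · det2 (ρ x) (ρ z)`, `c = ± m`. -/
theorem det_quot {a : Fin 3 → ℤ} (ha : a ≠ 0) (ρ : (Fin 3 → ℤ) →+ (Fin 2 → ℤ))
    (hρ : Function.Surjective ρ) (hker : ∀ w, ρ w = 0 ↔ ∃ m k : ℤ, m ≠ 0 ∧ m • w = k • a) :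
    ∃ c : ℤ, c ≠ 0 ∧ ∀ x z, det3 x a z = c * det2 (ρ x) (ρ z) := by
  obtain ⟨s, hs⟩ := hρ (Pi.single 0 1)
  obtain ⟨t, ht⟩ := hρ (Pi.single 1 1)
  have key : ∀ x z, det3 x a z = det3 s a t * det2 (ρ x) (ρ z) := by
    intro x z
    have hdec : ∀ x : Fin 3 → ℤ, ∃ w, ρ w = 0 ∧ x = w + ((ρ x 0) • s + (ρ x 1) • t) := by
      intro x
      refine ⟨x - ((ρ x 0) • s + (ρ x 1) • t), ?_, by abel⟩
      rw [map_sub, map_add, map_zsmul, map_zsmul, hs, ht]
      funext i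
      fin_cases i <;> simp
    obtain ⟨w, hw, ex⟩ := hdec x
    obtain ⟨w', hw', ez⟩ := hdec z
    have h1 := (hker w).1 hw
    have h2 := (hker w').1 hw'
    have e1 : det3 x a z = det3 w a z + (ρ x 0) * det3 s a z + (ρ x 1) * det3 t a z := by
      conv_lhs => rw [ex]
      simp only [det3_eq, Pi.add_apply, Pi.smul_apply, smul_eq_mul]
      ring
    have e2 : ∀ v, det3 v a z = det3 v a w' + (ρ z 0) * det3 v a s + (ρ z 1) * det3 v a t := by
      intro v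
      conv_lhs => rw [ez]
      simp only [det3_eq, Pi.add_apply, Pi.smul_apply, smul_eq_mul]
      ring
    have e3 : ∀ v, det3 v a v = 0 := by intro v; rw [det3_eq]; ring
    have e4 : det3 t a s = - det3 s a t := by rw [det3_eq, det3_eq]; ring
    rw [e1, det3_ker_left z h1, e2 s, e2 t, det3_ker_right s h2, det3_ker_right t h2, e3, e3, e4]
    unfold det2
    ring
  refine ⟨det3 s a t, ?_, key⟩
  intro h0
  apply ha
  have hz : ∀ x z, det3 x a z = 0 := fun x z => by rw [key, h0, zero_mul]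
  have h1 := hz (Pi.single 1 1) (Pi.single 2 1)
  have h2 := hz (Pi.single 0 1) (Pi.single 2 1)
  have h3 := hz (Pi.single 0 1) (Pi.single 1 1)
  rw [det3_eq] at h1 h2 h3
  simp at h1 h2 h3
  funext i
  fin_cases i
  · simpa using h1
  · simpa using h2
  · simpa using h3

/-- Two different elements of the saturation of the same degree `ν` give growth `1/(ν N)`.
Proof. `a = y - x`; `exists_proj_quot` gives `p'`, `ρ` (degree preserved, `p'.π = ρ ∘ p.π`),
`det_quot` gives `c` with `det3 x y z = det3 x a z = c · det2 (ρ x) (ρ z)`. `ρ x ∈ p'.sat` has degree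
`ν`. `vol1_ext` gives `i, j`. Use `gr_two_cones` with `(x, y, p.π e_i)`, `(x, y, p.π e_j)` (or
exchanged, according to the sign of `c`), `ψ z = ± det3 x y z`; `|c| ≥ 1`. -/
theorem gr_of_chord (D : Dat n) (p : Proj D.g 3) {x y : Fin 3 → ℤ} {ν : ℕ}
    (hν : 0 < ν) (hx : x ∈ p.sat) (hy : y ∈ p.sat) (hdx : p.δ x = ν) (hdy : p.δ y = ν)
    (hxy : x ≠ y) : p.Gr 2 (1 / ((ν : ℝ) * (D.b (n - 2) : ℝ))) := by
  have hn : 3 ≤ n := le_of_fin_surjective ℤ p.π.toIntLinearMap p.surj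
  have ha : y - x ≠ 0 := sub_ne_zero.2 hxy.symm
  obtain ⟨p', ρ, hρs, hρπ, hρδ, hker⟩ := exists_proj_quot p (y - x) ha (by
    rw [map_sub, hdx, hdy, sub_self])
  obtain ⟨c, hc0, hc⟩ := det_quot ha ρ hρs hker
  have hdet : ∀ z, det3 x y z = c * det2 (ρ x) (ρ z) := by
    intro z
    rw [← hc x z, det3_eq, det3_eq]
    simp only [Pi.sub_apply]
    ring
  have hxs : ρ x ∈ p'.sat := by
    obtain ⟨k, u, hk, e⟩ := hx
    exact ⟨k, u, hk, by rw [← map_zsmul, e, hρπ]⟩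
  have hδx : p'.δ (ρ x) = ν := by rw [hρδ, hdx]
  have hνZ : (0 : ℤ) < (ν : ℤ) := by exact_mod_cast hν
  obtain ⟨i, j, hi, hj, hij⟩ := vol1_ext D (by omega) p' hxs (by rw [hδx]; exact hνZ)
  rw [hδx, hρπ, hρπ] at hij
  rw [hρπ] at hi hj
  have hρxy : ρ y = ρ x := by
    have h1 : ρ (y - x) = 0 := (hker _).2 ⟨1, 1, one_ne_zero, rfl⟩
    rw [map_sub, sub_eq_zero] at h1
    exact h1
  have hρx0 : ρ x ≠ 0 := by
    intro h0
    rw [h0, map_zero] at hδx
    omega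
  let ψ : (Fin 3 → ℤ) →+ ℤ :=
    { toFun := fun z => det2 (ρ x) (ρ z)
      map_zero' := by simp [det2]
      map_add' := fun z w => by simp only [det2, map_add, Pi.add_apply]; ring }
  have hψ : ∀ z, ψ z = det2 (ρ x) (ρ z) := fun _ => rfl
  have hψx : ψ x = 0 := by rw [hψ]; unfold det2; ring
  have hψy : ψ y = 0 := by rw [hψ, hρxy]; unfold det2; ring
  have hdg : ∀ i, p.δ (p.π (Pi.single i 1)) = (D.g i : ℤ) := fun i => deg_lev p (single_mem_lev p i)
  refine gr_two_cones D.gpos p ![x, y, p.π (Pi.single i 1)] ![x, y, p.π (Pi.single j 1)]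
    ?_ ?_ ψ ?_ ?_ ?_ _ ?_
  · intro l
    fin_cases l
    · exact hx
    · exact hy
    · exact sat_single p i
  · intro l
    fin_cases l
    · exact hx
    · exact hy
    · exact sat_single p j
  · intro h0
    obtain ⟨z, hz⟩ := hρs ![-(ρ x 1), ρ x 0]
    have h1 : ψ z = 0 := by rw [h0]; rfl
    rw [hψ, hz] at h1
    have h2 : ρ x 0 * ρ x 0 + ρ x 1 * ρ x 1 = 0 := by
      unfold det2 at h1
      simp at h1
      linarith
    have h3 : ρ x 0 = 0 := by nlinarith [mul_self_nonneg (ρ x 0), mul_self_nonneg (ρ x 1)]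
    have h4 : ρ x 1 = 0 := by nlinarith [mul_self_nonneg (ρ x 0), mul_self_nonneg (ρ x 1)]
    apply hρx0
    funext l
    fin_cases l
    · exact h3
    · exact h4
  · intro l
    fin_cases l
    · exact hψx.ge
    · exact hψy.ge
    · exact hi
  · intro l
    fin_cases l
    · exact hψx.le
    · exact hψy.le
    · exact hj
  · -- the constants
    have hνR : (0 : ℝ) < (ν : ℝ) := by exact_mod_cast hν
    have hgi : ∀ i, (0 : ℝ) < (D.g i : ℝ) := fun i => by exact_mod_cast D.gpos i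
    have hcabs : (1 : ℝ) ≤ |(c : ℝ)| := by
      have : (1 : ℤ) ≤ |c| := Int.one_le_abs hc0
      exact_mod_cast this
    have hprod : ∀ i, ∏ l, ((p.δ ((![x, y, p.π (Pi.single i 1)] : Fin 3 → (Fin 3 → ℤ)) l) : ℤ) : ℝ) =
        (ν : ℝ) * ν * (D.g i : ℝ) := by
      intro i
      rw [Fin.prod_univ_three]
      simp only [Matrix.cons_val_zero, Matrix.cons_val_one, Matrix.cons_val]
      rw [hdx, hdy, hdg]
      push_cast
      ring
    have hdetv : ∀ i, ((Matrix.of ![x, y, p.π (Pi.single i 1)]).det.natAbs : ℝ) =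
        |(c : ℝ)| * |((det2 (ρ x) (ρ (p.π (Pi.single i 1))) : ℤ) : ℝ)| := by
      intro i
      have h1 : (Matrix.of ![x, y, p.π (Pi.single i 1)]).det =
        c * det2 (ρ x) (ρ (p.π (Pi.single i 1))) := hdet _
      rw [h1, Int.natAbs_mul, Nat.cast_mul, Nat.cast_natAbs, Nat.cast_natAbs]
      push_cast
      rfl
    rw [hprod, hprod, hdetv, hdetv]
    have hiR : (0 : ℝ) ≤ ((det2 (ρ x) (ρ (p.π (Pi.single i 1))) : ℤ) : ℝ) := by exact_mod_cast hi
    have hjR : ((det2 (ρ x) (ρ (p.π (Pi.single j 1))) : ℤ) : ℝ) ≤ 0 := by exact_mod_cast hj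
    rw [abs_of_nonneg hiR, abs_of_nonpos hjR]
    set A : ℝ := ((det2 (ρ x) (ρ (p.π (Pi.single i 1))) : ℤ) : ℝ) with hA
    set B : ℝ := ((det2 (ρ x) (ρ (p.π (Pi.single j 1))) : ℤ) : ℝ) with hB
    have hnn : (0 : ℝ) ≤ A / ((ν : ℝ) * (D.g i : ℝ)) + -B / ((ν : ℝ) * (D.g j : ℝ)) := by
      have h1 : 0 ≤ A / ((ν : ℝ) * (D.g i : ℝ)) := div_nonneg hiR (mul_pos hνR (hgi i)).le
      have h2 : 0 ≤ -B / ((ν : ℝ) * (D.g j : ℝ)) :=
        div_nonneg (by linarith) (mul_pos hνR (hgi j)).le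
      linarith
    have e1 : |(c : ℝ)| * A / ((ν : ℝ) * ν * (D.g i : ℝ)) +
        |(c : ℝ)| * -B / ((ν : ℝ) * ν * (D.g j : ℝ)) =
        |(c : ℝ)| * (1 / (ν : ℝ) * (A / ((ν : ℝ) * (D.g i : ℝ)) + -B / ((ν : ℝ) * (D.g j : ℝ)))) := by
      have := (hgi i).ne'
      have := (hgi j).ne'
      field_simp
    rw [e1]
    have h5 : 1 / (ν : ℝ) * (1 / (D.b (n - 2) : ℝ)) ≤
        1 / (ν : ℝ) * (A / ((ν : ℝ) * (D.g i : ℝ)) + -B / ((ν : ℝ) * (D.g j : ℝ))) := by
      refine mul_le_mul_of_nonneg_left ?_ (by positivity)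
      exact_mod_cast hij
    have h6 : 0 ≤ 1 / (ν : ℝ) * (A / ((ν : ℝ) * (D.g i : ℝ)) + -B / ((ν : ℝ) * (D.g j : ℝ))) := by
      positivity
    calc 1 / ((ν : ℝ) * (D.b (n - 2) : ℝ)) = 1 / (ν : ℝ) * (1 / (D.b (n - 2) : ℝ)) := by
          rw [div_mul_div_comm, one_mul]
      _ ≤ _ := h5
      _ ≤ _ := le_mul_of_one_le_left h6 hcabs

end Pool.Agent.LibVol74
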