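import Pool.Agent.LibVol74.X1

/-!
# Triangles (row X2)
-/

set_option autoImplicit false

namespace Pool.Agent.LibVol74

open Finset

variable {n : ℕ}

private theorem X2_exp (x y z : Fin 3 → ℤ) :
    det3 x y z = x 0 * y 1 * z 2 - x 0 * y 2 * z 1 - x 1 * y 0 * z 2 + x 1 * y 2 * z 0 +
      x 2 * y 0 * z 1 - x 2 * y 1 * z 0 := by
  unfold det3
  rw [Matrix.det_fin_three]
  simp [Matrix.of_apply]

private theorem X2_ker (δ : (Fin 3 → ℤ) →+ ℤ) (hδ : Function.Surjective δ) {a b c : Fin 3 → ℤ}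
    (ha : δ a = 0) (hb : δ b = 0) (hc : δ c = 0) : det3 a b c = 0 := by
  have hform : ∀ v : Fin 3 → ℤ, δ v = v 0 * δ (Pi.single 0 1) + v 1 * δ (Pi.single 1 1) +
      v 2 * δ (Pi.single 2 1) := by
    intro v
    have hv : v = (v 0) • (Pi.single 0 1 : Fin 3 → ℤ) + (v 1) • (Pi.single 1 1 : Fin 3 → ℤ) +
        (v 2) • (Pi.single 2 1 : Fin 3 → ℤ) := by
      funext i
      fin_cases i <;> simp
    have h2 : δ v = δ ((v 0) • (Pi.single 0 1 : Fin 3 → ℤ) + (v 1) • (Pi.single 1 1 : Fin 3 → ℤ) +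
        (v 2) • (Pi.single 2 1 : Fin 3 → ℤ)) := by
      rw [← hv]
    rw [h2, map_add, map_add, map_zsmul, map_zsmul, map_zsmul, smul_eq_mul, smul_eq_mul,
      smul_eq_mul]
  set u : Fin 3 → ℤ := fun i => δ (Pi.single i 1) with hu
  have hu0 : u ≠ 0 := by
    intro h0
    obtain ⟨v, hv⟩ := hδ 1
    have h := hform v
    have e0 : δ (Pi.single 0 1) = 0 := congrFun h0 0
    have e1 : δ (Pi.single 1 1) = 0 := congrFun h0 1
    have e2 : δ (Pi.single 2 1) = 0 := congrFun h0 2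
    rw [e0, e1, e2, hv] at h
    norm_num at h
  unfold det3
  refine Matrix.exists_mulVec_eq_zero_iff.1 ⟨u, hu0, ?_⟩
  funext i
  have key : ∀ v : Fin 3 → ℤ, δ v = 0 → v ⬝ᵥ u = 0 := by
    intro v hv
    rw [hform v] at hv
    simp only [dotProduct, Fin.sum_univ_three]
    exact hv
  fin_cases i
  · exact key a ha
  · exact key b hb
  · exact key c hc

/-- Divisibility of the determinant: `det3 x y w = det3 x (y - x) (w - v)`; `y - x` and `w - v` lie in
`ker δ` (rank two); with `δ η = 1` and `x = N η + μ`, `μ ∈ ker δ`, it equals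
`N · det3 η (y - x) (w - v)`. -/
theorem det3_ge (D : Dat n) (p : Proj D.g 3) {x y w v : Fin 3 → ℤ} {N : ℕ}
    (hx : p.δ x = N) (hy : p.δ y = N) (hv : p.δ v = p.δ w) (hv0 : det3 x y v = 0)
    (hw0 : det3 x y w ≠ 0) : (N : ℤ) ≤ |det3 x y w| := by
  obtain ⟨η, hη⟩ := deg_surj D p 1
  have hk : det3 (x - (N : ℤ) • η) (y - x) (w - v) = 0 := by
    refine X2_ker p.δ (deg_surj D p) ?_ ?_ ?_
    · rw [map_sub, map_zsmul, hx, hη]; simp
    · rw [map_sub, hx, hy, sub_self]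
    · rw [map_sub, hv, sub_self]
  have hmain : det3 x y w = N * det3 η (y - x) (w - v) := by
    rw [X2_exp] at hk hv0 ⊢
    rw [X2_exp]
    simp only [Pi.sub_apply, Pi.smul_apply, smul_eq_mul] at hk ⊢
    linear_combination hk + hv0
  rw [hmain, abs_mul, Nat.abs_cast]
  have h1 : 1 ≤ |det3 η (y - x) (w - v)| := by
    apply Int.one_le_abs
    intro h0
    rw [h0, mul_zero] at hmain
    exact hw0 hmain
  have hN : (0 : ℤ) ≤ N := Int.natCast_nonneg N
  nlinarith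

/-- the triangle over a chord of degree `N` (`gr_one_cone` with `(x, y, w)`) -/
theorem gr_of_triangle (D : Dat n) (p : Proj D.g 3) {x y w v : Fin 3 → ℤ} {N c : ℕ}
    (hN : 0 < N) (hc : 0 < c)
    (hxs : x ∈ p.sat) (hys : y ∈ p.sat) (hws : w ∈ p.sat)
    (hx : p.δ x = N) (hy : p.δ y = N) (hw : p.δ w = c) (hv : p.δ v = c)
    (hv0 : det3 x y v = 0) (hw0 : det3 x y w ≠ 0) :
    p.Gr 2 (1 / ((c : ℝ) * (N : ℝ))) := by
  have hge := det3_ge D p hx hy (hv.trans hw.symm) hv0 hw0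
  have hge' : (N : ℝ) ≤ ((det3 x y w).natAbs : ℝ) := by
    have h : (N : ℤ) ≤ ((det3 x y w).natAbs : ℤ) := by
      rw [Int.natCast_natAbs]; exact hge
    exact_mod_cast h
  refine gr_one_cone (r := 2) D.gpos p ![x, y, w] ?_ _ ?_
  · intro i
    fin_cases i
    · exact hxs
    · exact hys
    · exact hws
  · have hprod : ∏ i, (p.δ ((![x, y, w] : Fin 3 → (Fin 3 → ℤ)) i) : ℝ) = (N : ℝ) * N * c := by
      rw [Fin.prod_univ_three]
      simp [hx, hy, hw]
    have hNR : (0 : ℝ) < N := by exact_mod_cast hN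
    have hcR : (0 : ℝ) < c := by exact_mod_cast hc
    have e : ((Matrix.of (![x, y, w] : Fin 3 → (Fin 3 → ℤ))).det.natAbs : ℝ) =
        ((det3 x y w).natAbs : ℝ) := rfl
    calc 1 / ((c : ℝ) * (N : ℝ)) = (N : ℝ) / ((N : ℝ) * N * c) := by
          field_simp
      _ ≤ ((det3 x y w).natAbs : ℝ) / ((N : ℝ) * N * c) := by
          gcongr
      _ = _ := by rw [← e, ← hprod]

end Pool.Agent.LibVol74
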