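import Pool.Agent.LibVol74.X2

/-!
# Degrees on rays and planes (row X3)
-/

set_option autoImplicit false

namespace Pool.Agent.LibVol74

open Finset

variable {n : ℕ}

/-- parallel vectors -/
def Par {r : ℕ} (x y : Fin r → ℤ) : Prop := ∃ m k : ℤ, m ≠ 0 ∧ k ≠ 0 ∧ m • x = k • y

/-- the primitive vector -/
private theorem X3_prim {r : ℕ} (x : Fin r → ℤ) (hx : x ≠ 0) :
    ∃ (k : ℕ) (x' u : Fin r → ℤ), 0 < k ∧ x = (k : ℤ) • x' ∧ ∑ i, u i * x' i = 1 := by
  obtain ⟨g, hg⟩ := (IsPrincipalIdealRing.principal (Ideal.span (Set.range x))).principal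
  have h1 : ∀ i, g ∣ x i := by
    intro i
    have h2 : x i ∈ Ideal.span (Set.range x) := Ideal.subset_span ⟨i, rfl⟩
    rw [hg] at h2
    exact Ideal.mem_span_singleton.1 h2
  have h3 : g ∈ Ideal.span (Set.range x) := by
    rw [hg]
    exact Ideal.mem_span_singleton_self g
  obtain ⟨c, hc⟩ := (Ideal.mem_span_range_iff_exists_fun).1 h3
  have hg0 : g ≠ 0 := by
    rintro rfl
    apply hx
    funext i
    exact zero_dvd_iff.1 (h1 i)
  choose w hw using h1
  have h4 : ∑ i, c i * w i = 1 := by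
    have h5 : g * ∑ i, c i * w i = g * 1 := by
      rw [mul_one, Finset.mul_sum]
      conv_rhs => rw [← hc]
      refine Finset.sum_congr rfl fun i _ => ?_
      rw [hw i]
      ring
    exact mul_left_cancel₀ hg0 h5
  rcases lt_or_gt_of_ne hg0 with h6 | h6
  · refine ⟨g.natAbs, fun i => - w i, fun i => - c i, Int.natAbs_pos.2 hg0, ?_, ?_⟩
    · funext i
      rw [Pi.smul_apply, smul_eq_mul, hw i]
      have h7 : (g.natAbs : ℤ) = - g := by omega
      rw [h7]
      ring
    · rw [← h4]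
      refine Finset.sum_congr rfl fun i _ => ?_
      ring
  · refine ⟨g.natAbs, w, c, Int.natAbs_pos.2 hg0, ?_, h4⟩
    funext i
    rw [Pi.smul_apply, smul_eq_mul, hw i]
    have h7 : (g.natAbs : ℤ) = g := by omega
    rw [h7]

/-- W4a: degrees on a ray. `d` is the degree of the primitive vector of the ray of `x ∈ sat`. -/
theorem exists_ray3 (D : Dat n) (p : Proj D.g 3) {x : Fin 3 → ℤ} (hx : x ∈ p.sat) (hx0 : x ≠ 0) :
    ∃ d : ℕ, 0 < d ∧ (∀ y, Par y x → 0 ≤ p.δ y → (y ∈ p.sat ∧ (d : ℤ) ∣ p.δ y)) ∧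
      ∀ c : ℕ, 0 < c → d ∣ c → ∃ y ∈ p.sat, Par y x ∧ p.δ y = c := by
  obtain ⟨k, x', u, hk, hkx, hu⟩ := X3_prim x hx0
  have hx's : x' ∈ p.sat := by
    refine sat_of_smul p hk ?_
    rw [← natCast_zsmul, ← hkx]
    exact hx
  have hx'0 : x' ≠ 0 := by
    rintro rfl
    exact hx0 (by rw [hkx, smul_zero])
  have h0 : 0 ≤ p.δ x' := sat_deg_nonneg p hx's
  have h1 : p.δ x' ≠ 0 := fun h => hx'0 (sat_deg_zero D.gpos p hx's h)
  obtain ⟨d, hd⟩ := Int.eq_ofNat_of_zero_le h0
  have hd0 : 0 < d := by omega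
  refine ⟨d, hd0, fun y hy hy0 => ?_, fun c hc hdc => ?_⟩
  · obtain ⟨m, k', hm, hk', h2⟩ := hy
    have h3 : m * (∑ i, u i * y i) = k' * k := by
      have h4 : ∀ i, m * y i = k' * (k * x' i) := by
        intro i
        have h5 := congrFun h2 i
        rw [hkx] at h5
        simpa using h5
      calc m * (∑ i, u i * y i) = ∑ i, u i * (m * y i) := by
            rw [Finset.mul_sum]
            exact Finset.sum_congr rfl fun i _ => by ring
        _ = k' * k * ∑ i, u i * x' i := by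
            rw [Finset.mul_sum]
            exact Finset.sum_congr rfl fun i _ => by rw [h4]; ring
        _ = k' * k := by rw [hu, mul_one]
    obtain ⟨t, ht⟩ : ∃ t : ℤ, t = ∑ i, u i * y i := ⟨_, rfl⟩
    rw [← ht] at h3
    have h6 : y = t • x' := by
      funext i
      have h5 := congrFun h2 i
      rw [hkx] at h5
      have h7 : m * y i = m * (t * x' i) := by
        have h8 : m * y i = k' * (k * x' i) := by simpa using h5
        rw [h8, ← mul_assoc m t, h3]
        ring
      have h9 := mul_left_cancel₀ hm h7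
      rw [Pi.smul_apply, smul_eq_mul]
      exact h9
    have h10 : p.δ y = t * d := by
      rw [h6, map_zsmul, hd, smul_eq_mul]
    have h11 : 0 ≤ t := by
      rw [h10] at hy0
      by_contra h12
      push Not at h12
      have : t * (d : ℤ) < 0 := mul_neg_of_neg_of_pos h12 (by exact_mod_cast hd0)
      omega
    obtain ⟨s, hs⟩ := Int.eq_ofNat_of_zero_le h11
    refine ⟨?_, ?_⟩
    · rw [h6, hs, natCast_zsmul]
      exact sat_nsmul p hx's s
    · rw [h10]
      exact Dvd.intro_left t rfl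
  · obtain ⟨t, rfl⟩ := hdc
    have ht : 0 < t := by
      rcases Nat.eq_zero_or_pos t with h | h
      · subst h
        omega
      · exact h
    refine ⟨t • x', sat_nsmul p hx's t, ⟨k, t, by omega, by omega, ?_⟩, ?_⟩
    · rw [hkx, ← natCast_zsmul, smul_comm]
    · rw [map_nsmul, hd, nsmul_eq_mul]
      push_cast
      ring

private theorem X3_det (x y z : Fin 3 → ℤ) : det3 x y z =
    (x 1 * y 2 - x 2 * y 1) * z 0 - (x 0 * y 2 - x 2 * y 0) * z 1 +
      (x 0 * y 1 - x 1 * y 0) * z 2 := by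
  unfold det3
  rw [Matrix.det_fin_three]
  simp
  ring

/-- W4b: degrees on a plane -/
theorem exists_plane3 (D : Dat n) (p : Proj D.g 3) {x y : Fin 3 → ℤ} {N : ℕ} (hN : 0 < N)
    (hx : p.δ x = N) :
    ∃ q : ℕ, 0 < q ∧ q ∣ N ∧ (∀ z, det3 x y z = 0 → (q : ℤ) ∣ p.δ z) ∧
      ∀ c : ℤ, (q : ℤ) ∣ c → ∃ v, det3 x y v = 0 ∧ p.δ v = c := by
  let P : AddSubgroup (Fin 3 → ℤ) :=
    { carrier := {z | det3 x y z = 0}
      zero_mem' := by
        show det3 x y 0 = 0
        rw [X3_det]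
        simp
      add_mem' := by
        intro a b ha hb
        have ha' : det3 x y a = 0 := ha
        have hb' : det3 x y b = 0 := hb
        show det3 x y (a + b) = 0
        rw [X3_det] at ha' hb' ⊢
        simp only [Pi.add_apply]
        linear_combination ha' + hb'
      neg_mem' := by
        intro a ha
        have ha' : det3 x y a = 0 := ha
        show det3 x y (-a) = 0
        rw [X3_det] at ha' ⊢
        simp only [Pi.neg_apply]
        linear_combination -ha' }
  have hxP : det3 x y x = 0 := by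
    rw [X3_det]
    ring
  obtain ⟨a, ha⟩ := Int.subgroup_cyclic (P.map p.δ)
  have hNm : (N : ℤ) ∈ P.map p.δ := ⟨x, hxP, hx⟩
  have hN' := hNm
  rw [ha, AddSubgroup.mem_closure_singleton] at hN'
  obtain ⟨s, hs⟩ := hN'
  rw [smul_eq_mul] at hs
  have ha0 : a ≠ 0 := by
    rintro rfl
    rw [mul_zero] at hs
    omega
  refine ⟨a.natAbs, Int.natAbs_pos.2 ha0, ?_, fun z hz => ?_, fun c hc => ?_⟩
  · have h1 : a ∣ (N : ℤ) := ⟨s, by rw [← hs]; ring⟩
    exact Int.natAbs_dvd_natAbs.2 h1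
  · have h1 : p.δ z ∈ P.map p.δ := ⟨z, hz, rfl⟩
    rw [ha, AddSubgroup.mem_closure_singleton] at h1
    obtain ⟨t, ht⟩ := h1
    rw [smul_eq_mul] at ht
    rw [Int.natAbs_dvd]
    exact ⟨t, by rw [← ht]; ring⟩
  · rw [Int.natAbs_dvd] at hc
    obtain ⟨t, ht⟩ := hc
    have h1 : c ∈ P.map p.δ := by
      rw [ha, AddSubgroup.mem_closure_singleton]
      exact ⟨t, by rw [smul_eq_mul, ht]; ring⟩
    obtain ⟨v, hv, hvc⟩ := h1
    exact ⟨v, hv, hvc⟩

end Pool.Agent.LibVol74
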