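import Pool.Agent.LibVol74.X3

/-!
# The abstract count (row X4)
-/

set_option autoImplicit false

namespace Pool.Agent.LibVol74

open Finset

theorem X4_ncard_filter {α : Type} [Fintype α] (P : α → Prop) [DecidablePred P] :
    {i | P i}.ncard = (univ.filter P).card := by
  rw [← Set.ncard_coe_finset]
  congr 1
  ext x
  simp

theorem X4_fiber_le {α β γ : Type} [Fintype α] [Fintype β] [DecidableEq γ] (f : α → γ)
    (g : β → γ) (P : γ → Prop) [DecidablePred P]
    (h : ∀ i, P (f i) → (univ.filter fun i' => f i' = f i).card ≤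
      (univ.filter fun j => g j = f i).card) :
    (univ.filter fun i => P (f i)).card ≤ (univ.filter fun j => P (g j)).card := by
  classical
  set s : Finset α := univ.filter fun i => P (f i) with hs
  set s' : Finset β := univ.filter fun j => P (g j) with hs'
  set t : Finset γ := s.image f with ht
  have h1 : s.card = ∑ c ∈ t, (s.filter fun i => f i = c).card := by
    rw [Finset.sum_card_fiberwise_eq_card_filter]
    congr 1
    ext i
    simp only [mem_filter, ht, mem_image]
    exact ⟨fun hi => ⟨hi, i, hi, rfl⟩, fun hi => hi.1⟩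
  have h2 : ∑ c ∈ t, (s'.filter fun j => g j = c).card ≤ s'.card := by
    rw [Finset.sum_card_fiberwise_eq_card_filter]
    exact card_le_card (filter_subset _ _)
  rw [h1]
  refine le_trans (Finset.sum_le_sum ?_) h2
  intro c hc
  rw [ht, mem_image] at hc
  obtain ⟨i, hi, rfl⟩ := hc
  have hPi : P (f i) := by
    rw [hs, mem_filter] at hi
    exact hi.2
  have e1 : (s.filter fun i' => f i' = f i) = univ.filter fun i' => f i' = f i := by
    ext i'
    simp only [hs, mem_filter, mem_univ, true_and]
    constructor
    · exact fun h => h.2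
    · intro h
      exact ⟨by rw [h]; exact hPi, h⟩
  have e2 : (s'.filter fun j => g j = f i) = univ.filter fun j => g j = f i := by
    ext j
    simp only [hs', mem_filter, mem_univ, true_and]
    constructor
    · exact fun h => h.2
    · intro h
      exact ⟨by rw [h]; exact hPi, h⟩
  rw [e1, e2]
  exact h i hPi

theorem X4_par_refl {r : ℕ} (x : Fin r → ℤ) : Par x x := ⟨1, 1, one_ne_zero, one_ne_zero, rfl⟩

theorem X4_par_symm {r : ℕ} {x y : Fin r → ℤ} (h : Par x y) : Par y x := by
  obtain ⟨m, k, hm, hk, h⟩ := h
  exact ⟨k, m, hk, hm, h.symm⟩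

theorem X4_par_trans {r : ℕ} {x y z : Fin r → ℤ} (h : Par x y) (h' : Par y z) : Par x z := by
  obtain ⟨m, k, hm, hk, h⟩ := h
  obtain ⟨m', k', hm', hk', h'⟩ := h'
  refine ⟨m' * m, k * k', mul_ne_zero hm' hm, mul_ne_zero hk hk', ?_⟩
  rw [mul_smul, h, smul_comm, h', ← mul_smul]

/-- the setoid of rays -/
def X4_ray : Setoid (Fin 3 → ℤ) where
  r := Par
  iseqv := ⟨X4_par_refl, X4_par_symm, X4_par_trans⟩

theorem X4_det3 (x y z : Fin 3 → ℤ) : det3 x y z =
    x 0 * (y 1 * z 2 - y 2 * z 1) - x 1 * (y 0 * z 2 - y 2 * z 0)
      + x 2 * (y 0 * z 1 - y 1 * z 0) := by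
  unfold det3
  rw [Matrix.det_fin_three]
  simp
  ring

/-- parallel if the cross product vanishes -/
theorem X4_par_of_cross {l y : Fin 3 → ℤ} (hl : l ≠ 0) (hy : y ≠ 0)
    (h01 : l 0 * y 1 = l 1 * y 0) (h02 : l 0 * y 2 = l 2 * y 0) (h12 : l 1 * y 2 = l 2 * y 1) :
    Par y l := by
  obtain ⟨i, hi⟩ : ∃ i, l i ≠ 0 := by
    by_contra hcon
    push Not at hcon
    exact hl (funext hcon)
  have key : l i • y = y i • l := by
    funext j
    simp only [Pi.smul_apply, smul_eq_mul]
    fin_cases i <;> fin_cases j <;> simp <;> linarith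
  refine ⟨l i, y i, hi, ?_, key⟩
  intro h0
  rw [h0, zero_smul] at key
  exact hy ((smul_eq_zero.mp key).resolve_left hi)

/-- three vectors in the plane of `l, y` -/
theorem X4_tri {l y x z : Fin 3 → ℤ} (hl : l ≠ 0) (hy : y ≠ 0) (hp : ¬ Par y l)
    (hx : det3 l y x = 0) (hz : det3 l y z = 0) : det3 l x z = 0 := by
  rw [X4_det3] at hx hz ⊢
  set c0 := l 1 * y 2 - l 2 * y 1 with hc0
  set c1 := l 2 * y 0 - l 0 * y 2 with hc1
  set c2 := l 0 * y 1 - l 1 * y 0 with hc2
  have hx' : c0 * x 0 + c1 * x 1 + c2 * x 2 = 0 := by
    rw [hc0, hc1, hc2]; linarith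
  have hz' : c0 * z 0 + c1 * z 1 + c2 * z 2 = 0 := by
    rw [hc0, hc1, hc2]; linarith
  have hl' : c0 * l 0 + c1 * l 1 + c2 * l 2 = 0 := by
    rw [hc0, hc1, hc2]; ring
  have hne : c0 ≠ 0 ∨ c1 ≠ 0 ∨ c2 ≠ 0 := by
    by_contra hcon
    push Not at hcon
    obtain ⟨h0, h1, h2⟩ := hcon
    apply hp
    apply X4_par_of_cross hl hy
    · rw [hc2] at h2; linarith
    · rw [hc1] at h1; linarith
    · rw [hc0] at h0; linarith
  set D := l 0 * (x 1 * z 2 - x 2 * z 1) - l 1 * (x 0 * z 2 - x 2 * z 0)
      + l 2 * (x 0 * z 1 - x 1 * z 0) with hD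
  have d0 : c0 * D = 0 := by
    have : c0 * D = (c0 * l 0 + c1 * l 1 + c2 * l 2) * (x 1 * z 2 - x 2 * z 1)
      - (c0 * x 0 + c1 * x 1 + c2 * x 2) * (l 1 * z 2 - l 2 * z 1)
      + (c0 * z 0 + c1 * z 1 + c2 * z 2) * (l 1 * x 2 - l 2 * x 1) := by
      rw [hD]; ring
    rw [this, hl', hx', hz']; ring
  have d1 : c1 * D = 0 := by
    have : c1 * D = - (c0 * l 0 + c1 * l 1 + c2 * l 2) * (x 0 * z 2 - x 2 * z 0)
      + (c0 * x 0 + c1 * x 1 + c2 * x 2) * (l 0 * z 2 - l 2 * z 0)
      - (c0 * z 0 + c1 * z 1 + c2 * z 2) * (l 0 * x 2 - l 2 * x 0) := by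
      rw [hD]; ring
    rw [this, hl', hx', hz']; ring
  have d2 : c2 * D = 0 := by
    have : c2 * D = (c0 * l 0 + c1 * l 1 + c2 * l 2) * (x 0 * z 1 - x 1 * z 0)
      - (c0 * x 0 + c1 * x 1 + c2 * x 2) * (l 0 * z 1 - l 1 * z 0)
      + (c0 * z 0 + c1 * z 1 + c2 * z 2) * (l 0 * x 1 - l 1 * x 0) := by
      rw [hD]; ring
    rw [this, hl', hx', hz']; ring
  rcases hne with h | h | h
  · exact (mul_eq_zero.mp d0).resolve_left h
  · exact (mul_eq_zero.mp d1).resolve_left h
  · exact (mul_eq_zero.mp d2).resolve_left h

theorem X4_det3_swap (x y z : Fin 3 → ℤ) : det3 x y z = - det3 x z y := by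
  rw [X4_det3, X4_det3]; ring

theorem X4_det3_self (x y : Fin 3 → ℤ) : det3 x y y = 0 := by
  rw [X4_det3]; ring

theorem X4_det3_par {x y l : Fin 3 → ℤ} (h : Par x l) : det3 l y x = 0 := by
  obtain ⟨m, k, hm, hk, h⟩ := h
  have e : m * det3 l y x = 0 := by
    have h0 : m * x 0 = k * l 0 := by simpa using congrFun h 0
    have h1 : m * x 1 = k * l 1 := by simpa using congrFun h 1
    have h2 : m * x 2 = k * l 2 := by simpa using congrFun h 2
    rw [X4_det3]
    have : m * (l 0 * (y 1 * x 2 - y 2 * x 1) - l 1 * (y 0 * x 2 - y 2 * x 0)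
      + l 2 * (y 0 * x 1 - y 1 * x 0)) = l 0 * (y 1 * (m * x 2) - y 2 * (m * x 1))
        - l 1 * (y 0 * (m * x 2) - y 2 * (m * x 0))
      + l 2 * (y 0 * (m * x 1) - y 1 * (m * x 0)) := by ring
    rw [this, h0, h1, h2]
    ring
  exact (mul_eq_zero.mp e).resolve_left hm

/-- Abstract count. `A`, `B` finite sets of labelled vectors of `ℤ^3` of positive degree.
Suppose every ray contains at most one more element of `A` than of `B`, and that for two different
rays with an excess of `A` the plane through them contains at most one more element of `A` than of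
`B`. Then `#A ≤ #B + 1`.
Proof. If no ray has an excess, `#A ≤ #B`. Let `λ` be a ray with excess one. Group the remaining
vectors by the planes through `λ`: in such a plane `U`, if no other ray of `U` has an excess then
`#A(U ∖ λ) ≤ #B(U ∖ λ)`; otherwise `#A(U) ≤ #B(U) + 1`, so again `#A(U ∖ λ) ≤ #B(U ∖ λ)`. Sum over
`U`. -/
theorem abstract_count {α β : Type} [Fintype α] [Fintype β] (δ : (Fin 3 → ℤ) →+ ℤ)
    (a : α → (Fin 3 → ℤ)) (b : β → (Fin 3 → ℤ)) (ha : ∀ i, 0 < δ (a i)) (hb : ∀ j, 0 < δ (b j))
    (hray : ∀ i₀ : α, {i : α | Par (a i) (a i₀)}.ncard ≤ {j : β | Par (b j) (a i₀)}.ncard + 1)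
    (hplane : ∀ i₀ i₁ : α, ¬ Par (a i₀) (a i₁) →
      {j : β | Par (b j) (a i₀)}.ncard < {i : α | Par (a i) (a i₀)}.ncard →
      {j : β | Par (b j) (a i₁)}.ncard < {i : α | Par (a i) (a i₁)}.ncard →
      {i : α | det3 (a i₀) (a i₁) (a i) = 0}.ncard ≤
        {j : β | det3 (a i₀) (a i₁) (b j) = 0}.ncard + 1) :
    Fintype.card α ≤ Fintype.card β + 1 := by
  classical
  have ha0 : ∀ i, a i ≠ 0 := by
    intro i h
    have := ha i
    rw [h, map_zero] at this
    exact lt_irrefl _ this
  have hb0 : ∀ j, b j ≠ 0 := by
    intro i h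
    have := hb i
    rw [h, map_zero] at this
    exact lt_irrefl _ this
  simp only [X4_ncard_filter] at hray hplane
  by_cases hex : ∃ i₀, (univ.filter fun j => Par (b j) (a i₀)).card <
      (univ.filter fun i => Par (a i) (a i₀)).card
  · obtain ⟨i₀, hi₀⟩ := hex
    have hi₀' : (univ.filter fun i => Par (a i) (a i₀)).card =
        (univ.filter fun j => Par (b j) (a i₀)).card + 1 :=
      le_antisymm (hray i₀) hi₀
    -- the classes of planes through `a i₀`, on vectors which are not parallel to `a i₀`
    let T : Type := {x : Fin 3 → ℤ // x ≠ 0 ∧ ¬ Par x (a i₀)}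
    let S : Setoid T :=
      { r := fun x y => det3 (a i₀) x.1 y.1 = 0
        iseqv := ⟨fun x => X4_det3_self _ _,
          fun {x y} h => by
            rw [X4_det3_swap, neg_eq_zero]; exact h,
          fun {x y z} h h' => by
            have h1 : det3 (a i₀) y.1 x.1 = 0 := by
              rw [X4_det3_swap, neg_eq_zero]; exact h
            exact X4_tri (ha0 i₀) y.2.1 y.2.2 h1 h'⟩ }
    let α' : Type := {i : α // ¬ Par (a i) (a i₀)}
    let β' : Type := {j : β // ¬ Par (b j) (a i₀)}
    let f : α' → Quotient S := fun i => Quotient.mk S ⟨a i.1, ha0 i.1, i.2⟩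
    let g : β' → Quotient S := fun j => Quotient.mk S ⟨b j.1, hb0 j.1, j.2⟩
    have hff : ∀ i i' : α', f i' = f i ↔ det3 (a i₀) (a i'.1) (a i.1) = 0 := fun i i' =>
      ⟨fun h => Quotient.exact h, fun h => Quotient.sound h⟩
    have hgf : ∀ (i : α') (j : β'), g j = f i ↔ det3 (a i₀) (b j.1) (a i.1) = 0 := fun i i' =>
      ⟨fun h => Quotient.exact h, fun h => Quotient.sound h⟩
    have main : (univ.filter fun _ : α' => True).card ≤ (univ.filter fun _ : β' => True).card := by
      refine X4_fiber_le f g (fun _ => True) ?_
      intro i₁ _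
      simp only [hff, hgf]
      by_cases hexc : ∃ i₂ : α', det3 (a i₀) (a i₂.1) (a i₁.1) = 0 ∧
          (univ.filter fun j => Par (b j) (a i₂.1)).card <
            (univ.filter fun i => Par (a i) (a i₂.1)).card
      · obtain ⟨i₂, h2, h2'⟩ := hexc
        have hpl := hplane i₀ i₂.1 (fun h => i₂.2 (X4_par_symm h)) hi₀ h2'
        -- planes agree
        have hiff : ∀ x : Fin 3 → ℤ, x ≠ 0 → ¬ Par x (a i₀) →
            (det3 (a i₀) (a i₂.1) x = 0 ↔ det3 (a i₀) x (a i₁.1) = 0) := by
          intro x hx0 hx
          constructor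
          · intro h
            exact X4_tri (ha0 i₀) (ha0 i₂.1) i₂.2 h h2
          · intro h
            have h3 : det3 (a i₀) (a i₁.1) x = 0 := by
              rw [X4_det3_swap, neg_eq_zero]; exact h
            have h4 : det3 (a i₀) (a i₁.1) (a i₂.1) = 0 := by
              rw [X4_det3_swap, neg_eq_zero]; exact h2
            exact X4_tri (ha0 i₀) (ha0 i₁.1) i₁.2 h4 h3
        have eA : (univ.filter fun i : α => det3 (a i₀) (a i₂.1) (a i) = 0).card =
            (univ.filter fun i => Par (a i) (a i₀)).card +
            (univ.filter fun i' : α' => det3 (a i₀) (a i'.1) (a i₁.1) = 0).card := by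
          have e1 : (univ.filter fun i' : α' => det3 (a i₀) (a i'.1) (a i₁.1) = 0).card =
              (univ.filter fun i : α => ¬ Par (a i) (a i₀) ∧
                det3 (a i₀) (a i₂.1) (a i) = 0).card := by
            rw [← Finset.card_map (Function.Embedding.subtype fun i : α => ¬ Par (a i) (a i₀))]
            congr 1
            ext i
            simp only [mem_map, mem_filter, mem_univ, true_and, Function.Embedding.coe_subtype]
            constructor
            · rintro ⟨i', hi', rfl⟩
              exact ⟨i'.2, (hiff _ (ha0 _) i'.2).mpr hi'⟩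
            · rintro ⟨h1, h2⟩
              exact ⟨⟨i, h1⟩, (hiff _ (ha0 _) h1).mp h2, rfl⟩
          rw [e1, ← Finset.card_union_of_disjoint]
          · congr 1
            ext i
            simp only [mem_filter, mem_univ, true_and, mem_union]
            constructor
            · intro h
              by_cases hp : Par (a i) (a i₀)
              · exact Or.inl hp
              · exact Or.inr ⟨hp, h⟩
            · rintro (h | h)
              · exact X4_det3_par h
              · exact h.2
          · rw [Finset.disjoint_left]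
            intro i hi hi'
            rw [mem_filter] at hi hi'
            exact hi'.2.1 hi.2
        have eB : (univ.filter fun i : β => det3 (a i₀) (a i₂.1) (b i) = 0).card =
            (univ.filter fun i => Par (b i) (a i₀)).card +
            (univ.filter fun i' : β' => det3 (a i₀) (b i'.1) (a i₁.1) = 0).card := by
          have e1 : (univ.filter fun i' : β' => det3 (a i₀) (b i'.1) (a i₁.1) = 0).card =
              (univ.filter fun i : β => ¬ Par (b i) (a i₀) ∧
                det3 (a i₀) (a i₂.1) (b i) = 0).card := by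
            rw [← Finset.card_map (Function.Embedding.subtype fun i : β => ¬ Par (b i) (a i₀))]
            congr 1
            ext i
            simp only [mem_map, mem_filter, mem_univ, true_and, Function.Embedding.coe_subtype]
            constructor
            · rintro ⟨i', hi', rfl⟩
              exact ⟨i'.2, (hiff _ (hb0 _) i'.2).mpr hi'⟩
            · rintro ⟨h1, h2⟩
              exact ⟨⟨i, h1⟩, (hiff _ (hb0 _) h1).mp h2, rfl⟩
          rw [e1, ← Finset.card_union_of_disjoint]
          · congr 1
            ext i
            simp only [mem_filter, mem_univ, true_and, mem_union]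
            constructor
            · intro h
              by_cases hp : Par (b i) (a i₀)
              · exact Or.inl hp
              · exact Or.inr ⟨hp, h⟩
            · rintro (h | h)
              · exact X4_det3_par h
              · exact h.2
          · rw [Finset.disjoint_left]
            intro i hi hi'
            rw [mem_filter] at hi hi'
            exact hi'.2.1 hi.2
        omega
      · push Not at hexc
        -- rays inside the plane
        let F : α' → Quotient X4_ray := fun i => Quotient.mk X4_ray (a i.1)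
        let G : β' → Quotient X4_ray := fun j => Quotient.mk X4_ray (b j.1)
        let P : Quotient X4_ray → Prop := fun q => ∃ x : Fin 3 → ℤ, Quotient.mk X4_ray x = q ∧
          det3 (a i₀) x (a i₁.1) = 0
        have hPx : ∀ x : Fin 3 → ℤ, P (Quotient.mk X4_ray x) ↔ det3 (a i₀) x (a i₁.1) = 0 := by
          intro x
          constructor
          · rintro ⟨y, hy, hdet⟩
            have hyx : Par x y := X4_par_symm (Quotient.exact hy)
            obtain ⟨m, k, hm, hk, h⟩ := hyx
            have h0 : m * x 0 = k * y 0 := by simpa using congrFun h 0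
            have h1 : m * x 1 = k * y 1 := by simpa using congrFun h 1
            have h2 : m * x 2 = k * y 2 := by simpa using congrFun h 2
            have e : m * det3 (a i₀) x (a i₁.1) = k * det3 (a i₀) y (a i₁.1) := by
              rw [X4_det3, X4_det3]
              linear_combination (-(a i₀ 1) * (a i₁.1) 2 + (a i₀ 2) * (a i₁.1) 1) * h0
                + ((a i₀ 0) * (a i₁.1) 2 - (a i₀ 2) * (a i₁.1) 0) * h1
                + (-(a i₀ 0) * (a i₁.1) 1 + (a i₀ 1) * (a i₁.1) 0) * h2
            rw [hdet, mul_zero] at e
            exact (mul_eq_zero.mp e).resolve_left hm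
          · intro h
            exact ⟨x, rfl, h⟩
        have h1 := X4_fiber_le F G P ?_
        · simpa only [F, G, hPx] using h1
        · intro i hi
          have hi' : det3 (a i₀) (a i.1) (a i₁.1) = 0 := (hPx _).mp hi
          have hle := hexc i hi'
          have hFF : ∀ i' : α', F i' = F i ↔ Par (a i'.1) (a i.1) := fun i' =>
            ⟨fun h => Quotient.exact h, fun h => Quotient.sound h⟩
          have hGF : ∀ j : β', G j = F i ↔ Par (b j.1) (a i.1) := fun i' =>
            ⟨fun h => Quotient.exact h, fun h => Quotient.sound h⟩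
          simp only [hFF, hGF]
          have e1 : (univ.filter fun i' : α' => Par (a i'.1) (a i.1)).card =
              (univ.filter fun i' : α => Par (a i') (a i.1)).card := by
            rw [← Finset.card_map (Function.Embedding.subtype fun i : α => ¬ Par (a i) (a i₀))]
            congr 1
            ext k
            simp only [mem_map, mem_filter, mem_univ, true_and, Function.Embedding.coe_subtype]
            constructor
            · rintro ⟨i', hi', rfl⟩
              exact hi'
            · intro hk
              exact ⟨⟨k, fun hc => i.2 (X4_par_trans (X4_par_symm hk) hc)⟩, hk, rfl⟩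
          have e2 : (univ.filter fun j : β' => Par (b j.1) (a i.1)).card =
              (univ.filter fun j : β => Par (b j) (a i.1)).card := by
            rw [← Finset.card_map (Function.Embedding.subtype fun j : β => ¬ Par (b j) (a i₀))]
            congr 1
            ext k
            simp only [mem_map, mem_filter, mem_univ, true_and, Function.Embedding.coe_subtype]
            constructor
            · rintro ⟨i', hi', rfl⟩
              exact hi'
            · intro hk
              exact ⟨⟨k, fun hc => i.2 (X4_par_trans (X4_par_symm hk) hc)⟩, hk, rfl⟩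
          rw [e1, e2]
          exact hle
    rw [Finset.filter_true_of_mem (fun _ _ => trivial),
      Finset.filter_true_of_mem (fun _ _ => trivial), Finset.card_univ, Finset.card_univ] at main
    have cA : Fintype.card α = (univ.filter fun i => Par (a i) (a i₀)).card + Fintype.card α' := by
      rw [Fintype.card_subtype, ← Finset.card_univ,
        Finset.card_filter_add_card_filter_not (fun i => Par (a i) (a i₀))]
    have cB : Fintype.card β = (univ.filter fun i => Par (b i) (a i₀)).card + Fintype.card β' := by
      rw [Fintype.card_subtype, ← Finset.card_univ,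
        Finset.card_filter_add_card_filter_not (fun i => Par (b i) (a i₀))]
    omega
  · push Not at hex
    let F : α → Quotient X4_ray := fun i => Quotient.mk X4_ray (a i)
    let G : β → Quotient X4_ray := fun j => Quotient.mk X4_ray (b j)
    have h1 := X4_fiber_le F G (fun _ => True) ?_
    · rw [Finset.filter_true_of_mem (fun _ _ => trivial),
        Finset.filter_true_of_mem (fun _ _ => trivial), Finset.card_univ, Finset.card_univ] at h1
      omega
    · intro i _
      have hFF : ∀ i' : α, F i' = F i ↔ Par (a i') (a i) := fun i' =>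
        ⟨fun h => Quotient.exact h, fun h => Quotient.sound h⟩
      have hGF : ∀ j : β, G j = F i ↔ Par (b j) (a i) := fun i' =>
        ⟨fun h => Quotient.exact h, fun h => Quotient.sound h⟩
      simp only [hFF, hGF]
      exact hex i

end Pool.Agent.LibVol74
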